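import Pool.Agent.Lib.MP_a90784_dv.Defs

/-! Tank DV5 (MP_a90784_nt), row R1: toolbox. -/

set_option autoImplicit false

namespace Pool.DV5

open Finset Module

theorem coe_lf (t : UnitAddCircle) : ((lf t : ℝ) : UnitAddCircle) = t :=
  AddCircle.coe_equivIco

theorem lf_mem (t : UnitAddCircle) : -1/2 ≤ lf t ∧ lf t < 1/2 := by
  have h := (AddCircle.equivIco (1 : ℝ) (-1/2) t).2
  rw [Set.mem_Ico] at h
  refine ⟨h.1, lt_of_lt_of_eq h.2 ?_⟩
  norm_num

theorem norm_coe_eq {y : ℝ} (h : |y| ≤ 1 / 2) : ‖(y : UnitAddCircle)‖ = |y| := by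
  rw [AddCircle.norm_coe_eq_abs_iff]
  · simpa using h
  · norm_num

theorem abs_lf (t : UnitAddCircle) : |lf t| = ‖t‖ := by
  conv_rhs => rw [← coe_lf t]
  rw [norm_coe_eq]
  have h := lf_mem t
  rw [abs_le]
  constructor <;> linarith [h.1, h.2]

theorem lf_coe {y : ℝ} (h : |y| < 1 / 2) : lf (y : UnitAddCircle) = y := by
  unfold lf
  rw [AddCircle.equivIco_coe_eq]
  rw [abs_lt] at h
  constructor <;> linarith [h.1, h.2]

theorem norm_coe_le (y : ℝ) : ‖(y : UnitAddCircle)‖ ≤ |y| := by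
  rw [UnitAddCircle.norm_eq]
  simpa using round_le y 0

theorem coe_eq_zero_iff {y : ℝ} : (y : UnitAddCircle) = 0 ↔ ∃ n : ℤ, y = n := by
  rw [AddCircle.coe_eq_zero_iff]
  constructor
  · rintro ⟨n, hn⟩
    exact ⟨n, by simpa using hn.symm⟩
  · rintro ⟨n, rfl⟩
    exact ⟨n, by simp⟩

theorem lf_add {s t : UnitAddCircle} (h : |lf s + lf t| < 1 / 2) : lf (s + t) = lf s + lf t := by
  conv_lhs => rw [← coe_lf s, ← coe_lf t, ← AddCircle.coe_add, lf_coe h]

theorem lf_sub {s t : UnitAddCircle} (h : |lf s - lf t| < 1 / 2) : lf (s - t) = lf s - lf t := by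
  conv_lhs => rw [← coe_lf s, ← coe_lf t, ← AddCircle.coe_sub, lf_coe h]

section
variable {G ι : Type} [AddCommGroup G]

theorem N1_nonneg (χ : ι → G →+ UnitAddCircle) (B : Finset ι) (θ : G) : 0 ≤ N1 χ B θ :=
  Finset.sum_nonneg fun _ _ => norm_nonneg _

theorem N1_zero (χ : ι → G →+ UnitAddCircle) (B : Finset ι) : N1 χ B 0 = 0 := by
  simp [N1]

theorem N1_neg (χ : ι → G →+ UnitAddCircle) (B : Finset ι) (θ : G) : N1 χ B (-θ) = N1 χ B θ := by
  simp [N1]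

theorem N1_add_le (χ : ι → G →+ UnitAddCircle) (B : Finset ι) (θ ψ : G) :
    N1 χ B (θ + ψ) ≤ N1 χ B θ + N1 χ B ψ := by
  unfold N1
  rw [← Finset.sum_add_distrib]
  refine Finset.sum_le_sum fun i _ => ?_
  rw [map_add]
  exact norm_add_le _ _

theorem N1_sub_le (χ : ι → G →+ UnitAddCircle) (B : Finset ι) (θ ψ : G) :
    N1 χ B (θ - ψ) ≤ N1 χ B θ + N1 χ B ψ := by
  rw [sub_eq_add_neg, ← N1_neg χ B ψ]
  exact N1_add_le χ B θ (-ψ)

theorem N1_nsmul_le (χ : ι → G →+ UnitAddCircle) (B : Finset ι) (n : ℕ) (θ : G) :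
    N1 χ B (n • θ) ≤ n * N1 χ B θ := by
  induction n with
  | zero => simp [N1_zero]
  | succ n ih =>
    rw [succ_nsmul]
    have := N1_add_le χ B (n • θ) θ
    push_cast
    linarith

theorem N1_mono (χ : ι → G →+ UnitAddCircle) {B' B : Finset ι} (h : B' ⊆ B) (θ : G) :
    N1 χ B' θ ≤ N1 χ B θ :=
  Finset.sum_le_sum_of_subset_of_nonneg h fun _ _ _ => norm_nonneg _

/-- any real lift bounds the size -/
theorem N1_le_of_lift (χ : ι → G →+ UnitAddCircle) (B : Finset ι) (θ : G) (l : ι → ℝ)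
    (h : ∀ i ∈ B, ((l i : ℝ) : UnitAddCircle) = χ i θ) : N1 χ B θ ≤ ∑ i ∈ B, |l i| := by
  refine Finset.sum_le_sum fun i hi => ?_
  rw [← h i hi]
  exact norm_coe_le _

theorem N2_le_of_lift (χ : ι → G →+ UnitAddCircle) (B : Finset ι) (θ : G) (l : ι → ℝ)
    (h : ∀ i ∈ B, ((l i : ℝ) : UnitAddCircle) = χ i θ) : N2 χ B θ ≤ ∑ i ∈ B, (l i) ^ 2 := by
  refine Finset.sum_le_sum fun i hi => ?_
  rw [← h i hi, ← sq_abs (l i)]
  exact pow_le_pow_left₀ (norm_nonneg _) (norm_coe_le _) 2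

theorem norm_le_half (t : UnitAddCircle) : ‖t‖ ≤ 1 / 2 := by
  have := AddCircle.norm_le_half_period (1 : ℝ) (x := t) one_ne_zero
  simpa using this

theorem N2_le_half (χ : ι → G →+ UnitAddCircle) (B : Finset ι) (θ : G) :
    N2 χ B θ ≤ N1 χ B θ / 2 := by
  unfold N2 N1
  rw [Finset.sum_div]
  refine Finset.sum_le_sum fun i _ => ?_
  nlinarith [norm_nonneg (χ i θ), norm_le_half (χ i θ)]

theorem mem_DD [Fintype G] {χ : ι → G →+ UnitAddCircle} {B : Finset ι} {R : ℝ} {θ : G} :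
    θ ∈ DD χ B R ↔ N1 χ B θ ≤ R := by
  classical
  simp [DD]

theorem DD_mono_R [Fintype G] (χ : ι → G →+ UnitAddCircle) (B : Finset ι) {R R' : ℝ} (h : R ≤ R') :
    DD χ B R ⊆ DD χ B R' := fun _ hθ => mem_DD.2 ((mem_DD.1 hθ).trans h)

theorem DD_mono_B [Fintype G] (χ : ι → G →+ UnitAddCircle) {B' B : Finset ι} (h : B' ⊆ B) (R : ℝ) :
    DD χ B R ⊆ DD χ B' R := fun θ hθ => mem_DD.2 ((N1_mono χ h θ).trans (mem_DD.1 hθ))

theorem DD_card_pos [Fintype G] (χ : ι → G →+ UnitAddCircle) (B : Finset ι) {R : ℝ} (h : 0 ≤ R) :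
    0 < (DD χ B R).card :=
  Finset.card_pos.2 ⟨0, mem_DD.2 (by rw [N1_zero]; exact h)⟩

variable [DecidableEq ι]

theorem xv_apply_mem (χ : ι → G →+ UnitAddCircle) {B : Finset ι} (θ : G) {i : ι} (h : i ∈ B) :
    xv χ B θ i = lf (χ i θ) := if_pos h

theorem xv_apply_not_mem (χ : ι → G →+ UnitAddCircle) {B : Finset ι} (θ : G) {i : ι} (h : i ∉ B) :
    xv χ B θ i = 0 := if_neg h

theorem abs_xv (χ : ι → G →+ UnitAddCircle) {B : Finset ι} (θ : G) {i : ι} (h : i ∈ B) :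
    |xv χ B θ i| = ‖χ i θ‖ := by
  rw [xv_apply_mem χ θ h, abs_lf]

theorem l1_xv [Fintype ι] (χ : ι → G →+ UnitAddCircle) (B : Finset ι) (θ : G) :
    l1 (xv χ B θ) = N1 χ B θ := by
  unfold l1 N1
  rw [← Finset.sum_subset (Finset.subset_univ B) fun i _ hi => by
    rw [xv_apply_not_mem χ θ hi, abs_zero]]
  exact Finset.sum_congr rfl fun i hi => abs_xv χ θ hi

/-- small coordinates: the lift is determined -/
theorem xv_eq_of_lift (χ : ι → G →+ UnitAddCircle) (B : Finset ι) (θ : G) (l : ι → ℝ)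
    (h : ∀ i ∈ B, ((l i : ℝ) : UnitAddCircle) = χ i θ) (hs : ∀ i ∈ B, |l i| < 1 / 2)
    (h0 : ∀ i, i ∉ B → l i = 0) : xv χ B θ = l := by
  funext i
  by_cases hi : i ∈ B
  · rw [xv_apply_mem χ θ hi, ← h i hi, lf_coe (hs i hi)]
  · rw [xv_apply_not_mem χ θ hi, h0 i hi]

theorem xv_sub (χ : ι → G →+ UnitAddCircle) (B : Finset ι) {η : ℝ} (hη : η < 1 / 4) (θ ψ : G)
    (h1 : ∀ i ∈ B, ‖χ i θ‖ ≤ η) (h2 : ∀ i ∈ B, ‖χ i ψ‖ ≤ η) :
    xv χ B (θ - ψ) = xv χ B θ - xv χ B ψ := by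
  funext i
  by_cases hi : i ∈ B
  · rw [Pi.sub_apply, xv_apply_mem χ _ hi, xv_apply_mem χ _ hi, xv_apply_mem χ _ hi, map_sub, lf_sub]
    have h3 := h1 i hi
    have h4 := h2 i hi
    rw [← abs_lf] at h3 h4
    have := abs_sub (lf (χ i θ)) (lf (χ i ψ))
    linarith
  · rw [Pi.sub_apply, xv_apply_not_mem χ _ hi, xv_apply_not_mem χ _ hi, xv_apply_not_mem χ _ hi,
      sub_zero]

theorem xv_nsmul (χ : ι → G →+ UnitAddCircle) (B : Finset ι) {η : ℝ} (hη : η < 1 / 4) (n : ℕ) (θ : G)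
    (h : ∀ k ≤ n, ∀ i ∈ B, ‖χ i (k • θ)‖ ≤ η) : xv χ B (n • θ) = (n : ℝ) • xv χ B θ := by
  induction n with
  | zero =>
    funext i
    rw [zero_nsmul, Nat.cast_zero, zero_smul, Pi.zero_apply]
    by_cases hi : i ∈ B
    · rw [xv_apply_mem χ _ hi, map_zero, ← AddCircle.coe_zero, lf_coe (by norm_num)]
    · exact xv_apply_not_mem χ _ hi
  | succ n ih =>
    have ih' := ih fun k hk => h k (by omega)
    funext i
    by_cases hi : i ∈ B
    · have h3 := h n (by omega) i hi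
      have h4 := h 1 (by omega) i hi
      rw [one_nsmul] at h4
      have h5 := congrFun ih' i
      rw [Pi.smul_apply, smul_eq_mul, xv_apply_mem χ _ hi, xv_apply_mem χ _ hi] at h5
      rw [Pi.smul_apply, smul_eq_mul, xv_apply_mem χ _ hi, xv_apply_mem χ _ hi, succ_nsmul, map_add,
        lf_add, h5]
      · push_cast
        ring
      · rw [← abs_lf] at h3 h4
        have := abs_add_le (lf (χ i (n • θ))) (lf (χ i θ))
        linarith
    · rw [Pi.smul_apply, xv_apply_not_mem χ _ hi, xv_apply_not_mem χ _ hi, smul_zero]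

theorem rs_xv (χ : ι → G →+ UnitAddCircle) {B' B : Finset ι} (h : B' ⊆ B) (θ : G) :
    rs B' (xv χ B θ) = xv χ B' θ := by
  funext i
  change (if i ∈ B' then xv χ B θ i else 0) = xv χ B' θ i
  by_cases hi : i ∈ B'
  · rw [if_pos hi, xv_apply_mem χ θ hi, xv_apply_mem χ θ (h hi)]
  · rw [if_neg hi, xv_apply_not_mem χ θ hi]

theorem SP_supp (χ : ι → G →+ UnitAddCircle) (B : Finset ι) (X : Set G) {w : ι → ℝ} (hw : w ∈ SP χ B X)
    {i : ι} (hi : i ∉ B) : w i = 0 := by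
  have h : SP χ B X ≤ LinearMap.ker (LinearMap.proj (R := ℝ) (φ := fun _ : ι => ℝ) i) := by
    unfold SP
    rw [Submodule.span_le]
    rintro _ ⟨θ, _, rfl⟩
    exact xv_apply_not_mem χ θ hi
  exact h hw

theorem SP_mono (χ : ι → G →+ UnitAddCircle) (B : Finset ι) {X Y : Set G} (h : X ⊆ Y) :
    SP χ B X ≤ SP χ B Y :=
  Submodule.span_mono (Set.image_mono h)

theorem xv_mem_SP (χ : ι → G →+ UnitAddCircle) (B : Finset ι) {X : Set G} {θ : G} (h : θ ∈ X) :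
    xv χ B θ ∈ SP χ B X :=
  Submodule.subset_span ⟨θ, h, rfl⟩

theorem GG_le_SP (χ : ι → G →+ UnitAddCircle) (B : Finset ι) (X : Set G) {l : ι → ℝ}
    (h : l ∈ GG χ B X) : l ∈ SP χ B X := by
  have h1 : GG χ B X ≤ (SP χ B X).toAddSubgroup := by
    unfold GG
    rw [AddSubgroup.closure_le]
    exact Submodule.subset_span
  exact h1 h

theorem GG_class (χ : ι → G →+ UnitAddCircle) (B : Finset ι) (X : Set G) {l : ι → ℝ}
    (h : l ∈ GG χ B X) : ∃ θ : G, ∀ i ∈ B, ((l i : ℝ) : UnitAddCircle) = χ i θ := by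
  unfold GG at h
  induction h using AddSubgroup.closure_induction with
  | mem x hx =>
    obtain ⟨θ, _, rfl⟩ := hx
    exact ⟨θ, fun i hi => by rw [xv_apply_mem χ θ hi, coe_lf]⟩
  | zero => exact ⟨0, fun i _ => by simp⟩
  | add x y _ _ hx hy =>
    obtain ⟨θ, hθ⟩ := hx
    obtain ⟨ψ, hψ⟩ := hy
    exact ⟨θ + ψ, fun i hi => by
      rw [map_add, ← hθ i hi, ← hψ i hi, Pi.add_apply, AddCircle.coe_add]⟩
  | neg x _ hx =>
    obtain ⟨θ, hθ⟩ := hx
    exact ⟨-θ, fun i hi => by rw [map_neg, ← hθ i hi, Pi.neg_apply, AddCircle.coe_neg]⟩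

end

section
variable {ι : Type} [Fintype ι]

theorem l1_nonneg (w : ι → ℝ) : 0 ≤ l1 w := Finset.sum_nonneg fun _ _ => abs_nonneg _

theorem l1_add_le (w w' : ι → ℝ) : l1 (w + w') ≤ l1 w + l1 w' := by
  unfold l1
  rw [← Finset.sum_add_distrib]
  exact Finset.sum_le_sum fun i _ => abs_add_le _ _

theorem l1_sub_le (w w' : ι → ℝ) : l1 (w - w') ≤ l1 w + l1 w' := by
  unfold l1
  rw [← Finset.sum_add_distrib]
  exact Finset.sum_le_sum fun i _ => abs_sub _ _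

theorem l1_smul (c : ℝ) (w : ι → ℝ) : l1 (c • w) = |c| * l1 w := by
  unfold l1
  rw [Finset.mul_sum]
  exact Finset.sum_congr rfl fun i _ => by rw [Pi.smul_apply, smul_eq_mul, abs_mul]

theorem l1_zero : l1 (0 : ι → ℝ) = 0 := by simp [l1]

theorem l1_sum_le {κ : Type} (s : Finset κ) (f : κ → ι → ℝ) :
    l1 (∑ j ∈ s, f j) ≤ ∑ j ∈ s, l1 (f j) := by
  classical
  induction s using Finset.induction_on with
  | empty => simp [l1_zero]
  | insert a s ha ih =>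
    rw [Finset.sum_insert ha, Finset.sum_insert ha]
    exact (l1_add_le _ _).trans (by linarith)

theorem l1_eq_zero {w : ι → ℝ} (h : l1 w = 0) : w = 0 := by
  funext i
  have := (Finset.sum_eq_zero_iff_of_nonneg fun i _ => abs_nonneg (w i)).1 h i (Finset.mem_univ i)
  simpa using this

theorem l1_rs_le [DecidableEq ι] (B : Finset ι) (w : ι → ℝ) : l1 (rs B w) ≤ l1 w := by
  refine Finset.sum_le_sum fun i _ => ?_
  change |if i ∈ B then w i else 0| ≤ |w i|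
  split_ifs
  · exact le_rfl
  · simp

theorem l1_of_supp [DecidableEq ι] (B : Finset ι) (w : ι → ℝ) (h : ∀ i, i ∉ B → w i = 0) :
    l1 w = ∑ i ∈ B, |w i| := by
  unfold l1
  exact (Finset.sum_subset (Finset.subset_univ B) fun i _ hi => by rw [h i hi, abs_zero]).symm

end

end Pool.DV5
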