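import Pool.Agent.Lib.MP_a90784_dv.Defs

/-!
Tank DV5, row R2: cleaning.
-/

set_option autoImplicit false

namespace Pool.DV5

open Finset Module

section
variable {G ι : Type} [AddCommGroup G] [Fintype G] [DecidableEq ι]

omit [DecidableEq ι] in
theorem clean_count (χ : ι → G →+ UnitAddCircle) (S : Finset ι) (T : Finset G) (J : ℕ) (η₀ η₁ : ℝ)
    (hT : ∀ t ∈ T, ∀ t' ∈ T, ∀ i ∈ S, ‖χ i (t - t')‖ ≤ η₀)
    (hJ : Fintype.card G < 2 ^ J * T.card) (hη : J * η₀ ≤ η₁)
    (θ : ℕ → G) (c : ℕ → ι) (hc : ∀ l < J, c l ∈ S) (h1 : ∀ l < J, η₁ < ‖χ (c l) (θ l)‖)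
    (h2 : ∀ l' < J, ∀ l < l', ‖χ (c l') (θ l)‖ ≤ η₀) : False := by
  classical
  have hTn : T.Nonempty := by
    rw [Finset.nonempty_iff_ne_empty]
    rintro rfl
    simp at hJ
  obtain ⟨t0, ht0⟩ := hTn
  have hinj : Set.InjOn (fun p : Finset ℕ × G => ∑ l ∈ p.1, θ l + p.2)
      (((Finset.range J).powerset ×ˢ T : Finset (Finset ℕ × G)) : Set (Finset ℕ × G)) := by
    rintro ⟨A, t⟩ hA ⟨A', t'⟩ hA' h
    rw [Finset.mem_coe, Finset.mem_product, Finset.mem_powerset] at hA hA'
    obtain ⟨hA, ht⟩ := hA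
    obtain ⟨hA', ht'⟩ := hA'
    simp only at h hA hA' ht ht'
    by_cases hAA : A = A'
    · subst hAA
      simpa using h
    · exfalso
      have hne : (symmDiff A A').Nonempty := by
        rw [Finset.nonempty_iff_ne_empty]
        intro h0
        exact hAA (symmDiff_eq_bot.1 h0)
      obtain ⟨m, hmm, hmax⟩ : ∃ m ∈ symmDiff A A', ∀ l ∈ symmDiff A A', l ≤ m :=
        ⟨(symmDiff A A').max' hne, Finset.max'_mem _ _, fun l hl => Finset.le_max' _ _ hl⟩
      have hgt : ∀ l, m < l → (l ∈ A ↔ l ∈ A') := by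
        intro l hl
        by_contra hcon
        have : l ∈ symmDiff A A' := by
          rw [Finset.mem_symmDiff]
          tauto
        exact absurd (hmax l this) (not_le.2 hl)
      rw [Finset.mem_symmDiff] at hmm
      have hmJ : m < J := by
        rcases hmm with h | h
        · exact Finset.mem_range.1 (hA h.1)
        · exact Finset.mem_range.1 (hA' h.1)
      set e : ℕ → ℤ := fun l => (if l ∈ A then 1 else 0) - (if l ∈ A' then 1 else 0) with he
      have hsum : ∑ l ∈ Finset.range J, e l • θ l = t' - t := by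
        have hs : ∀ B : Finset ℕ, B ⊆ Finset.range J →
            ∑ l ∈ Finset.range J, (if l ∈ B then (1 : ℤ) else 0) • θ l = ∑ l ∈ B, θ l := by
          intro B hB
          rw [← Finset.sum_subset hB]
          · refine Finset.sum_congr rfl fun l hl => ?_
            simp [hl]
          · intro l _ hl
            simp [hl]
        simp only [he, sub_smul, Finset.sum_sub_distrib]
        rw [hs A hA, hs A' hA']
        rw [sub_eq_sub_iff_add_eq_add, h]
        abel
      have he0 : ∀ l, m < l → e l = 0 := by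
        intro l hl
        have := hgt l hl
        simp only [he]
        by_cases h3 : l ∈ A
        · simp [h3, this.1 h3]
        · have h4 : l ∉ A' := fun h5 => h3 (this.2 h5)
          simp [h3, h4]
      have hem : e m = 1 ∨ e m = -1 := by
        simp only [he]
        rcases hmm with h3 | h3
        · left; simp [h3.1, h3.2]
        · right; simp [h3.1, h3.2]
      have hel : ∀ l, e l = 1 ∨ e l = -1 ∨ e l = 0 := by
        intro l
        simp only [he]
        by_cases h3 : l ∈ A <;> by_cases h4 : l ∈ A' <;> simp [h3, h4]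
      have hsub : ∑ l ∈ Finset.range J, e l • θ l
          = ∑ l ∈ Finset.range m, e l • θ l + e m • θ m := by
        rw [← Finset.sum_range_succ]
        symm
        apply Finset.sum_subset
        · intro l hl
          rw [Finset.mem_range] at hl ⊢
          omega
        · intro l _ hl
          rw [Finset.mem_range, not_lt] at hl
          rw [he0 l (by omega), zero_smul]
      have hkey : e m • χ (c m) (θ m)
          = χ (c m) (t' - t) - ∑ l ∈ Finset.range m, e l • χ (c m) (θ l) := by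
        have h5 : e m • θ m = (t' - t) - ∑ l ∈ Finset.range m, e l • θ l := by
          rw [← hsum, hsub]
          abel
        rw [← map_zsmul, h5, map_sub, map_sum]
        congr 1
        exact Finset.sum_congr rfl fun l _ => map_zsmul _ _ _
      have hη0 : 0 ≤ η₀ := by
        have := hT t0 ht0 t0 ht0 (c m) (hc m hmJ)
        simpa using this
      have hb : ‖e m • χ (c m) (θ m)‖ ≤ η₀ + m * η₀ := by
        rw [hkey]
        refine (norm_sub_le _ _).trans (add_le_add (hT _ ht' _ ht _ (hc m hmJ)) ?_)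
        refine (norm_sum_le _ _).trans ?_
        refine (Finset.sum_le_sum (g := fun _ => η₀) fun l hl => ?_).trans ?_
        · have h6 := h2 m hmJ l (Finset.mem_range.1 hl)
          rcases hel l with h7 | h7 | h7
          · rw [h7, one_smul]; exact h6
          · rw [h7, neg_smul, one_smul, norm_neg]; exact h6
          · rw [h7, zero_smul, norm_zero]; exact hη0
        · simp
      have hb' : ‖χ (c m) (θ m)‖ ≤ η₀ + m * η₀ := by
        rcases hem with h7 | h7
        · rw [h7, one_smul] at hb; exact hb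
        · rw [h7, neg_smul, one_smul, norm_neg] at hb; exact hb
      have h8 := h1 m hmJ
      have h9 : η₀ + m * η₀ ≤ J * η₀ := by
        have : ((m : ℝ) + 1) ≤ J := by exact_mod_cast hmJ
        nlinarith
      linarith
  have hcard := Finset.card_le_card_of_injOn (t := (Finset.univ : Finset G)) _
    (fun _ _ => Finset.mem_coe.2 (Finset.mem_univ _)) hinj
  rw [Finset.card_product, Finset.card_powerset, Finset.card_range, Finset.card_univ] at hcard
  omega

theorem clean_abs (χ : ι → G →+ UnitAddCircle) (P : Finset ι → G → Prop) (S : Finset ι)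
    (T : Finset G) (J : ℕ) (η₀ η₁ E : ℝ) (hE0 : 0 ≤ E)
    (hT : ∀ t ∈ T, ∀ t' ∈ T, ∀ i ∈ S, ‖χ i (t - t')‖ ≤ η₀)
    (hJ : Fintype.card G < 2 ^ J * T.card) (hη : J * η₀ ≤ η₁)
    (hE : ∀ S' ⊆ S, ∀ θ, P S' θ → ((S'.filter (fun i => η₀ < ‖χ i θ‖)).card : ℝ) ≤ E) :
    ∃ S' ⊆ S, ((S \ S').card : ℝ) ≤ J * E ∧ ∀ θ, P S' θ → ∀ i ∈ S', ‖χ i θ‖ ≤ η₁ := by
  classical
  by_contra hcon
  push Not at hcon
  have main : ∀ j ≤ J, ∃ (S' : Finset ι) (θ : ℕ → G) (c : ℕ → ι), S' ⊆ S ∧
      ((S \ S').card : ℝ) ≤ j * E ∧ (∀ l < j, c l ∈ S) ∧ (∀ l < j, η₁ < ‖χ (c l) (θ l)‖) ∧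
      (∀ l' < j, ∀ l < l', ‖χ (c l') (θ l)‖ ≤ η₀) ∧ (∀ i ∈ S', ∀ l < j, ‖χ i (θ l)‖ ≤ η₀) := by
    intro j
    induction j with
    | zero =>
      intro _
      -- need an element of ι : obtained from hcon
      obtain ⟨θ, _, i, _, _⟩ := hcon S (Finset.Subset.refl _) (by simp; positivity)
      exact ⟨S, fun _ => θ, fun _ => i, Finset.Subset.refl _, by simp, by simp, by simp, by simp,
        by simp⟩
    | succ j ih =>
      intro hj
      obtain ⟨S', θ, c, hS', hcard, hc, h1, h2, h3⟩ := ih (by omega)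
      have hle : ((S \ S').card : ℝ) ≤ J * E := by
        refine hcard.trans ?_
        have : (j : ℝ) ≤ J := by exact_mod_cast (by omega : j ≤ J)
        nlinarith
      obtain ⟨ψ, hP, i, hi, hψ⟩ := hcon S' hS' hle
      refine ⟨S'.filter (fun i => ‖χ i ψ‖ ≤ η₀), fun l => if l = j then ψ else θ l,
        fun l => if l = j then i else c l, (Finset.filter_subset _ _).trans hS', ?_, ?_, ?_, ?_, ?_⟩
      · have hsub : S \ S'.filter (fun i => ‖χ i ψ‖ ≤ η₀)
            ⊆ (S \ S') ∪ S'.filter (fun i => η₀ < ‖χ i ψ‖) := by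
          intro x hx
          rw [Finset.mem_sdiff, Finset.mem_filter] at hx
          rw [Finset.mem_union, Finset.mem_sdiff, Finset.mem_filter]
          by_cases hx' : x ∈ S'
          · right
            exact ⟨hx', not_le.1 fun h => hx.2 ⟨hx', h⟩⟩
          · left
            exact ⟨hx.1, hx'⟩
        have h4 : ((S \ S'.filter (fun i => ‖χ i ψ‖ ≤ η₀)).card : ℝ)
            ≤ (S \ S').card + (S'.filter (fun i => η₀ < ‖χ i ψ‖)).card := by
          exact_mod_cast (Finset.card_le_card hsub).trans (Finset.card_union_le _ _)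
        have h5 := hE S' hS' ψ hP
        push_cast
        linarith
      · intro l hl
        by_cases hlj : l = j
        · simp only [hlj, if_true]; exact hS' hi
        · simp only [hlj, if_false]; exact hc l (by omega)
      · intro l hl
        by_cases hlj : l = j
        · simp only [hlj, if_true]; exact hψ
        · simp only [hlj, if_false]; exact h1 l (by omega)
      · intro l' hl' l hl
        have hlj : l ≠ j := by omega
        by_cases hlj' : l' = j
        · simp only [hlj', hlj, if_true, if_false]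
          exact h3 i hi l (by omega)
        · simp only [hlj', hlj, if_false]
          exact h2 l' (by omega) l hl
      · intro x hx l hl
        rw [Finset.mem_filter] at hx
        by_cases hlj : l = j
        · simp only [hlj, if_true]; exact hx.2
        · simp only [hlj, if_false]; exact h3 x hx.1 l (by omega)
  obtain ⟨S', θ, c, _, _, hc, h1, h2, _⟩ := main J le_rfl
  exact clean_count χ S T J η₀ η₁ hT hJ hη θ c hc h1 h2

theorem clean1 (χ : ι → G →+ UnitAddCircle) (S : Finset ι)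
    (T : Finset G) (J : ℕ) (η₀ η₁ R : ℝ) (hR : 0 ≤ R) (hη₀ : 0 < η₀)
    (hT : ∀ t ∈ T, ∀ t' ∈ T, ∀ i ∈ S, ‖χ i (t - t')‖ ≤ η₀)
    (hJ : Fintype.card G < 2 ^ J * T.card) (hη : J * η₀ ≤ η₁) :
    ∃ S' ⊆ S, η₀ * ((S \ S').card : ℝ) ≤ J * R ∧ Clean χ S' R η₁ := by
  have hE : ∀ S' ⊆ S, ∀ θ, N1 χ S' θ ≤ R →
      ((S'.filter (fun i => η₀ < ‖χ i θ‖)).card : ℝ) ≤ R / η₀ := by
    intro S' _ θ hθ
    rw [le_div_iff₀ hη₀]
    calc ((S'.filter (fun i => η₀ < ‖χ i θ‖)).card : ℝ) * η₀
        = ∑ i ∈ S'.filter (fun i => η₀ < ‖χ i θ‖), η₀ := by simp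
      _ ≤ ∑ i ∈ S'.filter (fun i => η₀ < ‖χ i θ‖), ‖χ i θ‖ :=
          Finset.sum_le_sum fun i hi => (Finset.mem_filter.1 hi).2.le
      _ ≤ N1 χ S' θ := Finset.sum_le_sum_of_subset_of_nonneg (Finset.filter_subset _ _)
          fun i _ _ => norm_nonneg _
      _ ≤ R := hθ
  obtain ⟨S', hS', hcard, hcl⟩ := clean_abs χ (fun S' θ => N1 χ S' θ ≤ R) S T J η₀ η₁ (R / η₀)
    (by positivity) hT hJ hη hE
  refine ⟨S', hS', ?_, hcl⟩
  calc η₀ * ((S \ S').card : ℝ) ≤ η₀ * (J * (R / η₀)) := by gcongr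
    _ = J * R := by field_simp

theorem clean2 (χ : ι → G →+ UnitAddCircle) (S : Finset ι)
    (J : ℕ) (η₀ η₁ R : ℝ) (hR : 0 ≤ R) (hη₀ : 0 < η₀)
    (hJ : Fintype.card G < 2 ^ J) (hη : J * η₀ ≤ η₁) :
    ∃ S' ⊆ S, η₀ ^ 2 * ((S \ S').card : ℝ) ≤ J * R ∧ Clean2 χ S' R η₁ := by
  have hE : ∀ S' ⊆ S, ∀ θ, N2 χ S' θ ≤ R →
      ((S'.filter (fun i => η₀ < ‖χ i θ‖)).card : ℝ) ≤ R / η₀ ^ 2 := by
    intro S' _ θ hθ
    rw [le_div_iff₀ (by positivity)]
    calc ((S'.filter (fun i => η₀ < ‖χ i θ‖)).card : ℝ) * η₀ ^ 2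
        = ∑ i ∈ S'.filter (fun i => η₀ < ‖χ i θ‖), η₀ ^ 2 := by simp
      _ ≤ ∑ i ∈ S'.filter (fun i => η₀ < ‖χ i θ‖), ‖χ i θ‖ ^ 2 :=
          Finset.sum_le_sum fun i hi =>
            pow_le_pow_left₀ hη₀.le (Finset.mem_filter.1 hi).2.le 2
      _ ≤ N2 χ S' θ := Finset.sum_le_sum_of_subset_of_nonneg (Finset.filter_subset _ _)
          fun i _ _ => by positivity
      _ ≤ R := hθ
  obtain ⟨S', hS', hcard, hcl⟩ := clean_abs χ (fun S' θ => N2 χ S' θ ≤ R) S {0} J η₀ η₁
    (R / η₀ ^ 2) (by positivity)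
    (by
      intro t ht t' ht' i _
      rw [Finset.mem_singleton] at ht ht'
      rw [ht, ht']
      simp [hη₀.le])
    (by simpa using hJ) hη hE
  refine ⟨S', hS', ?_, hcl⟩
  calc η₀ ^ 2 * ((S \ S').card : ℝ) ≤ η₀ ^ 2 * (J * (R / η₀ ^ 2)) := by gcongr
    _ = J * R := by field_simp

end

end Pool.DV5
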