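import Pool.Agent.Lib.MP_a90784_dv.Defs

/-! Tank DV5, row R19, geometric part: the frame.  helper54. -/

set_option autoImplicit false

namespace Pool.DV5

open Finset Module

lemma qq_inner {d : ℕ} {β c : EuclideanSpace ℝ (Fin d)} (h : 1 ≤ inner ℝ β c) :
    inner ℝ β (qq β c) = (1 : ℝ) := by
  unfold qq
  rw [inner_smul_right]
  exact inv_mul_cancel₀ (by linarith)

lemma qq_eq {d : ℕ} {β c : EuclideanSpace ℝ (Fin d)} (h : 1 ≤ inner ℝ β c) :
    c = (inner ℝ β c : ℝ) • qq β c := by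
  unfold qq
  rw [smul_smul, mul_inv_cancel₀ (by linarith), one_smul]

lemma qq_norm {d : ℕ} {β c : EuclideanSpace ℝ (Fin d)} {T : ℝ} (h : 1 ≤ inner ℝ β c)
    (hc : ‖c‖ ≤ T) : ‖qq β c‖ ≤ T := by
  unfold qq
  rw [norm_smul, norm_inv, Real.norm_eq_abs, abs_of_pos (by linarith)]
  have h1 : (inner ℝ β c)⁻¹ ≤ (1 : ℝ) := inv_le_one_of_one_le₀ h
  calc (inner ℝ β c)⁻¹ * ‖c‖ ≤ 1 * ‖c‖ := mul_le_mul_of_nonneg_right h1 (norm_nonneg _)
    _ ≤ T := by rw [one_mul]; exact hc

/-- the frame adapted to `β`, `n`, `q₀`. -/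
theorem cnt_frame (k : ℕ) (T CP : ℝ) (hT : 1 ≤ T) (hCP : 0 < CP)
    (β n q₀ : EuclideanSpace ℝ (Fin (k + 2))) (ρ : ℝ) (hρ : 0 < ρ) (hρ1 : ρ ≤ 1)
    (hβ : ‖β‖ ≤ T) (hβ' : 1 ≤ T * ‖β‖) (hq₀ : ‖q₀‖ ≤ T) (hq₀β : inner ℝ β q₀ = (1 : ℝ))
    (hn : ‖n‖ = 1) (hnβ : inner ℝ n β = (0 : ℝ)) :
    ∃ (h : Fin (k + 2) → EuclideanSpace ℝ (Fin (k + 2))) (a : Fin (k + 2) → ℝ),
      (∀ j, ρ ^ 2 ≤ a j ∧ 0 < a j) ∧ (∏ j, a j = ρ ^ (k + 2)) ∧ (∀ j, ‖h j‖ ≤ 1 + T ^ 2) ∧
      (∀ q, inner ℝ β q = (1 : ℝ) → ‖q - q₀‖ ≤ CP * ρ → |inner ℝ n (q - q₀)| ≤ CP * ρ ^ 2 →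
        ∀ j, |inner ℝ q (h j)| ≤ (1 + CP) * a j) ∧
      (∀ x : Fin (k + 2) → ℤ, x ≠ 0 → 1 ≤ T * ‖∑ j, (x j : ℝ) • h j‖) := by
  have hβ0 : 0 < ‖β‖ := by
    by_contra hcon
    have : ‖β‖ = 0 := le_antisymm (not_lt.mp hcon) (norm_nonneg _)
    rw [this] at hβ'
    linarith
  have h01 : (0 : Fin (k + 2)) ≠ 1 := by
    simp
  -- the orthonormal basis
  set v : Fin (k + 2) → EuclideanSpace ℝ (Fin (k + 2)) := fun j =>
    if j = 0 then (‖β‖⁻¹ : ℝ) • β else n with hv
  have hv0 : v 0 = (‖β‖⁻¹ : ℝ) • β := by simp [hv]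
  have hv1 : v 1 = n := by
    simp only [hv]
    rw [if_neg h01.symm]
  have hn0 : ‖v 0‖ = 1 := by
    rw [hv0, norm_smul, norm_inv, norm_norm, inv_mul_cancel₀ hβ0.ne']
  have hn1 : ‖v 1‖ = 1 := by rw [hv1]; exact hn
  have hi01 : inner ℝ (v 0) (v 1) = (0 : ℝ) := by
    rw [hv0, hv1, real_inner_comm, inner_smul_right, hnβ, mul_zero]
  have hvo : Orthonormal ℝ (({0, 1} : Set (Fin (k + 2))).domRestrict v) := by
    constructor
    · rintro ⟨j, hj⟩
      change j = 0 ∨ j = 1 at hj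
      change ‖v j‖ = 1
      rcases hj with h | h <;> rw [h]
      · exact hn0
      · exact hn1
    · rintro ⟨i, hi⟩ ⟨j, hj⟩ hij
      have hij' : i ≠ j := fun h => hij (Subtype.ext h)
      change i = 0 ∨ i = 1 at hi
      change j = 0 ∨ j = 1 at hj
      change inner ℝ (v i) (v j) = (0 : ℝ)
      rcases hi with h | h <;> rcases hj with h' | h'
      · exact absurd (h.trans h'.symm) hij'
      · rw [h, h']; exact hi01
      · rw [h, h', real_inner_comm]; exact hi01
      · exact absurd (h.trans h'.symm) hij'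
  obtain ⟨e, he⟩ := hvo.exists_orthonormalBasis_extension_of_card_eq (by simp)
  have he0 : e 0 = (‖β‖⁻¹ : ℝ) • β := by
    rw [he 0 (by simp), hv0]
  have he1 : e 1 = n := by
    rw [he 1 (by simp), hv1]
  have heβ : ∀ j, j ≠ 0 → inner ℝ (e j) β = (0 : ℝ) := by
    intro j hj
    have h1 : β = ‖β‖ • e 0 := by
      rw [he0, smul_smul, mul_inv_cancel₀ hβ0.ne', one_smul]
    rw [h1, inner_smul_right, e.orthonormal.inner_eq_zero hj, mul_zero]
  have hen : ∀ j, ‖e j‖ = 1 := fun j => e.orthonormal.norm_eq_one j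
  set h : Fin (k + 2) → EuclideanSpace ℝ (Fin (k + 2)) := fun j =>
    if j = 0 then β else e j - (inner ℝ (e j) q₀ : ℝ) • β with hh
  set a : Fin (k + 2) → ℝ := fun j => if j = 0 then 1 else if j = 1 then ρ ^ 2 else ρ with ha
  have hρ2 : ρ ^ 2 ≤ 1 := pow_le_one₀ hρ.le hρ1
  have hρ2' : ρ ^ 2 ≤ ρ := by nlinarith
  refine ⟨h, a, ?_, ?_, ?_, ?_, ?_⟩
  · intro j
    simp only [ha]
    split_ifs
    · exact ⟨hρ2, one_pos⟩
    · exact ⟨le_rfl, by positivity⟩
    · exact ⟨hρ2', hρ⟩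
  · rw [Fin.prod_univ_succ, Fin.prod_univ_succ]
    have h3 : ∀ j : Fin k, a (Fin.succ (Fin.succ j)) = ρ := by
      intro j
      simp only [ha]
      rw [if_neg (Fin.succ_ne_zero _), if_neg]
      intro hc
      have := congrArg Fin.val hc
      simp at this
    have h4 : a (Fin.succ 0) = ρ ^ 2 := by
      simp only [ha]
      rw [if_neg (Fin.succ_ne_zero _), if_pos (by simp)]
    have h5 : a 0 = 1 := by simp [ha]
    simp only [h3, h4, h5, prod_const, card_univ, Fintype.card_fin]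
    ring
  · intro j
    simp only [hh]
    split_ifs with hj
    · have : T ≤ T ^ 2 := by nlinarith
      linarith
    · have h1 : |(inner ℝ (e j) q₀ : ℝ)| ≤ T := by
        have := abs_real_inner_le_norm (e j) q₀
        rw [hen j, one_mul] at this
        linarith
      calc ‖e j - (inner ℝ (e j) q₀ : ℝ) • β‖ ≤ ‖e j‖ + ‖(inner ℝ (e j) q₀ : ℝ) • β‖ :=
            norm_sub_le _ _
        _ = 1 + |(inner ℝ (e j) q₀ : ℝ)| * ‖β‖ := by rw [hen j, norm_smul, Real.norm_eq_abs]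
        _ ≤ 1 + T * T := by
            have := mul_le_mul h1 hβ (norm_nonneg _) (by linarith)
            linarith
        _ = 1 + T ^ 2 := by ring
  · intro q hq hq1 hq2 j
    simp only [hh, ha]
    by_cases hj : j = 0
    · rw [if_pos hj, if_pos hj, real_inner_comm, hq, mul_one, abs_one]
      linarith
    · rw [if_neg hj, if_neg hj]
      have h1 : inner ℝ q (e j - (inner ℝ (e j) q₀ : ℝ) • β) = (inner ℝ (e j) (q - q₀) : ℝ) := by
        rw [inner_sub_right, inner_smul_right, real_inner_comm β q, hq, mul_one, inner_sub_right,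
          real_inner_comm (e j) q]
      rw [h1]
      by_cases hj1 : j = 1
      · rw [if_pos hj1, hj1, he1]
        calc |(inner ℝ n (q - q₀) : ℝ)| ≤ CP * ρ ^ 2 := hq2
          _ ≤ (1 + CP) * ρ ^ 2 := by
              apply mul_le_mul_of_nonneg_right _ (by positivity)
              linarith
      · rw [if_neg hj1]
        calc |(inner ℝ (e j) (q - q₀) : ℝ)| ≤ ‖e j‖ * ‖q - q₀‖ := abs_real_inner_le_norm _ _
          _ = ‖q - q₀‖ := by rw [hen j, one_mul]
          _ ≤ CP * ρ := hq1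
          _ ≤ (1 + CP) * ρ := by
              apply mul_le_mul_of_nonneg_right _ hρ.le
              linarith
  · intro x hx
    by_cases hex : ∃ j, j ≠ 0 ∧ x j ≠ 0
    · obtain ⟨i, hi, hxi⟩ := hex
      have h1 : inner ℝ (e i) (∑ j, (x j : ℝ) • h j) = (x i : ℝ) := by
        rw [inner_sum, sum_eq_single i]
        · rw [inner_smul_right]
          simp only [hh]
          rw [if_neg hi, inner_sub_right, inner_smul_right, heβ i hi, mul_zero, sub_zero,
            real_inner_self_eq_norm_sq, hen i]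
          ring
        · intro j _ hji
          rw [inner_smul_right]
          simp only [hh]
          by_cases hj : j = 0
          · rw [if_pos hj, heβ i hi, mul_zero]
          · rw [if_neg hj, inner_sub_right, inner_smul_right, heβ i hi, mul_zero, sub_zero,
              e.orthonormal.inner_eq_zero hji.symm, mul_zero]
        · intro hc; exact absurd (mem_univ _) hc
      have h2 := abs_real_inner_le_norm (e i) (∑ j, (x j : ℝ) • h j)
      rw [h1, hen i, one_mul] at h2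
      have h3 : (1 : ℝ) ≤ |(x i : ℝ)| := by
        rw [← Int.cast_abs]
        exact_mod_cast Int.one_le_abs hxi
      have h4 : (1 : ℝ) ≤ ‖∑ j, (x j : ℝ) • h j‖ := h3.trans h2
      calc (1 : ℝ) = 1 * 1 := by ring
        _ ≤ T * ‖∑ j, (x j : ℝ) • h j‖ := mul_le_mul hT h4 zero_le_one (by linarith)
    · push Not at hex
      have hx0 : x 0 ≠ 0 := by
        intro h0
        apply hx
        funext j
        by_cases hj : j = 0
        · rw [hj, h0]; rfl
        · exact hex j hj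
      have h1 : ∑ j, (x j : ℝ) • h j = (x 0 : ℝ) • β := by
        rw [sum_eq_single 0]
        · simp [hh]
        · intro j _ hj
          rw [hex j hj]
          simp
        · intro hc; exact absurd (mem_univ _) hc
      rw [h1, norm_smul, Real.norm_eq_abs]
      have h3 : (1 : ℝ) ≤ |(x 0 : ℝ)| := by
        rw [← Int.cast_abs]
        exact_mod_cast Int.one_le_abs hx0
      calc (1 : ℝ) ≤ T * ‖β‖ := hβ'
        _ = T * (1 * ‖β‖) := by ring
        _ ≤ T * (|(x 0 : ℝ)| * ‖β‖) := by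
            apply mul_le_mul_of_nonneg_left _ (by linarith)
            exact mul_le_mul_of_nonneg_right h3 (norm_nonneg _)

end Pool.DV5
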