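import Pool.Agent.Lib.MP_a90784_dv.Defs

/-!
Tank DV5 (MP_a90784_nt), row R8: rounding in the span of lifts (helper73).
-/

set_option autoImplicit false

namespace Pool.DV5

open Finset Module

theorem rou_coe_xv {G ι : Type} [AddCommGroup G] [DecidableEq ι]
    (χ : ι → G →+ UnitAddCircle) (B : Finset ι) (θ : G) {i : ι} (hi : i ∈ B) :
    ((xv χ B θ i : ℝ) : UnitAddCircle) = χ i θ := by
  unfold xv lf
  rw [if_pos hi]
  exact AddCircle.coe_equivIco

theorem rounding {G ι : Type} [AddCommGroup G] [DecidableEq ι] [Fintype ι]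
    (χ : ι → G →+ UnitAddCircle) (B : Finset ι) (X : Set G) (w : ι → ℝ) (hw : w ∈ SP χ B X) :
    ∃ (φ : Fin (finrank ℝ (SP χ B X)) → ℝ) (θs : Fin (finrank ℝ (SP χ B X)) → G) (l : ι → ℝ) (θ : G),
      (∀ j, θs j ∈ X ∧ |φ j| ≤ 1 / 2) ∧ w - l = ∑ j, φ j • xv χ B (θs j) ∧ l ∈ GG χ B X ∧
      (∀ i ∈ B, ((l i : ℝ) : UnitAddCircle) = χ i θ) := by
  classical
  obtain ⟨b, hbX, hspan, hli⟩ := exists_linearIndependent ℝ (xv χ B '' X)
  have : Finite b := hli.finite
  have : Fintype b := Fintype.ofFinite b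
  have hcard : Fintype.card b = finrank ℝ (SP χ B X) := by
    unfold SP
    rw [← hspan]
    have h1 := finrank_span_eq_card hli
    rw [Subtype.range_coe] at h1
    exact h1.symm
  let e : Fin (finrank ℝ (SP χ B X)) ≃ b := (Fintype.equivFinOfCardEq hcard).symm
  have hw' : w ∈ Submodule.span ℝ (Set.range (fun x : b => (x : ι → ℝ))) := by
    rw [Subtype.range_coe, hspan]
    exact hw
  obtain ⟨c, hc⟩ := (Submodule.mem_span_range_iff_exists_fun ℝ).1 hw'
  have hθ : ∀ x : b, ∃ θ : G, θ ∈ X ∧ xv χ B θ = x := fun x => by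
    obtain ⟨θ, h1, h2⟩ := hbX x.2
    exact ⟨θ, h1, h2⟩
  choose τ hτX hτ using hθ
  refine ⟨fun j => c (e j) - round (c (e j)), fun j => τ (e j),
    ∑ j, ((round (c (e j)) : ℤ) : ℝ) • xv χ B (τ (e j)),
    ∑ j, (round (c (e j)) : ℤ) • τ (e j), ?_, ?_, ?_, ?_⟩
  · intro j
    exact ⟨hτX _, abs_sub_round _⟩
  · have h1 : w = ∑ j, c (e j) • xv χ B (τ (e j)) := by
      rw [← hc, ← Equiv.sum_comp e]
      refine Finset.sum_congr rfl fun j _ => ?_
      rw [hτ]
    rw [h1, ← Finset.sum_sub_distrib]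
    refine Finset.sum_congr rfl fun j _ => ?_
    rw [← sub_smul]
  · unfold GG
    refine AddSubgroup.sum_mem _ fun j _ => ?_
    rw [Int.cast_smul_eq_zsmul]
    exact AddSubgroup.zsmul_mem _ (AddSubgroup.subset_closure (Set.mem_image_of_mem _ (hτX (e j)))) _
  · intro i hi
    rw [map_sum, Finset.sum_apply]
    rw [show (((∑ j, (((round (c (e j)) : ℤ) : ℝ) • xv χ B (τ (e j))) i : ℝ)) : UnitAddCircle) =
      ∑ j, ((((((round (c (e j)) : ℤ) : ℝ) • xv χ B (τ (e j))) i : ℝ)) : UnitAddCircle) from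
      map_sum (QuotientAddGroup.mk' (AddSubgroup.zmultiples (1 : ℝ))) _ _]
    refine Finset.sum_congr rfl fun j _ => ?_
    rw [map_zsmul, ← rou_coe_xv χ B (τ (e j)) hi, Pi.smul_apply, Int.cast_smul_eq_zsmul]
    exact map_zsmul (QuotientAddGroup.mk' (AddSubgroup.zmultiples (1 : ℝ))) _ _

end Pool.DV5
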