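import Pool.Agent.Lib.MP_a90784_dv.Ba
import Pool.Agent.Lib.MP_a90784_dv.Rou
import Pool.Agent.Lib.MP_a90784_dv.CntG

/-! Tank DV5, row R19: lattice counting.  helper54. -/

set_option autoImplicit false

namespace Pool.DV5

open Finset Module

/-- one grid point: rounding -/
theorem cnt_point {G ι : Type} [AddCommGroup G] [Fintype G] [DecidableEq ι] [Fintype ι]
    (χ : ι → G →+ UnitAddCircle) (B B₁ B' : Finset ι) (r R η₁ : ℝ) (d : ℕ)
    (hB1 : B₁ ⊆ B) (hB' : B' ⊆ B₁) (hr : 0 < r) (hrR : 8 * (d : ℝ) * r ≤ R) (hd : 1 ≤ d)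
    (hcl : Clean χ B R η₁) (hη : 100 * (d : ℝ) * η₁ ≤ 1) (hfin : finrank ℝ (WW χ B r) = d)
    (w : ι → ℝ) (hw : w ∈ WW χ B r) (h1 : ∀ i ∈ B₁, |w i| ≤ 1 / 8)
    (h2 : ∑ i ∈ B', |w i| ≤ R / 4) :
    ∃ (l : ι → ℝ) (θ : G), l ∈ WW χ B R ∧ (∀ i ∈ B, ((l i : ℝ) : UnitAddCircle) = χ i θ) ∧
      l1 (w - l) ≤ R / 16 ∧ (∀ i ∈ B₁, |l i| ≤ 1 / 7) ∧ N1 χ B' θ ≤ R / 2 := by
  have hd' : (1 : ℝ) ≤ d := by exact_mod_cast hd
  have hrR' : r ≤ R := by nlinarith
  obtain ⟨φ, θs, l, θ, hφ, hwl, hlG, hlθ⟩ := rounding χ B {θ | N1 χ B θ ≤ r} w hw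
  have hfin' : finrank ℝ (SP χ B {θ | N1 χ B θ ≤ r}) = d := hfin
  have hsub : {θ | N1 χ B θ ≤ r} ⊆ {θ | N1 χ B θ ≤ R} := fun θ h => le_trans h hrR'
  have hl : l ∈ WW χ B R := SP_mono χ B hsub (GG_le_SP χ B _ hlG)
  have hη0 : 0 ≤ η₁ ∨ B = ∅ := by
    rcases B.eq_empty_or_nonempty with h | ⟨i, hi⟩
    · exact Or.inr h
    · left
      have := hcl 0 (by rw [N1_zero]; linarith) i hi
      rw [map_zero, norm_zero] at this
      exact this
  have hl1 : l1 (w - l) ≤ R / 16 := by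
    rw [hwl]
    refine (l1_sum_le _ _).trans ?_
    have : ∀ j ∈ (univ : Finset (Fin (finrank ℝ (SP χ B {θ | N1 χ B θ ≤ r})))),
        l1 (φ j • xv χ B (θs j)) ≤ r / 2 := by
      intro j _
      rw [l1_smul, l1_xv]
      have hx : N1 χ B (θs j) ≤ r := (hφ j).1
      calc |φ j| * N1 χ B (θs j) ≤ 1 / 2 * r :=
            mul_le_mul (hφ j).2 hx (N1_nonneg _ _ _) (by norm_num)
        _ = r / 2 := by ring
    refine (sum_le_sum this).trans ?_
    rw [sum_const, card_univ, Fintype.card_fin, hfin', nsmul_eq_mul]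
    linarith
  have hsup : ∀ i ∈ B, |w i - l i| ≤ 1 / 200 := by
    intro i hi
    have hη0' : 0 ≤ η₁ := by
      rcases hη0 with h | h
      · exact h
      · rw [h] at hi; simp at hi
    have hi' : w i - l i = (∑ j, φ j • xv χ B (θs j)) i := by rw [← hwl]; rfl
    rw [hi', Finset.sum_apply]
    refine (abs_sum_le_sum_abs _ _).trans ?_
    have : ∀ j ∈ (univ : Finset (Fin (finrank ℝ (SP χ B {θ | N1 χ B θ ≤ r})))),
        |(φ j • xv χ B (θs j)) i| ≤ η₁ / 2 := by
      intro j _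
      rw [Pi.smul_apply, smul_eq_mul, abs_mul, abs_xv χ _ hi]
      have hx : N1 χ B (θs j) ≤ r := (hφ j).1
      have := hcl (θs j) (hx.trans hrR') i hi
      calc |φ j| * ‖χ i (θs j)‖ ≤ 1 / 2 * η₁ :=
            mul_le_mul (hφ j).2 this (norm_nonneg _) (by norm_num)
        _ = η₁ / 2 := by ring
    refine (sum_le_sum this).trans ?_
    rw [sum_const, card_univ, Fintype.card_fin, hfin', nsmul_eq_mul]
    linarith
  refine ⟨l, θ, hl, hlθ, hl1, ?_, ?_⟩
  · intro i hi
    have ha := h1 i hi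
    have hb := hsup i (hB1 hi)
    have hc : |l i| ≤ |w i| + |w i - l i| := by
      have : l i = w i - (w i - l i) := by ring
      calc |l i| = |w i - (w i - l i)| := by rw [← this]
        _ ≤ |w i| + |w i - l i| := abs_sub _ _
    linarith
  · have hBB : B' ⊆ B := hB'.trans hB1
    refine (N1_le_of_lift χ B' θ l (fun i hi => hlθ i (hBB hi))).trans ?_
    have hc : ∀ i ∈ B', |l i| ≤ |w i| + |w i - l i| := by
      intro i _
      have : l i = w i - (w i - l i) := by ring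
      calc |l i| = |w i - (w i - l i)| := by rw [← this]
        _ ≤ |w i| + |w i - l i| := abs_sub _ _
    refine (sum_le_sum hc).trans ?_
    rw [sum_add_distrib]
    have h3 : ∑ i ∈ B', |w i - l i| ≤ l1 (w - l) := by
      unfold l1
      exact sum_le_sum_of_subset_of_nonneg (subset_univ _) (fun i _ _ => abs_nonneg _)
    have hR0 : 0 < R := by linarith
    linarith

/-! ### R19 counting -/
theorem count (d : ℕ) (hd : 2 ≤ d) (T CP : ℝ) (hT : 1 ≤ T) (hCP : 0 < CP) :
    ∃ cQ : ℝ, 0 < cQ ∧ ∃ CQ : ℝ, 0 < CQ ∧ ∀ {G ι : Type} [AddCommGroup G] [Fintype G]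
      [DecidableEq ι] [Fintype ι] (χ : ι → G →+ UnitAddCircle) (B B₁ B' : Finset ι)
      (r R η₁ ρ : ℝ) (ω : (ι → ℝ) →ₗ[ℝ] EuclideanSpace ℝ (Fin d))
      (c : ι → EuclideanSpace ℝ (Fin d)) (β n : EuclideanSpace ℝ (Fin d)) (i₀ : ι),
      B₁ ⊆ B → B' ⊆ B₁ → i₀ ∈ B₁ → 0 < r → 8 * (d : ℝ) * r ≤ R → 0 < ρ → ρ ≤ 1 →
      Clean χ B R η₁ → 100 * (d : ℝ) * η₁ ≤ 1 →
      finrank ℝ (WW χ B r) = d →
      (∀ w ∈ WW χ B r, ∀ j, |ω w j| ≤ l1 w / (B.card : ℝ)) →
      (∀ w ∈ WW χ B r, l1 w ≤ (B.card : ℝ) * ∑ j, |ω w j|) →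
      (∀ w ∈ WW χ B r, ∀ i, w i = inner ℝ (c i) (ω w)) → (∀ y, ∃ w ∈ WW χ B r, ω w = y) →
      ‖β‖ ≤ T → (∀ i ∈ B₁, ‖c i‖ ≤ T ∧ 1 ≤ inner ℝ β (c i) ∧ inner ℝ β (c i) ≤ 2) →
      ‖n‖ = 1 → inner ℝ n β = (0 : ℝ) →
      (∀ j ∈ B', ‖qq β (c j) - qq β (c i₀)‖ ≤ CP * ρ ∧
        |inner ℝ n (qq β (c j) - qq β (c i₀))| ≤ CP * ρ ^ 2) →
      (∀ z ∈ WW χ B R, (∀ i ∈ B, ∃ n : ℤ, z i = n) → (∀ i ∈ B₁, z i = 0) → z = 0) →
      B'.Nonempty → CQ * (B'.card : ℝ) ≤ B.card → CQ * R ≤ ρ ^ 2 * B'.card →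
      cQ * ((B.card : ℝ) / B'.card) ^ d * (1 / ρ) ^ d * ((DD χ B (R / 4)).card : ℝ) ≤
        ((DD χ B' R).card : ℝ) := by
  obtain ⟨k, rfl⟩ : ∃ k, d = k + 2 := ⟨d - 2, by omega⟩
  clear hd
  set dr : ℝ := ((k + 2 : ℕ) : ℝ) with hdr
  have hdr2 : (2 : ℝ) ≤ dr := by rw [hdr]; push_cast; linarith [Nat.cast_nonneg (α := ℝ) k]
  have hT0 : 0 < T := by linarith
  refine ⟨(1 / (8 * T * dr ^ 2 * (1 + CP))) ^ (k + 2), by positivity, T * (1 + T ^ 2),
    by positivity, ?_⟩
  intro G ι _ _ _ _ χ B B₁ B' r R η₁ ρ ω c β n i₀ hB1 hB' hi₀ hr hrR hρ hρ1 hcl hη hfin hω1 _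
    hω3 hω4 hβ hc hn hnβ hclu hsep hne _ hCQ
  have hR : 0 < R := by nlinarith
  have hBne : B.Nonempty := hne.mono (hB'.trans hB1)
  set m : ℝ := (B.card : ℝ) with hm
  set m' : ℝ := (B'.card : ℝ) with hm'
  have hm0 : 0 < m := by rw [hm]; exact_mod_cast hBne.card_pos
  have hm'0 : 0 < m' := by rw [hm']; exact_mod_cast hne.card_pos
  set q₀ := qq β (c i₀) with hq₀
  have hq0n : ‖q₀‖ ≤ T := qq_norm (hc i₀ hi₀).2.1 (hc i₀ hi₀).1
  have hq0β : inner ℝ β q₀ = (1 : ℝ) := qq_inner (hc i₀ hi₀).2.1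
  have hβ' : 1 ≤ T * ‖β‖ := by
    have h1 := (hc i₀ hi₀).2.1
    have h2 := real_inner_le_norm β (c i₀)
    have h3 := mul_le_mul_of_nonneg_left (hc i₀ hi₀).1 (norm_nonneg β)
    linarith
  obtain ⟨h, a, ha, hprod, hh, hclus, hsepn⟩ :=
    cnt_frame k T CP hT hCP β n q₀ ρ hρ hρ1 hβ hβ' hq0n hq0β hn hnβ
  set N₀ : ℝ := m / (8 * T * dr ^ 2 * (1 + CP) * m') with hN₀
  have hN₀0 : 0 < N₀ := by positivity
  set σ : ℝ := T * dr * R / m with hσ
  have hσ0 : 0 < σ := by positivity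
  set S : Finset (Fin (k + 2) → ℕ) := Fintype.piFinset (fun j => range (⌊N₀ / a j⌋₊ + 1)) with hS
  set y : (Fin (k + 2) → ℕ) → EuclideanSpace ℝ (Fin (k + 2)) :=
    fun s => σ • ∑ j, ((s j : ℕ) : ℝ) • h j with hy
  have hSle : ∀ s ∈ S, ∀ j, ((s j : ℕ) : ℝ) ≤ N₀ / a j := by
    intro s hs j
    rw [hS, Fintype.mem_piFinset] at hs
    have h1 := mem_range.mp (hs j)
    have h2 : s j ≤ ⌊N₀ / a j⌋₊ := by omega
    exact (Nat.le_floor_iff (by have := (ha j).2; positivity)).mp h2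
  have key : ∀ s, ∃ (w l : ι → ℝ) (θ : G), s ∈ S → (w ∈ WW χ B r ∧ ω w = y s ∧ l ∈ WW χ B R ∧
      (∀ i ∈ B, ((l i : ℝ) : UnitAddCircle) = χ i θ) ∧ l1 (w - l) ≤ R / 16 ∧
      (∀ i ∈ B₁, |l i| ≤ 1 / 7) ∧ N1 χ B' θ ≤ R / 2) := by
    intro s
    by_cases hs : s ∈ S
    swap
    · exact ⟨0, 0, 0, fun hh => absurd hh hs⟩
    obtain ⟨w, hw, hwy⟩ := hω4 (y s)
    have hb1 : ∀ i ∈ B₁, |w i| ≤ 1 / 8 := by
      intro i hi
      rw [hω3 w hw i, hwy]
      have h1 := abs_real_inner_le_norm (c i) (y s)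
      have h2 : ‖y s‖ ≤ σ * (dr * (N₀ / ρ ^ 2 * (1 + T ^ 2))) := by
        simp only [hy]
        rw [norm_smul, Real.norm_eq_abs, abs_of_pos hσ0]
        apply mul_le_mul_of_nonneg_left _ hσ0.le
        refine (norm_sum_le _ _).trans ?_
        have h3 : ∀ j ∈ (univ : Finset (Fin (k + 2))), ‖((s j : ℕ) : ℝ) • h j‖ ≤
            N₀ / ρ ^ 2 * (1 + T ^ 2) := by
          intro j _
          rw [norm_smul, Real.norm_eq_abs, abs_of_nonneg (by positivity)]
          apply mul_le_mul _ (hh j) (norm_nonneg _) (by positivity)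
          refine (hSle s hs j).trans ?_
          apply div_le_div_of_nonneg_left hN₀0.le (by positivity) (ha j).1
        refine (sum_le_sum h3).trans ?_
        rw [sum_const, card_univ, Fintype.card_fin, nsmul_eq_mul]
      calc |(inner ℝ (c i) (y s) : ℝ)| ≤ ‖c i‖ * ‖y s‖ := h1
        _ ≤ T * (σ * (dr * (N₀ / ρ ^ 2 * (1 + T ^ 2)))) :=
            mul_le_mul (hc i hi).1 h2 (norm_nonneg _) hT0.le
        _ = T * (1 + T ^ 2) * R / (8 * (1 + CP) * (ρ ^ 2 * m')) := by
            rw [hσ, hN₀]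
            field_simp
        _ ≤ (ρ ^ 2 * m') / (8 * (1 + CP) * (ρ ^ 2 * m')) := by
            apply div_le_div_of_nonneg_right hCQ (by positivity)
        _ = 1 / (8 * (1 + CP)) := by
            field_simp
        _ ≤ 1 / 8 := by
            apply div_le_div_of_nonneg_left (by norm_num) (by norm_num)
            linarith
    have hb2 : ∑ i ∈ B', |w i| ≤ R / 4 := by
      have h1 : ∀ i ∈ B', |w i| ≤ 2 * (σ * (dr * ((1 + CP) * N₀))) := by
        intro i hi
        have hi1 := hc i (hB' hi)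
        rw [hω3 w hw i, hwy, qq_eq hi1.2.1, inner_smul_left, abs_mul]
        have h2 : |(inner ℝ (qq β (c i)) (y s) : ℝ)| ≤ σ * (dr * ((1 + CP) * N₀)) := by
          simp only [hy]
          rw [inner_smul_right, abs_mul, abs_of_pos hσ0]
          apply mul_le_mul_of_nonneg_left _ hσ0.le
          rw [inner_sum]
          refine (abs_sum_le_sum_abs _ _).trans ?_
          have h3 : ∀ j ∈ (univ : Finset (Fin (k + 2))),
              |(inner ℝ (qq β (c i)) (((s j : ℕ) : ℝ) • h j) : ℝ)| ≤ (1 + CP) * N₀ := by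
            intro j _
            rw [inner_smul_right, abs_mul, abs_of_nonneg (by positivity : (0:ℝ) ≤ ((s j : ℕ) : ℝ))]
            have h4 := hclus (qq β (c i)) (qq_inner hi1.2.1) (hclu i hi).1 (hclu i hi).2 j
            have haj := (ha j).2
            calc ((s j : ℕ) : ℝ) * |(inner ℝ (qq β (c i)) (h j) : ℝ)|
                ≤ (N₀ / a j) * ((1 + CP) * a j) :=
                  mul_le_mul (hSle s hs j) h4 (abs_nonneg _) (by positivity)
              _ = (1 + CP) * N₀ := by field_simp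
          refine (sum_le_sum h3).trans ?_
          rw [sum_const, card_univ, Fintype.card_fin, nsmul_eq_mul]
        have h5 : |(starRingEnd ℝ) (inner ℝ β (c i))| ≤ 2 := by
          rw [conj_trivial, abs_of_nonneg (by linarith)]
          exact hi1.2.2
        exact mul_le_mul h5 h2 (abs_nonneg _) (by norm_num)
      refine (sum_le_sum h1).trans ?_
      rw [sum_const, nsmul_eq_mul, ← hm', hσ, hN₀]
      apply le_of_eq
      field_simp
      ring
    obtain ⟨l, θ, h1, h2, h3, h4, h5⟩ := cnt_point χ B B₁ B' r R η₁ (k + 2) hB1 hB' hr hrR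
      (by omega) hcl hη hfin w hw hb1 hb2
    exact ⟨w, l, θ, fun _ => ⟨hw, hwy, h1, h2, h3, h4, h5⟩⟩
  choose w l θ hall using key
  -- distinct grid points are far apart
  have hfar : ∀ s ∈ S, ∀ s' ∈ S, s ≠ s' → R / 2 < l1 (l s - l s') := by
    intro s hs s' hs' hne'
    obtain ⟨hw, hwy, -, -, hwl, -, -⟩ := hall s hs
    obtain ⟨hw', hwy', -, -, hwl', -, -⟩ := hall s' hs'
    have h1 : w s - w s' ∈ WW χ B r := Submodule.sub_mem _ hw hw'
    have h2 : ω (w s - w s') = σ • ∑ j, (((s j : ℤ) - (s' j : ℤ) : ℤ) : ℝ) • h j := by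
      rw [map_sub, hwy, hwy']
      simp only [hy]
      rw [← smul_sub, ← sum_sub_distrib]
      congr 1
      apply sum_congr rfl
      intro j _
      rw [← sub_smul]
      push_cast
      rfl
    have h3 : (fun j => (s j : ℤ) - (s' j : ℤ)) ≠ 0 := by
      intro hc0
      apply hne'
      funext j
      have := congrFun hc0 j
      simp only [Pi.zero_apply] at this
      omega
    have h4 := hsepn _ h3
    have h5 : ‖ω (w s - w s')‖ ≤ dr * (l1 (w s - w s') / m) := by
      have h6 : ‖ω (w s - w s')‖ ≤ ∑ j, |ω (w s - w s') j| := by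
        have h7 : (∑ j, (ω (w s - w s') j) • (EuclideanSpace.basisFun (Fin (k + 2)) ℝ j)) =
            ω (w s - w s') := by
          have := (EuclideanSpace.basisFun (Fin (k + 2)) ℝ).sum_repr (ω (w s - w s'))
          simpa using this
        calc ‖ω (w s - w s')‖ = ‖∑ j, (ω (w s - w s') j) •
              (EuclideanSpace.basisFun (Fin (k + 2)) ℝ j)‖ := by rw [h7]
          _ ≤ ∑ j, ‖(ω (w s - w s') j) • (EuclideanSpace.basisFun (Fin (k + 2)) ℝ j)‖ :=
              norm_sum_le _ _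
          _ = ∑ j, |ω (w s - w s') j| := by
              apply sum_congr rfl
              intro j _
              rw [norm_smul, Real.norm_eq_abs,
                (EuclideanSpace.basisFun (Fin (k + 2)) ℝ).orthonormal.norm_eq_one j, mul_one]
      refine h6.trans ?_
      refine (sum_le_sum (fun j _ => hω1 _ h1 j)).trans ?_
      rw [sum_const, card_univ, Fintype.card_fin, nsmul_eq_mul]
    rw [h2, norm_smul, Real.norm_eq_abs, abs_of_pos hσ0] at h5
    have h8 : R ≤ l1 (w s - w s') := by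
      have h9 : σ ≤ T * (dr * (l1 (w s - w s') / m)) := by
        calc σ = σ * 1 := by ring
          _ ≤ σ * (T * ‖∑ j, (((s j : ℤ) - (s' j : ℤ) : ℤ) : ℝ) • h j‖) :=
              mul_le_mul_of_nonneg_left h4 hσ0.le
          _ = T * (σ * ‖∑ j, (((s j : ℤ) - (s' j : ℤ) : ℤ) : ℝ) • h j‖) := by ring
          _ ≤ _ := mul_le_mul_of_nonneg_left h5 hT0.le
      have h10 : T * (dr * (l1 (w s - w s') / m)) = T * dr * (l1 (w s - w s')) / m := by ring
      rw [h10, hσ, div_le_div_iff_of_pos_right hm0] at h9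
      have hTd : 0 < T * dr := by positivity
      exact le_of_mul_le_mul_left h9 hTd
    have h11 : l1 (w s - w s') ≤ l1 (l s - l s') + R / 16 + R / 16 := by
      have e1 : w s - w s' = (l s - l s') + (w s - l s) - (w s' - l s') := by
        abel
      calc l1 (w s - w s') = l1 ((l s - l s') + (w s - l s) - (w s' - l s')) := by rw [← e1]
        _ ≤ l1 ((l s - l s') + (w s - l s)) + l1 (w s' - l s') := l1_sub_le _ _
        _ ≤ l1 (l s - l s') + l1 (w s - l s) + l1 (w s' - l s') := by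
            have := l1_add_le (l s - l s') (w s - l s)
            linarith
        _ ≤ _ := by linarith
    linarith
  -- the injection
  have hcard : S.card * (DD χ B (R / 4)).card ≤ (DD χ B' R).card := by
    rw [← card_product]
    apply card_le_card_of_injOn (fun p => θ p.1 + p.2)
    · rintro ⟨s, ψ⟩ hp
      rw [mem_coe, mem_product, mem_DD] at hp
      obtain ⟨-, -, -, -, -, -, hN⟩ := hall s hp.1
      rw [mem_coe, mem_DD]
      have h1 := N1_add_le χ B' (θ s) ψ
      have h2 := N1_mono χ (hB'.trans hB1) ψ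
      have h3 := hp.2
      simp only at h1 h2 h3 ⊢
      linarith
    · rintro ⟨s, ψ⟩ hp ⟨s', ψ'⟩ hp' heq
      rw [mem_coe, mem_product, mem_DD] at hp hp'
      simp only at hp hp' heq
      have hss : s = s' := by
        by_contra hne'
        have hf := hfar s hp.1 s' hp'.1 hne'
        obtain ⟨-, -, hl, hlθ, -, hlb, -⟩ := hall s hp.1
        obtain ⟨-, -, hl', hlθ', -, hlb', -⟩ := hall s' hp'.1
        have hδ : θ s - θ s' = ψ' - ψ := by
          have : θ s + ψ = θ s' + ψ' := heq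
          rw [sub_eq_sub_iff_add_eq_add, this, add_comm]
        have hN : N1 χ B (ψ' - ψ) ≤ R / 2 := by
          have := N1_sub_le χ B ψ' ψ
          linarith [hp.2, hp'.2]
        have hx : xv χ B (ψ' - ψ) ∈ WW χ B R := by
          apply xv_mem_SP
          change N1 χ B (ψ' - ψ) ≤ R
          linarith
        have hz := hsep (l s - l s' - xv χ B (ψ' - ψ))
          (Submodule.sub_mem _ (Submodule.sub_mem _ hl hl') hx) ?_ ?_
        · have h1 : l s - l s' = xv χ B (ψ' - ψ) := sub_eq_zero.mp hz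
          rw [h1, l1_xv] at hf
          linarith
        · intro i hi
          rw [← coe_eq_zero_iff]
          simp only [Pi.sub_apply]
          rw [AddCircle.coe_sub, AddCircle.coe_sub, hlθ i hi, hlθ' i hi, xv_apply_mem χ _ hi,
            coe_lf, ← map_sub, hδ, sub_self]
        · intro i hi
          have hiB := hB1 hi
          have hint : ∃ n : ℤ, (l s - l s' - xv χ B (ψ' - ψ)) i = n := by
            rw [← coe_eq_zero_iff]
            simp only [Pi.sub_apply]
            rw [AddCircle.coe_sub, AddCircle.coe_sub, hlθ i hiB, hlθ' i hiB,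
              xv_apply_mem χ _ hiB, coe_lf, ← map_sub, hδ, sub_self]
          obtain ⟨z, hz⟩ := hint
          have h1 := hlb i hi
          have h2 := hlb' i hi
          have h3 : |xv χ B (ψ' - ψ) i| ≤ 1 / 200 := by
            rw [abs_xv χ _ hiB]
            refine (hcl _ (by linarith) i hiB).trans ?_
            nlinarith
          have h4 : |(z : ℝ)| < 1 := by
            rw [← hz]
            simp only [Pi.sub_apply]
            have e1 := abs_sub (l s i - l s' i) (xv χ B (ψ' - ψ) i)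
            have e2 := abs_sub (l s i) (l s' i)
            linarith
          have h5 : z = 0 := by
            rw [← Int.cast_abs] at h4
            have : |z| < 1 := by exact_mod_cast h4
            exact Int.abs_lt_one_iff.mp this
          rw [hz, h5, Int.cast_zero]
      subst hss
      have : ψ = ψ' := add_left_cancel heq
      rw [this]
  -- the size of the grid
  have hScard : (N₀ / ρ) ^ (k + 2) ≤ (S.card : ℝ) := by
    rw [hS, Fintype.card_piFinset]
    push_cast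
    have h1 : ∏ j, N₀ / a j = (N₀ / ρ) ^ (k + 2) := by
      rw [prod_div_distrib, hprod, prod_const, card_univ, Fintype.card_fin, ← div_pow]
    rw [← h1]
    apply prod_le_prod
    · intro j _
      have := (ha j).2
      positivity
    · intro j _
      rw [card_range]
      push_cast
      exact (Nat.lt_floor_add_one _).le
  have hfinal : ((1 / (8 * T * dr ^ 2 * (1 + CP))) ^ (k + 2) * (m / m') ^ (k + 2) *
      (1 / ρ) ^ (k + 2)) = (N₀ / ρ) ^ (k + 2) := by
    rw [← mul_pow, ← mul_pow]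
    congr 1
    rw [hN₀]
    field_simp
  rw [hfinal]
  calc (N₀ / ρ) ^ (k + 2) * ((DD χ B (R / 4)).card : ℝ)
      ≤ (S.card : ℝ) * ((DD χ B (R / 4)).card : ℝ) :=
        mul_le_mul_of_nonneg_right hScard (by positivity)
    _ ≤ ((DD χ B' R).card : ℝ) := by exact_mod_cast hcard

end Pool.DV5
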