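import Pool.Agent.Lib.MP_a90784_dv.Defs

/-! Tank DV5, row R4: Auerbach coordinates on a subspace of `ι → ℝ` with the `l^1` norm.
helper24. -/

set_option autoImplicit false

namespace Pool.DV5

open Finset Module

namespace Co

/-- the matrix of the functionals `u j` on the basis vectors `b k`. -/
noncomputable def MM {ι : Type} [Fintype ι] {d : ℕ} (b : Fin d → ι → ℝ) (u : Fin d → ι → ℝ) :
    Matrix (Fin d) (Fin d) ℝ := Matrix.of fun j k => ∑ i, u j i * b k i

theorem MM_updateRow {ι : Type} [Fintype ι] {d : ℕ} (b : Fin d → ι → ℝ) (u : Fin d → ι → ℝ)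
    (j : Fin d) (s : ι → ℝ) :
    (MM b u).updateRow j (fun k => ∑ i, s i * b k i) = MM b (Function.update u j s) := by
  ext a k
  rw [Matrix.updateRow_apply]
  by_cases h : a = j
  · subst h
    simp [MM]
  · simp [MM, h]

/-- the cube has a point of maximal determinant, and the maximum is not zero. -/
theorem exists_max {ι : Type} [Fintype ι] {d : ℕ} (b : Fin d → ι → ℝ)
    (hb : LinearIndependent ℝ b) :
    ∃ u : Fin d → ι → ℝ, (∀ j i, |u j i| ≤ 1) ∧ 0 < |(MM b u).det| ∧
      ∀ u' : Fin d → ι → ℝ, (∀ j i, |u' j i| ≤ 1) → |(MM b u').det| ≤ |(MM b u).det| := by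
  classical
  -- dual vectors
  have h1 : ∃ u0 : Fin d → ι → ℝ, ∀ j k, ∑ i, u0 j i * b k i = if j = k then 1 else 0 := by
    have hex : ∀ j : Fin d, ∃ g : (ι → ℝ) →ₗ[ℝ] ℝ, ∀ k, g (b k) = if j = k then 1 else 0 := by
      intro j
      obtain ⟨g, hg⟩ := LinearMap.exists_extend
        ((Finsupp.lapply j : (Fin d →₀ ℝ) →ₗ[ℝ] ℝ).comp hb.repr)
      refine ⟨g, fun k => ?_⟩
      have hk : b k ∈ Submodule.span ℝ (Set.range b) := Submodule.subset_span ⟨k, rfl⟩
      have := LinearMap.congr_fun hg ⟨b k, hk⟩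
      simp only [LinearMap.comp_apply, Submodule.subtype_apply] at this
      rw [this, hb.repr_eq_single k ⟨b k, hk⟩ rfl]
      simp [Finsupp.single_apply, eq_comm]
    choose g hg using hex
    refine ⟨fun j i => g j (Pi.single i 1), fun j k => ?_⟩
    rw [← hg j k]
    conv_rhs => rw [pi_eq_sum_univ' (b k)]
    rw [map_sum]
    refine Finset.sum_congr rfl fun i _ => ?_
    rw [map_smul, smul_eq_mul, mul_comm]
  obtain ⟨u0, hu0⟩ := h1
  set S : ℝ := 1 + ∑ j, ∑ i, |u0 j i| with hS
  have hSn : 0 ≤ ∑ j, ∑ i, |u0 j i| := Finset.sum_nonneg fun j _ =>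
    Finset.sum_nonneg fun i _ => abs_nonneg _
  have hSp : 0 < S := by rw [hS]; linarith
  have hle : ∀ j i, |u0 j i| ≤ S := by
    intro j i
    have h2 : |u0 j i| ≤ ∑ i, |u0 j i| := Finset.single_le_sum (f := fun i => |u0 j i|)
      (fun i _ => abs_nonneg _) (Finset.mem_univ i)
    have h3 : ∑ i, |u0 j i| ≤ ∑ j, ∑ i, |u0 j i| :=
      Finset.single_le_sum (f := fun j => ∑ i, |u0 j i|)
        (fun j _ => Finset.sum_nonneg fun i _ => abs_nonneg _) (Finset.mem_univ j)
    rw [hS]; linarith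
  set u1 : Fin d → ι → ℝ := fun j i => u0 j i / S with hu1
  have hu1c : ∀ j i, |u1 j i| ≤ 1 := by
    intro j i
    rw [hu1]
    simp only [abs_div, abs_of_pos hSp]
    rw [div_le_one hSp]
    exact hle j i
  have hdet1 : 0 < |(MM b u1).det| := by
    have h4 : MM b u1 = (1 / S) • (1 : Matrix (Fin d) (Fin d) ℝ) := by
      ext j k
      simp only [MM, Matrix.of_apply, hu1, Matrix.smul_apply, Matrix.one_apply, smul_eq_mul]
      have h5 := hu0 j k
      rw [← h5, Finset.mul_sum]
      refine Finset.sum_congr rfl fun i _ => ?_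
      ring
    rw [h4, Matrix.det_smul, Matrix.det_one, mul_one]
    have : 0 < (1 / S) ^ Fintype.card (Fin d) := by positivity
    rw [abs_of_pos this]
    exact this
  -- compactness
  have hcomp : IsCompact (Set.Icc (fun _ _ => (-1 : ℝ)) (fun _ _ => (1 : ℝ)) :
      Set (Fin d → ι → ℝ)) := isCompact_Icc
  have hmem : ∀ u : Fin d → ι → ℝ, u ∈ (Set.Icc (fun _ _ => (-1 : ℝ)) (fun _ _ => (1 : ℝ)) :
      Set (Fin d → ι → ℝ)) ↔ ∀ j i, |u j i| ≤ 1 := by
    intro u
    constructor
    · rintro ⟨h1, h2⟩ j i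
      exact abs_le.2 ⟨h1 j i, h2 j i⟩
    · intro h
      exact ⟨fun j i => (abs_le.1 (h j i)).1, fun j i => (abs_le.1 (h j i)).2⟩
  have hcont : Continuous (fun u : Fin d → ι → ℝ => |(MM b u).det|) := by
    refine continuous_abs.comp ?_
    refine Continuous.matrix_det ?_
    refine continuous_matrix fun j k => ?_
    simp only [MM, Matrix.of_apply]
    fun_prop
  obtain ⟨u, hu, hmax⟩ := hcomp.exists_isMaxOn ⟨u1, (hmem u1).2 hu1c⟩ hcont.continuousOn
  refine ⟨u, (hmem u).1 hu, ?_, ?_⟩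
  · exact hdet1.trans_le (hmax ((hmem u1).2 hu1c))
  · intro u' hu'
    exact hmax ((hmem u').2 hu')

/-- Cramer: every functional of the cube is a combination of the `u j` with coefficients at most
one. -/
theorem abs_le_sum {ι : Type} [Fintype ι] {d : ℕ} (b : Fin d → ι → ℝ) (u : Fin d → ι → ℝ)
    (hu : ∀ j i, |u j i| ≤ 1) (hpos : 0 < |(MM b u).det|)
    (hmax : ∀ u' : Fin d → ι → ℝ, (∀ j i, |u' j i| ≤ 1) → |(MM b u').det| ≤ |(MM b u).det|)
    (s : ι → ℝ) (hs : ∀ i, |s i| ≤ 1) (x : Fin d → ℝ) :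
    |∑ i, s i * (∑ k, x k • b k) i| ≤ ∑ j, |∑ i, u j i * (∑ k, x k • b k) i| := by
  classical
  have hlin : ∀ t : ι → ℝ, ∑ i, t i * (∑ k, x k • b k) i = ∑ k, (∑ i, t i * b k i) * x k := by
    intro t
    simp only [Finset.sum_apply, Pi.smul_apply, smul_eq_mul, Finset.mul_sum, Finset.sum_mul]
    rw [Finset.sum_comm]
    refine Finset.sum_congr rfl fun k _ => Finset.sum_congr rfl fun i _ => ?_
    ring
  set r : Fin d → ℝ := fun k => ∑ i, s i * b k i with hr
  set N := MM b u with hN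
  set c : Fin d → ℝ := Matrix.cramer N.transpose r with hc
  have hcr : ∀ k, ∑ j, N j k * c j = N.det * r k := by
    intro k
    have h := congrFun (Matrix.mulVec_cramer N.transpose r) k
    rw [Matrix.det_transpose] at h
    simpa [Matrix.mulVec, dotProduct] using h
  have hcb : ∀ j, |c j| ≤ |N.det| := by
    intro j
    rw [hc, Matrix.cramer_transpose_apply, hr, hN, MM_updateRow]
    refine hmax _ fun a i => ?_
    by_cases h : a = j
    · subst h
      simpa using hs i
    · simpa [Function.update_of_ne h] using hu a i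
  have key : N.det * ∑ i, s i * (∑ k, x k • b k) i
      = ∑ j, c j * ∑ i, u j i * (∑ k, x k • b k) i := by
    rw [hlin s]
    have h1 : ∀ j, ∑ i, u j i * (∑ k, x k • b k) i = ∑ k, N j k * x k := by
      intro j
      rw [hlin (u j)]
      rfl
    simp only [h1]
    rw [Finset.mul_sum]
    have h2 : ∀ k, N.det * ((∑ i, s i * b k i) * x k) = ∑ j, N j k * c j * x k := by
      intro k
      rw [← Finset.sum_mul, hcr k, hr]
      ring
    simp only [h2]
    rw [Finset.sum_comm]
    refine Finset.sum_congr rfl fun j _ => ?_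
    rw [Finset.mul_sum]
    refine Finset.sum_congr rfl fun k _ => ?_
    ring
  have h3 : |N.det| * |∑ i, s i * (∑ k, x k • b k) i|
      ≤ |N.det| * ∑ j, |∑ i, u j i * (∑ k, x k • b k) i| := by
    rw [← abs_mul, key]
    refine (Finset.abs_sum_le_sum_abs _ _).trans ?_
    rw [Finset.mul_sum]
    refine Finset.sum_le_sum fun j _ => ?_
    rw [abs_mul]
    exact mul_le_mul_of_nonneg_right (hcb j) (abs_nonneg _)
  exact le_of_mul_le_mul_left h3 hpos

end Co

/-! ### R4 coordinates (Auerbach basis) -/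
theorem exists_coord {ι : Type} [Fintype ι] (V : Submodule ℝ (ι → ℝ)) (d : ℕ) (hd : finrank ℝ V = d)
    (m : ℝ) (hm : 0 < m) :
    ∃ (ω : (ι → ℝ) →ₗ[ℝ] EuclideanSpace ℝ (Fin d)) (c : ι → EuclideanSpace ℝ (Fin d))
      (u : Fin d → ι → ℝ),
      (∀ j i, |u j i| ≤ 1) ∧ (∀ w j, ω w j = (∑ i, u j i * w i) / m) ∧
      (∀ w ∈ V, l1 w ≤ m * ∑ j, |ω w j|) ∧
      (∀ w ∈ V, ∀ i, w i = inner ℝ (c i) (ω w)) ∧ (∀ y, ∃ w ∈ V, ω w = y) ∧
      (∀ j, ∑ i, |c i j| ≤ m) := by
  classical
  let bas : Basis (Fin d) ℝ V := finBasisOfFinrankEq ℝ V hd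
  set b : Fin d → ι → ℝ := fun k => (bas k : ι → ℝ) with hb
  have hbi : LinearIndependent ℝ b :=
    bas.linearIndependent.map' V.subtype (Submodule.ker_subtype V)
  obtain ⟨u, hu, hpos, hmax⟩ := Co.exists_max b hbi
  let ω0 : (ι → ℝ) →ₗ[ℝ] (Fin d → ℝ) :=
    { toFun := fun w j => (∑ i, u j i * w i) / m
      map_add' := by
        intro w w'
        funext j
        simp only [Pi.add_apply, mul_add, Finset.sum_add_distrib, add_div]
      map_smul' := by
        intro a w
        funext j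
        simp only [Pi.smul_apply, smul_eq_mul, RingHom.id_apply]
        rw [← mul_div_assoc, Finset.mul_sum]
        congr 1
        refine Finset.sum_congr rfl fun i _ => ?_
        ring }
  let ω : (ι → ℝ) →ₗ[ℝ] EuclideanSpace ℝ (Fin d) :=
    (WithLp.linearEquiv 2 ℝ (Fin d → ℝ)).symm.toLinearMap.comp ω0
  have hω : ∀ w j, ω w j = (∑ i, u j i * w i) / m := fun w j => rfl
  have hl1 : ∀ w ∈ V, l1 w ≤ m * ∑ j, |ω w j| := by
    intro w hw
    have hrep : w = ∑ k, (bas.repr ⟨w, hw⟩ k) • b k := by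
      have h := bas.sum_repr ⟨w, hw⟩
      have h' : ((∑ k, (bas.repr ⟨w, hw⟩) k • bas k : V) : ι → ℝ) = w := by rw [h]
      refine h'.symm.trans ?_
      simp only [Submodule.coe_sum, Submodule.coe_smul, hb]
    have h1 : l1 w = |∑ i, (SignType.sign (w i) : ℝ) * w i| := by
      have h2 : ∑ i, (SignType.sign (w i) : ℝ) * w i = l1 w := by
        unfold l1
        exact Finset.sum_congr rfl fun i _ => sign_mul_self (w i)
      rw [h2, abs_of_nonneg]
      exact Finset.sum_nonneg fun i _ => abs_nonneg _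
    have h3 := Co.abs_le_sum b u hu hpos hmax (fun i => (SignType.sign (w i) : ℝ)) (by
      intro i
      rcases lt_trichotomy (w i) 0 with h | h | h
      · simp [sign_neg h]
      · simp [h]
      · simp [sign_pos h]) (bas.repr ⟨w, hw⟩)
    rw [← hrep] at h3
    rw [h1]
    refine h3.trans (le_of_eq ?_)
    rw [Finset.mul_sum]
    refine Finset.sum_congr rfl fun j _ => ?_
    rw [hω, abs_div, abs_of_pos hm]
    field_simp
  have hinj : Function.Injective (ω.comp V.subtype) := by
    rw [← LinearMap.ker_eq_bot, LinearMap.ker_eq_bot']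
    intro w hw
    have h1 := hl1 w w.2
    have h2 : ω (w : ι → ℝ) = 0 := hw
    rw [h2] at h1
    simp only [PiLp.zero_apply, abs_zero, Finset.sum_const_zero, mul_zero] at h1
    ext i
    have h3 : |(w : ι → ℝ) i| ≤ l1 (w : ι → ℝ) :=
      Finset.single_le_sum (f := fun i => |(w : ι → ℝ) i|) (fun i _ => abs_nonneg _)
        (Finset.mem_univ i)
    have h4 : |(w : ι → ℝ) i| = 0 := le_antisymm (h3.trans h1) (abs_nonneg _)
    simpa using h4
  have hfin : finrank ℝ V = finrank ℝ (EuclideanSpace ℝ (Fin d)) := by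
    rw [hd, finrank_euclideanSpace_fin]
  let e : V ≃ₗ[ℝ] EuclideanSpace ℝ (Fin d) :=
    LinearEquiv.ofInjectiveOfFinrankEq (ω.comp V.subtype) hinj hfin
  have he : ∀ w : V, e w = ω (w : ι → ℝ) := fun w => rfl
  have hes : ∀ y, ω ((e.symm y : V) : ι → ℝ) = y := by
    intro y
    rw [← he, LinearEquiv.apply_symm_apply]
  refine ⟨ω, fun i => WithLp.toLp 2 (fun j => ((e.symm (EuclideanSpace.single j 1) : V) : ι → ℝ) i),
    u, hu, hω, hl1, ?_, ?_, ?_⟩
  · intro w hw i
    have h1 : (⟨w, hw⟩ : V) = e.symm (ω w) := by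
      rw [LinearEquiv.eq_symm_apply, he]
    have h2 : ω w = ∑ j, (ω w j) • EuclideanSpace.single j (1 : ℝ) := by
      ext a
      simp [Finset.sum_apply, Pi.single_apply]
    have h3 : w i = ((e.symm (ω w) : V) : ι → ℝ) i := by rw [← h1]
    rw [h3]
    conv_lhs => rw [h2]
    rw [map_sum]
    simp only [map_smul]
    rw [PiLp.inner_apply]
    simp only [Submodule.coe_sum, Finset.sum_apply, Submodule.coe_smul, Pi.smul_apply, smul_eq_mul,
      RCLike.inner_apply, conj_trivial]
  · intro y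
    exact ⟨_, (e.symm y).2, hes y⟩
  · intro j
    have h1 := hl1 _ (e.symm (EuclideanSpace.single j 1)).2
    rw [hes] at h1
    refine (le_of_eq ?_).trans (h1.trans (le_of_eq ?_))
    · rfl
    · rw [Finset.sum_eq_single j]
      · simp
      · intro a _ ha
        simp [ha]
      · intro h
        exact absurd (Finset.mem_univ j) h

end Pool.DV5
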