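import Pool.Agent.Lib.MP_a90784_dv.Defs
import Pool.Agent.Lib.MP_a90784_dv.Co

/-!
Tank DV5, row R5 (helper29): colouring of a small l^1 ball of a `d`-dimensional space.
-/

set_option autoImplicit false

namespace Pool.DV5

open Finset Module

namespace Col

/-- one coordinate of the colour -/
noncomputable def code (K : ℕ) (ρ x : ℝ) : Fin (2 * K + 3) :=
  ⟨(⌊x * K / ρ⌋ + K).toNat % (2 * K + 3), Nat.mod_lt _ (by omega)⟩

theorem floor_range {K : ℕ} {ρ x : ℝ} (hρ : 0 < ρ) (hx : |x| ≤ ρ) :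
    -(K : ℤ) ≤ ⌊x * K / ρ⌋ ∧ ⌊x * K / ρ⌋ ≤ K := by
  have hK : (0 : ℝ) ≤ K := Nat.cast_nonneg K
  obtain ⟨h1, h2⟩ := abs_le.mp hx
  constructor
  · rw [Int.le_floor]
    push_cast
    rw [le_div_iff₀ hρ]
    nlinarith
  · have h3 : x * K / ρ ≤ K := by
      rw [div_le_iff₀ hρ]
      nlinarith
    have h4 : ((⌊x * K / ρ⌋ : ℤ) : ℝ) ≤ (K : ℝ) := le_trans (Int.floor_le _) h3
    exact_mod_cast h4

theorem code_inj {K : ℕ} {ρ x y : ℝ} (hρ : 0 < ρ) (hx : |x| ≤ ρ) (hy : |y| ≤ ρ)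
    (h : code K ρ x = code K ρ y) : |x - y| * K ≤ ρ := by
  obtain ⟨hx1, hx2⟩ := floor_range (K := K) hρ hx
  obtain ⟨hy1, hy2⟩ := floor_range (K := K) hρ hy
  have h' : (⌊x * K / ρ⌋ + K).toNat % (2 * K + 3) = (⌊y * K / ρ⌋ + K).toNat % (2 * K + 3) := by
    have := congrArg Fin.val h
    simpa [code] using this
  rw [Nat.mod_eq_of_lt (by omega), Nat.mod_eq_of_lt (by omega)] at h'
  have h2 : ⌊x * K / ρ⌋ = ⌊y * K / ρ⌋ := by omega
  have h3 : |x * K / ρ - y * K / ρ| < 1 := Int.abs_sub_lt_one_of_floor_eq_floor h2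
  have h4 : |x * K / ρ - y * K / ρ| = |x - y| * K / ρ := by
    rw [show x * K / ρ - y * K / ρ = (x - y) * K / ρ by ring, abs_div, abs_mul, abs_of_pos hρ,
      abs_of_nonneg (Nat.cast_nonneg K : (0 : ℝ) ≤ K)]
  rw [h4, div_lt_one hρ] at h3
  exact h3.le

end Col

/-! ### R5 colouring -/
theorem exists_color {ι : Type} [Fintype ι] (V : Submodule ℝ (ι → ℝ)) (d q : ℕ)
    (hd : finrank ℝ V ≤ d) (hq : 1 ≤ q) (ρ : ℝ) (hρ : 0 < ρ) :
    ∃ c : (ι → ℝ) → Fin ((2 * d * q + 3) ^ d), ∀ w ∈ V, ∀ w' ∈ V, l1 w ≤ ρ → l1 w' ≤ ρ →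
      c w = c w' → l1 (w - w') ≤ ρ / q := by
  classical
  obtain ⟨ω, -, u, hu, hω, hl, -, -, -⟩ := exists_coord V (finrank ℝ V) rfl 1 one_pos
  have hbd : ∀ w : ι → ℝ, ∀ j, |ω w j| ≤ l1 w := by
    intro w j
    rw [hω, div_one]
    refine (abs_sum_le_sum_abs _ _).trans ?_
    unfold l1
    refine Finset.sum_le_sum fun i _ => ?_
    rw [abs_mul]
    calc |u j i| * |w i| ≤ 1 * |w i| := by
          exact mul_le_mul_of_nonneg_right (hu j i) (abs_nonneg _)
      _ = |w i| := one_mul _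
  set K : ℕ := d * q with hK
  have hKe : 2 * K + 3 = 2 * d * q + 3 := by rw [hK]; ring
  let f : (ι → ℝ) → (Fin d → Fin (2 * K + 3)) := fun w j =>
    if h : (j : ℕ) < finrank ℝ V then Col.code K ρ (ω w ⟨j, h⟩) else ⟨0, by omega⟩
  refine ⟨fun w => Fin.cast (by rw [hKe]) (finFunctionFinEquiv (f w)), ?_⟩
  intro w hw w' hw' h1 h2 hc
  have hf : f w = f w' := by
    have := Fin.cast_injective _ hc
    exact finFunctionFinEquiv.injective this
  have hcoord : ∀ j : Fin (finrank ℝ V), |ω w j - ω w' j| * K ≤ ρ := by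
    intro j
    have hj : (j : ℕ) < d := lt_of_lt_of_le j.2 hd
    have h3 := congrFun hf ⟨j, hj⟩
    simp only [f, j.2, dif_pos] at h3
    exact Col.code_inj hρ ((hbd w j).trans h1) ((hbd w' j).trans h2) h3
  have hsub : l1 (w - w') ≤ ∑ j, |ω w j - ω w' j| := by
    have := hl (w - w') (V.sub_mem hw hw')
    rw [one_mul] at this
    refine this.trans (le_of_eq ?_)
    refine Finset.sum_congr rfl fun j _ => ?_
    rw [map_sub]
    rfl
  have hq' : (0 : ℝ) < q := by exact_mod_cast hq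
  rw [le_div_iff₀ hq']
  rcases Nat.eq_zero_or_pos d with h0 | h0
  · -- no coordinates
    have hz : finrank ℝ V = 0 := by omega
    have : ∑ j : Fin (finrank ℝ V), |ω w j - ω w' j| = 0 := by
      apply Finset.sum_eq_zero
      intro j _
      exact absurd j.2 (by omega)
    rw [this] at hsub
    nlinarith
  · have hd' : (0 : ℝ) < d := by exact_mod_cast h0
    have h5 : (∑ j : Fin (finrank ℝ V), |ω w j - ω w' j|) * K ≤ finrank ℝ V * ρ := by
      rw [Finset.sum_mul]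
      refine (Finset.sum_le_sum fun j _ => hcoord j).trans ?_
      simp
    have h6 : l1 (w - w') * (d * q) ≤ d * ρ := by
      have hKr : ((K : ℕ) : ℝ) = d * q := by rw [hK]; push_cast; ring
      rw [hKr] at h5
      have h7 : (finrank ℝ V : ℝ) ≤ d := by exact_mod_cast hd
      calc l1 (w - w') * (d * q) ≤ (∑ j : Fin (finrank ℝ V), |ω w j - ω w' j|) * (d * q) :=
            mul_le_mul_of_nonneg_right hsub (by positivity)
        _ ≤ finrank ℝ V * ρ := h5
        _ ≤ d * ρ := mul_le_mul_of_nonneg_right h7 hρ.le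
    have h8 : d * (l1 (w - w') * q) ≤ d * ρ := by linarith [h6]
    exact le_of_mul_le_mul_left h8 hd'

end Pool.DV5
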