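import Mathlib

/-!
Tank DV5 (MP_a90784_nt, helper12): non-dividing sets, F(N) <= N^(1/5+o(1)).
Definitions.
-/

set_option autoImplicit false

namespace Pool.DV5

open Finset Module

/-- the representative of a point of the circle in [-1/2, 1/2) -/
noncomputable def lf (t : UnitAddCircle) : ℝ := (AddCircle.equivIco (1 : ℝ) (-1/2) t : ℝ)

/-- the l^1 size of a real vector -/
noncomputable def l1 {ι : Type} [Fintype ι] (w : ι → ℝ) : ℝ := ∑ i, |w i|

/-- restriction of a vector to the coordinates in `B` -/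
def rs {ι : Type} [DecidableEq ι] (B : Finset ι) : (ι → ℝ) →ₗ[ℝ] (ι → ℝ) where
  toFun w := fun i => if i ∈ B then w i else 0
  map_add' w w' := by funext i; by_cases h : i ∈ B <;> simp [h]
  map_smul' c w := by funext i; by_cases h : i ∈ B <;> simp [h]

section
variable {G ι : Type} [AddCommGroup G]

/-- l^1 size of `θ` on the index set `B` -/
noncomputable def N1 (χ : ι → G →+ UnitAddCircle) (B : Finset ι) (θ : G) : ℝ := ∑ i ∈ B, ‖χ i θ‖

/-- squared l^2 size of `θ` on the index set `B` -/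
noncomputable def N2 (χ : ι → G →+ UnitAddCircle) (B : Finset ι) (θ : G) : ℝ := ∑ i ∈ B, ‖χ i θ‖ ^ 2

/-- the l^1 ball -/
noncomputable def DD [Fintype G] (χ : ι → G →+ UnitAddCircle) (B : Finset ι) (R : ℝ) : Finset G := by
  classical exact Finset.univ.filter (fun θ => N1 χ B θ ≤ R)

/-- `B` is clean: l^1 small implies uniformly small -/
def Clean (χ : ι → G →+ UnitAddCircle) (B : Finset ι) (R η : ℝ) : Prop :=
  ∀ θ : G, N1 χ B θ ≤ R → ∀ i ∈ B, ‖χ i θ‖ ≤ η

def Clean2 (χ : ι → G →+ UnitAddCircle) (B : Finset ι) (R η : ℝ) : Prop :=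
  ∀ θ : G, N2 χ B θ ≤ R → ∀ i ∈ B, ‖χ i θ‖ ≤ η

variable [DecidableEq ι]

/-- the lift of `θ` to a real vector supported on `B` -/
noncomputable def xv (χ : ι → G →+ UnitAddCircle) (B : Finset ι) (θ : G) : ι → ℝ :=
  fun i => if i ∈ B then lf (χ i θ) else 0

/-- real span of the lifts of `X` -/
noncomputable def SP (χ : ι → G →+ UnitAddCircle) (B : Finset ι) (X : Set G) : Submodule ℝ (ι → ℝ) :=
  Submodule.span ℝ (xv χ B '' X)

/-- integer span of the lifts of `X` -/
noncomputable def GG (χ : ι → G →+ UnitAddCircle) (B : Finset ι) (X : Set G) : AddSubgroup (ι → ℝ) :=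
  AddSubgroup.closure (xv χ B '' X)

/-- real span of the lifts of the l^1 ball of radius `R` -/
noncomputable def WW (χ : ι → G →+ UnitAddCircle) (B : Finset ι) (R : ℝ) : Submodule ℝ (ι → ℝ) :=
  SP χ B {θ | N1 χ B θ ≤ R}

/-- regularity of the subset `B'` of `B` at radius `R` -/
def Reg [Fintype G] (χ : ι → G →+ UnitAddCircle) (B B' : Finset ι) (R : ℝ) : Prop :=
  B' ⊆ B ∧ (DD χ B' R).card < (DD χ B R).card + (DD χ B (R / 4)).card

/-- extremality of `B` for `|B|^e * |DD B R|`, up to `E₀` elements -/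
def Ext [Fintype G] (χ : ι → G →+ UnitAddCircle) (B : Finset ι) (R e E₀ : ℝ) : Prop :=
  ∀ B' ⊆ B, E₀ ≤ (B'.card : ℝ) →
    ((B'.card : ℝ) - E₀) ^ e * ((DD χ B' R).card : ℝ) ≤ (B.card : ℝ) ^ e * ((DD χ B R).card : ℝ)

end

/-- the characters `θ ↦ v_i θ / Q` of `ℤ/Q` -/
noncomputable def chi {ι : Type} (Q : ℕ) [NeZero Q] (v : ι → ℕ) (i : ι) : ZMod Q →+ UnitAddCircle :=
  (v i) • (ZMod.toAddCircle : ZMod Q →+ UnitAddCircle)

/-- gap constant of the transference step -/
noncomputable def Dc (k : ℕ) (η : ℝ) : ℝ := ((k : ℝ) + 1) ^ 2 * 8 ^ k / η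

/-- largest l^1 radius used for one modulus -/
noncomputable def Kmx (k : ℕ) (η : ℝ) : ℝ := ((k : ℝ) + 1) ^ (k + 1) * Dc k η

/-- the point of the affine hyperplane `⟪β, q⟫ = 1` on the line of `c` -/
noncomputable def qq {d : ℕ} (β c : EuclideanSpace ℝ (Fin d)) : EuclideanSpace ℝ (Fin d) :=
  (inner ℝ β c)⁻¹ • c

end Pool.DV5
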