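import Pool.Agent.Lib.MP_a90784_dv.Ba

/-!
Tank DV5, R3: dimension bound.
-/

set_option autoImplicit false
set_option linter.unusedVariables false

namespace Pool.DV5

open Finset Module

section
variable {G ι : Type} [AddCommGroup G] [Fintype G] [DecidableEq ι]

/-- independent members of a spanning set modulo a submodule -/
private theorem dim_indep {V : Type} [AddCommGroup V] [Module ℝ V] [FiniteDimensional ℝ V]
    (s : Set V) (E : Submodule ℝ V) (k : ℕ)
    (h : k + finrank ℝ E < finrank ℝ (Submodule.span ℝ s ⊔ E : Submodule ℝ V)) :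
    ∃ f : Fin (k + 1) → V, (∀ j, f j ∈ s) ∧ LinearIndependent ℝ (fun j => E.mkQ (f j)) := by
  have h1 : finrank ℝ (Submodule.span ℝ s ⊔ E : Submodule ℝ V) ≤
      finrank ℝ (Submodule.span ℝ (E.mkQ '' s)) + finrank ℝ E := by
    have h2 := LinearMap.finrank_range_add_finrank_ker
      (E.mkQ.domRestrict (Submodule.span ℝ s ⊔ E))
    rw [← h2]
    refine add_le_add (le_of_eq ?_) ?_
    · rw [LinearMap.range_domRestrict, Submodule.map_sup, Submodule.map_span]
      rw [Submodule.mkQ_map_self, sup_bot_eq]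
    · refine LinearMap.finrank_le_finrank_of_injective
        (f := ((Submodule.span ℝ s ⊔ E).subtype.comp
          (LinearMap.ker (E.mkQ.domRestrict (Submodule.span ℝ s ⊔ E))).subtype).codRestrict E
            ?_) ?_
      · rintro ⟨x, hx⟩
        rw [LinearMap.mem_ker, LinearMap.domRestrict_apply, Submodule.mkQ_apply,
          Submodule.Quotient.mk_eq_zero] at hx
        exact hx
      · intro x y hxy
        have := congrArg Subtype.val hxy
        exact Subtype.ext (Subtype.ext this)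
  obtain ⟨g, hg, -, hli⟩ := Submodule.exists_fun_fin_finrank_span_eq ℝ (E.mkQ '' s)
  have hle : k + 1 ≤ finrank ℝ (Submodule.span ℝ (E.mkQ '' s)) := by omega
  choose f hf hfe using hg
  refine ⟨fun j => f (Fin.castLE hle j), fun j => hf _, ?_⟩
  have := hli.comp (Fin.castLE hle) (Fin.castLE_injective hle)
  have e : (fun j => E.mkQ (f (Fin.castLE hle j))) = g ∘ Fin.castLE hle := funext fun j => hfe _
  rw [e]
  exact this

theorem dim_bound [Fintype ι] (χ : ι → G →+ UnitAddCircle) (B : Finset ι) (X : Set G) (η₁ : ℝ)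
    (hX : ∀ θ ∈ X, ∀ i ∈ B, ‖χ i θ‖ ≤ η₁) (e : ι → ℝ) (T : Finset G) (c : G → ℝ)
    (hcinj : Set.InjOn c (T : Set G))
    (hc : ∀ t ∈ T, ∀ i ∈ B, χ i t = ((c t * e i : ℝ) : UnitAddCircle))
    (hcs : ∀ t ∈ T, ∀ t' ∈ T, ∀ i ∈ B, |(c t - c t') * e i| ≤ 1 / 4)
    (he : T.card = 1 ∨ rs B e ≠ 0)
    (k K : ℕ) (hη0 : 0 ≤ η₁) (hK : ((k : ℝ) + 1) * K * η₁ < 1 / 4)
    (hcard : Fintype.card G < (K + 1) ^ (k + 1) * T.card) :
    finrank ℝ (SP χ B X ⊔ Submodule.span ℝ {rs B e} : Submodule ℝ (ι → ℝ)) ≤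
      k + finrank ℝ (Submodule.span ℝ {rs B e} : Submodule ℝ (ι → ℝ)) := by
  classical
  by_contra hcon
  rw [not_le] at hcon
  obtain ⟨f, hf, hli⟩ := dim_indep (xv χ B '' X) (Submodule.span ℝ {rs B e}) k hcon
  choose θ hθX hθ using hf
  -- the map which would be injective
  let Φ : (Fin (k + 1) → Fin (K + 1)) × T → G := fun p => ∑ j, ((p.1 j : ℕ) • θ j) + (p.2 : G)
  have hinj : Function.Injective Φ := by
    rintro ⟨n, t, ht⟩ ⟨n', t', ht'⟩ h
    have h0 : ∑ j, ((n j : ℕ) • θ j) + t = ∑ j, ((n' j : ℕ) • θ j) + t' := h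
    -- the real vector
    let A : ι → ℝ := ∑ j, (((n j : ℕ) : ℝ) - ((n' j : ℕ) : ℝ)) • f j
    have hA : ∀ i ∈ B, A i = (c t' - c t) * e i := by
      intro i hi
      have hfi : ∀ j, f j i = lf (χ i (θ j)) := by
        intro j
        rw [← hθ j, xv_apply_mem χ _ hi]
      have hAi : A i = ∑ j, (((n j : ℕ) : ℝ) - ((n' j : ℕ) : ℝ)) * f j i := by
        simp only [A, Finset.sum_apply, Pi.smul_apply, smul_eq_mul]
      have hcoe : ((A i : ℝ) : UnitAddCircle) = (((c t' - c t) * e i : ℝ) : UnitAddCircle) := by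
        have h1 : ((A i : ℝ) : UnitAddCircle) = χ i (∑ j, ((n j : ℕ) • θ j) - ∑ j, ((n' j : ℕ) • θ j)) := by
          rw [hAi, map_sub, map_sum, map_sum, ← Finset.sum_sub_distrib]
          have h2 : ((∑ j, (((n j : ℕ) : ℝ) - ((n' j : ℕ) : ℝ)) * f j i : ℝ) : UnitAddCircle) =
              ∑ j, (((((n j : ℕ) : ℝ) - ((n' j : ℕ) : ℝ)) * f j i : ℝ) : UnitAddCircle) := by
            exact map_sum (QuotientAddGroup.mk' (AddSubgroup.zmultiples (1 : ℝ))) _ _
          rw [h2]
          refine Finset.sum_congr rfl fun j _ => ?_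
          rw [map_nsmul, map_nsmul, hfi j, sub_mul, AddCircle.coe_sub]
          congr 1
          · rw [← nsmul_eq_mul, AddCircle.coe_nsmul, coe_lf]
          · rw [← nsmul_eq_mul, AddCircle.coe_nsmul, coe_lf]
        rw [h1]
        have h3 : ∑ j, ((n j : ℕ) • θ j) - ∑ j, ((n' j : ℕ) • θ j) = t' - t := by
          rw [sub_eq_sub_iff_add_eq_add, h0, add_comm]
        rw [h3, map_sub, hc t ht i hi, hc t' ht' i hi, ← AddCircle.coe_sub, sub_mul]
      have habs : |A i| < 1 / 4 := by
        rw [hAi]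
        refine lt_of_le_of_lt (Finset.abs_sum_le_sum_abs _ _) ?_
        refine lt_of_le_of_lt (Finset.sum_le_sum (g := fun _ => (K : ℝ) * η₁) fun j _ => ?_) ?_
        · rw [abs_mul]
          refine mul_le_mul ?_ ?_ (abs_nonneg _) (Nat.cast_nonneg _)
          · have h1 : ((n j : ℕ) : ℝ) ≤ K := by exact_mod_cast Nat.lt_succ_iff.1 (n j).2
            have h2 : ((n' j : ℕ) : ℝ) ≤ K := by exact_mod_cast Nat.lt_succ_iff.1 (n' j).2
            have h3 : (0 : ℝ) ≤ ((n j : ℕ) : ℝ) := Nat.cast_nonneg _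
            have h4 : (0 : ℝ) ≤ ((n' j : ℕ) : ℝ) := Nat.cast_nonneg _
            rw [abs_le]
            constructor <;> linarith
          · rw [hfi j, abs_lf]
            exact hX _ (hθX j) i hi
        · rw [Finset.sum_const, Finset.card_univ, Fintype.card_fin, nsmul_eq_mul]
          push_cast
          rw [← mul_assoc]
          exact hK
      have habs' : |(c t' - c t) * e i| < 1 / 2 := lt_of_le_of_lt (hcs t' ht' t ht i hi) (by norm_num)
      rw [← lf_coe (show |A i| < 1 / 2 by linarith), hcoe, lf_coe habs']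
    have hA' : A = (c t' - c t) • rs B e := by
      funext i
      by_cases hi : i ∈ B
      · rw [hA i hi]
        simp [rs, hi]
      · have h1 : ∀ j, f j i = 0 := by
          intro j
          rw [← hθ j, xv_apply_not_mem χ _ hi]
        simp only [A, Finset.sum_apply, Pi.smul_apply, smul_eq_mul, h1, mul_zero,
          Finset.sum_const_zero]
        simp [rs, hi]
    have hq : ∑ j, (((n j : ℕ) : ℝ) - ((n' j : ℕ) : ℝ)) •
        (Submodule.span ℝ {rs B e}).mkQ (f j) = 0 := by
      have h1 : (Submodule.span ℝ {rs B e}).mkQ A = 0 := by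
        rw [hA', Submodule.mkQ_apply, Submodule.Quotient.mk_eq_zero]
        exact Submodule.smul_mem _ _ (Submodule.mem_span_singleton_self _)
      rw [← h1]
      simp only [A, map_sum, map_smul]
    have hn : ∀ j, n j = n' j := by
      intro j
      have h1 := (Fintype.linearIndependent_iff.1 hli) _ hq j
      have h2 : ((n j : ℕ) : ℝ) = ((n' j : ℕ) : ℝ) := sub_eq_zero.1 h1
      exact Fin.ext (by exact_mod_cast h2)
    have hnn : n = n' := funext hn
    have htt : t = t' := by
      subst hnn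
      exact add_left_cancel h0
    subst hnn
    subst htt
    rfl
  have h1 := Fintype.card_le_of_injective Φ hinj
  rw [Fintype.card_prod, Fintype.card_fun, Fintype.card_fin, Fintype.card_fin,
    Fintype.card_coe] at h1
  omega

end

end Pool.DV5
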