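import Pool.Agent.Lib.MP_a90784_dv.Ba
import Pool.Agent.Lib.MP_a90784_dv.Col

/-!
Tank DV5, row R6 (helper29): doubling of the l^1 ball of a clean set.
-/

set_option autoImplicit false

namespace Pool.DV5

open Finset Module

section
variable {G ι : Type} [AddCommGroup G] [Fintype G] [DecidableEq ι] [Fintype ι]

/-! ### R6 doubling -/
theorem doubling (χ : ι → G →+ UnitAddCircle) (B : Finset ι) (R η₁ : ℝ) (d : ℕ)
    (hcl : Clean χ B R η₁) (hη : η₁ < 1 / 4) (hR : 0 < R) (hd : finrank ℝ (WW χ B R) ≤ d) :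
    (DD χ B R).card ≤ (8 * d + 3) ^ d * (DD χ B (R / 4)).card := by
  classical
  obtain ⟨c, hc⟩ := exists_color (WW χ B R) d 4 hd (by norm_num) R hR
  have hcard : (2 * d * 4 + 3) ^ d = (8 * d + 3) ^ d := by
    congr 1
    ring
  have key := Finset.card_le_mul_card_image_of_maps_to (s := DD χ B R)
    (t := (Finset.univ : Finset (Fin ((2 * d * 4 + 3) ^ d))))
    (f := fun θ => c (xv χ B θ)) (fun _ _ => Finset.mem_univ _) (DD χ B (R / 4)).card ?_
  · rw [Finset.card_univ, Fintype.card_fin, hcard] at key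
    rw [mul_comm]
    exact key
  · intro k _
    rcases (Finset.filter (fun θ => c (xv χ B θ) = k) (DD χ B R)).eq_empty_or_nonempty with h0 | ⟨θ₀, h0⟩
    · rw [h0]
      simp
    · rw [Finset.mem_filter] at h0
      refine Finset.card_le_card_of_injOn (fun θ => θ - θ₀) ?_ ?_
      · intro θ hθ
        rw [Finset.mem_coe, Finset.mem_filter] at hθ
        have h1 : N1 χ B θ ≤ R := mem_DD.mp hθ.1
        have h2 : N1 χ B θ₀ ≤ R := mem_DD.mp h0.1
        have hsub : xv χ B (θ - θ₀) = xv χ B θ - xv χ B θ₀ :=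
          xv_sub χ B hη θ θ₀ (hcl θ h1) (hcl θ₀ h2)
        have hw : xv χ B θ ∈ WW χ B R := xv_mem_SP χ B (X := {θ | N1 χ B θ ≤ R}) h1
        have hw' : xv χ B θ₀ ∈ WW χ B R := xv_mem_SP χ B (X := {θ | N1 χ B θ ≤ R}) h2
        have h3 := hc _ hw _ hw' (by rw [l1_xv]; exact h1) (by rw [l1_xv]; exact h2)
          (by rw [hθ.2, h0.2])
        rw [← hsub, l1_xv] at h3
        rw [Finset.mem_coe, mem_DD]
        refine h3.trans (le_of_eq ?_)
        norm_num
      · intro a _ b _ hab
        exact sub_left_injective hab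

end

end Pool.DV5
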