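import Mathlib

/-!
Tank DV5 (MP_a90784_nt), row R10: transference (Hermite).
-/

set_option autoImplicit false

namespace Pool.DV5

open Finset Module

/-- transference with values on the circle, by induction on the dimension of `W` -/
private theorem tr_aux {V : Type} [NormedAddCommGroup V] [InnerProductSpace ℝ V]
    [FiniteDimensional ℝ V] {M : Type} [AddCommGroup M] (n : ℕ) :
    ∀ (W : Submodule ℝ V), finrank ℝ W ≤ n → ∀ (D : ℝ), 0 < D → ∀ (j : M →+ V),
      (∀ m, j m ∈ W) → (∀ m, j m ≠ 0 → D ≤ ‖j m‖) → ∀ (l : M →+ UnitAddCircle),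
      (∀ m, j m = 0 → l m = 0) → ∀ f ∈ W, ∃ g ∈ W,
        (∀ m, ((inner ℝ g (j m) : ℝ) : UnitAddCircle) = l m) ∧ ‖f - g‖ ≤ 8 ^ n / D := by
  induction n with
  | zero =>
    intro W hW D hD j hj _ l hl f hf
    have hW0 : W = ⊥ := Submodule.finrank_eq_zero.mp (Nat.le_zero.mp hW)
    have h1 : ∀ m, j m = 0 := by
      intro m
      have := hj m
      rw [hW0, Submodule.mem_bot] at this
      exact this
    refine ⟨f, hf, fun m => ?_, ?_⟩
    · rw [h1 m, inner_zero_right, hl m (h1 m)]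
      rfl
    · rw [sub_self, norm_zero]
      positivity
  | succ n ih =>
    intro W hW D hD j hj hsep l hl f hf
    by_cases hz : ∀ m, j m = 0
    · refine ⟨f, hf, fun m => ?_, ?_⟩
      · rw [hz m, inner_zero_right, hl m (hz m)]
        rfl
      · rw [sub_self, norm_zero]
        positivity
    push Not at hz
    let S : Set ℝ := {t | ∃ m, j m ≠ 0 ∧ ‖j m‖ = t}
    have hSne : S.Nonempty := by
      obtain ⟨m, hm⟩ := hz
      exact ⟨_, m, hm, rfl⟩
    have hSbd : BddBelow S := ⟨0, by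
      rintro t ⟨m, _, rfl⟩
      exact norm_nonneg _⟩
    set μ : ℝ := sInf S with hμ
    have hμD : D ≤ μ := le_csInf hSne (by
      rintro t ⟨m, hm, rfl⟩
      exact hsep m hm)
    have hμ0 : 0 < μ := hD.trans_le hμD
    have hmin : ∀ m, j m ≠ 0 → μ ≤ ‖j m‖ := fun m hm => csInf_le hSbd ⟨m, hm, rfl⟩
    obtain ⟨t0, ⟨m0, hm0, rfl⟩, hlt⟩ : ∃ t ∈ S, t < 7 / 5 * μ :=
      exists_lt_of_csInf_lt hSne (by linarith)
    set x0 : V := j m0 with hx0
    set q : ℝ := inner ℝ x0 x0 with hq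
    have hqn : q = ‖x0‖ ^ 2 := real_inner_self_eq_norm_sq x0
    have hn0 : 0 < ‖x0‖ := norm_pos_iff.mpr hm0
    have hDx : D ≤ ‖x0‖ := hsep m0 hm0
    have hq0 : 0 < q := by rw [hqn]; positivity
    -- the lift
    obtain ⟨s0, hs0⟩ := QuotientAddGroup.mk_surjective (l m0)
    have hs0' : ((s0 : ℝ) : UnitAddCircle) = l m0 := hs0
    set s : ℝ := s0 + round (inner ℝ x0 f - s0) with hs
    have hsl : ((s : ℝ) : UnitAddCircle) = l m0 := by
      rw [hs, AddCircle.coe_add, hs0']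
      have : (((round (inner ℝ x0 f - s0) : ℤ) : ℝ) : UnitAddCircle) = 0 := by
        rw [AddCircle.coe_eq_zero_iff]
        exact ⟨round (inner ℝ x0 f - s0), by simp⟩
      rw [this, add_zero]
    have hsf : |inner ℝ x0 f - s| ≤ 1 / 2 := by
      have := abs_sub_round (inner ℝ x0 f - s0)
      rw [hs]
      calc |inner ℝ x0 f - (s0 + ↑(round (inner ℝ x0 f - s0)))|
          = |inner ℝ x0 f - s0 - ↑(round (inner ℝ x0 f - s0))| := by ring_nf
        _ ≤ 1 / 2 := this
    -- projection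
    let π : V →ₗ[ℝ] V :=
      { toFun := fun x => x - (inner ℝ x0 x / q) • x0
        map_add' := by
          intro x y
          rw [inner_add_right, add_div, add_smul]
          abel
        map_smul' := by
          intro c x
          rw [inner_smul_right, mul_div_assoc, mul_smul, smul_sub, RingHom.id_apply] }
    have hπ : ∀ x, π x = x - (inner ℝ x0 x / q) • x0 := fun _ => rfl
    have hπx : ∀ x, inner ℝ x0 (π x) = 0 := by
      intro x
      rw [hπ, inner_sub_right, inner_smul_right, ← hq, div_mul_cancel₀ _ hq0.ne', sub_self]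
    let W' : Submodule ℝ V := W ⊓ LinearMap.ker (innerSL ℝ x0 : V →L[ℝ] ℝ).toLinearMap
    have hmemW' : ∀ x, x ∈ W' ↔ x ∈ W ∧ inner ℝ x0 x = 0 := by
      intro x
      simp [W']
    have hx0W : x0 ∈ W := hj m0
    have hπW : ∀ x ∈ W, π x ∈ W' := by
      intro x hx
      rw [hmemW']
      exact ⟨W.sub_mem hx (W.smul_mem _ hx0W), hπx x⟩
    have hrank : finrank ℝ W' ≤ n := by
      have h1 : W' < W := by
        refine lt_of_le_of_ne inf_le_left fun h => ?_
        have h2 : x0 ∈ W' := by rw [h]; exact hx0W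
        have h3 := ((hmemW' x0).1 h2).2
        exact hq0.ne' h3
      have h2 := Submodule.finrank_lt_finrank_of_lt h1
      omega
    -- the circle valued functional
    let g0 : V := (s / q) • x0
    have hg0 : ∀ x, inner ℝ g0 x = s * (inner ℝ x0 x / q) := by
      intro x
      simp only [g0]
      rw [real_inner_smul_left]
      ring
    let k0 : M →+ UnitAddCircle :=
      (QuotientAddGroup.mk' (AddSubgroup.zmultiples (1 : ℝ))).comp
        (((innerSL ℝ g0 : V →L[ℝ] ℝ) : V →ₗ[ℝ] ℝ).toAddMonoidHom.comp j)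
    have hk0 : ∀ m, k0 m = ((inner ℝ g0 (j m) : ℝ) : UnitAddCircle) := fun _ => rfl
    let j1 : M →+ V := π.toAddMonoidHom.comp j
    have hj1 : ∀ m, j1 m = π (j m) := fun _ => rfl
    have hround : ∀ m, ∃ (r : ℤ) (c : ℝ), |c| ≤ 1 / 2 ∧ inner ℝ x0 (j m) / q = c + r ∧
        j (m - r • m0) = π (j m) + c • x0 := by
      intro m
      refine ⟨round (inner ℝ x0 (j m) / q), inner ℝ x0 (j m) / q -
        round (inner ℝ x0 (j m) / q), abs_sub_round _, by ring, ?_⟩
      rw [map_sub, map_zsmul, ← hx0, hπ, sub_smul]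
      rw [← Int.cast_smul_eq_zsmul ℝ]
      abel
    have hc2 : ∀ m, j1 m = 0 → (l - k0) m = 0 := by
      intro m hm
      obtain ⟨r, c, hc, hrc, hjr⟩ := hround m
      rw [← hj1, hm, zero_add] at hjr
      have h1 : j (m - r • m0) = 0 := by
        by_contra hne
        have h2 := hmin _ hne
        rw [hjr, norm_smul, Real.norm_eq_abs] at h2
        nlinarith [mul_le_mul_of_nonneg_right hc hn0.le]
      have h2 := hl _ h1
      rw [map_sub, map_zsmul, sub_eq_zero] at h2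
      have hc0 : c = 0 := by
        rw [hjr, smul_eq_zero] at h1
        exact h1.resolve_right hm0
      rw [AddMonoidHom.sub_apply, hk0, hg0, hrc, hc0, zero_add, h2, ← hsl, sub_eq_zero]
      rw [mul_comm, ← zsmul_eq_mul]
      exact (AddCircle.coe_zsmul (p := (1 : ℝ))).symm
    have hc3 : ∀ m, j1 m ≠ 0 → D / 2 ≤ ‖j1 m‖ := by
      intro m hm
      obtain ⟨r, c, hc, hrc, hjr⟩ := hround m
      rw [← hj1] at hjr
      have horth : inner ℝ (j1 m) (c • x0) = (0 : ℝ) := by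
        rw [inner_smul_right, real_inner_comm, hj1, hπx, mul_zero]
      have hne : j (m - r • m0) ≠ 0 := by
        intro h0
        rw [hjr] at h0
        have h1 : inner ℝ (j1 m) (j1 m + c • x0) = (0 : ℝ) := by rw [h0, inner_zero_right]
        rw [inner_add_right, horth, add_zero, inner_self_eq_zero] at h1
        exact hm h1
      have h2 := hmin _ hne
      rw [hjr] at h2
      have h3 : ‖j1 m + c • x0‖ ^ 2 = ‖j1 m‖ ^ 2 + c ^ 2 * ‖x0‖ ^ 2 := by
        rw [@norm_add_sq_real, horth, norm_smul, Real.norm_eq_abs, mul_pow, sq_abs]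
        ring
      have h4 : c ^ 2 ≤ 1 / 4 := by
        have := abs_le.mp hc
        nlinarith
      have h5 : μ ^ 2 ≤ ‖j1 m + c • x0‖ ^ 2 := pow_le_pow_left₀ hμ0.le h2 2
      have h6 : ‖x0‖ ^ 2 ≤ (7 / 5 * μ) ^ 2 := pow_le_pow_left₀ hn0.le hlt.le 2
      have h7 : D ^ 2 ≤ μ ^ 2 := pow_le_pow_left₀ hD.le hμD 2
      have h8 : (D / 2) ^ 2 ≤ ‖j1 m‖ ^ 2 := by
        have h9 : c ^ 2 * ‖x0‖ ^ 2 ≤ 1 / 4 * (7 / 5 * μ) ^ 2 :=
          mul_le_mul h4 h6 (by positivity) (by norm_num)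
        nlinarith
      exact (abs_le_of_sq_le_sq' h8 (norm_nonneg _)).2
    obtain ⟨g1, hg1W, hg1, hg1n⟩ := ih W' hrank (D / 2) (by positivity) j1
      (fun m => hπW _ (hj m)) hc3 (l - k0) hc2 (π f) (hπW f hf)
    obtain ⟨hg1W, hg1x⟩ := (hmemW' g1).1 hg1W
    refine ⟨g0 + g1, W.add_mem (W.smul_mem _ hx0W) hg1W, fun m => ?_, ?_⟩
    · have h1 : inner ℝ g1 (j m) = inner ℝ g1 (j1 m) := by
        rw [hj1, hπ, inner_sub_right, inner_smul_right, real_inner_comm x0 g1, hg1x]
        ring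
      rw [inner_add_left, AddCircle.coe_add, h1, hg1, AddMonoidHom.sub_apply, hk0]
      abel
    · have h1 : f - (g0 + g1) = (π f - g1) + ((inner ℝ x0 f - s) / q) • x0 := by
        rw [hπ, sub_div, sub_smul]
        simp only [g0]
        abel
      have h2 : ‖((inner ℝ x0 f - s) / q) • x0‖ ≤ 1 / 2 / D := by
        rw [norm_smul, Real.norm_eq_abs, abs_div, abs_of_pos hq0, hqn]
        have : |inner ℝ x0 f - s| / ‖x0‖ ^ 2 * ‖x0‖ = |inner ℝ x0 f - s| / ‖x0‖ := by
          field_simp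
        rw [this]
        exact div_le_div₀ (by norm_num) hsf hD hDx
      have h3 : (8 : ℝ) ^ n / (D / 2) + 1 / 2 / D ≤ 8 ^ (n + 1) / D := by
        have h4 : (1 : ℝ) ≤ 8 ^ n := one_le_pow₀ (by norm_num)
        rw [div_div_eq_mul_div, ← add_div, div_le_div_iff_of_pos_right hD, pow_succ]
        linarith
      rw [h1]
      exact ((norm_add_le _ _).trans (add_le_add hg1n h2)).trans h3

theorem transference (k : ℕ) (L : AddSubgroup (EuclideanSpace ℝ (Fin k))) (D : ℝ) (hD : 0 < D)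
    (hL : ∀ x ∈ L, x ≠ 0 → D ≤ ‖x‖) (f : EuclideanSpace ℝ (Fin k)) :
    ∃ g : EuclideanSpace ℝ (Fin k), (∀ x ∈ L, ∃ z : ℤ, inner ℝ g x = (z : ℝ)) ∧
      ‖f - g‖ ≤ 8 ^ k / D := by
  obtain ⟨g, -, hg, hgn⟩ := tr_aux (V := EuclideanSpace ℝ (Fin k)) (M := L) k ⊤
    (by rw [finrank_top, finrank_euclideanSpace, Fintype.card_fin]) D hD L.subtype
    (fun _ => trivial) (fun m hm => hL m.1 m.2 hm) 0 (fun _ _ => rfl) f trivial
  refine ⟨g, fun x hx => ?_, hgn⟩
  have h1 := hg ⟨x, hx⟩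
  rw [AddMonoidHom.zero_apply, AddCircle.coe_eq_zero_iff] at h1
  obtain ⟨z, hz⟩ := h1
  refine ⟨z, ?_⟩
  rw [← show (inner ℝ g (L.subtype ⟨x, hx⟩) : ℝ) = inner ℝ g x from rfl, ← hz]
  simp

end Pool.DV5
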