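import Pool.Agent.Lib.MP_a90784_dv.Co
import Pool.Agent.Lib.MP_a90784_dv.Tr

/-! Tank DV5, row R13 (helper57): integral weights. -/

set_option autoImplicit false

namespace Pool.DV5

open Finset Module

/-- `l^1` against `l^2` norm in `ℝ^d` -/
theorem R13_l1_le {d : ℕ} (y : EuclideanSpace ℝ (Fin d)) : ∑ j, |y j| ≤ √d * ‖y‖ := by
  have h1 : (∑ j, |y j|) ^ 2 ≤ (√d * ‖y‖) ^ 2 := by
    rw [mul_pow, Real.sq_sqrt (Nat.cast_nonneg d), EuclideanSpace.norm_sq_eq]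
    have h2 := Finset.sum_mul_sq_le_sq_mul_sq (Finset.univ : Finset (Fin d)) (fun _ => (1 : ℝ))
      (fun j => |y j|)
    simpa [Real.norm_eq_abs] using h2
  exact le_of_sq_le_sq h1 (by positivity)

/-- ROW R13 -/
theorem exists_p {ι : Type} [Fintype ι] (V Y : Submodule ℝ (ι → ℝ)) (hYV : Y ≤ V)
    (Γ : AddSubgroup (ι → ℝ)) (hΓ : ∀ x ∈ Γ, x ∈ V) (k : ℕ) (hk : finrank ℝ V ≤ k) (D η : ℝ)
    (hη : 0 < η) (hD : Dc k η ≤ D)
    (hgap : ∀ x ∈ Γ, x ∉ Y → ∀ y ∈ Y, D ≤ l1 (x - y)) (p : ι → ℝ)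
    (hp : ∀ y ∈ Y, ∑ i, p i * y i = 0) :
    ∃ p' : ι → ℝ, (∀ i, |p' i - p i| ≤ η) ∧ ∀ x ∈ Γ, ∃ z : ℤ, ∑ i, p' i * x i = (z : ℝ) := by
  obtain ⟨d, hd⟩ : ∃ d, finrank ℝ V = d := ⟨_, rfl⟩
  rw [hd] at hk
  obtain ⟨ω, c, u, hu, hω, hl1, hc, -, -⟩ := exists_coord V d hd 1 one_pos
  have hk1 : (0 : ℝ) < (k : ℝ) + 1 := by positivity
  have hDc : 0 < Dc k η := by
    unfold Dc
    positivity
  have hD0 : 0 < D := lt_of_lt_of_le hDc hD
  have hdk : (d : ℝ) ≤ k := by exact_mod_cast hk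
  have hsk : 0 < √((k : ℝ) + 1) := Real.sqrt_pos.2 hk1
  have hsd : √(d : ℝ) ≤ √((k : ℝ) + 1) := Real.sqrt_le_sqrt (by linarith)
  set U : Submodule ℝ (EuclideanSpace ℝ (Fin d)) := Y.map ω with hU
  set P := Uᗮ.starProjection with hP
  -- the lattice
  set L : AddSubgroup (EuclideanSpace ℝ (Fin d)) :=
    Γ.map ((P.toLinearMap.comp ω).toAddMonoidHom) with hL
  have hLD : ∀ x ∈ L, x ≠ 0 → D / √((k : ℝ) + 1) ≤ ‖x‖ := by
    intro x hx hx0
    rw [hL, AddSubgroup.mem_map] at hx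
    obtain ⟨γ, hγ, rfl⟩ := hx
    change P (ω γ) ≠ 0 at hx0
    change D / √((k : ℝ) + 1) ≤ ‖P (ω γ)‖
    have hγY : γ ∉ Y := by
      intro hγY
      apply hx0
      rw [hP, Submodule.starProjection_apply_eq_zero_iff, Submodule.orthogonal_orthogonal]
      exact Submodule.mem_map_of_mem hγY
    -- `P (ω γ) = ω γ - u`, `u ∈ U`
    have h1 : P (ω γ) = ω γ - U.starProjection (ω γ) := by
      rw [hP, Submodule.starProjection_orthogonal_val]
    obtain ⟨y, hy, hyu⟩ := (Submodule.mem_map.1 (U.starProjection_apply_mem (ω γ)))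
    rw [← hyu, ← map_sub] at h1
    rw [h1, div_le_iff₀ hsk]
    have h2 := hgap γ hγ hγY y hy
    have h3 := hl1 (γ - y) (V.sub_mem (hΓ γ hγ) (hYV hy))
    rw [one_mul] at h3
    have h4 := R13_l1_le (ω (γ - y))
    have h5 : √(d : ℝ) * ‖ω (γ - y)‖ ≤ √((k : ℝ) + 1) * ‖ω (γ - y)‖ :=
      mul_le_mul_of_nonneg_right hsd (norm_nonneg _)
    linarith
  -- the vector of `p`
  set f : EuclideanSpace ℝ (Fin d) := ∑ i, p i • c i with hf
  have hfw : ∀ w ∈ V, inner ℝ f (ω w) = ∑ i, p i * w i := by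
    intro w hw
    rw [hf, sum_inner]
    apply Finset.sum_congr rfl
    intro i _
    rw [real_inner_smul_left, ← hc w hw i]
  have hfU : P f = f := by
    rw [hP, Submodule.starProjection_eq_self_iff, Submodule.mem_orthogonal']
    intro v hv
    obtain ⟨y, hy, rfl⟩ := Submodule.mem_map.1 hv
    rw [hfw y (hYV hy), hp y hy]
  obtain ⟨g, hg1, hg2⟩ := transference d L (D / √((k : ℝ) + 1)) (by positivity) hLD f
  set e : EuclideanSpace ℝ (Fin d) := P g - f with he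
  have hen : ‖e‖ ≤ 8 ^ d / (D / √((k : ℝ) + 1)) := by
    have h1 : e = P (g - f) := by rw [map_sub, hfU]
    rw [h1]
    refine le_trans (Submodule.norm_starProjection_apply_le _ _) ?_
    rw [norm_sub_rev]
    exact hg2
  refine ⟨fun i => p i + ∑ j, e j * u j i, ?_, ?_⟩
  · intro i
    have h1 : |p i + ∑ j, e j * u j i - p i| ≤ ∑ j, |e j| := by
      rw [add_sub_cancel_left]
      refine (Finset.abs_sum_le_sum_abs _ _).trans (Finset.sum_le_sum fun j _ => ?_)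
      rw [abs_mul]
      exact mul_le_of_le_one_right (abs_nonneg _) (hu j i)
    refine h1.trans ((R13_l1_le e).trans ?_)
    have h8 : (8 : ℝ) ^ d ≤ 8 ^ k := pow_le_pow_right₀ (by norm_num) hk
    have h2 : √(d : ℝ) * ‖e‖ ≤ √((k : ℝ) + 1) * (8 ^ k / (D / √((k : ℝ) + 1))) := by
      apply mul_le_mul hsd (hen.trans _) (norm_nonneg _) (Real.sqrt_nonneg _)
      exact div_le_div_of_nonneg_right h8 (by positivity)
    have h3 : √((k : ℝ) + 1) * (8 ^ k / (D / √((k : ℝ) + 1))) = ((k : ℝ) + 1) * 8 ^ k / D := by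
      rw [div_div_eq_mul_div, mul_div_assoc', mul_comm (8 ^ k : ℝ), ← mul_assoc,
        Real.mul_self_sqrt hk1.le]
    rw [h3] at h2
    refine h2.trans ?_
    rw [div_le_iff₀ hD0]
    have h4 : ((k : ℝ) + 1) ^ 2 * 8 ^ k ≤ η * D := by
      have h5 : ((k : ℝ) + 1) ^ 2 * 8 ^ k / η ≤ D := hD
      rw [div_le_iff₀ hη] at h5
      linarith
    have h6 : ((k : ℝ) + 1) * 8 ^ k ≤ ((k : ℝ) + 1) ^ 2 * 8 ^ k := by
      apply mul_le_mul_of_nonneg_right _ (by positivity)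
      have : (0 : ℝ) ≤ k := Nat.cast_nonneg k
      nlinarith
    linarith
  · intro x hx
    have hxV := hΓ x hx
    obtain ⟨z, hz⟩ := hg1 (P (ω x)) (by
      rw [hL, AddSubgroup.mem_map]
      exact ⟨x, hx, rfl⟩)
    refine ⟨z, ?_⟩
    have h1 : inner ℝ (P g) (ω x) = (z : ℝ) := by
      rw [← hz, hP, Submodule.inner_starProjection_left_eq_right]
    have h2 : ∑ i, (p i + ∑ j, e j * u j i) * x i = ∑ i, p i * x i + ∑ j, e j * (ω x) j := by
      have h3 : ∀ j, e j * (ω x) j = ∑ i, e j * u j i * x i := by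
        intro j
        rw [hω x j, div_one, Finset.mul_sum]
        apply Finset.sum_congr rfl
        intro i _
        ring
      simp_rw [h3, add_mul, Finset.sum_add_distrib, Finset.sum_mul]
      rw [Finset.sum_comm]
    have h4 : ∑ j, e j * (ω x) j = inner ℝ e (ω x) := by
      rw [PiLp.inner_apply]
      apply Finset.sum_congr rfl
      intro j _
      simp [mul_comm]
    rw [h2, h4, ← hfw x hxV, he, inner_sub_left, h1]
    ring

end Pool.DV5
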