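import Mathlib
import Pool.Agent.Lib.MP_a90784_dv.Defs

set_option autoImplicit false

namespace Pool.DV5

open Finset Module

theorem fo_coe_lf (t : UnitAddCircle) : ((lf t : ℝ) : UnitAddCircle) = t :=
  AddCircle.coe_equivIco

theorem fo_abs_lf (t : UnitAddCircle) : |lf t| = ‖t‖ := by
  have h := (AddCircle.equivIco (1 : ℝ) (-1/2) t).2
  have h1 : |lf t| ≤ 1 / 2 := by
    rw [abs_le]
    have h2 : -1 / 2 ≤ lf t := h.1
    have h3 : lf t < -1 / 2 + 1 := h.2
    constructor <;> linarith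
  conv_rhs => rw [← fo_coe_lf t]
  exact ((AddCircle.norm_coe_eq_abs_iff (1 : ℝ) one_ne_zero).mpr (by simpa using h1)).symm

theorem fo_lf_zero : lf 0 = 0 := by
  have h := fo_abs_lf 0
  rwa [norm_zero, abs_eq_zero] at h

/-- `exp (2 π i x)` -/
noncomputable def ex (x : ℝ) : ℂ := Complex.exp ((2 * Real.pi * x : ℝ) * Complex.I)

theorem ex_re (x : ℝ) : (ex x).re = Real.cos (2 * Real.pi * x) := by
  rw [ex, Complex.exp_ofReal_mul_I_re]

theorem ex_im (x : ℝ) : (ex x).im = Real.sin (2 * Real.pi * x) := by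
  rw [ex, Complex.exp_ofReal_mul_I_im]

theorem ex_add (x y : ℝ) : ex (x + y) = ex x * ex y := by
  rw [ex, ex, ex, ← Complex.exp_add]
  congr 1
  push_cast
  ring

theorem ex_zero : ex 0 = 1 := by simp [ex]

theorem ex_int (z : ℤ) : ex (z : ℝ) = 1 := by
  rw [ex, Complex.exp_eq_one_iff]
  exact ⟨z, by push_cast; ring⟩

theorem ex_sum {ι : Type} (S : Finset ι) (f : ι → ℝ) : ex (∑ i ∈ S, f i) = ∏ i ∈ S, ex (f i) := by
  classical
  induction S using Finset.induction_on with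
  | empty => simp [ex_zero]
  | insert i s hi ih => rw [Finset.sum_insert hi, Finset.prod_insert hi, ex_add, ih]

theorem toCircle_lf (t : UnitAddCircle) : ((AddCircle.toCircle t : Circle) : ℂ) = ex (lf t) := by
  conv_lhs => rw [← fo_coe_lf t]
  rw [AddCircle.toCircle_apply_mk, Circle.coe_exp, ex]
  congr 1
  push_cast
  ring

theorem std_eq_ex (a : ℕ) [NeZero a] {ι : Type} (v : ι → ℕ) (i : ι) (r : ZMod a) :
    (ZMod.stdAddChar ((v i : ZMod a) * r) : ℂ) = ex (lf (chi a v i r)) := by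
  rw [← toCircle_lf, ZMod.stdAddChar_apply]
  congr 1
  have : chi a v i r = ZMod.toAddCircle ((v i : ZMod a) * r) := by
    rw [chi, AddMonoidHom.smul_apply, ← map_nsmul, nsmul_eq_mul]
  rw [this]
  rfl

/-- factor bound -/
theorem factor_le (p η x : ℝ) (hη : 0 < η) (hη4 : η ≤ 1 / 2) (h1 : η ≤ p) (h2 : p ≤ 1 - η)
    (hx : |x| ≤ 1 / 2) : ‖(1 - p : ℂ) + p * ex x‖ ≤ Real.exp (-(4 * η * x ^ 2)) := by
  have hsq : ‖(1 - p : ℂ) + p * ex x‖ ^ 2 = 1 - 4 * p * (1 - p) * Real.sin (Real.pi * x) ^ 2 := by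
    rw [← Complex.normSq_eq_norm_sq, Complex.normSq_apply]
    have hre : ((1 - p : ℂ) + p * ex x).re = 1 - p + p * Real.cos (2 * Real.pi * x) := by
      simp [ex_re]
    have him : ((1 - p : ℂ) + p * ex x).im = p * Real.sin (2 * Real.pi * x) := by
      simp [ex_im]
    rw [hre, him]
    have hc : Real.cos (2 * Real.pi * x) = 1 - 2 * Real.sin (Real.pi * x) ^ 2 := by
      rw [show 2 * Real.pi * x = 2 * (Real.pi * x) by ring, Real.cos_two_mul]
      nlinarith [Real.sin_sq_add_cos_sq (Real.pi * x)]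
    have hs := Real.sin_sq_add_cos_sq (2 * Real.pi * x)
    rw [hc] at hs ⊢
    have hs' : Real.sin (2 * Real.pi * x) ^ 2 = 1 - (1 - 2 * Real.sin (Real.pi * x) ^ 2) ^ 2 := by
      linarith
    have h2 : p * Real.sin (2 * Real.pi * x) * (p * Real.sin (2 * Real.pi * x)) =
        p ^ 2 * Real.sin (2 * Real.pi * x) ^ 2 := by ring
    rw [h2, hs']
    ring
  have hsin : 4 * x ^ 2 ≤ Real.sin (Real.pi * x) ^ 2 := by
    have h := Real.mul_abs_le_abs_sin (x := Real.pi * x) (by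
      rw [abs_mul, abs_of_pos Real.pi_pos]; nlinarith [Real.pi_pos])
    rw [abs_mul, abs_of_pos Real.pi_pos] at h
    have h' : 2 * |x| ≤ |Real.sin (Real.pi * x)| := by
      calc 2 * |x| = 2 / Real.pi * (Real.pi * |x|) := by field_simp
        _ ≤ _ := h
    have := pow_le_pow_left₀ (by positivity) h' 2
    rw [sq_abs, mul_pow, sq_abs] at this
    linarith
  have hpp : η / 2 ≤ p * (1 - p) := by nlinarith
  have h8 : ‖(1 - p : ℂ) + p * ex x‖ ^ 2 ≤ Real.exp (-(4 * η * x ^ 2)) ^ 2 := by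
    rw [hsq, ← Real.exp_nat_mul]
    have : 8 * η * x ^ 2 ≤ 4 * p * (1 - p) * Real.sin (Real.pi * x) ^ 2 := by
      have := mul_le_mul hpp hsin (by positivity) (by nlinarith)
      nlinarith
    have := Real.one_sub_le_exp_neg (8 * η * x ^ 2)
    push_cast
    rw [show (2 : ℝ) * -(4 * η * x ^ 2) = -(8 * η * x ^ 2) by ring]
    linarith
  exact le_of_sq_le_sq h8 (Real.exp_pos _).le

theorem sin_sub_abs (t : ℝ) : |Real.sin t - t| ≤ |t| ^ 3 / 4 := by
  rcases lt_trichotomy t 0 with h | h | h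
  · have h1 : 0 < -t := by linarith
    have h3 : 0 < (-t) ^ 3 := by positivity
    have a1 := Real.sin_lt h1
    have a2 := Real.sin_gt_sub_cube h1
    rw [Real.sin_neg] at a1 a2
    rw [abs_of_neg h, abs_le]
    constructor <;> linarith
  · subst h; simp
  · have h3 : 0 < t ^ 3 := by positivity
    have a1 := Real.sin_lt h
    have a2 := Real.sin_gt_sub_cube h
    rw [abs_of_pos h, abs_le]
    constructor <;> linarith

theorem cos_half (t : ℝ) (ht : |t| ≤ 0.79) : 1 / 2 ≤ Real.cos t := by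
  have h := Real.one_sub_sq_div_two_le_cos (x := t)
  have h2 : t ^ 2 ≤ 0.79 ^ 2 := by rw [← sq_abs]; gcongr
  norm_num at h2
  linarith

/-- the twisted factor -/
theorem twisted (p x : ℝ) (h0 : 0 ≤ p) (h1 : p ≤ 1) (hx : |x| ≤ 1 / 8) :
    ∃ g e : ℝ, 0 < g ∧ |e| ≤ 22 * |x| ^ 3 ∧
      (1 - p : ℂ) + p * ex x = ex (p * x) * ((g : ℂ) * (1 + (e : ℂ) * Complex.I)) := by
  set g : ℝ := (1 - p) * Real.cos (2 * Real.pi * (p * x)) + p * Real.cos (2 * Real.pi * ((1 - p) * x))
    with hg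
  set y : ℝ := p * Real.sin (2 * Real.pi * ((1 - p) * x)) - (1 - p) * Real.sin (2 * Real.pi * (p * x))
    with hy
  have hpi : Real.pi < 3.15 := Real.pi_lt_d2
  have hpi0 := Real.pi_pos
  have habs : ∀ z : ℝ, |2 * Real.pi * z| = 2 * Real.pi * |z| := by
    intro z
    rw [abs_mul, abs_of_pos (by positivity : (0 : ℝ) < 2 * Real.pi)]
  have hb1 : |2 * Real.pi * (p * x)| ≤ 0.79 := by
    rw [habs, abs_mul, abs_of_nonneg h0]
    have : p * |x| ≤ 1 / 8 := by nlinarith [abs_nonneg x]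
    nlinarith [mul_nonneg h0 (abs_nonneg x)]
  have hb2 : |2 * Real.pi * ((1 - p) * x)| ≤ 0.79 := by
    rw [habs, abs_mul, abs_of_nonneg (by linarith : (0 : ℝ) ≤ 1 - p)]
    have : (1 - p) * |x| ≤ 1 / 8 := by nlinarith [abs_nonneg x]
    nlinarith [mul_nonneg (by linarith : (0 : ℝ) ≤ 1 - p) (abs_nonneg x)]
  have hgh : 1 / 2 ≤ g := by
    have c1 := cos_half _ hb1
    have c2 := cos_half _ hb2
    rw [hg]
    nlinarith
  have hyb : |y| ≤ 11 * |x| ^ 3 := by
    have s1 := sin_sub_abs (2 * Real.pi * (p * x))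
    have s2 := sin_sub_abs (2 * Real.pi * ((1 - p) * x))
    have e1 : |2 * Real.pi * (p * x)| = 2 * Real.pi * (p * |x|) := by
      rw [habs, abs_mul, abs_of_nonneg h0]
    have e2 : |2 * Real.pi * ((1 - p) * x)| = 2 * Real.pi * ((1 - p) * |x|) := by
      rw [habs, abs_mul, abs_of_nonneg (by linarith : (0 : ℝ) ≤ 1 - p)]
    rw [e1] at s1
    rw [e2] at s2
    have hyy : y = p * (Real.sin (2 * Real.pi * ((1 - p) * x)) - 2 * Real.pi * ((1 - p) * x)) -
        (1 - p) * (Real.sin (2 * Real.pi * (p * x)) - 2 * Real.pi * (p * x)) := by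
      rw [hy]; ring
    have hb : |y| ≤ p * ((2 * Real.pi * ((1 - p) * |x|)) ^ 3 / 4) +
        (1 - p) * ((2 * Real.pi * (p * |x|)) ^ 3 / 4) := by
      rw [hyy]
      refine (abs_sub _ _).trans ?_
      rw [abs_mul, abs_mul, abs_of_nonneg h0, abs_of_nonneg (by linarith : (0 : ℝ) ≤ 1 - p)]
      exact add_le_add (mul_le_mul_of_nonneg_left s2 h0)
        (mul_le_mul_of_nonneg_left s1 (by linarith))
    have hid : p * ((2 * Real.pi * ((1 - p) * |x|)) ^ 3 / 4) +
        (1 - p) * ((2 * Real.pi * (p * |x|)) ^ 3 / 4) =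
        2 * Real.pi ^ 3 * |x| ^ 3 * (p * (1 - p) * (p ^ 2 + (1 - p) ^ 2)) := by ring
    have hu : p * (1 - p) * (p ^ 2 + (1 - p) ^ 2) ≤ 1 / 8 := by
      nlinarith [sq_nonneg (4 * (p * (1 - p)) - 1)]
    have hp3 : Real.pi ^ 3 ≤ 44 := by
      calc Real.pi ^ 3 ≤ 3.15 ^ 3 := by gcongr
        _ ≤ 44 := by norm_num
    rw [hid] at hb
    calc |y| ≤ 2 * Real.pi ^ 3 * |x| ^ 3 * (p * (1 - p) * (p ^ 2 + (1 - p) ^ 2)) := hb
      _ ≤ 2 * Real.pi ^ 3 * |x| ^ 3 * (1 / 8) := by gcongr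
      _ ≤ 2 * 44 * |x| ^ 3 * (1 / 8) := by gcongr
      _ = 11 * |x| ^ 3 := by ring
  refine ⟨g, y / g, by linarith, ?_, ?_⟩
  · rw [abs_div, abs_of_pos (by linarith : 0 < g), div_le_iff₀ (by linarith : 0 < g)]
    nlinarith [pow_nonneg (abs_nonneg x) 3]
  · have hg0 : (g : ℂ) ≠ 0 := by
      exact_mod_cast (by linarith : g ≠ 0)
    have h1 : (g : ℂ) * (1 + ((y / g : ℝ) : ℂ) * Complex.I) = (g : ℂ) + (y : ℂ) * Complex.I := by
      push_cast
      field_simp
    rw [h1]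
    have h2 : (g : ℂ) + (y : ℂ) * Complex.I = (1 - p : ℂ) * ex (-(p * x)) + p * ex ((1 - p) * x) := by
      apply Complex.ext
      · simp only [Complex.add_re, Complex.ofReal_re, Complex.mul_re, Complex.I_re, mul_zero,
          Complex.ofReal_im, Complex.I_im, mul_one, sub_self, add_zero, Complex.sub_re,
          Complex.one_re, Complex.sub_im, Complex.one_im, ex_re, ex_im, zero_mul, sub_zero]
        rw [hg, show 2 * Real.pi * -(p * x) = -(2 * Real.pi * (p * x)) by ring, Real.cos_neg]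
      · simp only [Complex.add_im, Complex.ofReal_im, Complex.mul_im, Complex.ofReal_re,
          Complex.I_im, mul_one, Complex.I_re, mul_zero, add_zero, zero_add, Complex.sub_re,
          Complex.one_re, Complex.sub_im, Complex.one_im, ex_re, ex_im, sub_self, zero_mul]
        rw [hy, show 2 * Real.pi * -(p * x) = -(2 * Real.pi * (p * x)) by ring, Real.sin_neg]
        ring
    rw [h2, mul_add, mul_left_comm, ← ex_add, mul_left_comm, ← ex_add]
    rw [show p * x + -(p * x) = 0 by ring, show p * x + (1 - p) * x = x by ring, ex_zero, mul_one]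

/-- the product over the coordinates has nonnegative real part -/
theorem prod_re_nonneg {ι : Type} (S : Finset ι) (p x : ι → ℝ) (η₁ Rb : ℝ)
    (h0 : ∀ i ∈ S, 0 ≤ p i) (h1 : ∀ i ∈ S, p i ≤ 1) (hx : ∀ i ∈ S, |x i| ≤ η₁) (hη₁ : η₁ ≤ 1 / 8)
    (hN : ∑ i ∈ S, x i ^ 2 ≤ Rb) (hsm : 100 * η₁ * Rb ≤ 1)
    (hz : ∃ z : ℤ, ∑ i ∈ S, p i * x i = (z : ℝ)) :
    0 ≤ (∏ i ∈ S, ((1 - p i : ℂ) + p i * ex (x i))).re := by
  classical
  have hex : ∀ i : ι, ∃ ge : ℝ × ℝ, i ∈ S → 0 < ge.1 ∧ |ge.2| ≤ 22 * |x i| ^ 3 ∧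
      (1 - p i : ℂ) + p i * ex (x i) =
        ex (p i * x i) * ((ge.1 : ℂ) * (1 + (ge.2 : ℂ) * Complex.I)) := by
    intro i
    by_cases hi : i ∈ S
    · obtain ⟨g, e, hg, he, hh⟩ := twisted (p i) (x i) (h0 i hi) (h1 i hi) ((hx i hi).trans hη₁)
      exact ⟨(g, e), fun _ => ⟨hg, he, hh⟩⟩
    · exact ⟨(0, 0), fun h => absurd h hi⟩
  choose ge hge using hex
  have hprod : ∏ i ∈ S, ((1 - p i : ℂ) + p i * ex (x i)) =
      ((∏ i ∈ S, (ge i).1 : ℝ) : ℂ) * ∏ i ∈ S, (1 + ((ge i).2 : ℂ) * Complex.I) := by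
    rw [Finset.prod_congr rfl (fun i hi => (hge i hi).2.2), Finset.prod_mul_distrib,
      Finset.prod_mul_distrib, ← ex_sum]
    obtain ⟨z, hz⟩ := hz
    rw [hz, ex_int, one_mul]
    push_cast
    rfl
  rw [hprod, Complex.re_ofReal_mul]
  apply mul_nonneg (Finset.prod_nonneg (fun i hi => (hge i hi).1.le))
  have hb := Finset.norm_prod_one_add_sub_one_le S (fun i => ((ge i).2 : ℂ) * Complex.I)
  have hsum : ∑ i ∈ S, ‖((ge i).2 : ℂ) * Complex.I‖ ≤ 1 / 4 := by
    calc ∑ i ∈ S, ‖((ge i).2 : ℂ) * Complex.I‖ ≤ ∑ i ∈ S, 22 * η₁ * x i ^ 2 := by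
          apply Finset.sum_le_sum
          intro i hi
          rw [norm_mul, Complex.norm_I, mul_one, Complex.norm_real, Real.norm_eq_abs]
          refine (hge i hi).2.1.trans ?_
          have : |x i| ^ 3 = |x i| * x i ^ 2 := by rw [← sq_abs]; ring
          rw [this]
          have := mul_le_mul_of_nonneg_right (hx i hi) (sq_nonneg (x i))
          nlinarith
      _ = 22 * η₁ * ∑ i ∈ S, x i ^ 2 := by rw [Finset.mul_sum]
      _ ≤ 1 / 4 := by
          rcases S.eq_empty_or_nonempty with rfl | ⟨i, hi⟩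
          · norm_num
          · have hη0 : 0 ≤ η₁ := (abs_nonneg _).trans (hx i hi)
            have := mul_le_mul_of_nonneg_left hN hη0
            nlinarith
  have hexp : Real.exp (∑ i ∈ S, ‖((ge i).2 : ℂ) * Complex.I‖) ≤ 2 := by
    refine (Real.exp_le_exp.mpr hsum).trans ?_
    have h4 : Real.exp (1 / 4) ^ 4 = Real.exp 1 := by rw [← Real.exp_nat_mul]; norm_num
    have he : Real.exp 1 < 16 := by have := Real.exp_one_lt_d9; linarith
    by_contra hcon
    push Not at hcon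
    have : (2 : ℝ) ^ 4 < Real.exp (1 / 4) ^ 4 := by gcongr
    rw [h4] at this
    norm_num at this
    linarith
  have hle : ‖∏ i ∈ S, (1 + ((ge i).2 : ℂ) * Complex.I) - 1‖ ≤ 1 := by linarith
  have hre := Complex.abs_re_le_norm (∏ i ∈ S, (1 + ((ge i).2 : ℂ) * Complex.I) - 1)
  rw [Complex.sub_re, Complex.one_re] at hre
  have := (abs_le.mp (hre.trans hle)).1
  linarith

theorem addChar_sum {ι : Type} [DecidableEq ι] (a : ℕ) [NeZero a] (T : Finset ι)
    (f : ι → ZMod a) :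
    (ZMod.stdAddChar (∑ i ∈ T, f i) : ℂ) = ∏ i ∈ T, ZMod.stdAddChar (f i) := by
  induction T using Finset.induction_on with
  | empty => simp
  | insert i s hi ih => rw [Finset.sum_insert hi, Finset.prod_insert hi, AddChar.map_add_eq_mul, ih]

/-- the exact sum -/
theorem sum_exact {ι : Type} [DecidableEq ι] (a : ℕ) [NeZero a] (v : ι → ℕ) (S : Finset ι)
    (p : ι → ℝ) (hS : ∀ T ⊆ S, T.Nonempty → ¬ a ∣ ∑ i ∈ T, v i) :
    ∑ r : ZMod a, ∏ i ∈ S, ((1 - p i : ℂ) + p i * ex (lf (chi a v i r))) =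
      ((a * ∏ i ∈ S, (1 - p i) : ℝ) : ℂ) := by
  have h1 : ∀ r : ZMod a, ∏ i ∈ S, ((1 - p i : ℂ) + p i * ex (lf (chi a v i r))) =
      ∑ T ∈ S.powerset, (∏ i ∈ T, (p i : ℂ)) * (∏ i ∈ S \ T, (1 - p i : ℂ)) *
        ZMod.stdAddChar (r * ((∑ i ∈ T, v i : ℕ) : ZMod a)) := by
    intro r
    have : ∏ i ∈ S, ((1 - p i : ℂ) + p i * ex (lf (chi a v i r))) =
        ∏ i ∈ S, (p i * ex (lf (chi a v i r)) + (1 - p i : ℂ)) := by
      apply Finset.prod_congr rfl; intro i _; ring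
    rw [this, Finset.prod_add]
    apply Finset.sum_congr rfl
    intro T hT
    rw [Finset.prod_mul_distrib]
    have h2 : ∏ i ∈ T, ex (lf (chi a v i r)) =
        ZMod.stdAddChar (r * ((∑ i ∈ T, v i : ℕ) : ZMod a)) := by
      rw [Nat.cast_sum, Finset.mul_sum, addChar_sum]
      apply Finset.prod_congr rfl
      intro i _
      rw [mul_comm, std_eq_ex]
    rw [h2]
    ring
  rw [Finset.sum_congr rfl (fun r _ => h1 r), Finset.sum_comm]
  have h3 : ∀ T ∈ S.powerset, ∑ r : ZMod a, (∏ i ∈ T, (p i : ℂ)) * (∏ i ∈ S \ T, (1 - p i : ℂ)) *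
        ZMod.stdAddChar (r * ((∑ i ∈ T, v i : ℕ) : ZMod a)) =
      if T = ∅ then (a : ℂ) * ∏ i ∈ S, (1 - p i : ℂ) else 0 := by
    intro T hT
    rw [← Finset.mul_sum, AddChar.sum_mulShift _ (ZMod.isPrimitive_stdAddChar a)]
    by_cases hTe : T = ∅
    · subst hTe
      simp [ZMod.card, mul_comm]
    · have hne := Finset.nonempty_iff_ne_empty.mpr hTe
      have hnd := hS T (Finset.mem_powerset.mp hT) hne
      rw [if_neg, if_neg hTe, Nat.cast_zero, mul_zero]
      rwa [ZMod.natCast_eq_zero_iff]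
  rw [Finset.sum_congr rfl h3, Finset.sum_ite_eq' S.powerset ∅, if_pos (Finset.empty_mem_powerset S)]
  push_cast
  rfl

/-! ### R14 Fourier positivity -/
theorem fourier_pos {ι : Type} [DecidableEq ι] (a : ℕ) [NeZero a] (v : ι → ℕ) (S : Finset ι)
    (η η₁ Rb : ℝ) (hη : 0 < η) (hη4 : η ≤ 1 / 2) (p : ι → ℝ)
    (hp : ∀ i ∈ S, η ≤ p i ∧ p i ≤ 1 - η)
    (hS : ∀ T ⊆ S, T.Nonempty → ¬ a ∣ ∑ i ∈ T, v i)
    (hRb : Real.log (4 * a) ≤ 4 * η * Rb) (hcard : Real.log (4 * a) ≤ η * S.card)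
    (hcl : Clean2 (chi a v) S Rb η₁) (hsm : 100 * η₁ * Rb ≤ 1) (hη₁ : η₁ ≤ 1 / 8)
    (hint : ∀ r : ZMod a, N2 (chi a v) S r ≤ Rb →
      ∃ z : ℤ, ∑ i ∈ S, p i * lf (chi a v i r) = (z : ℝ)) : False := by
  classical
  have ha : (0 : ℝ) < a := by exact_mod_cast Nat.pos_of_ne_zero (NeZero.ne a)
  have h4a : (0 : ℝ) < 4 * a := by positivity
  set F : ZMod a → ℂ := fun r => ∏ i ∈ S, ((1 - p i : ℂ) + p i * ex (lf (chi a v i r))) with hF
  have hxhalf : ∀ (i : ι) (r : ZMod a), |lf (chi a v i r)| ≤ 1 / 2 := by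
    intro i r
    rw [fo_abs_lf]
    exact AddCircle.norm_le_half_period (1 : ℝ) one_ne_zero |>.trans (by norm_num)
  have hN2 : ∀ r : ZMod a, N2 (chi a v) S r = ∑ i ∈ S, lf (chi a v i r) ^ 2 := by
    intro r
    rw [N2]
    apply Finset.sum_congr rfl
    intro i _
    rw [← fo_abs_lf, sq_abs]
  -- upper bound of the exact value
  have hup : ((∑ r : ZMod a, F r).re) ≤ 1 / 4 := by
    rw [hF, sum_exact a v S p hS, Complex.ofReal_re]
    have h1 : ∏ i ∈ S, (1 - p i) ≤ Real.exp (-(η * S.card)) := by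
      calc ∏ i ∈ S, (1 - p i) ≤ ∏ _i ∈ S, Real.exp (-η) := by
            apply Finset.prod_le_prod
            · intro i hi; linarith [(hp i hi).2]
            · intro i hi
              have := Real.one_sub_le_exp_neg η
              linarith [(hp i hi).1]
        _ = Real.exp (-(η * S.card)) := by
            rw [Finset.prod_const, ← Real.exp_nat_mul]
            congr 1
            ring
    have h2 : Real.exp (-(η * S.card)) ≤ 1 / (4 * a) := by
      rw [one_div, ← Real.exp_log (inv_pos.mpr h4a), Real.exp_le_exp, Real.log_inv]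
      linarith
    calc (a : ℝ) * ∏ i ∈ S, (1 - p i) ≤ a * (1 / (4 * a)) := by
          apply mul_le_mul_of_nonneg_left (h1.trans h2) ha.le
      _ = 1 / 4 := by field_simp
  -- lower bound
  have hF0 : F 0 = 1 := by
    rw [hF]
    apply Finset.prod_eq_one
    intro i _
    rw [map_zero]
    rw [fo_lf_zero, ex_zero]
    ring
  have hlow : ∀ r : ZMod a, -(1 / (4 * a)) ≤ (F r).re := by
    intro r
    by_cases hr : N2 (chi a v) S r ≤ Rb
    · have : 0 ≤ (F r).re := by
        apply prod_re_nonneg S p (fun i => lf (chi a v i r)) η₁ Rb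
        · intro i hi; linarith [(hp i hi).1]
        · intro i hi; linarith [(hp i hi).2]
        · intro i hi; rw [fo_abs_lf]; exact hcl r hr i hi
        · exact hη₁
        · rw [← hN2]; exact hr
        · exact hsm
        · exact hint r hr
      have : 0 < 1 / (4 * (a : ℝ)) := by positivity
      linarith
    · push Not at hr
      have h1 : ‖F r‖ ≤ 1 / (4 * a) := by
        rw [hF]
        simp only
        rw [norm_prod]
        calc ∏ i ∈ S, ‖(1 - p i : ℂ) + p i * ex (lf (chi a v i r))‖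
            ≤ ∏ i ∈ S, Real.exp (-(4 * η * lf (chi a v i r) ^ 2)) := by
              apply Finset.prod_le_prod
              · intro i _; exact norm_nonneg _
              · intro i hi
                exact factor_le (p i) η _ hη hη4 (hp i hi).1 (hp i hi).2 (hxhalf i r)
          _ = Real.exp (-(4 * η * N2 (chi a v) S r)) := by
              rw [← Real.exp_sum, hN2, Finset.sum_neg_distrib, Finset.mul_sum]
          _ ≤ 1 / (4 * a) := by
              rw [one_div, ← Real.exp_log (inv_pos.mpr h4a), Real.exp_le_exp, Real.log_inv]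
              have := mul_le_mul_of_nonneg_left hr.le (by positivity : 0 ≤ 4 * η)
              linarith
      have h2 := Complex.abs_re_le_norm (F r)
      have := (abs_le.mp (h2.trans h1)).1
      exact this
  have hsum : 3 / 4 ≤ (∑ r : ZMod a, F r).re := by
    rw [← Finset.add_sum_erase _ _ (Finset.mem_univ (0 : ZMod a)), Complex.add_re, hF0,
      Complex.one_re, Complex.re_sum]
    have h1 : ∑ r ∈ (Finset.univ.erase (0 : ZMod a)), (-(1 / (4 * (a : ℝ)))) ≤
        ∑ r ∈ (Finset.univ.erase (0 : ZMod a)), (F r).re :=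
      Finset.sum_le_sum (fun r _ => hlow r)
    rw [Finset.sum_const, nsmul_eq_mul] at h1
    have h2 : (((Finset.univ.erase (0 : ZMod a)).card : ℕ) : ℝ) ≤ a := by
      have := Finset.card_le_univ (Finset.univ.erase (0 : ZMod a))
      rw [ZMod.card] at this
      exact_mod_cast this
    have h3 : (((Finset.univ.erase (0 : ZMod a)).card : ℕ) : ℝ) * (1 / (4 * a)) ≤ 1 / 4 := by
      calc _ ≤ (a : ℝ) * (1 / (4 * a)) := by
            apply mul_le_mul_of_nonneg_right h2 (by positivity)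
        _ = 1 / 4 := by field_simp
    linarith
  linarith

end Pool.DV5
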