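import Pool.Agent.Lib.MP_a90784_dv.Rou
import Pool.Agent.Lib.MP_a90784_dv.Ba

/-!
Tank DV5 (MP_a90784_nt), row R12 (helper87): the gap.
-/

set_option autoImplicit false

namespace Pool.DV5

open Finset Module

section
variable {G ι : Type} [AddCommGroup G] [DecidableEq ι] [Fintype ι]

theorem gap (χ : ι → G →+ UnitAddCircle) (B : Finset ι) (Rb K K' D : ℝ) (d : ℕ) (hK : 0 ≤ K)
    (hKK' : K ≤ K')
    (hY : SP χ B {θ | N1 χ B θ ≤ K} = SP χ B {θ | N1 χ B θ ≤ K'})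
    (hd : finrank ℝ (SP χ B {θ | N1 χ B θ ≤ K}) ≤ d)
    (hK' : D + d * K / 2 ≤ K') (hKb : K' ≤ 2 * Rb)
    (hno : ∀ z ∈ SP χ B {θ | N2 χ B θ ≤ Rb}, (∀ i ∈ B, ∃ n : ℤ, z i = n) → l1 z ≤ 2 * K' → z = 0) :
    ∀ x ∈ GG χ B {θ | N2 χ B θ ≤ Rb}, x ∉ SP χ B {θ | N1 χ B θ ≤ K} →
      ∀ y ∈ SP χ B {θ | N1 χ B θ ≤ K}, D ≤ l1 (x - y) := by
  intro x hx hxY y hy
  by_contra hlt
  push Not at hlt
  have hsub : {θ : G | N1 χ B θ ≤ K} ⊆ {θ : G | N2 χ B θ ≤ Rb} := by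
    intro θ hθ
    have h1 : N1 χ B θ ≤ K := hθ
    have h2 := N2_le_half χ B θ
    change N2 χ B θ ≤ Rb
    linarith
  have hGGmono : GG χ B {θ : G | N1 χ B θ ≤ K} ≤ GG χ B {θ : G | N2 χ B θ ≤ Rb} :=
    AddSubgroup.closure_mono (Set.image_mono hsub)
  obtain ⟨φ, θs, l, θ, h1, h2, h3, h4⟩ := rounding χ B _ y hy
  have hyl : l1 (y - l) ≤ d * K / 2 := by
    rw [h2]
    calc l1 (∑ j, φ j • xv χ B (θs j)) ≤ ∑ j, l1 (φ j • xv χ B (θs j)) := l1_sum_le _ _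
      _ ≤ ∑ _j : Fin (finrank ℝ (SP χ B {θ : G | N1 χ B θ ≤ K})), (1 / 2 * K) := by
          apply Finset.sum_le_sum
          intro j _
          rw [l1_smul, l1_xv]
          exact mul_le_mul (h1 j).2 (h1 j).1 (N1_nonneg _ _ _) (by norm_num)
      _ = (finrank ℝ (SP χ B {θ : G | N1 χ B θ ≤ K}) : ℝ) * (1 / 2 * K) := by simp
      _ ≤ d * (1 / 2 * K) := by
          apply mul_le_mul_of_nonneg_right _ (by positivity)
          exact_mod_cast hd
      _ = d * K / 2 := by ring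
  set x' := x - l with hx'
  have hx'GG : x' ∈ GG χ B {θ : G | N2 χ B θ ≤ Rb} := sub_mem hx (hGGmono h3)
  have hx'l1 : l1 x' ≤ K' := by
    have : x' = (x - y) + (y - l) := by rw [hx']; abel
    rw [this]
    have := l1_add_le (x - y) (y - l)
    linarith
  obtain ⟨r, hr⟩ := GG_class χ B _ hx'GG
  have hx'supp : ∀ i, i ∉ B → x' i = 0 := fun i hi =>
    SP_supp χ B _ (GG_le_SP χ B _ hx'GG) hi
  have hrN : N1 χ B r ≤ K' := by
    have := N1_le_of_lift χ B r x' hr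
    rw [← l1_of_supp B x' hx'supp] at this
    linarith
  have hxr : xv χ B r ∈ SP χ B {θ : G | N1 χ B θ ≤ K} := by
    rw [hY]
    exact xv_mem_SP χ B hrN
  have hz0 : x' - xv χ B r = 0 := by
    apply hno
    · apply Submodule.sub_mem
      · exact GG_le_SP χ B _ hx'GG
      · exact SP_mono χ B hsub hxr
    · intro i hi
      have : ((x' i - xv χ B r i : ℝ) : UnitAddCircle) = 0 := by
        rw [AddCircle.coe_sub, hr i hi, xv_apply_mem χ r hi, coe_lf, sub_self]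
      obtain ⟨n, hn⟩ := coe_eq_zero_iff.1 this
      exact ⟨n, hn⟩
    · have h5 := l1_sub_le x' (xv χ B r)
      rw [l1_xv] at h5
      linarith
  apply hxY
  have hxeq : x = xv χ B r + l := by
    have : x' = xv χ B r := sub_eq_zero.1 hz0
    rw [← this, hx']
    abel
  rw [hxeq]
  exact Submodule.add_mem _ hxr (GG_le_SP χ B _ h3)

end

end Pool.DV5
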