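import Pool.Agent.Lib.MP_a90784_dv.Defs

/-! Tank DV5 (MP_a90784_nt), row R15: separation. -/

set_option autoImplicit false

namespace Pool.DV5

open Finset Module

theorem separation {ι : Type} [DecidableEq ι] [Fintype ι] (S : Finset ι) (Y : Submodule ℝ (ι → ℝ))
    (hY : ∀ y ∈ Y, ∀ i, i ∉ S → y i = 0) (η : ℝ) (hη : 0 < η) (hη4 : η ≤ 1 / 8)
    (h : ¬ ∃ p : ι → ℝ, (∀ i ∈ S, 2 * η ≤ p i ∧ p i ≤ 1 - 2 * η) ∧ ∀ y ∈ Y, ∑ i ∈ S, p i * y i = 0) :
    ∃ w ∈ Y, ∑ i ∈ S, max (-w i) 0 < 4 * η * ∑ i ∈ S, max (w i) 0 := by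
  -- the box
  let C : Set (ι → ℝ) := Set.univ.pi fun _ => Set.Icc (2 * η) (1 - 2 * η)
  have hCc : IsCompact C := isCompact_univ_pi fun _ => isCompact_Icc
  have hCv : Convex ℝ C := convex_pi fun _ _ => convex_Icc _ _
  -- the annihilator
  let W : Submodule ℝ (Dual ℝ (ι → ℝ)) := Y.map (dotProductEquiv ℝ ι).toLinearMap
  let T : Submodule ℝ (ι → ℝ) := W.dualCoannihilator
  have hTm : ∀ p, p ∈ T ↔ ∀ y ∈ Y, ∑ i ∈ S, p i * y i = 0 := by
    intro p
    rw [Submodule.mem_dualCoannihilator]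
    have key : ∀ y ∈ Y, (dotProductEquiv ℝ ι y) p = ∑ i ∈ S, p i * y i := by
      intro y hy
      change dotProduct y p = _
      unfold dotProduct
      rw [← Finset.sum_subset (Finset.subset_univ S) fun i _ hi => by rw [hY y hy i hi, zero_mul]]
      exact Finset.sum_congr rfl fun i _ => mul_comm _ _
    constructor
    · intro hp y hy
      rw [← key y hy]
      exact hp _ ⟨y, hy, rfl⟩
    · rintro hp _ ⟨y, hy, rfl⟩
      exact (key y hy).trans (hp y hy)
  have hTc : IsClosed (T : Set (ι → ℝ)) := T.closed_of_finiteDimensional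
  have hd : Disjoint C (T : Set (ι → ℝ)) := by
    rw [Set.disjoint_left]
    intro p hp hpT
    exact h ⟨p, fun i _ => hp i (Set.mem_univ i), (hTm p).1 hpT⟩
  obtain ⟨f, u, v, hf1, huv, hf2⟩ := geometric_hahn_banach_compact_closed hCv hCc T.convex hTc hd
  have hv0 : v < 0 := by
    have := hf2 0 T.zero_mem
    rwa [map_zero] at this
  have hfT : ∀ t ∈ T, f t = 0 := by
    intro t ht
    by_contra hne
    have := hf2 ((v / f t) • t) (T.smul_mem _ ht)
    rw [map_smul, smul_eq_mul, div_mul_cancel₀ _ hne] at this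
    exact lt_irrefl _ this
  have hfW : (f : (ι → ℝ) →ₗ[ℝ] ℝ) ∈ W := by
    have h1 : (f : (ι → ℝ) →ₗ[ℝ] ℝ) ∈ T.dualAnnihilator := by
      rw [Submodule.mem_dualAnnihilator]
      exact hfT
    rwa [Subspace.dualCoannihilator_dualAnnihilator_eq] at h1
  obtain ⟨y, hy, hyf⟩ := hfW
  have hfy : ∀ p, f p = ∑ i ∈ S, y i * p i := by
    intro p
    have h1 : (dotProductEquiv ℝ ι y) p = f p := LinearMap.congr_fun hyf p
    rw [← h1]
    change dotProduct y p = _
    unfold dotProduct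
    exact (Finset.sum_subset (Finset.subset_univ S) fun i _ hi => by
      rw [hY y hy i hi, zero_mul]).symm
  refine ⟨-y, Y.neg_mem hy, ?_⟩
  -- the test point
  have htest := hf1 (fun i => if y i < 0 then 2 * η else 1 - 2 * η) (by
    intro i _
    dsimp only
    split_ifs
    · exact ⟨le_rfl, by linarith⟩
    · exact ⟨by linarith, le_rfl⟩)
  rw [hfy] at htest
  have hsum : ∑ i ∈ S, y i * (if y i < 0 then 2 * η else 1 - 2 * η) =
      (1 - 2 * η) * ∑ i ∈ S, max (-(-y) i) 0 - 2 * η * ∑ i ∈ S, max ((-y) i) 0 := by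
    rw [Finset.mul_sum, Finset.mul_sum, ← Finset.sum_sub_distrib]
    refine Finset.sum_congr rfl fun i _ => ?_
    simp only [Pi.neg_apply, neg_neg]
    split_ifs with hi
    · rw [max_eq_right hi.le, max_eq_left (by linarith)]
      ring
    · rw [max_eq_left (by linarith), max_eq_right (by linarith)]
      ring
  rw [hsum] at htest
  have hp : 0 ≤ ∑ i ∈ S, max ((-y) i) 0 := Finset.sum_nonneg fun _ _ => le_max_right _ _
  have hn : 0 ≤ ∑ i ∈ S, max (-(-y) i) 0 := Finset.sum_nonneg fun _ _ => le_max_right _ _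
  nlinarith
end Pool.DV5
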