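import Pool.Agent.Lib.MP_a90784_dv.Rou
import Pool.Agent.Lib.MP_a90784_dv.Ba

/-!
Tank DV5 (MP_a90784_nt), rows R11 and R12 (helper87): no small integer vector; the gap.
-/

set_option autoImplicit false

namespace Pool.DV5

open Finset Module

section
variable {G ι : Type} [AddCommGroup G] [DecidableEq ι] [Fintype ι]

/-- every class of the group spanned by the lifts, scaled: bound of the rounding error at one coordinate -/
private theorem err_abs {d n : ℕ} (hn : n ≤ d) (φ : Fin n → ℝ) (hφ : ∀ j, |φ j| ≤ 1 / 2)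
    (x : Fin n → ℝ) (η : ℝ) (hη : 0 ≤ η) (hx : ∀ j, |x j| ≤ η) :
    |∑ j, φ j * x j| ≤ d * η / 2 := by
  calc |∑ j, φ j * x j| ≤ ∑ j, |φ j * x j| := Finset.abs_sum_le_sum_abs _ _
    _ ≤ ∑ _j : Fin n, (1 / 2 * η) := by
        apply Finset.sum_le_sum
        intro j _
        rw [abs_mul]
        exact mul_le_mul (hφ j) (hx j) (abs_nonneg _) (by norm_num)
    _ = n * (1 / 2 * η) := by simp
    _ ≤ d * (1 / 2 * η) := by
        apply mul_le_mul_of_nonneg_right _ (by positivity)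
        exact_mod_cast hn
    _ = d * η / 2 := by ring

private theorem err_sq {n : ℕ} (φ : Fin n → ℝ) (hφ : ∀ j, |φ j| ≤ 1 / 2)
    (x : Fin n → ℝ) : (∑ j, φ j * x j) ^ 2 ≤ n / 4 * ∑ j, (x j) ^ 2 := by
  calc (∑ j, φ j * x j) ^ 2 ≤ (∑ j, (φ j) ^ 2) * (∑ j, (x j) ^ 2) :=
        Finset.sum_mul_sq_le_sq_mul_sq _ _ _
    _ ≤ (∑ _j : Fin n, (1 / 4 : ℝ)) * (∑ j, (x j) ^ 2) := by
        apply mul_le_mul_of_nonneg_right _ (Finset.sum_nonneg fun j _ => sq_nonneg _)
        apply Finset.sum_le_sum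
        intro j _
        have h := hφ j
        have h2 := abs_le.1 h
        nlinarith [h2.1, h2.2]
    _ = n / 4 * ∑ j, (x j) ^ 2 := by
        congr 1
        simp
        ring

theorem no_small_int (χ : ι → G →+ UnitAddCircle) (B : Finset ι) (Rb Rc η₁ H : ℝ) (d : ℕ)
    (hRb : 0 ≤ Rb) (hcl : Clean2 χ B Rc η₁) (hd : finrank ℝ (SP χ B {θ | N2 χ B θ ≤ Rb}) ≤ d)
    (hRc : ((d : ℝ) + 1) ^ 2 * Rb + H ≤ Rc) (hη : 8 * ((d : ℝ) + 1) * η₁ < 1) :
    ∀ z ∈ SP χ B {θ | N2 χ B θ ≤ Rb}, (∀ i ∈ B, ∃ n : ℤ, z i = n) → l1 z ≤ H → z = 0 := by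
  intro z hz hint hH
  by_contra hz0
  have hsupp : ∀ i, i ∉ B → z i = 0 := fun i hi => SP_supp χ B _ hz hi
  have hH0 : 0 ≤ H := le_trans (l1_nonneg z) hH
  -- a coordinate of maximal size
  obtain ⟨i₀, hi₀⟩ : ∃ i, z i ≠ 0 := by
    by_contra h
    push Not at h
    exact hz0 (funext h)
  obtain ⟨b, -, hb⟩ := Finset.exists_max_image Finset.univ (fun i => |z i|) ⟨i₀, Finset.mem_univ _⟩
  have hMpos : 0 < |z b| := lt_of_lt_of_le (abs_pos.2 hi₀) (hb i₀ (Finset.mem_univ _))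
  have hbB : b ∈ B := by
    by_contra h
    rw [hsupp b h] at hMpos
    simp at hMpos
  have hM1 : 1 ≤ |z b| := by
    obtain ⟨n, hn⟩ := hint b hbB
    rw [hn] at hMpos ⊢
    have : 0 < |n| := by exact_mod_cast hMpos
    exact_mod_cast this
  set M := |z b| with hMdef
  set s := 1 / (2 * M) with hs
  have hspos : 0 < s := by positivity
  have hzs : s • z ∈ SP χ B {θ | N2 χ B θ ≤ Rb} := Submodule.smul_mem _ _ hz
  obtain ⟨φ, θs, l, θ, h1, h2, h3, h4⟩ := rounding χ B _ (s • z) hzs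
  have hη0 : 0 ≤ η₁ := by
    have h := hcl 0 (by
      have : N2 χ B 0 = 0 := by simp [N2]
      rw [this]
      nlinarith [sq_nonneg ((d : ℝ) + 1), mul_nonneg (sq_nonneg ((d : ℝ) + 1)) hRb]) b hbB
    simpa using h
  have hli : ∀ i, l i = s * z i - ∑ j, φ j * xv χ B (θs j) i := by
    intro i
    have := congrFun h2 i
    simp only [Pi.sub_apply, Pi.smul_apply, smul_eq_mul, Finset.sum_apply] at this
    linarith
  have hN2 : N2 χ B θ ≤ ∑ i ∈ B, (l i) ^ 2 := N2_le_of_lift χ B θ l h4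
  have hsum1 : ∑ i ∈ B, (s * z i) ^ 2 ≤ H / 4 := by
    calc ∑ i ∈ B, (s * z i) ^ 2 ≤ ∑ i ∈ B, s ^ 2 * M * |z i| := by
          apply Finset.sum_le_sum
          intro i _
          have : (z i) ^ 2 = |z i| * |z i| := by rw [← sq_abs]; ring
          rw [mul_pow, this]
          have hle : |z i| ≤ M := hb i (Finset.mem_univ _)
          have := mul_le_mul_of_nonneg_right hle (abs_nonneg (z i))
          nlinarith [sq_nonneg s, mul_le_mul_of_nonneg_left this (sq_nonneg s)]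
      _ = s ^ 2 * M * l1 z := by
          rw [l1_of_supp B z hsupp, Finset.mul_sum]
      _ ≤ s ^ 2 * M * H := by
          apply mul_le_mul_of_nonneg_left hH (by positivity)
      _ = H / (4 * M) := by
          rw [hs]
          field_simp
          ring
      _ ≤ H / 4 := by
          apply div_le_div_of_nonneg_left hH0 (by norm_num)
          linarith
  have hsum2 : ∑ i ∈ B, (∑ j, φ j * xv χ B (θs j) i) ^ 2 ≤ (d : ℝ) ^ 2 * Rb / 4 := by
    calc ∑ i ∈ B, (∑ j, φ j * xv χ B (θs j) i) ^ 2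
        ≤ ∑ i ∈ B, (finrank ℝ (SP χ B {θ | N2 χ B θ ≤ Rb}) : ℝ) / 4 *
            ∑ j, (xv χ B (θs j) i) ^ 2 := by
          apply Finset.sum_le_sum
          intro i _
          exact err_sq φ (fun j => (h1 j).2) _
      _ = (finrank ℝ (SP χ B {θ | N2 χ B θ ≤ Rb}) : ℝ) / 4 * ∑ j, N2 χ B (θs j) := by
          rw [← Finset.mul_sum, Finset.sum_comm]
          congr 1
          apply Finset.sum_congr rfl
          intro j _
          unfold N2
          apply Finset.sum_congr rfl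
          intro i hi
          rw [← abs_xv χ (θs j) hi, sq_abs]
      _ ≤ (finrank ℝ (SP χ B {θ | N2 χ B θ ≤ Rb}) : ℝ) / 4 *
            ∑ _j : Fin (finrank ℝ (SP χ B {θ | N2 χ B θ ≤ Rb})), Rb := by
          apply mul_le_mul_of_nonneg_left _ (by positivity)
          apply Finset.sum_le_sum
          intro j _
          exact (h1 j).1
      _ = (finrank ℝ (SP χ B {θ | N2 χ B θ ≤ Rb}) : ℝ) ^ 2 * Rb / 4 := by
          simp
          ring
      _ ≤ (d : ℝ) ^ 2 * Rb / 4 := by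
          have hdr : (finrank ℝ (SP χ B {θ | N2 χ B θ ≤ Rb}) : ℝ) ≤ d := by exact_mod_cast hd
          have h0 : (0 : ℝ) ≤ (finrank ℝ (SP χ B {θ | N2 χ B θ ≤ Rb}) : ℝ) := by positivity
          have := pow_le_pow_left₀ h0 hdr 2
          nlinarith
  have hN2b : N2 χ B θ ≤ Rc := by
    have hle : ∑ i ∈ B, (l i) ^ 2 ≤
        2 * ∑ i ∈ B, (s * z i) ^ 2 + 2 * ∑ i ∈ B, (∑ j, φ j * xv χ B (θs j) i) ^ 2 := by
      rw [Finset.mul_sum, Finset.mul_sum, ← Finset.sum_add_distrib]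
      apply Finset.sum_le_sum
      intro i _
      rw [hli i]
      nlinarith [sq_nonneg (s * z i + ∑ j, φ j * xv χ B (θs j) i)]
    have hdd : (d : ℝ) ^ 2 * Rb ≤ ((d : ℝ) + 1) ^ 2 * Rb := by
      apply mul_le_mul_of_nonneg_right _ hRb
      have : (0 : ℝ) ≤ d := by positivity
      nlinarith
    have hdd0 : 0 ≤ (d : ℝ) ^ 2 * Rb := by positivity
    linarith
  have hcb := hcl θ hN2b b hbB
  -- the coordinate b is near one half
  have herr : |∑ j, φ j * xv χ B (θs j) b| ≤ d * η₁ / 2 := by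
    apply err_abs hd φ (fun j => (h1 j).2) _ η₁ hη0
    intro j
    rw [abs_xv χ (θs j) hbB]
    apply hcl _ _ b hbB
    have hj : N2 χ B (θs j) ≤ Rb := (h1 j).1
    have hdd : Rb ≤ ((d : ℝ) + 1) ^ 2 * Rb := by
      have : (1 : ℝ) ≤ ((d : ℝ) + 1) ^ 2 := by
        have : (0 : ℝ) ≤ d := by positivity
        nlinarith
      nlinarith
    linarith
  have hsz : |s * z b| = 1 / 2 := by
    rw [abs_mul, abs_of_pos hspos, hs]
    change 1 / (2 * M) * M = 1 / 2
    field_simp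
  have hnorm : ‖((s * z b : ℝ) : UnitAddCircle)‖ = 1 / 2 := by
    rw [norm_coe_eq (le_of_eq hsz), hsz]
  have hsplit : ((s * z b : ℝ) : UnitAddCircle) =
      ((l b : ℝ) : UnitAddCircle) + ((∑ j, φ j * xv χ B (θs j) b : ℝ) : UnitAddCircle) := by
    rw [← AddCircle.coe_add, hli b]
    congr 1
    ring
  have hle : (1 : ℝ) / 2 ≤ η₁ + d * η₁ / 2 := by
    calc (1 : ℝ) / 2 = ‖((s * z b : ℝ) : UnitAddCircle)‖ := hnorm.symm
      _ ≤ ‖((l b : ℝ) : UnitAddCircle)‖ +
          ‖((∑ j, φ j * xv χ B (θs j) b : ℝ) : UnitAddCircle)‖ := by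
          rw [hsplit]; exact norm_add_le _ _
      _ ≤ η₁ + d * η₁ / 2 := by
          apply add_le_add
          · rw [h4 b hbB]; exact hcb
          · exact le_trans (norm_coe_le _) herr
  have hd0 : (0 : ℝ) ≤ d * η₁ := by positivity
  nlinarith

end

end Pool.DV5
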