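import Pool.Agent.Lib.MP_a90784_dv.Ba
import Pool.Agent.Lib.MP_a90784_dv.Cl
import Pool.Agent.Lib.MP_a90784_dv.Dim
import Pool.Agent.Lib.MP_a90784_dv.Int2
import Pool.Agent.Lib.MP_a90784_dv.Gap
import Pool.Agent.Lib.MP_a90784_dv.Ep
import Pool.Agent.Lib.MP_a90784_dv.Fo
import Pool.Agent.Lib.MP_a90784_dv.Hb

set_option autoImplicit false

namespace Pool.DV5

open Finset Module

/-! ### R16 extremality of one modulus -/

theorem EP_Dc_pos (k : ℕ) {η : ℝ} (hη : 0 < η) : 0 < Dc k η := by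
  unfold Dc
  positivity

theorem EP_Kmx_pos (k : ℕ) {η : ℝ} (hη : 0 < η) : 0 < Kmx k η := by
  have h := EP_Dc_pos k hη
  unfold Kmx
  positivity

/-- a chain of `k + 2` subspaces of dimension at most `k` repeats -/
theorem EP_pigeon {E : Type} [AddCommGroup E] [Module ℝ E] [FiniteDimensional ℝ E] (k : ℕ)
    (Y : ℕ → Submodule ℝ E) (hmono : ∀ i, Y i ≤ Y (i + 1))
    (hd : ∀ i ≤ k + 1, finrank ℝ (Y i) ≤ k) : ∃ i ≤ k, Y i = Y (i + 1) := by
  by_contra hcon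
  push Not at hcon
  have key : ∀ i ≤ k + 1, i ≤ finrank ℝ (Y i) := by
    intro i
    induction i with
    | zero => intro _; exact Nat.zero_le _
    | succ n ih =>
      intro hn
      have h1 := ih (by omega)
      have hlt : Y n < Y (n + 1) := lt_of_le_of_ne (hmono n) (hcon n (by omega))
      have h2 := Submodule.finrank_lt_finrank_of_lt hlt
      omega
  have h1 := key (k + 1) le_rfl
  have h2 := hd (k + 1) le_rfl
  omega

theorem EP {ι : Type} [DecidableEq ι] [Fintype ι] (a : ℕ) [NeZero a] (v : ι → ℕ) (S : Finset ι)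
    (η η₀ η₁ Rb Rc E : ℝ) (k J K₁ : ℕ)
    (hS : ∀ T ⊆ S, T.Nonempty → ¬ a ∣ ∑ i ∈ T, v i)
    (hη : 0 < η) (hη4 : η ≤ 1 / 8)
    (hRb1 : Real.log (4 * a) ≤ 4 * η * Rb) (hRb2 : Kmx k η ≤ Rb)
    (hRc : ((k : ℝ) + 1) ^ 2 * Rb + 2 * Kmx k η ≤ Rc)
    (hη₁ : 100 * η₁ * Rb ≤ 1) (hη₁' : 8 * ((k : ℝ) + 1) * η₁ < 1)
    (hK₁ : ((k : ℝ) + 1) * K₁ * η₁ < 1 / 4) (ha : a < (K₁ + 1) ^ (k + 1))
    (hJ : a < 2 ^ J) (hJη : J * η₀ ≤ η₁) (hη₀ : 0 < η₀) (hE : J * Rc ≤ η₀ ^ 2 * E)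
    (hcard : Real.log (4 * a) ≤ η * ((S.card : ℝ) - E)) :
    ∃ S' ⊆ S, ((S \ S').card : ℝ) ≤ E ∧
      ∃ w ∈ SP (chi a v) S' {r | N1 (chi a v) S' r ≤ Kmx k η},
        ∑ i ∈ S', max (-w i) 0 < 4 * η * ∑ i ∈ S', max (w i) 0 := by
  classical
  set χ : ι → ZMod a →+ UnitAddCircle := chi a v with hχ
  have hDc := EP_Dc_pos k hη
  have hKm := EP_Kmx_pos k hη
  have hRb0 : 0 ≤ Rb := hKm.le.trans hRb2
  have hk0 : (0 : ℝ) ≤ k := Nat.cast_nonneg k
  have hk1 : (1 : ℝ) ≤ ((k : ℝ) + 1) ^ 2 := by nlinarith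
  have hRbc : Rb ≤ Rc := by nlinarith
  have hRc0 : 0 ≤ Rc := hRb0.trans hRbc
  have hη₁0 : 0 ≤ η₁ := le_trans (by positivity) hJη
  -- cleaning
  obtain ⟨S', hS'S, hS'c, hcl⟩ := clean2 χ S J η₀ η₁ Rc hRc0 hη₀
    (by rw [ZMod.card]; exact hJ) hJη
  have hcardE : ((S \ S').card : ℝ) ≤ E := by
    have h1 : η₀ ^ 2 * ((S \ S').card : ℝ) ≤ η₀ ^ 2 * E := hS'c.trans hE
    have h2 : 0 < η₀ ^ 2 := by positivity
    exact le_of_mul_le_mul_left h1 h2
  refine ⟨S', hS'S, hcardE, ?_⟩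
  set X : Set (ZMod a) := {r | N2 χ S' r ≤ Rb} with hX
  have hclb : Clean2 χ S' Rb η₁ := fun θ hθ i hi => hcl θ (hθ.trans hRbc) i hi
  -- dimension
  have hdim : finrank ℝ (SP χ S' X) ≤ k := by
    have h := dim_bound χ S' X η₁ (fun θ hθ i hi => hclb θ hθ i hi) (0 : ι → ℝ) ({0} : Finset (ZMod a))
      (fun _ => 0) (by simp) (by simp) (by simp) (Or.inl (by simp)) k K₁ hη₁0 hK₁
      (by rw [ZMod.card]; simpa using ha)
    have h1 : finrank ℝ (Submodule.span ℝ {rs S' (0 : ι → ℝ)} : Submodule ℝ (ι → ℝ)) = 0 := by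
      rw [map_zero]
      simp
    rw [h1] at h
    have h2 : finrank ℝ (SP χ S' X) ≤
        finrank ℝ (SP χ S' X ⊔ Submodule.span ℝ {rs S' (0 : ι → ℝ)} : Submodule ℝ (ι → ℝ)) :=
      Submodule.finrank_mono le_sup_left
    omega
  -- the radii
  set K : ℕ → ℝ := fun i => ((k : ℝ) + 1) ^ i * Dc k η with hK
  have hK0 : ∀ i, Dc k η ≤ K i := by
    intro i
    have h1 : (1 : ℝ) ≤ ((k : ℝ) + 1) ^ i := one_le_pow₀ (by linarith)
    simp only [hK]
    nlinarith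
  have hKs : ∀ i, K (i + 1) = ((k : ℝ) + 1) * K i := by
    intro i
    simp only [hK]
    ring
  have hKmono : ∀ i, K i ≤ K (i + 1) := by
    intro i
    rw [hKs]
    have := hK0 i
    nlinarith
  have hKle : ∀ i ≤ k + 1, K i ≤ Kmx k η := by
    intro i hi
    have h1 : ((k : ℝ) + 1) ^ i ≤ ((k : ℝ) + 1) ^ (k + 1) := pow_le_pow_right₀ (by linarith) hi
    simp only [hK, Kmx]
    exact mul_le_mul_of_nonneg_right h1 hDc.le
  have hN1X : ∀ i ≤ k + 1, {θ | N1 χ S' θ ≤ K i} ⊆ X := by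
    intro i hi θ hθ
    have h1 := N2_le_half χ S' θ
    have h2 := hKle i hi
    have h3 : N1 χ S' θ ≤ K i := hθ
    show N2 χ S' θ ≤ Rb
    linarith
  obtain ⟨i, hik, hYY⟩ := EP_pigeon k (fun i => SP χ S' {θ | N1 χ S' θ ≤ K i})
    (fun i => SP_mono χ S' (fun θ hθ => le_trans (show N1 χ S' θ ≤ K i from hθ) (hKmono i)))
    (fun i hi => (Submodule.finrank_mono (SP_mono χ S' (hN1X i hi))).trans hdim)
  have hYV : SP χ S' {θ | N1 χ S' θ ≤ K i} ≤ SP χ S' X := SP_mono χ S' (hN1X i (by omega))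
  -- the gap
  have hgap := gap χ S' Rb (K i) (K (i + 1)) (Dc k η) k (hDc.le.trans (hK0 i)) (hKmono i) hYY
    ((Submodule.finrank_mono hYV).trans hdim)
    (by
      rw [hKs]
      have := hK0 i
      nlinarith)
    (by
      have := hKle (i + 1) (by omega)
      linarith)
    (by
      intro z hz hzi hzl
      refine no_small_int χ S' Rb Rc η₁ (2 * Kmx k η) k hRb0 hcl hdim hRc hη₁' z hz hzi ?_
      have := hKle (i + 1) (by omega)
      linarith)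
  -- separation or transference
  by_cases hp : ∃ p : ι → ℝ, (∀ i ∈ S', 2 * η ≤ p i ∧ p i ≤ 1 - 2 * η) ∧
      ∀ y ∈ SP χ S' {θ | N1 χ S' θ ≤ K i}, ∑ i ∈ S', p i * y i = 0
  · exfalso
    obtain ⟨p, hp1, hp2⟩ := hp
    obtain ⟨p', hp'1, hp'2⟩ := exists_p (SP χ S' X) (SP χ S' {θ | N1 χ S' θ ≤ K i}) hYV (GG χ S' X)
      (fun x hx => GG_le_SP χ S' X hx) k hdim (Dc k η) η hη le_rfl hgap p (by
        intro y hy
        rw [← hp2 y hy]
        symm
        refine Finset.sum_subset (Finset.subset_univ _) (fun j _ hj => ?_)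
        rw [SP_supp χ S' _ hy hj, mul_zero])
    refine fourier_pos a v S' η η₁ Rb hη (by linarith) p' (fun j hj => ?_)
      (fun T hT hTn => hS T (hT.trans hS'S) hTn) hRb1 ?_ hclb hη₁ ?_ ?_
    · have h1 := abs_le.mp (hp'1 j)
      have h2 := hp1 j hj
      constructor <;> linarith
    · have h1 : ((S \ S').card : ℝ) + (S'.card : ℝ) = S.card := by
        exact_mod_cast Finset.card_sdiff_add_card_eq_card hS'S
      have h2 : (S.card : ℝ) - E ≤ S'.card := by linarith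
      exact hcard.trans (mul_le_mul_of_nonneg_left h2 hη.le)
    · nlinarith
    · intro r hr
      obtain ⟨z, hz⟩ := hp'2 (xv χ S' r) (AddSubgroup.subset_closure ⟨r, hr, rfl⟩)
      refine ⟨z, ?_⟩
      rw [← hz]
      have h1 : ∑ j ∈ S', p' j * lf (chi a v j r) = ∑ j ∈ S', p' j * xv χ S' r j := by
        refine Finset.sum_congr rfl (fun j hj => ?_)
        rw [xv_apply_mem χ r hj]
      rw [h1]
      refine Finset.sum_subset (Finset.subset_univ _) (fun j _ hj => ?_)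
      rw [xv_apply_not_mem χ r hj, mul_zero]
  · obtain ⟨w, hw, hlt⟩ := separation S' (SP χ S' {θ | N1 χ S' θ ≤ K i})
      (fun y hy j hj => SP_supp χ S' _ hy hj) η hη hη4 hp
    refine ⟨w, ?_, hlt⟩
    exact SP_mono χ S' (fun θ hθ => le_trans (show N1 χ S' θ ≤ K i from hθ) (hKle i (by omega))) hw

end Pool.DV5
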