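import Pool.Agent.Lib.MP_a90784_dv.Ba
import Pool.Agent.Lib.MP_a90784_dv.Dou

/-!
Tank DV5 (MP_a90784_nt), row R20: extremality implies regularity of large subsets (helper73).
-/

set_option autoImplicit false

namespace Pool.DV5

open Finset Module

theorem ex1_real {C : ℝ} (hC : 1 ≤ C) {e : ℝ} (he0 : 0 ≤ e) (he6 : e ≤ 6) {β β' E₀ D D' D4 : ℝ}
    (hβ : 0 < β) (hD : 0 < D) (hD4 : 0 < D4) (hDD : D ≤ C * D4)
    (hcard : (1 - 1 / (24 * C)) * β ≤ β' - E₀)
    (hext : (β' - E₀) ^ e * D' ≤ β ^ e * D) : D' < D + D4 := by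
  have hCpos : 0 < C := by linarith
  set c : ℝ := 1 / (24 * C) with hc
  have hcpos : 0 < c := by positivity
  have hc24 : c ≤ 1 / 24 := by
    rw [hc]
    apply one_div_le_one_div_of_le (by norm_num)
    linarith
  have hcC : c * C = 1 / 24 := by
    rw [hc]
    field_simp
  have h1 : 0 < 1 - c := by linarith
  -- the power
  have h2 : (1 - c) ^ (6 : ℝ) ≤ (1 - c) ^ e :=
    Real.rpow_le_rpow_of_exponent_ge h1 (by linarith) he6
  have h3 : 1 - 6 * c ≤ (1 - c) ^ (6 : ℝ) := by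
    have h31 := one_add_mul_le_pow (a := -c) (by linarith) 6
    have h32 : (1 - c) ^ (6 : ℝ) = (1 - c) ^ (6 : ℕ) := by
      rw [← Real.rpow_natCast]
      norm_num
    rw [h32]
    have h33 : (1 + -c) ^ 6 = (1 - c) ^ 6 := by ring
    rw [h33] at h31
    push_cast at h31
    linarith
  have h4 : ((1 - c) * β) ^ e ≤ (β' - E₀) ^ e :=
    Real.rpow_le_rpow (by positivity) hcard he0
  have h5 : ((1 - c) * β) ^ e = (1 - c) ^ e * β ^ e := Real.mul_rpow h1.le hβ.le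
  have hβe : 0 < β ^ e := Real.rpow_pos_of_pos hβ e
  by_contra hcon
  push Not at hcon
  have hD' : 0 < D' := by linarith
  have h6 : (1 - c) ^ e * β ^ e * D' ≤ β ^ e * D := by
    calc (1 - c) ^ e * β ^ e * D' = ((1 - c) * β) ^ e * D' := by rw [h5]
      _ ≤ (β' - E₀) ^ e * D' := by
          exact mul_le_mul_of_nonneg_right h4 hD'.le
      _ ≤ β ^ e * D := hext
  have h7 : (1 - c) ^ e * D' ≤ D := by
    have : β ^ e * ((1 - c) ^ e * D') ≤ β ^ e * D := by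
      calc β ^ e * ((1 - c) ^ e * D') = (1 - c) ^ e * β ^ e * D' := by ring
        _ ≤ _ := h6
    exact le_of_mul_le_mul_left this hβe
  have h8 : (1 - 6 * c) * D' ≤ D := by
    calc (1 - 6 * c) * D' ≤ (1 - c) ^ e * D' :=
          mul_le_mul_of_nonneg_right (h3.trans h2) hD'.le
      _ ≤ D := h7
  have h9 : (1 - 6 * c) * (D + D4) ≤ D := by
    calc (1 - 6 * c) * (D + D4) ≤ (1 - 6 * c) * D' :=
          mul_le_mul_of_nonneg_left hcon (by linarith)
      _ ≤ D := h8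
  -- D4 (1 - 6c) <= 6 c D <= 6 c C D4 = D4 / 4
  have h10 : 6 * c * D ≤ D4 / 4 := by
    have : c * D ≤ c * (C * D4) := mul_le_mul_of_nonneg_left hDD hcpos.le
    have h11 : c * (C * D4) = D4 / 24 := by
      rw [← mul_assoc, hcC]
      ring
    nlinarith
  nlinarith

theorem reg_of_ext {G ι : Type} [AddCommGroup G] [Fintype G] [DecidableEq ι] [Fintype ι]
    (χ : ι → G →+ UnitAddCircle) (B B' : Finset ι) (R η₁ e E₀ : ℝ) (d : ℕ)
    (hext : Ext χ B R e E₀) (he5 : 5 ≤ e) (he6 : e ≤ 6) (hE₀ : 0 ≤ E₀)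
    (hcl : Clean χ B R η₁) (hη : η₁ < 1 / 4) (hR : 0 < R) (hd : finrank ℝ (WW χ B R) ≤ d)
    (hB' : B' ⊆ B) (hB : B.Nonempty)
    (hcard : (1 - 1 / (24 * (8 * (d : ℝ) + 3) ^ d)) * B.card ≤ (B'.card : ℝ) - E₀) :
    Reg χ B B' R := by
  refine ⟨hB', ?_⟩
  have hC : (1 : ℝ) ≤ (8 * (d : ℝ) + 3) ^ d := by
    apply one_le_pow₀
    have : (0 : ℝ) ≤ d := Nat.cast_nonneg d
    linarith
  have hβ : (0 : ℝ) < B.card := by exact_mod_cast hB.card_pos
  have hdb := doubling χ B R η₁ d hcl hη hR hd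
  have hdb' : ((DD χ B R).card : ℝ) ≤ (8 * (d : ℝ) + 3) ^ d * ((DD χ B (R / 4)).card : ℝ) := by
    have h := (Nat.cast_le (α := ℝ)).2 hdb
    push_cast at h
    exact h
  have hD : (0 : ℝ) < ((DD χ B R).card : ℝ) := by exact_mod_cast DD_card_pos χ B hR.le
  have hD4 : (0 : ℝ) < ((DD χ B (R / 4)).card : ℝ) := by
    exact_mod_cast DD_card_pos χ B (by linarith : (0 : ℝ) ≤ R / 4)
  have hE : E₀ ≤ (B'.card : ℝ) := by
    have h1 : (0 : ℝ) ≤ (1 - 1 / (24 * (8 * (d : ℝ) + 3) ^ d)) * B.card := by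
      apply mul_nonneg _ hβ.le
      have : 1 / (24 * (8 * (d : ℝ) + 3) ^ d) ≤ 1 := by
        rw [div_le_one (by positivity)]
        linarith
      linarith
    linarith
  have h := ex1_real hC (by linarith : (0 : ℝ) ≤ e) he6 hβ hD hD4 hdb' hcard (hext B' hB' hE)
  exact_mod_cast h

end Pool.DV5
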