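import Mathlib
import Pool.Agent.Lib.MP_a90784_dv.Defs

/-!
Tank DV5, row R23a: an extremal clean subset.
-/

set_option autoImplicit false

namespace Pool.DV5

open Finset Module

/-- a clean subset which maximises `|B|^e * |DD B R|` -/
theorem exists_ext {G ι : Type} [AddCommGroup G] [Fintype G] [DecidableEq ι] [Fintype ι]
    (χ : ι → G →+ UnitAddCircle) (R Rcl η₁ e E₀ : ℝ) (he : 0 < e) (hE₀ : 0 ≤ E₀)
    (hclean : ∀ S : Finset ι, ∃ S' ⊆ S, ((S \ S').card : ℝ) ≤ E₀ ∧ Clean χ S' Rcl η₁) :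
    ∃ B : Finset ι, Clean χ B Rcl η₁ ∧ Ext χ B R e E₀ ∧
      (E₀ ≤ Fintype.card ι → ((Fintype.card ι : ℝ) - E₀) ^ e * ((DD χ Finset.univ R).card : ℝ) ≤
        (B.card : ℝ) ^ e * ((DD χ B R).card : ℝ)) := by
  classical
  let F : Finset ι → ℝ := fun B => (B.card : ℝ) ^ e * ((DD χ B R).card : ℝ)
  let C : Finset (Finset ι) := Finset.univ.filter fun B => Clean χ B Rcl η₁
  have hC : C.Nonempty := by
    obtain ⟨S', -, -, h⟩ := hclean Finset.univ
    exact ⟨S', Finset.mem_filter.2 ⟨Finset.mem_univ _, h⟩⟩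
  obtain ⟨B, hB, hmax⟩ := C.exists_max_image F hC
  have key : ∀ B' : Finset ι, E₀ ≤ (B'.card : ℝ) →
      ((B'.card : ℝ) - E₀) ^ e * ((DD χ B' R).card : ℝ) ≤
        (B.card : ℝ) ^ e * ((DD χ B R).card : ℝ) := by
    intro B' hB'
    obtain ⟨S', hS', h1, h2⟩ := hclean B'
    have h3 : ((B'.card : ℝ) - E₀) ≤ (S'.card : ℝ) := by
      have h4 : (B' \ S').card + S'.card = B'.card := Finset.card_sdiff_add_card_eq_card hS'
      have h5 : (((B' \ S').card : ℕ) : ℝ) + (S'.card : ℝ) = (B'.card : ℝ) := by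
        exact_mod_cast h4
      linarith
    have h6 : DD χ B' R ⊆ DD χ S' R := by
      intro θ hθ
      unfold DD at hθ ⊢
      rw [Finset.mem_filter] at hθ ⊢
      refine ⟨Finset.mem_univ _, le_trans ?_ hθ.2⟩
      exact Finset.sum_le_sum_of_subset_of_nonneg hS' fun i _ _ => norm_nonneg _
    have h7 : ((DD χ B' R).card : ℝ) ≤ ((DD χ S' R).card : ℝ) := by
      exact_mod_cast Finset.card_le_card h6
    refine le_trans ?_ (hmax S' (Finset.mem_filter.2 ⟨Finset.mem_univ _, h2⟩))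
    exact mul_le_mul (Real.rpow_le_rpow (by linarith) h3 he.le) h7 (Nat.cast_nonneg _)
      (Real.rpow_nonneg (Nat.cast_nonneg _) _)
  refine ⟨B, (Finset.mem_filter.1 hB).2, fun B' _ h => key B' h, fun h => ?_⟩
  have := key Finset.univ (by rwa [Finset.card_univ])
  rwa [Finset.card_univ] at this

end Pool.DV5
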