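import Mathlib
import Pool.Agent.Lib.MP_a90784_dv.Defs

/-!
Tank DV5, row R24: the theorem from the main inequality.
-/

set_option autoImplicit false

namespace Pool.DV5

open Finset Module

/-- the conclusion of the main inequality (row R23) -/
def MainIneq : Prop := ∀ (d₀ : ℕ) (_ : 2 ≤ d₀) (e : ℝ) (_ : 5 ≤ e) (_ : e < 6),
    ∃ x₀ : ℝ, 1 ≤ x₀ ∧ ∀ x : ℝ, x₀ ≤ x → ∀ {ι : Type} [DecidableEq ι] [Fintype ι] (v : ι → ℕ) (M : ℝ),
      1 ≤ M → (∀ i, M ≤ v i ∧ (v i : ℝ) ≤ 2 * M) →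
      (∀ i, ∀ T : Finset ι, i ∉ T → T.Nonempty → ¬ v i ∣ ∑ j ∈ T, v j) →
      16 * M ≤ x ^ (d₀ ^ 2) →
      (Fintype.card ι : ℝ) ^ (e - 1) ≤ M * x ^ (25 * d₀ + 250)

/-- logarithms are small -/
theorem Fin_log (δ : ℝ) (hδ : 0 < δ) : ∃ N₀ : ℕ, 1 ≤ N₀ ∧ ∀ N : ℕ, N₀ ≤ N →
    ((Nat.log 2 N : ℝ) + 1) * 16 ≤ (N : ℝ) ^ δ := by
  have h1 := (isLittleO_log_rpow_atTop hδ).bound (c := Real.log 2 / 32)
    (by have := Real.log_pos one_lt_two; positivity)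
  have h2 := (tendsto_rpow_atTop hδ).eventually_ge_atTop 32
  have h3 := (h1.and h2).and (Filter.eventually_ge_atTop 1)
  obtain ⟨y, hy⟩ := Filter.eventually_atTop.1 h3
  refine ⟨max 1 ⌈y⌉₊, le_max_left _ _, fun N hN => ?_⟩
  have hyN : y ≤ (N : ℝ) := (Nat.le_ceil y).trans (by exact_mod_cast (le_max_right _ _).trans hN)
  obtain ⟨⟨h4, h5⟩, h6⟩ := hy N hyN
  have hN1 : 1 ≤ N := (le_max_left _ _).trans hN
  have hlog2 := Real.log_pos one_lt_two
  rw [Real.norm_of_nonneg (Real.log_nonneg h6), Real.norm_of_nonneg (Real.rpow_nonneg (by linarith) _)]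
    at h4
  have h7 : (Nat.log 2 N : ℝ) * Real.log 2 ≤ Real.log N := by
    rw [← Real.log_pow]
    apply Real.log_le_log (by positivity)
    exact_mod_cast Nat.pow_log_le_self 2 (by omega)
  have h8 : (Nat.log 2 N : ℝ) * 32 ≤ (N : ℝ) ^ δ := by
    have h9 : (Nat.log 2 N : ℝ) * Real.log 2 ≤ Real.log 2 / 32 * (N : ℝ) ^ δ := h7.trans h4
    have h10 : (Nat.log 2 N : ℝ) * 32 * Real.log 2 ≤ (N : ℝ) ^ δ * Real.log 2 := by linarith
    exact le_of_mul_le_mul_right h10 hlog2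
  linarith

theorem final_of (hmain : MainIneq) (ε : ℝ) (hε : 0 < ε) : ∃ N₀ : ℕ, ∀ N : ℕ, N₀ ≤ N → ∀ A : Finset ℕ,
    A ⊆ Finset.Icc 1 N →
    (∀ a ∈ A, ∀ S : Finset ℕ, S ⊆ A.erase a → S.Nonempty → ¬ (a ∣ ∑ x ∈ S, x)) →
    (A.card : ℝ) ≤ (N : ℝ) ^ ((1 : ℝ) / 5 + ε) := by
  classical
  -- the parameters
  set δ : ℝ := min ε 1 with hδ
  have hδ0 : 0 < δ := lt_min hε one_pos
  have hδ1 : δ ≤ 1 := min_le_right _ _
  have hδε : δ ≤ ε := min_le_left _ _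
  obtain ⟨d₁, hd₁⟩ := exists_nat_ge (275 / δ)
  set d₀ : ℕ := max d₁ 2 with hd₀
  have hd2 : 2 ≤ d₀ := le_max_right _ _
  have hd : 275 / δ ≤ (d₀ : ℝ) := hd₁.trans (by exact_mod_cast le_max_left _ _)
  have hd0 : (0 : ℝ) < d₀ := by positivity
  have hdd : ((25 * d₀ + 250 : ℕ) : ℝ) / ((d₀ ^ 2 : ℕ) : ℝ) ≤ δ := by
    rw [div_le_iff₀ (by positivity)]
    rw [div_le_iff₀ hδ0] at hd
    push_cast
    have h1 : (1 : ℝ) ≤ d₀ := by exact_mod_cast (by omega : 1 ≤ d₀)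
    nlinarith
  obtain ⟨x₀, hx₀, hm⟩ := hmain d₀ hd2 (6 - δ) (by linarith) (by linarith)
  obtain ⟨N₁, hN₁, hlog⟩ := Fin_log (ε / 2) (by linarith)
  obtain ⟨N₂, hN₂⟩ := exists_nat_ge (x₀ ^ (d₀ ^ 2))
  refine ⟨max N₁ N₂, fun N hN A hA hdiv => ?_⟩
  have hN1 : N₁ ≤ N := (le_max_left _ _).trans hN
  have hN2 : N₂ ≤ N := (le_max_right _ _).trans hN
  have hNpos : 1 ≤ N := hN₁.trans hN1
  have hNr : (1 : ℝ) ≤ N := by exact_mod_cast hNpos
  -- the number x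
  set x : ℝ := (16 * (N : ℝ)) ^ ((1 : ℝ) / ((d₀ ^ 2 : ℕ) : ℝ)) with hx
  have hd20 : ((d₀ ^ 2 : ℕ) : ℝ) ≠ 0 := by positivity
  have hxp : x ^ (d₀ ^ 2) = 16 * (N : ℝ) := by
    rw [hx, ← Real.rpow_natCast, ← Real.rpow_mul (by positivity), one_div_mul_cancel hd20,
      Real.rpow_one]
  have hx0 : 0 ≤ x := Real.rpow_nonneg (by positivity) _
  have hxx : x₀ ≤ x := by
    by_contra hlt
    push_neg at hlt
    have h1 : x ^ (d₀ ^ 2) ≤ x₀ ^ (d₀ ^ 2) := pow_le_pow_left₀ hx0 hlt.le _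
    have h2 : x₀ ^ (d₀ ^ 2) ≤ (N : ℝ) := hN₂.trans (by exact_mod_cast hN2)
    rw [hxp] at h1
    linarith
  have hxq : x ^ (25 * d₀ + 250) ≤ 16 * (N : ℝ) ^ δ := by
    rw [hx, ← Real.rpow_natCast, ← Real.rpow_mul (by positivity)]
    have h1 : (1 : ℝ) / ((d₀ ^ 2 : ℕ) : ℝ) * ((25 * d₀ + 250 : ℕ) : ℝ) ≤ δ := by
      rw [one_div_mul_eq_div]
      exact hdd
    calc (16 * (N : ℝ)) ^ ((1 : ℝ) / ((d₀ ^ 2 : ℕ) : ℝ) * ((25 * d₀ + 250 : ℕ) : ℝ))
        ≤ (16 * (N : ℝ)) ^ δ := Real.rpow_le_rpow_of_exponent_le (by linarith) h1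
      _ = 16 ^ δ * (N : ℝ) ^ δ := Real.mul_rpow (by norm_num) (by positivity)
      _ ≤ 16 * (N : ℝ) ^ δ := by
          refine mul_le_mul_of_nonneg_right ?_ (Real.rpow_nonneg (by positivity) _)
          calc (16 : ℝ) ^ δ ≤ 16 ^ (1 : ℝ) := Real.rpow_le_rpow_of_exponent_le (by norm_num) hδ1
            _ = 16 := Real.rpow_one _
  -- one dyadic piece
  set b : ℝ := 16 * (N : ℝ) ^ ((1 : ℝ) / 5 + ε / 2) with hb
  have hpiece : ∀ j ∈ Finset.range (Nat.log 2 N + 1),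
      ((A.filter fun a => Nat.log 2 a = j).card : ℝ) ≤ b := by
    intro j hj
    rw [Finset.mem_range] at hj
    set Aj := A.filter fun a => Nat.log 2 a = j with hAj
    have hmem : ∀ a ∈ Aj, a ∈ A ∧ 2 ^ j ≤ a ∧ a < 2 ^ (j + 1) := by
      intro a ha
      rw [hAj, Finset.mem_filter] at ha
      have h1 := Finset.mem_Icc.1 (hA ha.1)
      rw [← ha.2]
      exact ⟨ha.1, Nat.pow_log_le_self 2 (by omega), Nat.lt_pow_succ_log_self (by norm_num) a⟩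
    have hM : ((2 : ℝ) ^ j) ≤ N := by
      have h1 : 2 ^ j ≤ 2 ^ Nat.log 2 N := Nat.pow_le_pow_right (by norm_num) (by omega)
      have h2 := h1.trans (Nat.pow_log_le_self 2 (by omega : N ≠ 0))
      exact_mod_cast h2
    have h1 := hm x hxx (ι := {a // a ∈ Aj}) (fun i => i.1) ((2 : ℝ) ^ j)
      (one_le_pow₀ (by norm_num)) (fun i => ⟨by exact_mod_cast (hmem i.1 i.2).2.1, by
        have := (hmem i.1 i.2).2.2
        rw [pow_succ, mul_comm] at this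
        exact_mod_cast this.le⟩) (by
      intro i T hi hT
      have h2 := hdiv i.1 (hmem i.1 i.2).1 (T.map (Function.Embedding.subtype _)) (by
        intro a ha
        obtain ⟨a', ha', rfl⟩ := Finset.mem_map.1 ha
        refine Finset.mem_erase.2 ⟨fun h => hi ?_, (hmem a'.1 a'.2).1⟩
        have h3 : a' = i := Subtype.ext h
        rwa [← h3]) (hT.map)
      rwa [Finset.sum_map] at h2) (by rw [hxp]; linarith)
    rw [Fintype.card_coe] at h1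
    have he : (6 : ℝ) - δ - 1 = 5 - δ := by ring
    rw [he] at h1
    have h5 : (0 : ℝ) < 5 - δ := by linarith
    have h2 : ((Aj.card : ℝ)) ^ (5 - δ) ≤ 16 * (N : ℝ) ^ (1 + δ) := by
      refine h1.trans ?_
      calc (2 : ℝ) ^ j * x ^ (25 * d₀ + 250) ≤ (N : ℝ) * (16 * (N : ℝ) ^ δ) :=
            mul_le_mul hM hxq (by positivity) (by positivity)
        _ = 16 * ((N : ℝ) ^ (1 : ℝ) * (N : ℝ) ^ δ) := by rw [Real.rpow_one]; ring
        _ = 16 * (N : ℝ) ^ (1 + δ) := by rw [← Real.rpow_add (by linarith)]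
    have h3 : (Aj.card : ℝ) ≤ (16 * (N : ℝ) ^ (1 + δ)) ^ ((1 : ℝ) / (5 - δ)) := by
      have h4 := Real.rpow_le_rpow (by positivity) h2 (by positivity : (0 : ℝ) ≤ 1 / (5 - δ))
      rwa [← Real.rpow_mul (by positivity), mul_one_div_cancel h5.ne', Real.rpow_one] at h4
    refine h3.trans ?_
    rw [Real.mul_rpow (by norm_num) (by positivity), ← Real.rpow_mul (by positivity), hb]
    refine mul_le_mul ?_ ?_ (by positivity) (by norm_num)
    · calc (16 : ℝ) ^ ((1 : ℝ) / (5 - δ)) ≤ 16 ^ (1 : ℝ) :=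
            Real.rpow_le_rpow_of_exponent_le (by norm_num) (by
              rw [div_le_one h5]; linarith)
        _ = 16 := Real.rpow_one _
    · refine Real.rpow_le_rpow_of_exponent_le hNr ?_
      rw [mul_one_div, div_le_iff₀ h5]
      nlinarith
  -- all pieces
  have hcard : A.card = ∑ j ∈ Finset.range (Nat.log 2 N + 1),
      (A.filter fun a => Nat.log 2 a = j).card := by
    apply Finset.card_eq_sum_card_fiberwise
    intro a ha
    have h1 := Finset.mem_Icc.1 (hA ha)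
    have h2 := Nat.log_mono_right (b := 2) h1.2
    simp only [Finset.coe_range, Set.mem_Iio]
    omega
  rw [hcard]
  push_cast
  calc ∑ j ∈ Finset.range (Nat.log 2 N + 1), ((A.filter fun a => Nat.log 2 a = j).card : ℝ)
      ≤ ∑ _j ∈ Finset.range (Nat.log 2 N + 1), b := Finset.sum_le_sum hpiece
    _ = (((Nat.log 2 N : ℝ) + 1) * 16) * (N : ℝ) ^ ((1 : ℝ) / 5 + ε / 2) := by
        rw [Finset.sum_const, Finset.card_range, nsmul_eq_mul, hb]
        push_cast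
        ring
    _ ≤ (N : ℝ) ^ (ε / 2) * (N : ℝ) ^ ((1 : ℝ) / 5 + ε / 2) :=
        mul_le_mul_of_nonneg_right (hlog N hN1) (by positivity)
    _ = (N : ℝ) ^ ((1 : ℝ) / 5 + ε) := by
        rw [← Real.rpow_add (by linarith)]
        congr 1
        ring

end Pool.DV5
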