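import Mathlib
import Pool.Agent.Lib.MP_a90784_dv.Defs
import Pool.Agent.Lib.MP_a90784_dv.Ba
import Pool.Agent.Lib.MP_a90784_dv.Cl

/-!
Tank DV5 (MP_a90784_nt), row R23, part 1: the small multiples of `1` in `ℤ/Q`.  (helper90)
-/

set_option autoImplicit false

namespace Pool.DV5

open Finset Module

/-- the multiples `0, 1, .., ⌊a⌋` of one -/
noncomputable def Tm (Q : ℕ) [NeZero Q] (a : ℝ) : Finset (ZMod Q) :=
  (Finset.range (⌊a⌋₊ + 1)).image (fun n : ℕ => (n : ZMod Q))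

theorem Tm_val {Q : ℕ} [NeZero Q] {a : ℝ} (ha : 0 ≤ a) (haQ : a < Q) {t : ZMod Q}
    (ht : t ∈ Tm Q a) : (t.val : ℝ) ≤ a := by
  rw [Tm, mem_image] at ht
  obtain ⟨n, hn, rfl⟩ := ht
  rw [mem_range] at hn
  have h1 : (n : ℝ) ≤ a := by
    have h2 : (n : ℝ) ≤ (⌊a⌋₊ : ℝ) := by exact_mod_cast Nat.lt_succ_iff.mp hn
    exact h2.trans (Nat.floor_le ha)
  have h3 : n < Q := by
    have : (n : ℝ) < Q := lt_of_le_of_lt h1 haQ
    exact_mod_cast this
  rwa [ZMod.val_natCast_of_lt h3]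

theorem lt_Tm_card {Q : ℕ} [NeZero Q] {a : ℝ} (ha : 0 ≤ a) (haQ : a < Q) :
    a < ((Tm Q a).card : ℝ) := by
  rw [Tm, card_image_of_injOn, card_range]
  · push_cast
    exact Nat.lt_floor_add_one a
  · intro m hm n hn hmn
    simp only [coe_range, Set.mem_Iio] at hm hn
    have hQ : ∀ k : ℕ, k < ⌊a⌋₊ + 1 → k < Q := by
      intro k hk
      have h2 : (k : ℝ) ≤ (⌊a⌋₊ : ℝ) := by exact_mod_cast Nat.lt_succ_iff.mp hk
      have h3 : (k : ℝ) < Q := lt_of_le_of_lt (h2.trans (Nat.floor_le ha)) haQ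
      exact_mod_cast h3
    have h4 := congrArg ZMod.val hmn
    simp only at h4
    rwa [ZMod.val_natCast_of_lt (hQ m hm), ZMod.val_natCast_of_lt (hQ n hn)] at h4

theorem chi_coe {ι : Type} (Q : ℕ) [NeZero Q] (v : ι → ℕ) (i : ι) (t : ZMod Q) :
    chi Q v i t = (((t.val : ℝ) * ((v i : ℝ) / Q) : ℝ) : UnitAddCircle) := by
  rw [chi, AddMonoidHom.nsmul_apply, ZMod.toAddCircle_apply, ← AddCircle.coe_nsmul]
  congr 1
  rw [nsmul_eq_mul]
  ring

theorem norm_chi_le {ι : Type} (Q : ℕ) [NeZero Q] (v : ι → ℕ) (i : ι) (t : ZMod Q) :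
    ‖chi Q v i t‖ ≤ (t.val : ℝ) * ((v i : ℝ) / Q) := by
  rw [chi_coe]
  refine (norm_coe_le _).trans (le_of_eq (abs_of_nonneg ?_))
  positivity

theorem norm_chi_sub_le {ι : Type} (Q : ℕ) [NeZero Q] (v : ι → ℕ) (i : ι) (t t' : ZMod Q) {a b : ℝ}
    (ht : (t.val : ℝ) ≤ a) (ht' : (t'.val : ℝ) ≤ a) (hb : a * ((v i : ℝ) / Q) ≤ b) :
    ‖chi Q v i (t - t')‖ ≤ b := by
  rw [map_sub, chi_coe, chi_coe, ← AddCircle.coe_sub]
  refine (norm_coe_le _).trans ?_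
  rw [← sub_mul, abs_mul]
  have h1 : |(t.val : ℝ) - (t'.val : ℝ)| ≤ a := by
    rw [abs_le]
    have h2 : (0 : ℝ) ≤ (t.val : ℝ) := Nat.cast_nonneg _
    have h3 : (0 : ℝ) ≤ (t'.val : ℝ) := Nat.cast_nonneg _
    constructor <;> linarith
  have h4 : 0 ≤ (v i : ℝ) / Q := by positivity
  rw [abs_of_nonneg h4]
  exact (mul_le_mul_of_nonneg_right h1 h4).trans hb

/-- cleaning in `ℤ/Q` -/
theorem clean_big {ι : Type} [DecidableEq ι] (Q : ℕ) [NeZero Q] (v : ι → ℕ) (M : ℝ) (hM : 1 ≤ M)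
    (hv : ∀ i, (v i : ℝ) ≤ 2 * M) (J : ℕ) (η₀ η₁ R : ℝ) (hR : 0 ≤ R) (hη₀ : 0 < η₀) (hη₀1 : η₀ ≤ 1)
    (hJ : 2 * M ≤ 2 ^ J * η₀) (hη : J * η₀ ≤ η₁) (S : Finset ι) :
    ∃ S' ⊆ S, η₀ * ((S \ S').card : ℝ) ≤ J * R ∧ Clean (chi Q v) S' R η₁ := by
  have hQ : (0 : ℝ) < Q := by exact_mod_cast Nat.pos_of_ne_zero (NeZero.ne Q)
  set a : ℝ := η₀ * Q / (2 * M) with ha
  have ha0 : 0 ≤ a := by positivity
  have haQ : a < Q := by
    rw [ha, div_lt_iff₀ (by linarith)]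
    nlinarith
  refine clean1 (chi Q v) S (Tm Q a) J η₀ η₁ R hR hη₀ ?_ ?_ hη
  · intro t ht t' ht' i _
    refine norm_chi_sub_le Q v i t t' (Tm_val ha0 haQ ht) (Tm_val ha0 haQ ht') ?_
    have h1 : a * ((v i : ℝ) / Q) ≤ a * ((2 * M) / Q) := by
      apply mul_le_mul_of_nonneg_left _ ha0
      apply div_le_div_of_nonneg_right (hv i) hQ.le
    refine h1.trans (le_of_eq ?_)
    rw [ha]
    field_simp
  · rw [ZMod.card]
    have h1 := lt_Tm_card ha0 haQ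
    have h2 : (Q : ℝ) < ((2 ^ J * (Tm Q a).card : ℕ) : ℝ) := by
      push_cast
      calc (Q : ℝ) ≤ 2 ^ J * a := by
            rw [ha, ← mul_div_assoc, le_div_iff₀ (by linarith)]
            nlinarith
        _ < 2 ^ J * ((Tm Q a).card : ℝ) := by
            apply mul_lt_mul_of_pos_left h1 (by positivity)
    exact_mod_cast h2

/-- the l^1 ball contains the small multiples of one -/
theorem DD_big {ι : Type} [Fintype ι] (Q : ℕ) [NeZero Q] (v : ι → ℕ) (M : ℝ) (hM : 1 ≤ M)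
    (hv : ∀ i, (v i : ℝ) ≤ 2 * M) (R : ℝ) (hR : 1 ≤ R) (hn : 0 < Fintype.card ι) :
    (Q : ℝ) ≤ 2 * M * Fintype.card ι * ((DD (chi Q v) Finset.univ R).card : ℝ) := by
  have hQ : (0 : ℝ) < Q := by exact_mod_cast Nat.pos_of_ne_zero (NeZero.ne Q)
  have hn' : (1 : ℝ) ≤ Fintype.card ι := by exact_mod_cast hn
  set a : ℝ := Q / (2 * M * Fintype.card ι) with ha
  have hden : 0 < 2 * M * (Fintype.card ι : ℝ) := by positivity
  have ha0 : 0 ≤ a := by positivity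
  have haQ : a < Q := by
    rw [ha, div_lt_iff₀ hden]
    have : 1 < 2 * M * (Fintype.card ι : ℝ) := by nlinarith
    nlinarith
  have hsub : Tm Q a ⊆ DD (chi Q v) Finset.univ R := by
    intro t ht
    rw [mem_DD]
    have h1 := Tm_val ha0 haQ ht
    calc N1 (chi Q v) Finset.univ t = ∑ i, ‖chi Q v i t‖ := rfl
      _ ≤ ∑ _i : ι, a * ((2 * M) / Q) := by
          apply sum_le_sum
          intro i _
          refine (norm_chi_le Q v i t).trans ?_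
          apply mul_le_mul h1 _ (by positivity) ha0
          apply div_le_div_of_nonneg_right (hv i) hQ.le
      _ = 1 := by
          rw [sum_const, card_univ, nsmul_eq_mul, ha]
          field_simp
      _ ≤ R := hR
  have h2 : ((Tm Q a).card : ℝ) ≤ ((DD (chi Q v) Finset.univ R).card : ℝ) := by
    exact_mod_cast card_le_card hsub
  have h3 := lt_Tm_card ha0 haQ
  have h4 : (Q : ℝ) = 2 * M * Fintype.card ι * a := by
    rw [ha]
    field_simp
  rw [h4]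
  apply mul_le_mul_of_nonneg_left (h3.le.trans h2) hden.le

end Pool.DV5
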