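import Mathlib
import Pool.Agent.Lib.MP_a90784_dv.MainT
import Pool.Agent.Lib.MP_a90784_dv.Dim

/-!
Tank DV5 (MP_a90784_nt), row R23, part 2: dimension of the span of the l^1 ball of `ℤ/Q`.  (helper90)
-/

set_option autoImplicit false

namespace Pool.DV5

open Finset Module

theorem dim_big {ι : Type} [DecidableEq ι] [Fintype ι] (Q : ℕ) [NeZero Q] (v : ι → ℕ) (M : ℝ)
    (hM : 1 ≤ M) (hv : ∀ i, M ≤ v i ∧ (v i : ℝ) ≤ 2 * M) (B : Finset ι) (hB : B.Nonempty)
    (R η₁ : ℝ) (hη0 : 0 ≤ η₁) (hcl : Clean (chi Q v) B R η₁) (k K : ℕ)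
    (hK : ((k : ℝ) + 1) * K * η₁ < 1 / 4) (hcard : 8 * M ≤ ((K : ℝ) + 1) ^ (k + 1)) :
    finrank ℝ (WW (chi Q v) B R) ≤ k + 1 := by
  have hQ : (0 : ℝ) < Q := by exact_mod_cast Nat.pos_of_ne_zero (NeZero.ne Q)
  set a : ℝ := Q / (8 * M) with ha
  have ha0 : 0 ≤ a := by positivity
  have haQ : a < Q := by
    rw [ha, div_lt_iff₀ (by linarith)]
    nlinarith
  set e : ι → ℝ := fun i => (v i : ℝ) / Q with he
  have h1 := dim_bound (chi Q v) B {θ | N1 (chi Q v) B θ ≤ R} η₁ (fun θ hθ i hi => hcl θ hθ i hi)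
    e (Tm Q a) (fun t => (t.val : ℝ))
    (by
      intro t _ t' _ h
      simp only [Nat.cast_inj] at h
      exact ZMod.val_injective Q h)
    (fun t _ i _ => chi_coe Q v i t)
    (by
      intro t ht t' ht' i _
      have h2 := Tm_val ha0 haQ ht
      have h3 := Tm_val ha0 haQ ht'
      have h4 : (0 : ℝ) ≤ (t.val : ℝ) := Nat.cast_nonneg _
      have h5 : (0 : ℝ) ≤ (t'.val : ℝ) := Nat.cast_nonneg _
      have h6 : |(t.val : ℝ) - (t'.val : ℝ)| ≤ a := by
        rw [abs_le]
        constructor <;> linarith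
      rw [abs_mul]
      have h7 : |e i| ≤ (2 * M) / Q := by
        rw [abs_of_nonneg (by rw [he]; positivity)]
        exact div_le_div_of_nonneg_right (hv i).2 hQ.le
      calc |(t.val : ℝ) - (t'.val : ℝ)| * |e i| ≤ a * ((2 * M) / Q) :=
            mul_le_mul h6 h7 (abs_nonneg _) ha0
        _ = 1 / 4 := by
            rw [ha]
            field_simp
            norm_num
        _ ≤ 1 / 4 := le_rfl)
    (by
      right
      intro h
      obtain ⟨i, hi⟩ := hB
      have h2 := congrFun h i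
      have h3 : rs B e i = e i := if_pos hi
      rw [h3] at h2
      have h4 : e i ≠ 0 := by
        have h5 : (0 : ℝ) < v i := by linarith [(hv i).1]
        exact (div_pos h5 hQ).ne'
      exact h4 h2)
    k K hη0 hK
    (by
      rw [ZMod.card]
      have h2 := lt_Tm_card ha0 haQ
      have h3 : (Q : ℝ) < (((K + 1) ^ (k + 1) * (Tm Q a).card : ℕ) : ℝ) := by
        push_cast
        calc (Q : ℝ) = 8 * M * a := by
              rw [ha]
              field_simp
          _ ≤ ((K : ℝ) + 1) ^ (k + 1) * a := mul_le_mul_of_nonneg_right hcard ha0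
          _ < ((K : ℝ) + 1) ^ (k + 1) * ((Tm Q a).card : ℝ) := by
              apply mul_lt_mul_of_pos_left h2 (by positivity)
      exact_mod_cast h3)
  have h2 : finrank ℝ (Submodule.span ℝ {rs B e} : Submodule ℝ (ι → ℝ)) ≤ 1 := by
    have := finrank_span_le_card (R := ℝ) ({rs B e} : Set (ι → ℝ))
    simpa using this
  have h3 : finrank ℝ (WW (chi Q v) B R) ≤
      finrank ℝ (SP (chi Q v) B {θ | N1 (chi Q v) B θ ≤ R} ⊔ Submodule.span ℝ {rs B e} :
        Submodule ℝ (ι → ℝ)) := Submodule.finrank_mono le_sup_left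
  omega

end Pool.DV5
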