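import Pool.Agent.Lib.MP_a90784_dv.EP

set_option autoImplicit false

namespace Pool.DV5

open Finset Module

/-! ### R23, the side of one modulus -/

/-- the numerical conditions -/
theorem MainP_num (d₀ : ℕ) : ∃ x₀ : ℝ, 10 ≤ x₀ ∧ ∀ x : ℝ, x₀ ≤ x →
    8 * ((d₀ : ℝ) + 1) < x ∧ ((d₀ : ℝ) + 1) ^ (d₀ + 3) * 8 ^ d₀ ≤ x ∧ ((d₀ : ℝ) + 1) ^ 2 + 2 ≤ x ∧
      (d₀ : ℝ) ^ 2 ≤ x ∧ x ^ (d₀ ^ 2) ≤ Real.exp (Real.log 2 * x) := by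
  have h1 := (isLittleO_pow_exp_pos_mul_atTop (d₀ ^ 2) (Real.log_pos one_lt_two)).bound
    (zero_lt_one)
  obtain ⟨A, hA⟩ := Filter.eventually_atTop.mp h1
  refine ⟨max 10 (max A (max (8 * ((d₀ : ℝ) + 1) + 1) (max (((d₀ : ℝ) + 1) ^ (d₀ + 3) * 8 ^ d₀)
    (max (((d₀ : ℝ) + 1) ^ 2 + 2) ((d₀ : ℝ) ^ 2))))), le_max_left _ _, ?_⟩
  intro x hx
  simp only [max_le_iff] at hx
  obtain ⟨hx1, hx2, hx3, hx4, hx5, hx6⟩ := hx
  refine ⟨by linarith, hx4, hx5, hx6, ?_⟩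
  have h2 := hA x hx2
  have hx0 : 0 ≤ x := by linarith
  rw [one_mul, Real.norm_of_nonneg (by positivity), Real.norm_of_nonneg (Real.exp_pos _).le] at h2
  exact h2

theorem per_modulus (d₀ : ℕ) (hd₀ : 2 ≤ d₀) : ∃ x₀ : ℝ, 1 ≤ x₀ ∧ ∀ x : ℝ, x₀ ≤ x →
    ∀ {ι : Type} [DecidableEq ι] [Fintype ι] (v : ι → ℕ) [∀ i, NeZero (v i)] (M : ℝ),
      1 ≤ M → (∀ i, M ≤ v i ∧ (v i : ℝ) ≤ 2 * M) →
      (∀ i, ∀ T : Finset ι, i ∉ T → T.Nonempty → ¬ v i ∣ ∑ j ∈ T, v j) →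
      16 * M ≤ x ^ (d₀ ^ 2) → ∀ B : Finset ι, x ^ (4 * d₀ + 40) ≤ B.card → ∀ i ∈ B,
        ∃ S' ⊆ B.erase i, (((B.erase i) \ S').card : ℝ) ≤ x ^ (3 * d₀ + 20) ∧
          ∃ w ∈ SP (chi (v i) v) S' {s | N1 (chi (v i) v) S' s ≤ Kmx d₀ ((1 / x) ^ (d₀ + 1))},
            ∑ j ∈ S', max (-w j) 0 < 4 * (1 / x) ^ (d₀ + 1) * ∑ j ∈ S', max (w j) 0 := by
  obtain ⟨x₀, hx₀, hnum⟩ := MainP_num d₀
  refine ⟨x₀, by linarith, ?_⟩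
  intro x hx ι _ _ v _ M hM hv hT hMx B hB i hi
  obtain ⟨n1, n2, n3, n4, n5⟩ := hnum x hx
  have hx10 : (10 : ℝ) ≤ x := hx₀.trans hx
  have hx0 : 0 < x := by linarith
  have hx1 : 1 ≤ x := by linarith
  have hxinv : x * x⁻¹ = 1 := mul_inv_cancel₀ hx0.ne'
  have hinv0 : 0 < x⁻¹ := inv_pos.mpr hx0
  have hk0 : (0 : ℝ) ≤ d₀ := Nat.cast_nonneg d₀
  have hmul : ∀ n : ℕ, x ^ n * (1 / x) ^ n = 1 := by
    intro n
    rw [← mul_pow, mul_one_div_cancel hx0.ne', one_pow]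
  -- abbreviations
  have ha0 : 0 < v i := Nat.pos_of_ne_zero (NeZero.ne _)
  have haM : (v i : ℝ) ≤ 2 * M := (hv i).2
  have hlog : Real.log (4 * (v i : ℕ)) ≤ x ^ 2 := by
    have h1 : (4 * (v i : ℕ) : ℝ) ≤ x ^ (d₀ ^ 2) := by linarith
    have h2 : Real.log (4 * (v i : ℕ)) ≤ Real.log (x ^ (d₀ ^ 2)) :=
      Real.log_le_log (by positivity) h1
    rw [Real.log_pow] at h2
    have h3 : Real.log x ≤ x := (Real.log_le_sub_one_of_pos hx0).trans (by linarith)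
    have h4 : ((d₀ ^ 2 : ℕ) : ℝ) * Real.log x ≤ x * x := by
      push_cast
      exact mul_le_mul n4 h3 (Real.log_nonneg hx1) hx0.le
    calc Real.log (4 * (v i : ℕ)) ≤ ((d₀ ^ 2 : ℕ) : ℝ) * Real.log x := h2
      _ ≤ x * x := h4
      _ = x ^ 2 := by ring
  set J : ℕ := ⌈x⌉₊ with hJdef
  have hJx : x ≤ J := Nat.le_ceil x
  have hJx2 : (J : ℝ) ≤ 2 * x := by
    have := (Nat.ceil_lt_add_one hx0.le).le
    linarith
  have hJ0 : (0 : ℝ) < J := by linarith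
  set K₁ : ℕ := ⌊x ^ (d₀ + 4)⌋₊ with hK₁def
  have hK₁le : (K₁ : ℝ) ≤ x ^ (d₀ + 4) := Nat.floor_le (by positivity)
  have hK₁lt : x ^ (d₀ + 4) < (K₁ : ℝ) + 1 := Nat.lt_floor_add_one _
  have hη0 : (0 : ℝ) < (1 / x) ^ (d₀ + 1) := by positivity
  have hKm : Kmx d₀ ((1 / x) ^ (d₀ + 1)) ≤ x ^ (d₀ + 3) := by
    have h1 : Kmx d₀ ((1 / x) ^ (d₀ + 1)) =
        ((d₀ : ℝ) + 1) ^ (d₀ + 3) * 8 ^ d₀ * x ^ (d₀ + 1) := by
      unfold Kmx Dc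
      rw [one_div, inv_pow, div_inv_eq_mul]
      ring
    rw [h1]
    calc ((d₀ : ℝ) + 1) ^ (d₀ + 3) * 8 ^ d₀ * x ^ (d₀ + 1) ≤ x * x ^ (d₀ + 1) :=
          mul_le_mul_of_nonneg_right n2 (by positivity)
      _ ≤ x * x ^ (d₀ + 1) * x := le_mul_of_one_le_right (by positivity) hx1
      _ = x ^ (d₀ + 3) := by ring
  have hη₁le : (1 / x) ^ (d₀ + 5) ≤ 1 / x := by
    have h1 : (1 / x) ≤ 1 := by rw [div_le_one hx0]; exact hx1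
    calc (1 / x) ^ (d₀ + 5) = (1 / x) * (1 / x) ^ (d₀ + 4) := by ring
      _ ≤ (1 / x) * 1 := mul_le_mul_of_nonneg_left (pow_le_one₀ (by positivity) h1) (by positivity)
      _ = 1 / x := mul_one _
  have h1x : (1 / x) * x = 1 := by field_simp
  have hcardB : (((B.erase i).card : ℕ) : ℝ) = (B.card : ℝ) - 1 := by
    rw [Finset.card_erase_of_mem hi, Nat.cast_sub (Finset.card_pos.mpr ⟨i, hi⟩)]
    simp
  refine EP (v i) v (B.erase i) ((1 / x) ^ (d₀ + 1)) ((1 / x) ^ (d₀ + 5) / J) ((1 / x) ^ (d₀ + 5))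
    (x ^ (d₀ + 3)) (x ^ (d₀ + 4)) (x ^ (3 * d₀ + 20)) d₀ J K₁ ?_ hη0 ?_ ?_ hKm ?_ ?_ ?_ ?_ ?_ ?_ ?_
    (by positivity) ?_ ?_
  · intro T hTB hTn
    exact hT i T (fun h => (Finset.mem_erase.mp (hTB h)).1 rfl) hTn
  · -- η ≤ 1/8
    have h1 : (1 / x) ≤ 1 := by rw [div_le_one hx0]; exact hx1
    calc (1 / x) ^ (d₀ + 1) = (1 / x) * (1 / x) ^ d₀ := by ring
      _ ≤ (1 / x) * 1 := mul_le_mul_of_nonneg_left (pow_le_one₀ (by positivity) h1) (by positivity)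
      _ = 1 / x := mul_one _
      _ ≤ 1 / 8 := one_div_le_one_div_of_le (by norm_num) (by linarith)
  · -- hRb1
    have h1 : 4 * (1 / x) ^ (d₀ + 1) * x ^ (d₀ + 3) = 4 * x ^ 2 := by
      calc 4 * (1 / x) ^ (d₀ + 1) * x ^ (d₀ + 3)
          = 4 * x ^ 2 * (x ^ (d₀ + 1) * (1 / x) ^ (d₀ + 1)) := by ring
        _ = 4 * x ^ 2 := by rw [hmul, mul_one]
    rw [h1]
    nlinarith [sq_nonneg x]
  · -- hRc
    calc ((d₀ : ℝ) + 1) ^ 2 * x ^ (d₀ + 3) + 2 * Kmx d₀ ((1 / x) ^ (d₀ + 1))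
        ≤ (((d₀ : ℝ) + 1) ^ 2 + 2) * x ^ (d₀ + 3) := by linarith
      _ ≤ x * x ^ (d₀ + 3) := mul_le_mul_of_nonneg_right n3 (by positivity)
      _ = x ^ (d₀ + 4) := by ring
  · -- 100 η₁ Rb ≤ 1
    have h1 : 100 * (1 / x) ^ (d₀ + 5) * x ^ (d₀ + 3) = 100 * (1 / x) ^ 2 := by
      calc 100 * (1 / x) ^ (d₀ + 5) * x ^ (d₀ + 3)
          = 100 * (1 / x) ^ 2 * (x ^ (d₀ + 3) * (1 / x) ^ (d₀ + 3)) := by ring
        _ = 100 * (1 / x) ^ 2 := by rw [hmul, mul_one]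
    rw [h1]
    have h2 : (1 / x) ≤ 1 / 10 := one_div_le_one_div_of_le (by norm_num) hx10
    have h3 : (0 : ℝ) < 1 / x := by positivity
    nlinarith
  · -- 8 (k+1) η₁ < 1
    calc 8 * ((d₀ : ℝ) + 1) * (1 / x) ^ (d₀ + 5) ≤ 8 * ((d₀ : ℝ) + 1) * (1 / x) :=
          mul_le_mul_of_nonneg_left hη₁le (by positivity)
      _ < x * (1 / x) := mul_lt_mul_of_pos_right n1 (by positivity)
      _ = 1 := mul_one_div_cancel hx0.ne'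
  · -- (k+1) K₁ η₁ < 1/4
    calc ((d₀ : ℝ) + 1) * K₁ * (1 / x) ^ (d₀ + 5)
        ≤ ((d₀ : ℝ) + 1) * x ^ (d₀ + 4) * (1 / x) ^ (d₀ + 5) := by gcongr
      _ = ((d₀ : ℝ) + 1) * (1 / x) * (x ^ (d₀ + 4) * (1 / x) ^ (d₀ + 4)) := by ring
      _ = ((d₀ : ℝ) + 1) * (1 / x) := by rw [hmul, mul_one]
      _ < 1 / 4 := by
          rw [mul_one_div, div_lt_div_iff₀ hx0 (by norm_num)]
          linarith
  · -- a < (K₁ + 1) ^ (k + 1)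
    have h1 : (v i : ℝ) < ((K₁ : ℝ) + 1) ^ (d₀ + 1) := by
      calc (v i : ℝ) ≤ 2 * M := haM
        _ < 16 * M := by linarith
        _ ≤ x ^ (d₀ ^ 2) := hMx
        _ ≤ x ^ ((d₀ + 4) * (d₀ + 1)) := pow_le_pow_right₀ hx1 (by nlinarith)
        _ = (x ^ (d₀ + 4)) ^ (d₀ + 1) := by rw [pow_mul]
        _ ≤ ((K₁ : ℝ) + 1) ^ (d₀ + 1) := pow_le_pow_left₀ (by positivity) hK₁lt.le _
    exact_mod_cast h1
  · -- a < 2 ^ J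
    have h1 : (v i : ℝ) < (2 : ℝ) ^ J := by
      calc (v i : ℝ) ≤ 2 * M := haM
        _ < 16 * M := by linarith
        _ ≤ x ^ (d₀ ^ 2) := hMx
        _ ≤ Real.exp (Real.log 2 * x) := n5
        _ ≤ Real.exp (Real.log 2 * J) := Real.exp_le_exp.mpr
            (mul_le_mul_of_nonneg_left hJx (Real.log_nonneg one_le_two))
        _ = (2 : ℝ) ^ J := by
            rw [mul_comm, Real.exp_nat_mul, Real.exp_log (by norm_num)]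
    exact_mod_cast h1
  · -- J η₀ ≤ η₁
    rw [mul_div_cancel₀ _ hJ0.ne']
  · -- J Rc ≤ η₀² E
    have h1 : (1 / x) ^ (d₀ + 5) / (2 * x) ≤ (1 / x) ^ (d₀ + 5) / J :=
      div_le_div_of_nonneg_left (by positivity) hJ0 hJx2
    have h2 : ((1 / x) ^ (d₀ + 5) / (2 * x)) ^ 2 ≤ ((1 / x) ^ (d₀ + 5) / J) ^ 2 :=
      pow_le_pow_left₀ (by positivity) h1 2
    have h3 : ((1 / x) ^ (d₀ + 5) / (2 * x)) ^ 2 * x ^ (3 * d₀ + 20) = x ^ (d₀ + 8) / 4 := by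
      have h4 : (1 / x) ^ (d₀ + 5) / (2 * x) = (1 / x) ^ (d₀ + 6) / 2 := by
        have h5 : (1 / x) ^ (d₀ + 5) / (2 * x) = (1 / x) ^ (d₀ + 5) * (1 / x) / 2 := by
          rw [mul_one_div, div_div, mul_comm x 2]
        rw [h5]
        ring
      rw [h4]
      calc ((1 / x) ^ (d₀ + 6) / 2) ^ 2 * x ^ (3 * d₀ + 20)
          = (x ^ (d₀ + 8) / 4) * (x ^ (2 * d₀ + 12) * (1 / x) ^ (2 * d₀ + 12)) := by
            ring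
        _ = x ^ (d₀ + 8) / 4 := by rw [hmul, mul_one]
    calc (J : ℝ) * x ^ (d₀ + 4) ≤ (2 * x) * x ^ (d₀ + 4) := by gcongr
      _ = 2 * x ^ (d₀ + 5) := by ring
      _ ≤ x ^ (d₀ + 8) / 4 := by
          have h5 : (8 : ℝ) ≤ x ^ 3 := by
            have : (10 : ℝ) ^ 3 ≤ x ^ 3 := pow_le_pow_left₀ (by norm_num) hx10 3
            linarith
          have h6 : x ^ (d₀ + 8) = x ^ (d₀ + 5) * x ^ 3 := by ring
          rw [h6]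
          have h7 : 0 < x ^ (d₀ + 5) := by positivity
          nlinarith
      _ = ((1 / x) ^ (d₀ + 5) / (2 * x)) ^ 2 * x ^ (3 * d₀ + 20) := h3.symm
      _ ≤ ((1 / x) ^ (d₀ + 5) / J) ^ 2 * x ^ (3 * d₀ + 20) :=
          mul_le_mul_of_nonneg_right h2 (by positivity)
  · -- hcard
    rw [hcardB]
    have h1 : x ^ (4 * d₀ + 39) ≤ (B.card : ℝ) - 1 - x ^ (3 * d₀ + 20) := by
      have h2 : x ^ (4 * d₀ + 40) = x * x ^ (4 * d₀ + 39) := by ring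
      have h3 : 1 ≤ x ^ (4 * d₀ + 39) := one_le_pow₀ hx1
      have h4 : x ^ (3 * d₀ + 20) ≤ x ^ (4 * d₀ + 39) := pow_le_pow_right₀ hx1 (by omega)
      nlinarith
    have h5 : (1 / x) ^ (d₀ + 1) * x ^ (4 * d₀ + 39) = x ^ (3 * d₀ + 38) := by
      calc (1 / x) ^ (d₀ + 1) * x ^ (4 * d₀ + 39)
          = x ^ (3 * d₀ + 38) * (x ^ (d₀ + 1) * (1 / x) ^ (d₀ + 1)) := by ring
        _ = x ^ (3 * d₀ + 38) := by rw [hmul, mul_one]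
    calc Real.log (4 * (v i : ℕ)) ≤ x ^ 2 := hlog
      _ ≤ x ^ (3 * d₀ + 38) := pow_le_pow_right₀ hx1 (by omega)
      _ = (1 / x) ^ (d₀ + 1) * x ^ (4 * d₀ + 39) := h5.symm
      _ ≤ (1 / x) ^ (d₀ + 1) * ((B.card : ℝ) - 1 - x ^ (3 * d₀ + 20)) :=
          mul_le_mul_of_nonneg_left h1 (by positivity)

end Pool.DV5
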