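import Pool.Agent.Lib.MP_a90784_dv.Defs

set_option autoImplicit false

namespace Pool.DV5

open Finset Module

/-- orthonormal coordinates of the hyperplane orthogonal to `β` -/
theorem pair_basis (m : ℕ) (β : EuclideanSpace ℝ (Fin (m + 2))) (hβ : β ≠ 0) :
    ∃ e : Fin (m + 1) → EuclideanSpace ℝ (Fin (m + 2)),
      (∀ k, inner ℝ (e k) β = (0 : ℝ)) ∧ (∀ k, ‖e k‖ = 1) ∧
      ∀ x, inner ℝ x β = (0 : ℝ) → ‖x‖ ^ 2 = ∑ k, (inner ℝ (e k) x) ^ 2 := by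
  set H : Submodule ℝ (EuclideanSpace ℝ (Fin (m + 2))) := (Submodule.span ℝ {β})ᗮ with hH
  have : Fact (finrank ℝ (EuclideanSpace ℝ (Fin (m + 2))) = (m + 1) + 1) := ⟨by simp⟩
  have hfin : finrank ℝ H = m + 1 := Submodule.finrank_orthogonal_span_singleton hβ
  have hmem : ∀ x, x ∈ H ↔ inner ℝ x β = (0 : ℝ) := fun x => by
    rw [hH]; exact Submodule.mem_orthogonal_singleton_iff_inner_left
  let b : OrthonormalBasis (Fin (m + 1)) ℝ H :=
    (stdOrthonormalBasis ℝ H).reindex (finCongr hfin)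
  refine ⟨fun k => (b k : EuclideanSpace ℝ (Fin (m + 2))), fun k => ?_, fun k => ?_, fun x hx => ?_⟩
  · exact (hmem _).1 (b k).2
  · have := b.orthonormal.1 k
    exact this
  · have hxH : x ∈ H := (hmem _).2 hx
    have := b.sum_sq_norm_inner_right ⟨x, hxH⟩
    have h2 : ‖(⟨x, hxH⟩ : H)‖ = ‖x‖ := rfl
    rw [h2] at this
    rw [← this]
    refine Finset.sum_congr rfl fun k _ => ?_
    rw [Real.norm_eq_abs, sq_abs]
    rfl

/-- the lifting parameter -/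
theorem pair_lift (m : ℕ) (β : EuclideanSpace ℝ (Fin (m + 2)))
    (e : Fin (m + 1) → EuclideanSpace ℝ (Fin (m + 2)))
    (he1 : ∀ k, ‖e k‖ = 1)
    (he : ∀ x, inner ℝ x β = (0 : ℝ) → ‖x‖ ^ 2 = ∑ k, (inner ℝ (e k) x) ^ 2)
    (T : ℝ) (hT : 1 ≤ T) (y n : EuclideanSpace ℝ (Fin (m + 2)))
    (hn : ‖n‖ = 1) (hnβ : inner ℝ n β = (0 : ℝ)) (hyβ : inner ℝ y β = (0 : ℝ)) (hy : ‖y‖ ≤ T) :
    ∃ t : ℝ, 2 * T ≤ t ∧ t ≤ 4 * (m + 1) * T ∧
      (∀ k, |inner ℝ (e k) (y + t • n)| ≤ 3 * T) ∧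
      ∃ k, |inner ℝ (e k) (y + t • n)| = 3 * T := by
  let v : ℝ → (Fin (m + 1) → ℝ) := fun t k => inner ℝ (e k) (y + t • n)
  have hcont : Continuous fun t : ℝ => ‖v t‖ := by
    apply Continuous.norm
    apply continuous_pi
    intro k
    exact Continuous.inner continuous_const (by fun_prop)
  have h0 : ‖v 0‖ ≤ 3 * T := by
    rw [pi_norm_le_iff_of_nonneg (by linarith)]
    intro k
    simp only [v, zero_smul, add_zero, Real.norm_eq_abs]
    have := abs_real_inner_le_norm (e k) y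
    rw [he1 k] at this
    linarith
  have hm : (0 : ℝ) ≤ m := Nat.cast_nonneg m
  have h1 : 3 * T ≤ ‖v (4 * (m + 1) * T)‖ := by
    set t1 : ℝ := 4 * (m + 1) * T with ht1
    have ht1' : 4 * T ≤ t1 := by rw [ht1]; nlinarith
    have hnorm : t1 - T ≤ ‖y + t1 • n‖ := by
      have h := norm_sub_norm_le (t1 • n) (-y)
      rw [norm_neg, norm_smul, hn, Real.norm_eq_abs, abs_of_nonneg (by linarith)] at h
      have h2 : t1 • n - -y = y + t1 • n := by abel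
      rw [h2] at h
      linarith
    have hb : inner ℝ (y + t1 • n) β = (0 : ℝ) := by
      rw [inner_add_left, inner_smul_left, hyβ, hnβ]; simp
    have hs := he _ hb
    have hle : ∑ k, (inner ℝ (e k) (y + t1 • n)) ^ 2 ≤ (m + 1) * ‖v t1‖ ^ 2 := by
      calc ∑ k, (inner ℝ (e k) (y + t1 • n)) ^ 2 ≤ ∑ _k : Fin (m + 1), ‖v t1‖ ^ 2 := by
            refine Finset.sum_le_sum fun k _ => ?_
            have := norm_le_pi_norm (v t1) k
            have h3 : |inner ℝ (e k) (y + t1 • n)| ≤ ‖v t1‖ := this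
            rw [← sq_abs]
            exact pow_le_pow_left₀ (abs_nonneg _) h3 2
        _ = (m + 1) * ‖v t1‖ ^ 2 := by simp
    by_contra hcon
    push Not at hcon
    have hv0 : 0 ≤ ‖v t1‖ := norm_nonneg _
    have h5 : (t1 - T) ^ 2 ≤ (m + 1) * ‖v t1‖ ^ 2 := by
      calc (t1 - T) ^ 2 ≤ ‖y + t1 • n‖ ^ 2 := by
            apply pow_le_pow_left₀ (by linarith) hnorm
        _ ≤ _ := by rw [hs]; exact hle
    have h6 : ‖v t1‖ ^ 2 < (3 * T) ^ 2 := by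
      apply pow_lt_pow_left₀ hcon hv0 (by norm_num)
    have h7 : 3 * (m + 1) * T ≤ t1 - T := by rw [ht1]; nlinarith
    have h8 : (3 * (m + 1) * T) ^ 2 ≤ (t1 - T) ^ 2 := by
      apply pow_le_pow_left₀ (by positivity) h7
    nlinarith [sq_nonneg T, mul_nonneg hm (sq_nonneg T)]
  obtain ⟨t, ht, htv⟩ := intermediate_value_Icc (a := (0 : ℝ)) (b := 4 * (m + 1) * T)
    (by positivity) hcont.continuousOn (show 3 * T ∈ Set.Icc ‖v 0‖ ‖v (4 * (m + 1) * T)‖ from ⟨h0, h1⟩)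
  have htv' : ‖v t‖ = 3 * T := htv
  have hall : ∀ k, |inner ℝ (e k) (y + t • n)| ≤ 3 * T := by
    intro k
    rw [← htv']
    exact norm_le_pi_norm (v t) k
  have hex : ∃ k, |inner ℝ (e k) (y + t • n)| = 3 * T := by
    by_contra hcon
    push Not at hcon
    have : ‖v t‖ < 3 * T := by
      rw [pi_norm_lt_iff (by linarith)]
      intro k
      exact lt_of_le_of_ne (hall k) (hcon k)
    linarith
  refine ⟨t, ?_, ht.2, hall, hex⟩
  obtain ⟨k, hk⟩ := hex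
  rw [inner_add_right, inner_smul_right] at hk
  have h2 := abs_real_inner_le_norm (e k) y
  have h3 := abs_real_inner_le_norm (e k) n
  rw [he1 k] at h2 h3
  rw [hn] at h3
  have h4 : 3 * T ≤ T + t := by
    calc 3 * T = |inner ℝ (e k) y + t * inner ℝ (e k) n| := hk.symm
      _ ≤ |inner ℝ (e k) y| + |t * inner ℝ (e k) n| := abs_add_le _ _
      _ ≤ T + t := by
          rw [abs_mul, abs_of_nonneg ht.1]
          have := mul_le_mul_of_nonneg_left h3 ht.1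
          linarith
  linarith

/-- the unit normal in the hyperplane -/
theorem pair_normal {E : Type} [NormedAddCommGroup E] [InnerProductSpace ℝ E] (T : ℝ) (hT : 1 ≤ T)
    (β ω q : E) (hβT : ‖β‖ ≤ T) (hq : ‖q‖ ≤ T) (hβq : inner ℝ β q = (1 : ℝ)) (hω : ‖ω‖ = 1)
    (hωq : inner ℝ ω q = (0 : ℝ)) :
    ∃ n : E, ‖n‖ = 1 ∧ inner ℝ n β = (0 : ℝ) ∧
      ∀ x, inner ℝ x β = (0 : ℝ) → ∀ h : ℝ, 0 ≤ h → -h ≤ inner ℝ ω x →
        inner ℝ n x ≤ (1 + T ^ 2) * h := by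
  have hβ : β ≠ 0 := by
    rintro rfl
    rw [inner_zero_left] at hβq
    exact zero_ne_one hβq
  have hβ2 : (0 : ℝ) < ‖β‖ ^ 2 := by positivity
  set s : ℝ := inner ℝ ω β / ‖β‖ ^ 2 with hs
  set p : E := ω - s • β with hp
  have hpβ : inner ℝ p β = (0 : ℝ) := by
    rw [hp, inner_sub_left, inner_smul_left, real_inner_self_eq_norm_sq, hs]
    simp only [conj_trivial]
    field_simp
    ring
  have hpq : inner ℝ p q = -s := by
    rw [hp, inner_sub_left, inner_smul_left, hωq, hβq]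
    simp
  have hsle : |s| ≤ ‖p‖ * T := by
    have h1 := abs_real_inner_le_norm p q
    rw [hpq, abs_neg] at h1
    exact h1.trans (mul_le_mul_of_nonneg_left hq (norm_nonneg _))
  have h1 : 1 ≤ ‖p‖ * (1 + T ^ 2) := by
    have h2 : ω = p + s • β := by rw [hp]; abel
    have h3 : ‖ω‖ ≤ ‖p‖ + |s| * ‖β‖ := by
      calc ‖ω‖ = ‖p + s • β‖ := by rw [← h2]
        _ ≤ ‖p‖ + ‖s • β‖ := norm_add_le _ _
        _ = ‖p‖ + |s| * ‖β‖ := by rw [norm_smul, Real.norm_eq_abs]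
    rw [hω] at h3
    have h4 : |s| * ‖β‖ ≤ (‖p‖ * T) * T :=
      mul_le_mul hsle hβT (norm_nonneg _) (by positivity)
    nlinarith
  have hp0 : 0 < ‖p‖ := by
    rcases (norm_nonneg p).lt_or_eq with h | h
    · exact h
    · rw [← h] at h1; linarith
  refine ⟨-(‖p‖⁻¹ • p), ?_, ?_, ?_⟩
  · rw [norm_neg, norm_smul, norm_inv, norm_norm, inv_mul_cancel₀ hp0.ne']
  · rw [inner_neg_left, inner_smul_left, hpβ]; simp
  · intro x hx h hh hωx
    have hpx : inner ℝ p x = inner ℝ ω x := by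
      rw [hp, inner_sub_left, inner_smul_left, real_inner_comm x β] 
      rw [real_inner_comm] at hx
      rw [real_inner_comm] at hx
      rw [hx]; simp
    rw [inner_neg_left, inner_smul_left, hpx]
    simp only [conj_trivial]
    have h5 : ‖p‖⁻¹ ≤ 1 + T ^ 2 := by
      rw [inv_le_iff_one_le_mul₀ hp0]
      linarith
    have h6 : -(‖p‖⁻¹ * inner ℝ ω x) = ‖p‖⁻¹ * (-inner ℝ ω x) := by ring
    rw [h6]
    calc ‖p‖⁻¹ * (-inner ℝ ω x) ≤ ‖p‖⁻¹ * h := by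
          apply mul_le_mul_of_nonneg_left (by linarith) (by positivity)
      _ ≤ (1 + T ^ 2) * h := mul_le_mul_of_nonneg_right h5 hh

/-- the two point lemma -/
theorem pair_two {E : Type} [NormedAddCommGroup E] [InnerProductSpace ℝ E] (ρ h S : ℝ)
    (hρ : 0 < ρ) (hh : 0 ≤ h) (hhρ : h ≤ ρ ^ 2) (hS : S * h ≤ 2 * ρ ^ 2) (y z n k : E) (s t : ℝ)
    (hn : ‖n‖ = 1) (hk : ‖k‖ = 1) (hs : 2 ≤ s) (ht : 2 ≤ t) (hst : s + t ≤ S)
    (hY : ‖(z + t • k) - (y + s • n)‖ ≤ ρ) (h1 : inner ℝ n (z - y) ≤ h)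
    (h2 : inner ℝ k (y - z) ≤ h) : ‖z - y‖ ≤ 2 * ρ ∧ |inner ℝ n (z - y)| ≤ 4 * ρ ^ 2 := by
  set u := z - y with hu
  have h2' : -h ≤ inner ℝ k u := by
    have : y - z = -u := by rw [hu]; abel
    rw [this, inner_neg_right] at h2
    linarith
  set w := (z + t • k) - (y + s • n) with hw
  have huw : u = w + s • n - t • k := by rw [hu, hw]; abel
  have hsq : ‖u‖ ^ 2 ≤ ρ * ‖u‖ + 2 * ρ ^ 2 := by
    have h3 : ‖u‖ ^ 2 = inner ℝ w u + s * inner ℝ n u - t * inner ℝ k u := by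
      rw [← real_inner_self_eq_norm_sq]
      calc inner ℝ u u = inner ℝ (w + s • n - t • k) u := by rw [← huw]
        _ = _ := by
            rw [inner_sub_left, inner_add_left, inner_smul_left, inner_smul_left]; simp
    have h4 : inner ℝ w u ≤ ρ * ‖u‖ :=
      (real_inner_le_norm w u).trans (mul_le_mul_of_nonneg_right hY (norm_nonneg _))
    have h5 : s * inner ℝ n u ≤ s * h := mul_le_mul_of_nonneg_left h1 (by linarith)
    have h6 : t * (-h) ≤ t * inner ℝ k u := mul_le_mul_of_nonneg_left h2' (by linarith)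
    have h7 : (s + t) * h ≤ S * h := mul_le_mul_of_nonneg_right hst hh
    nlinarith
  have hu2 : ‖u‖ ≤ 2 * ρ := by
    by_contra hcon
    push Not at hcon
    nlinarith [norm_nonneg u]
  refine ⟨hu2, ?_⟩
  have hdiff : ‖s • n - t • k‖ ≤ 3 * ρ := by
    have : s • n - t • k = u - w := by rw [huw]; abel
    rw [this]
    calc ‖u - w‖ ≤ ‖u‖ + ‖w‖ := norm_sub_le _ _
      _ ≤ 3 * ρ := by linarith
  have hnk : 4 * ‖n - k‖ ^ 2 ≤ (3 * ρ) ^ 2 := by
    have h8 : ‖s • n - t • k‖ ^ 2 = (s - t) ^ 2 + s * t * ‖n - k‖ ^ 2 := by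
      rw [norm_sub_sq_real, norm_sub_sq_real, norm_smul, norm_smul, hn, hk, inner_smul_left,
        inner_smul_right, Real.norm_eq_abs, Real.norm_eq_abs, abs_of_nonneg (by linarith : (0:ℝ) ≤ s),
        abs_of_nonneg (by linarith : (0:ℝ) ≤ t)]
      simp only [conj_trivial]
      ring
    have h9 : ‖s • n - t • k‖ ^ 2 ≤ (3 * ρ) ^ 2 := pow_le_pow_left₀ (norm_nonneg _) hdiff 2
    have h10 : 4 ≤ s * t := by nlinarith
    nlinarith [sq_nonneg (s - t), sq_nonneg ‖n - k‖]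
  have hnk' : ‖n - k‖ ≤ 3 / 2 * ρ := by
    by_contra hcon
    push Not at hcon
    nlinarith [norm_nonneg (n - k)]
  rw [abs_le]
  constructor
  · have h11 : inner ℝ n u = inner ℝ k u + inner ℝ (n - k) u := by
      rw [inner_sub_left]; ring
    have h12 := abs_real_inner_le_norm (n - k) u
    have h13 : ‖n - k‖ * ‖u‖ ≤ (3 / 2 * ρ) * (2 * ρ) :=
      mul_le_mul hnk' hu2 (norm_nonneg _) (by positivity)
    have h14 := neg_abs_le (inner ℝ (n - k) u)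
    nlinarith
  · nlinarith [sq_nonneg ρ]

/-- classes of nearby lifted points -/
theorem pair_class (m : ℕ) (β : EuclideanSpace ℝ (Fin (m + 2)))
    (e : Fin (m + 1) → EuclideanSpace ℝ (Fin (m + 2)))
    (he : ∀ x, inner ℝ x β = (0 : ℝ) → ‖x‖ ^ 2 = ∑ k, (inner ℝ (e k) x) ^ 2)
    (T : ℝ) (hT : 1 ≤ T) {ι : Type} (B : Finset ι) (Y : ι → EuclideanSpace ℝ (Fin (m + 2)))
    (hYβ : ∀ i, i ∈ B → inner ℝ (Y i) β = (0 : ℝ))
    (hall : ∀ i, i ∈ B → ∀ k, |inner ℝ (e k) (Y i)| ≤ 3 * T)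
    (hex : ∀ i, i ∈ B → ∃ k, |inner ℝ (e k) (Y i)| = 3 * T)
    (ρ : ℝ) (hρ : 0 < ρ) (hρ1 : ρ ≤ 1) :
    ∃ K ⊆ B, (2 * ((m : ℝ) + 1) * (6 * T * (m + 1) + 1) ^ m)⁻¹ * ρ ^ m * B.card ≤ (K.card : ℝ) ∧
      ∀ i ∈ K, ∀ j ∈ K, ‖Y j - Y i‖ ≤ ρ := by
  classical
  have hm : (0 : ℝ) ≤ m := Nat.cast_nonneg m
  have hT0 : 0 < T := by linarith
  have hkex : ∀ i, ∃ k, i ∈ B → |inner ℝ (e k) (Y i)| = 3 * T := by
    intro i
    by_cases hi : i ∈ B
    · obtain ⟨k, hk⟩ := hex i hi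
      exact ⟨k, fun _ => hk⟩
    · exact ⟨0, fun h => absurd h hi⟩
  choose kk hkk using hkex
  set N : ℕ := ⌊6 * T * (m + 1) / ρ⌋₊ + 1 with hN
  let cell : ι → Fin m → ℕ := fun i l =>
    ⌊(inner ℝ (e ((kk i).succAbove l)) (Y i) + 3 * T) * ((m + 1) / ρ)⌋₊
  let f : ι → Fin (m + 1) × Bool × (Fin m → ℕ) := fun i =>
    (kk i, decide (0 ≤ inner ℝ (e (kk i)) (Y i)), cell i)
  let t : Finset (Fin (m + 1) × Bool × (Fin m → ℕ)) :=
    Finset.univ ×ˢ (Finset.univ ×ˢ Fintype.piFinset (fun _ => Finset.range N))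
  have hft : ∀ i ∈ B, f i ∈ t := by
    intro i hi
    simp only [f, t, Finset.mem_product, Finset.mem_univ, true_and, Fintype.mem_piFinset,
      Finset.mem_range, cell, hN]
    intro l
    apply Nat.lt_succ_of_le
    apply Nat.floor_le_floor
    have h1 := (abs_le.1 (hall i hi ((kk i).succAbove l))).2
    have h2 : (0 : ℝ) ≤ (m + 1) / ρ := by positivity
    calc (inner ℝ (e ((kk i).succAbove l)) (Y i) + 3 * T) * ((m + 1) / ρ)
        ≤ (6 * T) * ((m + 1) / ρ) := by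
          apply mul_le_mul_of_nonneg_right _ h2
          linarith
      _ = 6 * T * (m + 1) / ρ := by ring
  have htcard : t.card = (m + 1) * (2 * N ^ m) := by
    simp [t, Finset.card_product]
  have htne : t.Nonempty := by
    rw [← Finset.card_pos, htcard]
    have : 0 < N := by omega
    positivity
  set A : ℝ := 6 * T * (m + 1) + 1 with hA
  have hA0 : 0 < A := by positivity
  have hNA : (N : ℝ) ≤ A / ρ := by
    rw [hN]
    push_cast
    have h3 : (⌊6 * T * (m + 1) / ρ⌋₊ : ℝ) ≤ 6 * T * (m + 1) / ρ := Nat.floor_le (by positivity)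
    have h4 : (1 : ℝ) ≤ 1 / ρ := by rw [le_div_iff₀ hρ]; linarith
    calc (⌊6 * T * (m + 1) / ρ⌋₊ : ℝ) + 1 ≤ 6 * T * (m + 1) / ρ + 1 / ρ := by linarith
      _ = A / ρ := by rw [hA]; ring
  have hcard : t.card • ((2 * ((m : ℝ) + 1) * A ^ m)⁻¹ * ρ ^ m * B.card) ≤ (B.card : ℝ) := by
    rw [nsmul_eq_mul, htcard]
    push_cast
    have h5 : (N : ℝ) ^ m ≤ A ^ m / ρ ^ m := by
      rw [← div_pow]
      exact pow_le_pow_left₀ (Nat.cast_nonneg _) hNA m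
    have h6 : (N : ℝ) ^ m * ρ ^ m ≤ A ^ m := by
      rwa [le_div_iff₀ (by positivity)] at h5
    have h7 : ((m : ℝ) + 1) * (2 * (N : ℝ) ^ m) * ((2 * ((m : ℝ) + 1) * A ^ m)⁻¹ * ρ ^ m * B.card)
        = ((N : ℝ) ^ m * ρ ^ m) * (A ^ m)⁻¹ * B.card := by
      field_simp
    rw [h7]
    calc ((N : ℝ) ^ m * ρ ^ m) * (A ^ m)⁻¹ * B.card ≤ A ^ m * (A ^ m)⁻¹ * B.card := by
          gcongr
      _ = B.card := by rw [mul_inv_cancel₀ (by positivity), one_mul]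
  obtain ⟨y, hy, hyc⟩ := Finset.exists_le_card_fiber_of_nsmul_le_card_of_maps_to hft htne hcard
  refine ⟨{x ∈ B | f x = y}, Finset.filter_subset _ _, hyc, ?_⟩
  intro i hi j hj
  rw [Finset.mem_filter] at hi hj
  have hij : f i = f j := by rw [hi.2, hj.2]
  have hk : kk i = kk j := congrArg (fun p => p.1) hij
  have hsg : decide (0 ≤ inner ℝ (e (kk i)) (Y i)) = decide (0 ≤ inner ℝ (e (kk j)) (Y j)) :=
    congrArg (fun p => p.2.1) hij
  have hcl : cell i = cell j := congrArg (fun p => p.2.2) hij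
  have hb : inner ℝ (Y j - Y i) β = (0 : ℝ) := by
    rw [inner_sub_left, hYβ j hj.1, hYβ i hi.1]; simp
  have hsq := he _ hb
  rw [Fin.sum_univ_succAbove _ (kk i)] at hsq
  have hz : inner ℝ (e (kk i)) (Y j - Y i) = (0 : ℝ) := by
    rw [inner_sub_right]
    have h1 := hkk i hi.1
    have h2 := hkk j hj.1
    rw [← hk] at h2 hsg
    rcases le_total 0 (inner ℝ (e (kk i)) (Y i) : ℝ) with h | h
    · rw [abs_of_nonneg h] at h1
      have h3 : 0 ≤ (inner ℝ (e (kk i)) (Y j) : ℝ) := by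
        simpa [h] using hsg
      rw [abs_of_nonneg h3] at h2
      linarith
    · have h4 : ¬ (0 ≤ (inner ℝ (e (kk i)) (Y i) : ℝ)) := by
        intro h5
        have : (inner ℝ (e (kk i)) (Y i) : ℝ) = 0 := le_antisymm h h5
        rw [this, abs_zero] at h1
        linarith
      have h3 : (inner ℝ (e (kk i)) (Y j) : ℝ) < 0 := by
        simpa [h4] using hsg
      rw [abs_of_nonpos h] at h1
      rw [abs_of_neg h3] at h2
      linarith
  have hl : ∀ l : Fin m, (inner ℝ (e ((kk i).succAbove l)) (Y j - Y i)) ^ 2 ≤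
      (ρ / (m + 1)) ^ 2 := by
    intro l
    rw [inner_sub_right, ← sq_abs]
    apply pow_le_pow_left₀ (abs_nonneg _)
    have h1 : cell i l = cell j l := by rw [hcl]
    simp only [cell, ← hk] at h1
    have h2 : (0 : ℝ) < (m + 1) / ρ := by positivity
    have ha := (abs_le.1 (hall i hi.1 ((kk i).succAbove l))).1
    have hb := (abs_le.1 (hall j hj.1 ((kk i).succAbove l))).1
    set a : ℝ := inner ℝ (e ((kk i).succAbove l)) (Y i) with ha'
    set b : ℝ := inner ℝ (e ((kk i).succAbove l)) (Y j) with hb'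
    have h3 : 0 ≤ (a + 3 * T) * ((m + 1) / ρ) := mul_nonneg (by linarith) h2.le
    have h4 : 0 ≤ (b + 3 * T) * ((m + 1) / ρ) := mul_nonneg (by linarith) h2.le
    have h5 := Nat.floor_le h3
    have h6 := Nat.lt_floor_add_one ((a + 3 * T) * ((m + 1) / ρ))
    have h7 := Nat.floor_le h4
    have h8 := Nat.lt_floor_add_one ((b + 3 * T) * ((m + 1) / ρ))
    rw [h1] at h5 h6
    have h9 : |(b - a) * ((m + 1) / ρ)| ≤ 1 := by
      rw [abs_le]
      constructor <;> nlinarith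
    rw [abs_mul, abs_of_pos h2] at h9
    rw [le_div_iff₀ (by positivity)]
    have h10 : |b - a| * ((m + 1) / ρ) = |b - a| * (m + 1) / ρ := by ring
    rw [h10, div_le_one hρ] at h9
    exact h9
  have hfin : ‖Y j - Y i‖ ^ 2 ≤ ρ ^ 2 := by
    rw [hsq, hz]
    have h11 : ∑ l : Fin m, (inner ℝ (e ((kk i).succAbove l)) (Y j - Y i)) ^ 2 ≤
        m * (ρ / (m + 1)) ^ 2 := by
      calc _ ≤ ∑ _l : Fin m, (ρ / (m + 1)) ^ 2 := Finset.sum_le_sum fun l _ => hl l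
        _ = m * (ρ / (m + 1)) ^ 2 := by simp
    have h12 : m * (ρ / (m + 1)) ^ 2 ≤ ρ ^ 2 := by
      rw [div_pow, mul_div_assoc', div_le_iff₀ (by positivity)]
      nlinarith [sq_nonneg ρ, mul_nonneg hm (sq_nonneg ρ), mul_nonneg (mul_nonneg hm hm) (sq_nonneg ρ)]
    linarith
  exact (sq_le_sq₀ (norm_nonneg _) hρ.le).1 hfin

/-- averaging -/
theorem pair_avg {ι : Type} [DecidableEq ι] (K : Finset ι) (hK : K.Nonempty) (bad : ι → Finset ι)
    (b : ℝ) (hb : ∀ i ∈ K, ((bad i).card : ℝ) ≤ b) (hbK : 8 * b ≤ K.card) :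
    ∃ i₀ ∈ K, (3 / 4 : ℝ) * K.card ≤ ((K.filter (fun j => j ∉ bad i₀ ∧ i₀ ∉ bad j)).card : ℝ) := by
  classical
  have h1 : ∑ i ∈ K, ((K.filter (fun j => i ∈ bad j)).card : ℝ) =
      ∑ j ∈ K, ((K.filter (fun i => i ∈ bad j)).card : ℝ) := by
    have : ∀ i, ((K.filter (fun j => i ∈ bad j)).card : ℝ) = ∑ j ∈ K, if i ∈ bad j then 1 else 0 := by
      intro i; rw [Finset.sum_boole]
    simp_rw [this]
    rw [Finset.sum_comm]
    refine Finset.sum_congr rfl fun j _ => ?_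
    rw [Finset.sum_boole]
  have h2 : ∑ i ∈ K, (((K.filter (fun j => j ∈ bad i)).card : ℝ) +
      ((K.filter (fun j => i ∈ bad j)).card : ℝ)) ≤ ∑ _i ∈ K, 2 * b := by
    rw [Finset.sum_add_distrib, h1, ← Finset.sum_add_distrib]
    refine Finset.sum_le_sum fun i hi => ?_
    have h3 : ((K.filter (fun j => j ∈ bad i)).card : ℝ) ≤ (bad i).card := by
      exact_mod_cast Finset.card_le_card (fun j hj => (Finset.mem_filter.1 hj).2)
    have := hb i hi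
    linarith
  obtain ⟨i, hi, hle⟩ := Finset.exists_le_of_sum_le hK h2
  refine ⟨i, hi, ?_⟩
  have h4 : K ⊆ (K.filter (fun j => j ∉ bad i ∧ i ∉ bad j)) ∪
      ((K.filter (fun j => j ∈ bad i)) ∪ (K.filter (fun j => i ∈ bad j))) := by
    intro j hj
    simp only [Finset.mem_union, Finset.mem_filter]
    by_cases h5 : j ∈ bad i
    · exact Or.inr (Or.inl ⟨hj, h5⟩)
    · by_cases h6 : i ∈ bad j
      · exact Or.inr (Or.inr ⟨hj, h6⟩)
      · exact Or.inl ⟨hj, h5, h6⟩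
  have h7 := Finset.card_le_card h4
  have h8 := Finset.card_union_le (K.filter (fun j => j ∉ bad i ∧ i ∉ bad j))
      ((K.filter (fun j => j ∈ bad i)) ∪ (K.filter (fun j => i ∈ bad j)))
  have h9 := Finset.card_union_le (K.filter (fun j => j ∈ bad i)) (K.filter (fun j => i ∈ bad j))
  have h10 : (K.card : ℝ) ≤ (K.filter (fun j => j ∉ bad i ∧ i ∉ bad j)).card +
      (((K.filter (fun j => j ∈ bad i)).card : ℝ) + ((K.filter (fun j => i ∈ bad j)).card : ℝ)) := by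
    exact_mod_cast (by omega : K.card ≤ (K.filter (fun j => j ∉ bad i ∧ i ∉ bad j)).card +
      (((K.filter (fun j => j ∈ bad i)).card) + ((K.filter (fun j => i ∈ bad j)).card)))
  linarith

theorem cluster (d : ℕ) (hd : 2 ≤ d) (T : ℝ) (hT : 1 ≤ T) :
    ∃ cP : ℝ, 0 < cP ∧ ∃ CP : ℝ, 0 < CP ∧ ∀ {ι : Type} [DecidableEq ι] (B₁ : Finset ι)
      (c ω : ι → EuclideanSpace ℝ (Fin d)) (β : EuclideanSpace ℝ (Fin d)) (ρ : ℝ)
      (bad : ι → Finset ι), 0 < ρ → ρ ≤ 1 → B₁.Nonempty → ‖β‖ ≤ T →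
      (∀ i ∈ B₁, ‖c i‖ ≤ T ∧ 1 ≤ inner ℝ β (c i) ∧ inner ℝ β (c i) ≤ 2) →
      (∀ i ∈ B₁, ‖ω i‖ = 1 ∧ inner ℝ (ω i) (c i) = (0 : ℝ) ∧
        (∀ j ∈ B₁, j ∉ bad i → -(cP * ρ ^ 2) ≤ inner ℝ (ω i) (c j)) ∧
        ((bad i).card : ℝ) ≤ cP * ρ ^ (d - 2) * B₁.card) →
      ∃ i₀ ∈ B₁, ∃ n : EuclideanSpace ℝ (Fin d), ‖n‖ = 1 ∧ inner ℝ n β = (0 : ℝ) ∧
        ∃ B' ⊆ B₁, cP * ρ ^ (d - 2) * B₁.card ≤ (B'.card : ℝ) ∧
          ∀ j ∈ B', ‖qq β (c j) - qq β (c i₀)‖ ≤ CP * ρ ∧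
            |inner ℝ n (qq β (c j) - qq β (c i₀))| ≤ CP * ρ ^ 2 := by
  obtain ⟨m, rfl⟩ : ∃ m, d = m + 2 := ⟨d - 2, by omega⟩
  have hm : (0 : ℝ) ≤ m := Nat.cast_nonneg m
  have hT0 : 0 < T := by linarith
  have hm2 : m + 2 - 2 = m := by omega
  rw [hm2]
  set c1 : ℝ := (2 * ((m : ℝ) + 1) * (6 * T * (m + 1) + 1) ^ m)⁻¹ with hc1
  have hc1pos : 0 < c1 := by positivity
  set κ : ℝ := (4 * (m + 1) * T * (1 + T ^ 2))⁻¹ with hκ
  have hκpos : 0 < κ := by positivity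
  have hc1le : c1 ≤ 1 := by
    rw [hc1]
    apply inv_le_one_of_one_le₀
    have : (1 : ℝ) ≤ (6 * T * (m + 1) + 1) ^ m := by
      apply one_le_pow₀
      have : 0 ≤ 6 * T * (m + 1) := by positivity
      linarith
    nlinarith
  have hden : 1 ≤ 4 * (m + 1) * T * (1 + T ^ 2) := by
    have h1 : 1 ≤ 4 * ((m : ℝ) + 1) * T := by nlinarith
    have h2 : 1 ≤ 1 + T ^ 2 := by nlinarith [sq_nonneg T]
    nlinarith
  have hκle : κ ≤ 1 := by
    rw [hκ]
    exact inv_le_one_of_one_le₀ hden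
  have hκT : κ * (4 * (m + 1) * T * (1 + T ^ 2)) = 1 := by
    rw [hκ]; exact inv_mul_cancel₀ (by positivity)
  have hκT1 : κ * (1 + T ^ 2) ≤ 1 := by
    rw [← hκT]
    have h1 : 1 ≤ 4 * ((m : ℝ) + 1) * T := by nlinarith
    have h2 : κ * (4 * (m + 1) * T * (1 + T ^ 2)) = (4 * (m + 1) * T) * (κ * (1 + T ^ 2)) := by ring
    rw [h2]
    have h3 : 0 ≤ κ * (1 + T ^ 2) := by positivity
    nlinarith
  refine ⟨c1 / 8 * κ, by positivity, 4, by norm_num, ?_⟩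
  intro ι _ B₁ c ω β ρ bad hρ hρ1 hne hβT hc hω
  set cP : ℝ := c1 / 8 * κ with hcP
  have hcPpos : 0 < cP := by positivity
  have hcPκ : cP ≤ κ := by rw [hcP]; nlinarith
  obtain ⟨i1, hi1⟩ := hne
  have hβ : β ≠ 0 := by
    rintro rfl
    have := (hc i1 hi1).2.1
    rw [inner_zero_left] at this
    linarith
  have hβ2 : (0 : ℝ) < ‖β‖ ^ 2 := by positivity
  obtain ⟨e, heβ, he1, he⟩ := pair_basis m β hβ
  -- the points
  set q : ι → EuclideanSpace ℝ (Fin (m + 2)) := fun i => qq β (c i) with hq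
  have hqβ : ∀ i ∈ B₁, inner ℝ β (q i) = (1 : ℝ) := by
    intro i hi
    have h1 := (hc i hi).2.1
    simp only [hq, qq]
    rw [inner_smul_right, inv_mul_cancel₀ (by linarith)]
  have hqT : ∀ i ∈ B₁, ‖q i‖ ≤ T := by
    intro i hi
    have h1 := (hc i hi).2.1
    simp only [hq, qq]
    rw [norm_smul, norm_inv, Real.norm_eq_abs, abs_of_nonneg (by linarith)]
    have h2 : (inner ℝ β (c i) : ℝ)⁻¹ ≤ 1 := inv_le_one_of_one_le₀ h1
    calc (inner ℝ β (c i) : ℝ)⁻¹ * ‖c i‖ ≤ 1 * ‖c i‖ := by gcongr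
      _ ≤ T := by rw [one_mul]; exact (hc i hi).1
  have hωq : ∀ i ∈ B₁, inner ℝ (ω i) (q i) = (0 : ℝ) := by
    intro i hi
    simp only [hq, qq]
    rw [inner_smul_right, (hω i hi).2.1, mul_zero]
  have hωqj : ∀ i ∈ B₁, ∀ j ∈ B₁, j ∉ bad i → -(cP * ρ ^ 2) ≤ inner ℝ (ω i) (q j) := by
    intro i hi j hj hb
    have h1 := (hc j hj).2.1
    have h2 := (hω i hi).2.2.1 j hj hb
    simp only [hq, qq]
    rw [inner_smul_right]
    have h3 : (inner ℝ β (c j) : ℝ)⁻¹ ≤ 1 := inv_le_one_of_one_le₀ h1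
    have h4 : 0 < (inner ℝ β (c j) : ℝ)⁻¹ := by positivity
    have h5 : 0 ≤ cP * ρ ^ 2 := by positivity
    nlinarith
  -- normals
  have hnex : ∀ i, ∃ n : EuclideanSpace ℝ (Fin (m + 2)), i ∈ B₁ → ‖n‖ = 1 ∧
      inner ℝ n β = (0 : ℝ) ∧ ∀ x, inner ℝ x β = (0 : ℝ) → ∀ h : ℝ, 0 ≤ h →
        -h ≤ inner ℝ (ω i) x → inner ℝ n x ≤ (1 + T ^ 2) * h := by
    intro i
    by_cases hi : i ∈ B₁
    · obtain ⟨n, h1, h2, h3⟩ := pair_normal T hT β (ω i) (q i) hβT (hqT i hi) (hqβ i hi)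
        (hω i hi).1 (hωq i hi)
      exact ⟨n, fun _ => ⟨h1, h2, h3⟩⟩
    · exact ⟨0, fun h => absurd h hi⟩
  choose n hn using hnex
  -- projected points
  set y : ι → EuclideanSpace ℝ (Fin (m + 2)) := fun i => q i - (‖β‖ ^ 2)⁻¹ • β with hy
  have hyβ : ∀ i ∈ B₁, inner ℝ (y i) β = (0 : ℝ) := by
    intro i hi
    simp only [hy]
    rw [inner_sub_left, inner_smul_left, real_inner_self_eq_norm_sq, real_inner_comm, hqβ i hi]
    simp only [conj_trivial]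
    rw [inv_mul_cancel₀ hβ2.ne', sub_self]
  have hyT : ∀ i ∈ B₁, ‖y i‖ ≤ T := by
    intro i hi
    have h1 : q i = y i + (‖β‖ ^ 2)⁻¹ • β := by simp only [hy]; abel
    have h2 : ‖q i‖ ^ 2 = ‖y i‖ ^ 2 + ‖(‖β‖ ^ 2)⁻¹ • β‖ ^ 2 := by
      rw [h1, norm_add_sq_real, inner_smul_right, hyβ i hi]; ring
    have h3 : ‖y i‖ ^ 2 ≤ T ^ 2 := by
      have := pow_le_pow_left₀ (norm_nonneg _) (hqT i hi) 2
      nlinarith [sq_nonneg ‖(‖β‖ ^ 2)⁻¹ • β‖]
    exact (sq_le_sq₀ (norm_nonneg _) hT0.le).1 h3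
  have hyq : ∀ i j, y j - y i = q j - q i := by
    intro i j
    simp only [hy]; abel
  have htex : ∀ i, ∃ t : ℝ, i ∈ B₁ → 2 * T ≤ t ∧ t ≤ 4 * (m + 1) * T ∧
      (∀ k, |inner ℝ (e k) (y i + t • n i)| ≤ 3 * T) ∧
      ∃ k, |inner ℝ (e k) (y i + t • n i)| = 3 * T := by
    intro i
    by_cases hi : i ∈ B₁
    · obtain ⟨t, ht⟩ := pair_lift m β e he1 he T hT (y i) (n i) (hn i hi).1 (hn i hi).2.1
        (hyβ i hi) (hyT i hi)
      exact ⟨t, fun _ => ht⟩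
    · exact ⟨0, fun h => absurd h hi⟩
  choose t ht using htex
  set Y : ι → EuclideanSpace ℝ (Fin (m + 2)) := fun i => y i + t i • n i with hY
  have hYβ : ∀ i, i ∈ B₁ → inner ℝ (Y i) β = (0 : ℝ) := by
    intro i hi
    simp only [hY]
    rw [inner_add_left, inner_smul_left, hyβ i hi, (hn i hi).2.1]; simp
  obtain ⟨K, hKB, hKc, hKd⟩ := pair_class m β e he T hT B₁ Y hYβ
    (fun i hi => (ht i hi).2.2.1) (fun i hi => (ht i hi).2.2.2) ρ hρ hρ1
  have hBpos : (0 : ℝ) < B₁.card := by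
    have : 0 < B₁.card := Finset.card_pos.2 ⟨i1, hi1⟩
    exact_mod_cast this
  have hKne : K.Nonempty := by
    rw [← Finset.card_pos]
    have : (0 : ℝ) < K.card := lt_of_lt_of_le (by positivity) hKc
    exact_mod_cast this
  have hρm : 0 < ρ ^ m := by positivity
  obtain ⟨i₀, hi₀, havg⟩ := pair_avg K hKne bad (cP * ρ ^ m * B₁.card)
    (fun i hi => (hω i (hKB hi)).2.2.2) (by
      have h1 : 8 * (cP * ρ ^ m * B₁.card) ≤ c1 * ρ ^ m * B₁.card := by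
        have : 8 * cP ≤ c1 := by rw [hcP]; nlinarith
        have h2 : 0 ≤ ρ ^ m * B₁.card := by positivity
        nlinarith
      exact h1.trans hKc)
  refine ⟨i₀, hKB hi₀, n i₀, (hn i₀ (hKB hi₀)).1, (hn i₀ (hKB hi₀)).2.1,
    K.filter (fun j => j ∉ bad i₀ ∧ i₀ ∉ bad j), (Finset.filter_subset _ _).trans hKB, ?_, ?_⟩
  · have h1 : cP * ρ ^ m * B₁.card ≤ (3 / 4) * (c1 * ρ ^ m * B₁.card) := by
      have : cP ≤ 3 / 4 * c1 := by rw [hcP]; nlinarith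
      have h2 : 0 ≤ ρ ^ m * B₁.card := by positivity
      nlinarith
    calc cP * ρ ^ m * B₁.card ≤ (3 / 4) * (c1 * ρ ^ m * B₁.card) := h1
      _ ≤ (3 / 4) * K.card := by linarith
      _ ≤ _ := havg
  · intro j hj
    rw [Finset.mem_filter] at hj
    obtain ⟨hjK, hj1, hj2⟩ := hj
    have hi₀B := hKB hi₀
    have hjB := hKB hjK
    have hcρ : 0 ≤ cP * ρ ^ 2 := by positivity
    have hqqβ : ∀ i ∈ B₁, ∀ j ∈ B₁, inner ℝ (q j - q i) β = (0 : ℝ) := by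
      intro i hi j hj
      rw [inner_sub_left, real_inner_comm, hqβ j hj, real_inner_comm, hqβ i hi, sub_self]
    have h1 : inner ℝ (n i₀) (y j - y i₀) ≤ (1 + T ^ 2) * (cP * ρ ^ 2) := by
      rw [hyq]
      apply (hn i₀ hi₀B).2.2 _ (hqqβ i₀ hi₀B j hjB) _ hcρ
      rw [inner_sub_right, hωq i₀ hi₀B, sub_zero]
      exact hωqj i₀ hi₀B j hjB hj1
    have h2 : inner ℝ (n j) (y i₀ - y j) ≤ (1 + T ^ 2) * (cP * ρ ^ 2) := by
      rw [hyq]
      apply (hn j hjB).2.2 _ (hqqβ j hjB i₀ hi₀B) _ hcρ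
      rw [inner_sub_right, hωq j hjB, sub_zero]
      exact hωqj j hjB i₀ hi₀B hj2
    have h3 := ht i₀ hi₀B
    have h4 := ht j hjB
    have h5 : (1 + T ^ 2) * (cP * ρ ^ 2) ≤ ρ ^ 2 := by
      have h6 : (1 + T ^ 2) * cP ≤ 1 := by
        calc (1 + T ^ 2) * cP ≤ (1 + T ^ 2) * κ := by gcongr
          _ ≤ 1 := by linarith
      have h7 : 0 ≤ ρ ^ 2 := by positivity
      nlinarith
    have h8 : (8 * (m + 1) * T) * ((1 + T ^ 2) * (cP * ρ ^ 2)) ≤ 2 * ρ ^ 2 := by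
      have h9 : (8 * (m + 1) * T) * ((1 + T ^ 2) * cP) ≤ 2 := by
        calc (8 * (m + 1) * T) * ((1 + T ^ 2) * cP) ≤ (8 * (m + 1) * T) * ((1 + T ^ 2) * κ) := by
              gcongr
          _ = 2 := by linarith
      have h7 : 0 ≤ ρ ^ 2 := by positivity
      nlinarith
    have h10 := pair_two ρ ((1 + T ^ 2) * (cP * ρ ^ 2)) (8 * (m + 1) * T) hρ (by positivity) h5 h8
      (y i₀) (y j) (n i₀) (n j) (t i₀) (t j) (hn i₀ hi₀B).1 (hn j hjB).1 (by linarith [h3.1])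
      (by linarith [h4.1]) (by linarith [h3.2.1, h4.2.1]) (hKd i₀ hi₀ j hjK) h1 h2
    rw [hyq] at h10
    exact ⟨by nlinarith [h10.1], h10.2⟩

end Pool.DV5
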