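import Mathlib
import Pool.Agent.Lib.MP_a90784_dv.Defs
import Pool.Agent.Lib.MP_a90784_dv.Ba

/-!
# TANK DV5, row R7: regular subsets

`reg_small`, `reg_small'`: an element which is small on a regular subset `B'` of `B` is small on `B`.
-/

set_option autoImplicit false

namespace Pool.DV5

open Finset Module

section
variable {G ι : Type} [AddCommGroup G] [Fintype G] [DecidableEq ι]

theorem reg_small (χ : ι → G →+ UnitAddCircle) {B B' : Finset ι} {R : ℝ} (h : Reg χ B B' R)
    {θ : G} (hθ : N1 χ B' θ ≤ R / 2) : N1 χ B θ ≤ 5 * R / 4 := by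
  classical
  have hR : 0 ≤ R := by
    have := N1_nonneg χ B' θ
    linarith
  obtain ⟨hsub, hlt⟩ := h
  by_contra hcon
  push Not at hcon
  -- the translate of the small ball
  let T : Finset G := (DD χ B (R / 4)).map (addLeftEmbedding θ)
  have hT : T.card = (DD χ B (R / 4)).card := Finset.card_map _
  have hdisj : Disjoint (DD χ B R) T := by
    rw [Finset.disjoint_left]
    intro x hx hxT
    rw [Finset.mem_map] at hxT
    obtain ⟨ψ, hψ, rfl⟩ := hxT
    rw [mem_DD] at hx hψ
    have h1 : N1 χ B θ ≤ N1 χ B (θ + ψ) + N1 χ B ψ := by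
      have := N1_sub_le χ B (θ + ψ) ψ
      rwa [add_sub_cancel_right] at this
    have h2 : N1 χ B (θ + ψ) ≤ R := hx
    linarith
  have hunion : (DD χ B R) ∪ T ⊆ DD χ B' R := by
    apply Finset.union_subset (DD_mono_B χ hsub R)
    intro x hx
    rw [Finset.mem_map] at hx
    obtain ⟨ψ, hψ, rfl⟩ := hx
    rw [mem_DD] at hψ ⊢
    have h1 := N1_add_le χ B' θ ψ
    have h2 := N1_mono χ hsub ψ
    change N1 χ B' (θ + ψ) ≤ R
    linarith
  have := Finset.card_le_card hunion
  rw [Finset.card_union_of_disjoint hdisj, hT] at this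
  omega

variable [Fintype ι]

theorem reg_small' (χ : ι → G →+ UnitAddCircle) {B B' : Finset ι} {R η₁ K : ℝ} (h : Reg χ B B' R)
    (hcl : Clean χ B (5 * R / 4) η₁) (hη : η₁ < 1 / 4) (hK : 0 < K) (hKR : 4 * K ≤ R)
    {θ : G} (hθ : N1 χ B' θ ≤ K) : N1 χ B θ ≤ 5 * K := by
  let I : ℕ := ⌊R / (2 * K)⌋₊
  have hR : 0 < R := by linarith
  have hI1 : (I : ℝ) ≤ R / (2 * K) := Nat.floor_le (by positivity)
  have hI2 : R / (2 * K) - 1 < I := by
    have := Nat.lt_floor_add_one (R / (2 * K))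
    linarith
  have hq : 2 ≤ R / (2 * K) := by
    rw [le_div_iff₀ (by positivity)]
    linarith
  have hsm : ∀ n ≤ I, N1 χ B (n • θ) ≤ 5 * R / 4 := by
    intro n hn
    apply reg_small χ h
    have h1 := N1_nsmul_le χ B' n θ
    have h2 : (n : ℝ) ≤ R / (2 * K) := le_trans (by exact_mod_cast hn) hI1
    have h3 : (n : ℝ) * N1 χ B' θ ≤ (R / (2 * K)) * K :=
      mul_le_mul h2 hθ (N1_nonneg χ B' θ) (by positivity)
    have h4 : (R / (2 * K)) * K = R / 2 := by
      field_simp
    linarith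
  have hx := xv_nsmul χ B hη I θ (fun n hn i hi => hcl (n • θ) (hsm n hn) i hi)
  have h1 : N1 χ B (I • θ) = (I : ℝ) * N1 χ B θ := by
    rw [← l1_xv, hx, l1_smul, l1_xv, abs_of_nonneg (Nat.cast_nonneg I)]
  have h2 := hsm I le_rfl
  rw [h1] at h2
  have hIpos : R / (4 * K) ≤ I := by
    have : R / (4 * K) = (R / (2 * K)) / 2 := by
      field_simp
      norm_num
    rw [this]
    linarith
  have h3 : R / (4 * K) * N1 χ B θ ≤ 5 * R / 4 :=
    le_trans (mul_le_mul_of_nonneg_right hIpos (N1_nonneg χ B θ)) h2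
  have h4 : R / (4 * K) * N1 χ B θ = (R / 4) * (N1 χ B θ / K) := by
    field_simp
  rw [h4] at h3
  have h5 : N1 χ B θ / K ≤ 5 := by
    have hR4 : 0 < R / 4 := by linarith
    have : (R / 4) * (N1 χ B θ / K) ≤ (R / 4) * 5 := by linarith
    exact le_of_mul_le_mul_left this hR4
  rwa [div_le_iff₀ hK] at h5

end

end Pool.DV5
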