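import Pool.Agent.Lib.MP_a90784_dv.Ba
import Pool.Agent.Lib.MP_a90784_dv.Col
import Pool.Agent.Lib.MP_a90784_dv.Reg
import Pool.Agent.Lib.MP_a90784_dv.Rou

set_option autoImplicit false

namespace Pool.DV5

open Finset Module

private theorem sep_round {G ι : Type} [AddCommGroup G] [Fintype G] [DecidableEq ι] [Fintype ι]
    (χ : ι → G →+ UnitAddCircle) (B : Finset ι) (R η₁ : ℝ) (d : ℕ)
    (hR : 0 ≤ R) (hd : finrank ℝ (WW χ B R) ≤ d) (hcl : Clean χ B R η₁) (hη0 : 0 ≤ η₁)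
    (w : ι → ℝ) (hw : w ∈ WW χ B R) :
    ∃ (l : ι → ℝ) (θ : G), l ∈ WW χ B R ∧ (∀ i, i ∉ B → l i = 0) ∧
      (∀ i ∈ B, ((l i : ℝ) : UnitAddCircle) = χ i θ) ∧
      (∀ i ∈ B, |w i - l i| ≤ d * η₁ / 2) ∧
      (∀ S ⊆ B, ∑ i ∈ S, |w i - l i| ≤ d * R / 2) := by
  obtain ⟨φ, θs, l, θ, h1, h2, h3, h4⟩ := rounding χ B {θ | N1 χ B θ ≤ R} w hw
  have hl : l ∈ WW χ B R := GG_le_SP χ B _ h3
  have hdn : (finrank ℝ (SP χ B {θ | N1 χ B θ ≤ R}) : ℝ) ≤ d := by exact_mod_cast hd
  have habs : ∀ i ∈ B, |w i - l i| ≤ ∑ j, (1 / 2 : ℝ) * ‖χ i (θs j)‖ := by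
    intro i hi
    have h5 : w i - l i = ∑ j, φ j * xv χ B (θs j) i := by
      have := congrFun h2 i
      simpa [Finset.sum_apply] using this
    rw [h5]
    refine (Finset.abs_sum_le_sum_abs _ _).trans (Finset.sum_le_sum fun j _ => ?_)
    rw [abs_mul, abs_xv χ (θs j) hi]
    exact mul_le_mul_of_nonneg_right (h1 j).2 (norm_nonneg _)
  refine ⟨l, θ, hl, fun i hi => SP_supp χ B _ hl hi, h4, ?_, ?_⟩
  · intro i hi
    refine (habs i hi).trans ?_
    calc ∑ j, (1 / 2 : ℝ) * ‖χ i (θs j)‖ ≤ ∑ _j : Fin (finrank ℝ (SP χ B {θ | N1 χ B θ ≤ R})),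
          (1 / 2 : ℝ) * η₁ := by
            refine Finset.sum_le_sum fun j _ => ?_
            exact mul_le_mul_of_nonneg_left (hcl (θs j) (h1 j).1 i hi) (by norm_num)
      _ = (finrank ℝ (SP χ B {θ | N1 χ B θ ≤ R}) : ℝ) * (1 / 2 * η₁) := by simp
      _ ≤ d * (1 / 2 * η₁) := mul_le_mul_of_nonneg_right hdn (by positivity)
      _ = d * η₁ / 2 := by ring
  · intro S hS
    calc ∑ i ∈ S, |w i - l i| ≤ ∑ i ∈ S, ∑ j, (1 / 2 : ℝ) * ‖χ i (θs j)‖ :=
          Finset.sum_le_sum fun i hi => habs i (hS hi)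
      _ = ∑ j, (1 / 2 : ℝ) * N1 χ S (θs j) := by
          rw [Finset.sum_comm]
          refine Finset.sum_congr rfl fun j _ => ?_
          rw [N1, Finset.mul_sum]
      _ ≤ ∑ _j : Fin (finrank ℝ (SP χ B {θ | N1 χ B θ ≤ R})), (1 / 2 : ℝ) * R := by
          refine Finset.sum_le_sum fun j _ => ?_
          exact mul_le_mul_of_nonneg_left ((N1_mono χ hS (θs j)).trans (h1 j).1) (by norm_num)
      _ = (finrank ℝ (SP χ B {θ | N1 χ B θ ≤ R}) : ℝ) * (1 / 2 * R) := by simp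
      _ ≤ d * (1 / 2 * R) := mul_le_mul_of_nonneg_right hdn (by positivity)
      _ = d * R / 2 := by ring

theorem sep_int {G ι : Type} [AddCommGroup G] [Fintype G] [DecidableEq ι] [Fintype ι]
    (χ : ι → G →+ UnitAddCircle) (B B' : Finset ι) (R Rcl η₁ : ℝ) (d : ℕ) (hd1 : 1 ≤ d)
    (hreg : Reg χ B B' R) (hR : 0 < R) (hd : finrank ℝ (WW χ B R) ≤ d)
    (hcl : Clean χ B Rcl η₁) (hRcl : 20 * (d : ℝ) * ((2 * (d : ℝ) * d + 3) ^ d + 3) * R ≤ Rcl)
    (hη : 16 * (d : ℝ) * η₁ < 1) :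
    ∀ z ∈ WW χ B R, (∀ i ∈ B, ∃ n : ℤ, z i = n) → (∀ i ∈ B', z i = 0) → z = 0 := by
  classical
  intro z hz _ hz0
  by_contra hne
  have hd1' : (1 : ℝ) ≤ d := by exact_mod_cast hd1
  set C5 : ℕ := (2 * d * d + 3) ^ d with hC5
  have hC5' : ((2 * (d : ℝ) * d + 3) ^ d : ℝ) = (C5 : ℝ) := by rw [hC5]; push_cast; ring
  rw [hC5'] at hRcl
  have hC50 : (0 : ℝ) ≤ C5 := by positivity
  have hRRcl : R ≤ Rcl := by
    refine le_trans ?_ hRcl
    have : (1 : ℝ) ≤ 20 * (d : ℝ) * (C5 + 3) := by nlinarith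
    nlinarith
  have hBne : B.Nonempty := by
    by_contra h
    rw [Finset.not_nonempty_iff_eq_empty] at h
    apply hne
    funext i
    exact SP_supp χ B _ hz (by simp [h])
  obtain ⟨b1, hb1, hmax⟩ := B.exists_max_image (fun i => |z i|) hBne
  have hMz : 0 < |z b1| := by
    by_contra h
    push Not at h
    apply hne
    funext i
    by_cases hi : i ∈ B
    · have h2 : |z i| ≤ 0 := (hmax i hi).trans h
      exact abs_eq_zero.mp (le_antisymm h2 (abs_nonneg _))
    · exact SP_supp χ B _ hz hi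
  have hη0 : 0 ≤ η₁ :=
    (norm_nonneg _).trans (hcl 0 (by rw [N1_zero]; exact hR.le.trans hRRcl) b1 hb1)
  have hclR : Clean χ B R η₁ := fun θ hθ i hi => hcl θ (hθ.trans hRRcl) i hi
  have hdη : (d : ℝ) * η₁ / 2 < 1 / 32 := by linarith
  have hη32 : η₁ ≤ 1 / 16 := by nlinarith
  -- rounding of s • z
  have key : ∀ s : ℝ, ∃ (l : ι → ℝ) (θ : G), l ∈ WW χ B R ∧ (∀ i, i ∉ B → l i = 0) ∧
      (∀ i ∈ B, ((l i : ℝ) : UnitAddCircle) = χ i θ) ∧
      (∀ i ∈ B, |s * z i - l i| ≤ d * η₁ / 2) ∧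
      (∀ S ⊆ B, ∑ i ∈ S, |s * z i - l i| ≤ d * R / 2) := by
    intro s
    obtain ⟨l, θ, h1, h2, h3, h4, h5⟩ := sep_round χ B R η₁ d hR.le hd hclR hη0 (s • z)
      ((WW χ B R).smul_mem s hz)
    exact ⟨l, θ, h1, h2, h3, fun i hi => by simpa using h4 i hi, fun S hS => by simpa using h5 S hS⟩
  have hl1z : l1 z = ∑ i ∈ B, |z i| := l1_of_supp B z fun i hi => SP_supp χ B _ hz hi
  have hl1pos : 0 < l1 z := by
    rw [hl1z]
    exact Finset.sum_pos' (fun i _ => abs_nonneg _) ⟨b1, hb1, hMz⟩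
  set s₀ : ℝ := 1 / (8 * |z b1|) with hs₀
  have hs₀pos : 0 < s₀ := by positivity
  have hs₀M : s₀ * |z b1| = 1 / 8 := by rw [hs₀]; field_simp
  rcases le_or_gt (s₀ * l1 z) (10 * d * R * (C5 + 2)) with hA | hB
  · -- (A)
    obtain ⟨l, θ, -, hl0, hlθ, hsup, hsum⟩ := key s₀
    have hN : N1 χ B θ ≤ Rcl := by
      refine (N1_le_of_lift χ B θ l hlθ).trans ?_
      have h1 : ∑ i ∈ B, |l i| ≤ s₀ * l1 z + d * R / 2 := by
        have h2 : ∑ i ∈ B, |l i| ≤ ∑ i ∈ B, (s₀ * |z i| + |s₀ * z i - l i|) := by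
          refine Finset.sum_le_sum fun i _ => ?_
          have : l i = s₀ * z i - (s₀ * z i - l i) := by ring
          calc |l i| = |s₀ * z i - (s₀ * z i - l i)| := by rw [← this]
            _ ≤ |s₀ * z i| + |s₀ * z i - l i| := abs_sub _ _
            _ = s₀ * |z i| + |s₀ * z i - l i| := by rw [abs_mul, abs_of_pos hs₀pos]
        refine h2.trans ?_
        rw [Finset.sum_add_distrib, ← Finset.mul_sum, ← hl1z]
        linarith [hsum B (Finset.Subset.refl B)]
      refine h1.trans (le_trans ?_ hRcl)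
      have h3 : 0 ≤ (d : ℝ) * R := by positivity
      have h4 : 0 ≤ (d : ℝ) * R * C5 := by positivity
      nlinarith
    have h1 := hcl θ hN b1 hb1
    rw [← hlθ b1 hb1] at h1
    have h2 := hsup b1 hb1
    have h3 : |s₀ * z b1| = 1 / 8 := by rw [abs_mul, abs_of_pos hs₀pos, hs₀M]
    have h4 : |l b1| ≤ 1 / 8 + d * η₁ / 2 := by
      have h5 : |l b1| ≤ |s₀ * z b1| + |s₀ * z b1 - l b1| := by
        have : l b1 = s₀ * z b1 - (s₀ * z b1 - l b1) := by ring
        calc |l b1| = |s₀ * z b1 - (s₀ * z b1 - l b1)| := by rw [← this]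
          _ ≤ _ := abs_sub _ _
      linarith
    have h6 : 1 / 8 - d * η₁ / 2 ≤ |l b1| := by
      have := abs_sub_abs_le_abs_sub (s₀ * z b1) (l b1)
      linarith
    rw [norm_coe_eq (by linarith)] at h1
    linarith
  · -- (B)
    have hZ : l1 z ≠ 0 := hl1pos.ne'
    choose l θ hlW hl0 hlθ hsup hsum using key
    let s : Fin (C5 + 1) → ℝ := fun j => (j : ℝ) * (10 * d * R) / l1 z
    have hs0 : ∀ j, 0 ≤ s j := fun j => by
      have := hl1pos.le
      positivity
    have hss₀ : ∀ j, s j ≤ s₀ := by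
      intro j
      have hj : (j : ℝ) ≤ C5 := by
        have := j.2
        exact_mod_cast Nat.lt_succ_iff.mp this
      rw [div_le_iff₀ hl1pos]
      refine le_trans ?_ hB.le
      have h3 : 0 ≤ 10 * (d : ℝ) * R := by positivity
      nlinarith
    have hsupl : ∀ j, ∀ i ∈ B, |l (s j) i| ≤ 1 / 8 + d * η₁ / 2 := by
      intro j i hi
      have h5 : |l (s j) i| ≤ |s j * z i| + |s j * z i - l (s j) i| := by
        have : l (s j) i = s j * z i - (s j * z i - l (s j) i) := by ring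
        calc |l (s j) i| = |s j * z i - (s j * z i - l (s j) i)| := by rw [← this]
          _ ≤ _ := abs_sub _ _
      have h6 : |s j * z i| ≤ 1 / 8 := by
        rw [abs_mul, abs_of_nonneg (hs0 j), ← hs₀M]
        exact mul_le_mul (hss₀ j) (hmax i hi) (abs_nonneg _) hs₀pos.le
      linarith [hsup (s j) i hi]
    -- restriction to B'
    have hB'B : B' ⊆ B := hreg.1
    let V : Submodule ℝ (ι → ℝ) := (WW χ B R).map (rs B')
    have hVd : finrank ℝ V ≤ d := (Submodule.finrank_map_le _ _).trans hd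
    obtain ⟨c, hc⟩ := exists_color V d d hVd hd1 (d * R / 2) (by positivity)
    have hcard : Fintype.card (Fin ((2 * d * d + 3) ^ d)) < Fintype.card (Fin (C5 + 1)) := by
      simp only [Fintype.card_fin]
      omega
    obtain ⟨j, j', hjj, hcc⟩ := Fintype.exists_ne_map_eq_of_card_lt
      (fun j : Fin (C5 + 1) => c (rs B' (l (s j)))) hcard
    have hmem : ∀ j, rs B' (l (s j)) ∈ V := fun j => Submodule.mem_map_of_mem (hlW _)
    have hrs : ∀ w : ι → ℝ, l1 (rs B' w) = ∑ i ∈ B', |w i| := by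
      intro w
      rw [l1_of_supp B' (rs B' w) (fun i hi => by simp [rs, hi])]
      exact Finset.sum_congr rfl fun i hi => by simp [rs, hi]
    have hl1' : ∀ j, l1 (rs B' (l (s j))) ≤ d * R / 2 := by
      intro j
      rw [hrs]
      refine le_trans (Finset.sum_le_sum fun i hi => ?_) (hsum (s j) B' hB'B)
      rw [hz0 i hi, mul_zero, zero_sub, abs_neg]
    have hclose := hc _ (hmem j) _ (hmem j') (hl1' j) (hl1' j') hcc
    have hclose' : ∑ i ∈ B', |l (s j) i - l (s j') i| ≤ R / 2 := by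
      have h1 : rs B' (l (s j)) - rs B' (l (s j')) = rs B' (l (s j) - l (s j')) := by
        rw [map_sub]
      rw [h1, hrs] at hclose
      refine le_trans (le_of_eq (Finset.sum_congr rfl fun i _ => rfl)) (hclose.trans (le_of_eq ?_))
      have : (d : ℝ) ≠ 0 := by positivity
      field_simp
    -- the class
    have hlift : ∀ i ∈ B, (((l (s j) i - l (s j') i : ℝ)) : UnitAddCircle) =
        χ i (θ (s j) - θ (s j')) := by
      intro i hi
      rw [map_sub, ← hlθ _ i hi, ← hlθ _ i hi, AddCircle.coe_sub]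
    have hN' : N1 χ B' (θ (s j) - θ (s j')) ≤ R / 2 :=
      (N1_le_of_lift χ B' _ (fun i => l (s j) i - l (s j') i)
        (fun i hi => hlift i (hB'B hi))).trans hclose'
    have hN := reg_small χ hreg hN'
    have hNeq : N1 χ B (θ (s j) - θ (s j')) = ∑ i ∈ B, |l (s j) i - l (s j') i| := by
      rw [N1]
      refine Finset.sum_congr rfl fun i hi => ?_
      rw [← hlift i hi, norm_coe_eq]
      have h1 := abs_sub (l (s j) i) (l (s j') i)
      linarith [hsupl j i hi, hsupl j' i hi]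
    have hsep : 10 * d * R ≤ |s j - s j'| * l1 z := by
      have h1 : s j - s j' = ((j : ℝ) - (j' : ℝ)) * (10 * d * R) / l1 z := by
        simp only [s]; ring
      rw [h1, abs_div, abs_mul, abs_of_pos hl1pos, div_mul_cancel₀ _ hZ,
        abs_of_pos (show (0 : ℝ) < 10 * d * R by positivity)]
      have h2 : (1 : ℝ) ≤ |(j : ℝ) - (j' : ℝ)| := by
        have h3 : (1 : ℤ) ≤ |((j : ℕ) : ℤ) - ((j' : ℕ) : ℤ)| := by
          refine Int.one_le_abs ?_
          intro h
          apply hjj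
          apply Fin.ext
          omega
        exact_mod_cast h3
      nlinarith [show (0 : ℝ) < 10 * d * R by positivity]
    have hlow : 10 * d * R - d * R ≤ ∑ i ∈ B, |l (s j) i - l (s j') i| := by
      have h1 : |s j - s j'| * l1 z ≤ ∑ i ∈ B, (|l (s j) i - l (s j') i| +
          |s j * z i - l (s j) i| + |s j' * z i - l (s j') i|) := by
        rw [hl1z, Finset.mul_sum]
        refine Finset.sum_le_sum fun i _ => ?_
        rw [← abs_mul]
        have h2 : (s j - s j') * z i = (l (s j) i - l (s j') i) + (s j * z i - l (s j) i) -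
          (s j' * z i - l (s j') i) := by ring
        rw [h2]
        exact (abs_sub _ _).trans (add_le_add (abs_add_le _ _) le_rfl)
      rw [Finset.sum_add_distrib, Finset.sum_add_distrib] at h1
      linarith [hsum (s j) B (Finset.Subset.refl B), hsum (s j') B (Finset.Subset.refl B)]
    rw [hNeq] at hN
    nlinarith

end Pool.DV5
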