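import Mathlib
import Pool.Agent.Lib.MP_a90784_dv.Defs
import Pool.Agent.Lib.MP_a90784_dv.Ba
import Pool.Agent.Lib.MP_a90784_dv.Reg

/-!
# TANK DV5, row R17: transport from one modulus to the big group
-/

set_option autoImplicit false

namespace Pool.DV5

open Finset Module

/-- the embedding of `ℤ/a` into `ℤ/Q` keeps the characters -/
theorem Wt_exists_theta {ι : Type} (Q a : ℕ) [NeZero Q] [NeZero a] (haQ : a ∣ Q) (v : ι → ℕ)
    (s : ZMod a) : ∃ θ : ZMod Q, ∀ i, chi Q v i θ = chi a v i s := by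
  obtain ⟨c, hc⟩ := haQ
  have hQ : (Q : ℝ) ≠ 0 := by exact_mod_cast NeZero.ne Q
  have ha : (a : ℝ) ≠ 0 := by exact_mod_cast NeZero.ne a
  obtain ⟨n, rfl⟩ := ZMod.intCast_surjective s
  refine ⟨((c * n : ℤ) : ZMod Q), fun i => ?_⟩
  have h1 : (ZMod.toAddCircle (((c * n : ℤ) : ZMod Q)) : UnitAddCircle) =
      ZMod.toAddCircle ((n : ZMod a)) := by
    rw [ZMod.toAddCircle_intCast, ZMod.toAddCircle_intCast]
    congr 1
    push_cast
    rw [hc]
    push_cast
    have hc0 : (c : ℝ) ≠ 0 := by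
      intro h0
      apply hQ
      rw [hc]
      push_cast
      rw [h0, mul_zero]
    field_simp
  change (v i) • (ZMod.toAddCircle (((c * n : ℤ) : ZMod Q)) : UnitAddCircle) =
      (v i) • (ZMod.toAddCircle ((n : ZMod a)) : UnitAddCircle)
  rw [h1]

/-- the character of the modulus itself is trivial -/
theorem Wt_chi_self {ι : Type} (a : ℕ) [NeZero a] (v : ι → ℕ) (i : ι) (hv : v i = a) (s : ZMod a) :
    chi a v i s = 0 := by
  change (v i) • (ZMod.toAddCircle s : UnitAddCircle) = 0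
  rw [hv, ← map_nsmul]
  simp

theorem exists_wt {ι : Type} [DecidableEq ι] [Fintype ι] (Q a : ℕ) [NeZero Q] [NeZero a]
    (haQ : a ∣ Q) (v : ι → ℕ) (B S' : Finset ι) (i₀ : ι) (hi₀ : i₀ ∈ B) (hv : v i₀ = a)
    (R r K η₁ : ℝ) (hreg : Reg (chi Q v) B S' R)
    (hcl : Clean (chi Q v) B (5 * R / 4) η₁) (hη : η₁ < 1 / 4) (hK : 0 < K) (hKR : 4 * K ≤ R)
    (hKr : 5 * K ≤ r) (w : ι → ℝ) (hw : w ∈ SP (chi a v) S' {s | N1 (chi a v) S' s ≤ K}) :
    ∃ w' ∈ WW (chi Q v) B r, w' i₀ = 0 ∧ ∀ i ∈ S', w' i = w i := by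
  unfold SP at hw
  induction hw using Submodule.span_induction with
  | mem x hx =>
    obtain ⟨s, hs, rfl⟩ := hx
    obtain ⟨θ, hθ⟩ := Wt_exists_theta Q a haQ v s
    have h1 : N1 (chi Q v) S' θ = N1 (chi a v) S' s := by
      unfold N1
      exact Finset.sum_congr rfl fun i _ => by rw [hθ i]
    have h2 : N1 (chi Q v) B θ ≤ 5 * K := by
      apply reg_small' (chi Q v) hreg hcl hη hK hKR
      rw [h1]
      exact hs
    refine ⟨xv (chi Q v) B θ, ?_, ?_, ?_⟩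
    · exact xv_mem_SP _ _ (by
        change N1 (chi Q v) B θ ≤ r
        linarith)
    · rw [xv_apply_mem _ _ hi₀, hθ, Wt_chi_self a v i₀ hv]
      have := abs_lf 0
      rw [norm_zero] at this
      exact abs_eq_zero.1 this
    · intro i hi
      rw [xv_apply_mem _ _ (hreg.1 hi), xv_apply_mem _ _ hi, hθ]
  | zero =>
    exact ⟨0, Submodule.zero_mem _, rfl, fun _ _ => rfl⟩
  | add x y _ _ hx hy =>
    obtain ⟨x', h1, h2, h3⟩ := hx
    obtain ⟨y', k1, k2, k3⟩ := hy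
    refine ⟨x' + y', Submodule.add_mem _ h1 k1, ?_, fun i hi => ?_⟩
    · rw [Pi.add_apply, h2, k2, add_zero]
    · rw [Pi.add_apply, Pi.add_apply, h3 i hi, k3 i hi]
  | smul c x _ hx =>
    obtain ⟨x', h1, h2, h3⟩ := hx
    refine ⟨c • x', Submodule.smul_mem _ c h1, ?_, fun i hi => ?_⟩
    · rw [Pi.smul_apply, h2, smul_zero]
    · rw [Pi.smul_apply, Pi.smul_apply, h3 i hi]

end Pool.DV5
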