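import Pool.Agent.Lib.MP_a90784_dv.Ba
import Pool.Agent.Lib.MP_a90784_dv.Co
import Pool.Agent.Lib.MP_a90784_dv.Sep
import Pool.Agent.Lib.MP_a90784_dv.Wt
import Pool.Agent.Lib.MP_a90784_dv.Pair
import Pool.Agent.Lib.MP_a90784_dv.Cnt

set_option autoImplicit false

namespace Pool.DV5

open Finset Module

theorem imp_exists_lb (n : ℕ) (f : ℕ → ℝ) (hf : ∀ d, 0 < f d) : ∃ δ : ℝ, 0 < δ ∧ ∀ d ≤ n, δ ≤ f d := by
  induction n with
  | zero => exact ⟨f 0, hf 0, fun d hd => by rw [Nat.le_zero.mp hd]⟩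
  | succ n ih =>
    obtain ⟨δ, h1, h2⟩ := ih
    refine ⟨min δ (f (n + 1)), lt_min h1 (hf _), fun d hd => ?_⟩
    rcases Nat.lt_or_ge d (n + 1) with h | h
    · exact (min_le_left _ _).trans (h2 d (Nat.lt_succ_iff.mp h))
    · have : d = n + 1 := le_antisymm hd h
      rw [this]
      exact min_le_right _ _

theorem imp_exists_ub (n : ℕ) (f : ℕ → ℝ) : ∃ C : ℝ, 1 ≤ C ∧ ∀ d ≤ n, f d ≤ C := by
  induction n with
  | zero => exact ⟨max 1 (f 0), le_max_left _ _, fun d hd => by rw [Nat.le_zero.mp hd]; exact le_max_right _ _⟩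
  | succ n ih =>
    obtain ⟨C, h1, h2⟩ := ih
    refine ⟨max C (f (n + 1)), h1.trans (le_max_left _ _), fun d hd => ?_⟩
    rcases Nat.lt_or_ge d (n + 1) with h | h
    · exact (h2 d (Nat.lt_succ_iff.mp h)).trans (le_max_left _ _)
    · have : d = n + 1 := le_antisymm hd h
      rw [this]
      exact le_max_right _ _

/-- the vector of the elements -/
def bv {ι : Type} [DecidableEq ι] (v : ι → ℕ) (B : Finset ι) : ι → ℝ := rs B (fun i => (v i : ℝ))

theorem bv_mem {ι : Type} [DecidableEq ι] (v : ι → ℕ) {B : Finset ι} {i : ι} (h : i ∈ B) :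
    bv v B i = v i := by simp [bv, rs, h]

theorem bv_not_mem {ι : Type} [DecidableEq ι] (v : ι → ℕ) {B : Finset ι} {i : ι} (h : i ∉ B) :
    bv v B i = 0 := by simp [bv, rs, h]

theorem chi_one {ι : Type} (Q : ℕ) [NeZero Q] (v : ι → ℕ) (i : ι) :
    chi Q v i 1 = (((v i : ℝ) / Q : ℝ) : UnitAddCircle) := by
  have h1 : (ZMod.toAddCircle (1 : ZMod Q) : UnitAddCircle) = ((1 / (Q : ℝ) : ℝ) : UnitAddCircle) := by
    have := ZMod.toAddCircle_natCast (N := Q) 1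
    simpa using this
  simp only [chi, AddMonoidHom.smul_apply, h1]
  rw [← AddCircle.coe_nsmul]
  congr 1
  rw [nsmul_eq_mul]
  ring

theorem bv_mem_WW {ι : Type} [DecidableEq ι] (Q : ℕ) [NeZero Q] (v : ι → ℕ) (B : Finset ι) (M r : ℝ)
    (hM : 0 < M) (hv : ∀ i ∈ B, M ≤ v i ∧ (v i : ℝ) ≤ 2 * M) (hQ : 8 * M ≤ Q)
    (hr : 2 * M * B.card ≤ r * Q) : bv v B ∈ WW (chi Q v) B r := by
  have hQ0 : (0 : ℝ) < Q := by linarith
  have hsm : ∀ i ∈ B, |(v i : ℝ) / Q| ≤ 1 / 4 := by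
    intro i hi
    rw [abs_of_nonneg (by positivity), div_le_iff₀ hQ0]
    linarith [(hv i hi).2]
  have hx : xv (chi Q v) B 1 = (1 / (Q : ℝ)) • bv v B := by
    apply xv_eq_of_lift
    · intro i hi
      rw [chi_one, Pi.smul_apply, bv_mem v hi, smul_eq_mul]
      congr 1
      ring
    · intro i hi
      rw [Pi.smul_apply, bv_mem v hi, smul_eq_mul]
      have := hsm i hi
      have h2 : (1 / (Q : ℝ)) * (v i : ℝ) = (v i : ℝ) / Q := by ring
      rw [h2]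
      linarith
    · intro i hi
      rw [Pi.smul_apply, bv_not_mem v hi, smul_zero]
  have hN : N1 (chi Q v) B 1 ≤ r := by
    refine (N1_le_of_lift (chi Q v) B 1 (fun i => (v i : ℝ) / Q) (fun i _ => (chi_one Q v i).symm)).trans ?_
    calc ∑ i ∈ B, |(v i : ℝ) / Q| ≤ ∑ i ∈ B, 2 * M / Q := by
          apply Finset.sum_le_sum
          intro i hi
          rw [abs_of_nonneg (by positivity)]
          exact div_le_div_of_nonneg_right (hv i hi).2 hQ0.le
      _ = 2 * M * B.card / Q := by rw [Finset.sum_const, nsmul_eq_mul]; ring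
      _ ≤ r := by rw [div_le_iff₀ hQ0]; exact hr
  have h3 : xv (chi Q v) B 1 ∈ WW (chi Q v) B r := xv_mem_SP _ _ hN
  have h4 : bv v B = (Q : ℝ) • xv (chi Q v) B 1 := by
    rw [hx, smul_smul]
    have : (Q : ℝ) * (1 / Q) = 1 := by field_simp
    rw [this, one_smul]
  rw [h4]
  exact Submodule.smul_mem _ _ h3

/-- two vectors of `W` that are visibly independent -/
theorem two_le_finrank {ι : Type} [Fintype ι] (W : Submodule ℝ (ι → ℝ)) (b w : ι → ℝ) (hb : b ∈ W)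
    (hw : w ∈ W) (i : ι) (hbi : b i ≠ 0) (hwi : w i = 0) (hw0 : w ≠ 0) : 2 ≤ finrank ℝ W := by
  by_contra hcon
  have h1 : finrank ℝ W ≤ 1 := by omega
  obtain ⟨x, hx⟩ := finrank_le_one_iff.mp h1
  obtain ⟨s, hs⟩ := hx ⟨b, hb⟩
  obtain ⟨t, ht⟩ := hx ⟨w, hw⟩
  have hs' : s • (x : ι → ℝ) = b := congrArg Subtype.val hs
  have ht' : t • (x : ι → ℝ) = w := congrArg Subtype.val ht
  have hxi : (x : ι → ℝ) i ≠ 0 := by
    intro h0
    apply hbi
    rw [← hs', Pi.smul_apply, h0, smul_zero]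
  have ht0 : t = 0 := by
    have : t * (x : ι → ℝ) i = 0 := by
      have h := congrFun ht' i
      rw [Pi.smul_apply, smul_eq_mul, hwi] at h
      exact h
    rcases mul_eq_zero.mp this with h | h
    · exact h
    · exact absurd h hxi
  apply hw0
  rw [← ht', ht0, zero_smul]

theorem norm_le_sum_abs {d : ℕ} (x : EuclideanSpace ℝ (Fin d)) : ‖x‖ ≤ ∑ j, |x j| := by
  rw [EuclideanSpace.norm_eq]
  apply Real.sqrt_le_iff.mpr
  refine ⟨Finset.sum_nonneg (fun j _ => abs_nonneg _), ?_⟩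
  simp only [Real.norm_eq_abs]
  exact Finset.sum_sq_le_sq_sum_of_nonneg (fun j _ => abs_nonneg _)

theorem sum_abs_le {d : ℕ} (x : EuclideanSpace ℝ (Fin d)) : ∑ j, |x j| ≤ d * ‖x‖ := by
  calc ∑ j, |x j| ≤ ∑ j : Fin d, ‖x‖ := by
        apply Finset.sum_le_sum
        intro j _
        exact PiLp.norm_apply_le x j
    _ = d * ‖x‖ := by simp

theorem bad_count {ι : Type} [DecidableEq ι] {d : ℕ} (B₁ S' : Finset ι)
    (c : ι → EuclideanSpace ℝ (Fin d)) (x : EuclideanSpace ℝ (Fin d)) (hx : x ≠ 0) (w : ι → ℝ)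
    (hw : ∀ j ∈ S', w j = inner ℝ (c j) x) (η m τ : ℝ) (hη : 0 < η) (hτ : 0 < τ)
    (hsum : ∑ j ∈ S', max (-w j) 0 < 4 * η * ∑ j ∈ S', max (w j) 0)
    (habs : ∑ j ∈ S', |w j| ≤ m * (d * ‖x‖)) :
    ((B₁.filter (fun j => j ∈ S' ∧ inner ℝ ((1 / ‖x‖) • x) (c j) < -τ)).card : ℝ) * τ ≤
      4 * η * m * d := by
  have hx0 : 0 < ‖x‖ := norm_pos_iff.mpr hx
  set F := B₁.filter (fun j => j ∈ S' ∧ inner ℝ ((1 / ‖x‖) • x) (c j) < -τ) with hF
  have h1 : (F.card : ℝ) * τ * ‖x‖ ≤ ∑ j ∈ F, max (-w j) 0 := by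
    calc (F.card : ℝ) * τ * ‖x‖ = ∑ j ∈ F, τ * ‖x‖ := by
          rw [Finset.sum_const, nsmul_eq_mul]; ring
      _ ≤ ∑ j ∈ F, max (-w j) 0 := by
          apply Finset.sum_le_sum
          intro j hj
          rw [hF, Finset.mem_filter] at hj
          obtain ⟨-, hj1, hj2⟩ := hj
          rw [inner_smul_left, real_inner_comm, ← hw j hj1] at hj2
          simp only [conj_trivial] at hj2
          have h3 : w j < -τ * ‖x‖ := by
            have := mul_lt_mul_of_pos_right hj2 hx0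
            have h4 : 1 / ‖x‖ * w j * ‖x‖ = w j := by field_simp
            rw [h4] at this
            exact this
          exact le_max_of_le_left (by linarith)
  have h2 : ∑ j ∈ F, max (-w j) 0 ≤ ∑ j ∈ S', max (-w j) 0 := by
    apply Finset.sum_le_sum_of_subset_of_nonneg
    · intro j hj
      rw [hF, Finset.mem_filter] at hj
      exact hj.2.1
    · intro j _ _
      exact le_max_right _ _
  have h3 : ∑ j ∈ S', max (w j) 0 ≤ ∑ j ∈ S', |w j| :=
    Finset.sum_le_sum (fun j _ => max_le (le_abs_self _) (abs_nonneg _))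
  have h4 : (F.card : ℝ) * τ * ‖x‖ ≤ 4 * η * m * d * ‖x‖ := by
    have h5 : 4 * η * ∑ j ∈ S', max (w j) 0 ≤ 4 * η * (m * (d * ‖x‖)) :=
      mul_le_mul_of_nonneg_left (h3.trans habs) (by positivity)
    nlinarith [h1, h2, hsum, h5]
  exact le_of_mul_le_mul_right h4 hx0

set_option maxHeartbeats 4000000 in
theorem improve (d₀ : ℕ) (hd₀ : 2 ≤ d₀) :
    ∃ cI : ℝ, 0 < cI ∧ cI ≤ 1 / 2 ∧ ∃ CI : ℝ, 1 ≤ CI ∧
      ∀ {ι : Type} [DecidableEq ι] [Fintype ι] (Q : ℕ) [NeZero Q] (v : ι → ℕ) [∀ i, NeZero (v i)]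
      (B : Finset ι) (M R r K η η₁ Rcl ρ E : ℝ),
      B.Nonempty → 0 < M → (∀ i ∈ B, M ≤ v i ∧ (v i : ℝ) ≤ 2 * M) → (∀ i ∈ B, v i ∣ Q) →
      8 * M ≤ Q → 2 * M * B.card ≤ r * Q →
      0 < K → 5 * K ≤ r → 8 * (d₀ : ℝ) * r ≤ R → CI * R ≤ Rcl →
      Clean (chi Q v) B Rcl η₁ → 100 * (d₀ : ℝ) * η₁ ≤ 1 →
      finrank ℝ (WW (chi Q v) B R) ≤ d₀ →
      (∀ S' ⊆ B, (1 - 1 / (48 * (8 * (d₀ : ℝ) + 3) ^ d₀)) * B.card ≤ S'.card →
        Reg (chi Q v) B S' R) →
      0 < ρ → ρ ≤ cI → 0 < η → η ≤ ρ ^ (d₀ + 1) → 0 ≤ E →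
      CI * (E + 1) ≤ ρ ^ d₀ * B.card → CI * R ≤ ρ ^ (d₀ + 2) * B.card →
      (∀ i ∈ B, ∃ S' ⊆ B.erase i, (((B.erase i) \ S').card : ℝ) ≤ E ∧
        ∃ w ∈ SP (chi (v i) v) S' {s | N1 (chi (v i) v) S' s ≤ K},
          ∑ j ∈ S', max (-w j) 0 < 4 * η * ∑ j ∈ S', max (w j) 0) →
      ∃ d : ℕ, 2 ≤ d ∧ d ≤ d₀ ∧ ∃ B' ⊆ B, B'.Nonempty ∧
        cI * ρ ^ (d - 2) * B.card ≤ B'.card ∧
        cI * ((B.card : ℝ) / B'.card) ^ d * (1 / ρ) ^ d * ((DD (chi Q v) B (R / 4)).card : ℝ) ≤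
          ((DD (chi Q v) B' R).card : ℝ) := by
  have hd₀R : (2 : ℝ) ≤ d₀ := by exact_mod_cast hd₀
  obtain ⟨C6, hC6⟩ : ∃ C6 : ℝ, C6 = (8 * (d₀ : ℝ) + 3) ^ d₀ := ⟨_, rfl⟩
  have hC61 : 1 ≤ C6 := by rw [hC6]; exact one_le_pow₀ (by linarith)
  obtain ⟨T, hTdef⟩ : ∃ T : ℝ, T = 96 * d₀ * C6 := ⟨_, rfl⟩
  have hT2 : 2 * (d₀ : ℝ) ≤ T := by rw [hTdef]; nlinarith
  have hT : 1 ≤ T := by linarith
  choose cP hcP CP hCP hclu using fun (d : ℕ) (hd : 2 ≤ d) => cluster d hd T hT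
  choose cQ hcQ CQ hCQ hcnt using fun (d : ℕ) (hd : 2 ≤ d) => count d hd T (CP d hd) hT (hCP d hd)
  -- uniform constants
  obtain ⟨δ, hδ0, hδ⟩ := imp_exists_lb d₀ (fun d => if hd : 2 ≤ d then
      min (min (cP d hd ^ 2 / (16 * d₀)) (cP d hd / 2)) (min (cQ d hd) (1 / (2 * CQ d hd))) else 1) (by
    intro d
    by_cases hd : 2 ≤ d
    · have h1 := hcP d hd
      have h2 := hcQ d hd
      have h3 := hCQ d hd
      simp only [hd, dif_pos]
      exact lt_min (lt_min (by positivity) (by positivity)) (lt_min h2 (by positivity))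
    · simp only [hd, dif_neg, not_false_eq_true]
      exact one_pos)
  obtain ⟨cI, hcIdef⟩ : ∃ cI : ℝ, cI = min δ (1 / 2) := ⟨_, rfl⟩
  have hcI0 : 0 < cI := by rw [hcIdef]; exact lt_min hδ0 (by norm_num)
  have hcI2 : cI ≤ 1 / 2 := by rw [hcIdef]; exact min_le_right _ _
  have hcIδ : cI ≤ δ := by rw [hcIdef]; exact min_le_left _ _
  obtain ⟨C7, hC71, hC7⟩ := imp_exists_ub d₀ (fun d => if hd : 2 ≤ d then
      max (max (4 / cP d hd) (2 * CQ d hd)) (CQ d hd / cI) else 1)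
  obtain ⟨CI, hCIdef⟩ : ∃ CI : ℝ, CI = max (max C7 (96 * C6))
      (20 * (d₀ : ℝ) * ((2 * (d₀ : ℝ) * d₀ + 3) ^ d₀ + 3)) := ⟨_, rfl⟩
  have hCI7 : C7 ≤ CI := by rw [hCIdef]; exact (le_max_left _ _).trans (le_max_left _ _)
  have hCI6 : 96 * C6 ≤ CI := by rw [hCIdef]; exact (le_max_right _ _).trans (le_max_left _ _)
  have hCIs : 20 * (d₀ : ℝ) * ((2 * (d₀ : ℝ) * d₀ + 3) ^ d₀ + 3) ≤ CI := by
    rw [hCIdef]; exact le_max_right _ _
  have hCI1 : 1 ≤ CI := by linarith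
  refine ⟨cI, hcI0, hcI2, CI, hCI1, ?_⟩
  intro ι _ _ Q _ v _ B M R r K η η₁ Rcl ρ E hBne hM hv hvQ hQ8 hQr hK hKr hrR hRcl hcl hη₁ hdim hreg
    hρ0 hρc hη0 hηρ hE0 hE hRm hEP
  have hρ1 : ρ ≤ 1 := by linarith
  have hr0 : 0 < r := by linarith
  have hR0 : 0 < R := by nlinarith
  have hrR' : r ≤ R := by nlinarith
  have hRclR : R ≤ Rcl := by nlinarith
  have hclR : Clean (chi Q v) B R η₁ := fun θ hθ => hcl θ (hθ.trans hRclR)
  obtain ⟨m, hm⟩ : ∃ m : ℝ, m = (B.card : ℝ) := ⟨_, rfl⟩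
  have hm0 : 0 < m := by rw [hm]; exact_mod_cast hBne.card_pos
  have hρd₀ : ρ ^ d₀ ≤ 1 := pow_le_one₀ hρ0.le hρ1
  have hmE : CI * (E + 1) ≤ m := by
    have h1 : ρ ^ d₀ * m ≤ 1 * m := mul_le_mul_of_nonneg_right hρd₀ hm0.le
    rw [hm] at h1 ⊢
    linarith
  -- the space
  obtain ⟨W, hW⟩ : ∃ W : Submodule ℝ (ι → ℝ), W = WW (chi Q v) B r := ⟨_, rfl⟩
  have hWR : W ≤ WW (chi Q v) B R := by
    rw [hW]
    exact SP_mono _ _ (fun θ (hθ : N1 (chi Q v) B θ ≤ r) => hθ.trans hrR')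
  obtain ⟨d, hd⟩ : ∃ d : ℕ, finrank ℝ W = d := ⟨_, rfl⟩
  have hdd₀ : d ≤ d₀ := by
    rw [← hd]
    exact (Submodule.finrank_mono hWR).trans hdim
  have hb : bv v B ∈ W := by
    rw [hW]
    exact bv_mem_WW Q v B M r hM hv hQ8 hQr
  -- the vectors of the moduli
  have hex : ∀ i ∈ B, ∃ S' ⊆ B, (1 - 1 / (48 * C6)) * m ≤ S'.card ∧ ((B \ S').card : ℝ) ≤ E + 1 ∧
      ∃ w' ∈ W, w' i = 0 ∧ w' ≠ 0 ∧
        ∑ j ∈ S', max (-w' j) 0 < 4 * η * ∑ j ∈ S', max (w' j) 0 := by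
    intro i hi
    obtain ⟨S', hS', hSc, w, hw, hws⟩ := hEP i hi
    have hSB : S' ⊆ B := hS'.trans (Finset.erase_subset _ _)
    have hc1 : ((B \ S').card : ℝ) ≤ E + 1 := by
      have h1 : B \ S' ⊆ ((B.erase i) \ S') ∪ {i} := by
        intro j hj
        rw [Finset.mem_sdiff] at hj
        by_cases hji : j = i
        · simp [hji]
        · simp [hji, hj.1, hj.2]
      have h2 := Finset.card_le_card h1
      have h3 := Finset.card_union_le ((B.erase i) \ S') {i}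
      rw [Finset.card_singleton] at h3
      have h4 : ((B \ S').card : ℝ) ≤ (((B.erase i) \ S').card : ℝ) + 1 := by exact_mod_cast h2.trans h3
      linarith
    have hc2 : (1 - 1 / (48 * C6)) * m ≤ S'.card := by
      have h1 : (B.card : ℝ) = ((B \ S').card : ℝ) + S'.card := by
        have := Finset.card_sdiff_add_card_eq_card hSB
        exact_mod_cast this.symm
      have h2 : E + 1 ≤ 1 / (48 * C6) * m := by
        rw [div_mul_eq_mul_div, one_mul, le_div_iff₀ (by positivity)]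
        nlinarith
      rw [hm] at h2 ⊢
      nlinarith
    have hregS : Reg (chi Q v) B S' R := by
      apply hreg S' hSB
      rw [← hC6, ← hm]
      exact hc2
    haveI := ‹∀ i, NeZero (v i)› i
    obtain ⟨w', hw'W, hw'0, hw'e⟩ := exists_wt Q (v i) (hvQ i hi) v B S' i hi rfl R r K η₁ hregS
      (fun θ hθ => hcl θ (hθ.trans (by nlinarith))) (by nlinarith) hK (by nlinarith) hKr w hw
    have hsum' : ∑ j ∈ S', max (-w' j) 0 < 4 * η * ∑ j ∈ S', max (w' j) 0 := by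
      rw [Finset.sum_congr rfl (fun j hj => by rw [hw'e j hj] : ∀ j ∈ S', max (-w' j) 0 = max (-w j) 0),
        Finset.sum_congr rfl (fun j hj => by rw [hw'e j hj] : ∀ j ∈ S', max (w' j) 0 = max (w j) 0)]
      exact hws
    refine ⟨S', hSB, hc2, hc1, w', by rw [hW]; exact hw'W, hw'0, ?_, hsum'⟩
    intro h0
    rw [h0] at hsum'
    simp at hsum'
  obtain ⟨iB, hiB⟩ := hBne
  have hviB : (0 : ℝ) < v iB := lt_of_lt_of_le hM (hv iB hiB).1
  have hd2 : 2 ≤ d := by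
    obtain ⟨S', -, -, -, w', hw'W, hw'0, hw'n, -⟩ := hex iB hiB
    rw [← hd]
    exact two_le_finrank W (bv v B) w' hb hw'W iB (by rw [bv_mem v hiB]; exact hviB.ne') hw'0 hw'n
  have hdR : (2 : ℝ) ≤ d := by exact_mod_cast hd2
  have hddR : (d : ℝ) ≤ d₀ := by exact_mod_cast hdd₀
  -- coordinates
  obtain ⟨ω, c, u, hu, hωu, hl1, hcw, hsurj, hcs⟩ := exists_coord W d hd m hm0
  have hωle : ∀ w, ∀ j, |ω w j| ≤ l1 w / m := by
    intro w j
    rw [hωu, abs_div, abs_of_pos hm0]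
    apply div_le_div_of_nonneg_right _ hm0.le
    refine (Finset.abs_sum_le_sum_abs _ _).trans ?_
    rw [l1]
    apply Finset.sum_le_sum
    intro i _
    rw [abs_mul]
    exact mul_le_of_le_one_left (abs_nonneg _) (hu j i)
  have hinj : ∀ w ∈ W, w ≠ 0 → ω w ≠ 0 := by
    intro w hw hw0 h0
    apply hw0
    funext i
    rw [hcw w hw i, h0, inner_zero_right]
    rfl
  -- the inliers
  obtain ⟨B₁, hB₁⟩ : ∃ B₁ : Finset ι, B₁ = B.filter (fun i => ‖c i‖ ≤ T) := ⟨_, rfl⟩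
  have hB₁B : B₁ ⊆ B := by rw [hB₁]; exact Finset.filter_subset _ _
  have hout : ((B \ B₁).card : ℝ) * T ≤ d * m := by
    calc ((B \ B₁).card : ℝ) * T = ∑ i ∈ B \ B₁, T := by rw [Finset.sum_const, nsmul_eq_mul]
      _ ≤ ∑ i ∈ B \ B₁, ‖c i‖ := by
          apply Finset.sum_le_sum
          intro i hi
          rw [Finset.mem_sdiff, hB₁, Finset.mem_filter, not_and] at hi
          exact (not_le.mp (hi.2 hi.1)).le
      _ ≤ ∑ i, ‖c i‖ := Finset.sum_le_sum_of_subset_of_nonneg (Finset.subset_univ _)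
          (fun i _ _ => norm_nonneg _)
      _ ≤ ∑ i, ∑ j, |c i j| := Finset.sum_le_sum (fun i _ => norm_le_sum_abs (c i))
      _ = ∑ j, ∑ i, |c i j| := Finset.sum_comm
      _ ≤ ∑ j : Fin d, m := Finset.sum_le_sum (fun j _ => hcs j)
      _ = d * m := by simp
  have hT0 : 0 < T := by linarith
  have hB₁c : (1 - 1 / (96 * C6)) * m ≤ B₁.card := by
    have h1 : (B.card : ℝ) = ((B \ B₁).card : ℝ) + B₁.card := by
      have := Finset.card_sdiff_add_card_eq_card hB₁B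
      exact_mod_cast this.symm
    have h2 : ((B \ B₁).card : ℝ) ≤ 1 / (96 * C6) * m := by
      rw [div_mul_eq_mul_div, one_mul, le_div_iff₀ (by positivity)]
      have h3 : (d : ℝ) * m ≤ d₀ * m := mul_le_mul_of_nonneg_right hddR hm0.le
      have h4 : ((B \ B₁).card : ℝ) * (96 * C6) * d₀ ≤ m * d₀ := by
        have h5 : ((B \ B₁).card : ℝ) * (96 * C6) * d₀ = ((B \ B₁).card : ℝ) * T := by rw [hTdef]; ring
        rw [h5]
        linarith
      exact le_of_mul_le_mul_right h4 (by linarith)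
    rw [← hm] at h1
    linarith
  have hregB₁ : Reg (chi Q v) B B₁ R := by
    apply hreg B₁ hB₁B
    rw [← hC6, ← hm]
    refine le_trans ?_ hB₁c
    apply mul_le_mul_of_nonneg_right _ hm0.le
    have h1 : 1 / (96 * C6) ≤ 1 / (48 * C6) := by
      apply one_div_le_one_div_of_le (by positivity)
      linarith
    linarith
  have hB₁h : m / 2 ≤ B₁.card := by
    refine le_trans ?_ hB₁c
    have h1 : 1 / (96 * C6) ≤ 1 / 2 := by
      apply one_div_le_one_div_of_le (by norm_num)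
      linarith
    nlinarith
  have hB₁0 : (0 : ℝ) < B₁.card := by linarith
  have hB₁ne : B₁.Nonempty := by
    rw [← Finset.card_pos]
    exact_mod_cast hB₁0
  have hsep : ∀ z ∈ WW (chi Q v) B R, (∀ i ∈ B, ∃ n : ℤ, z i = n) → (∀ i ∈ B₁, z i = 0) → z = 0 := by
    apply sep_int (chi Q v) B B₁ R Rcl η₁ d₀ (by omega) hregB₁ hR0 hdim hcl
    · exact (mul_le_mul_of_nonneg_right hCIs hR0.le).trans hRcl
    · nlinarith
  -- constants for this `d`
  have hδd := hδ d hdd₀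
  have hC7d := hC7 d hdd₀
  simp only [hd2, dif_pos] at hδd hC7d
  obtain ⟨p, hp⟩ : ∃ p : ℝ, p = cP d hd2 := ⟨_, rfl⟩
  obtain ⟨q, hq⟩ : ∃ q : ℝ, q = cQ d hd2 := ⟨_, rfl⟩
  obtain ⟨Cq, hCq⟩ : ∃ Cq : ℝ, Cq = CQ d hd2 := ⟨_, rfl⟩
  have hp0 : 0 < p := by rw [hp]; exact hcP d hd2
  have hq0 : 0 < q := by rw [hq]; exact hcQ d hd2
  have hCq0 : 0 < Cq := by rw [hCq]; exact hCQ d hd2
  rw [← hp, ← hq, ← hCq] at hδd
  rw [← hp, ← hCq] at hC7d
  have hk1 : cI ≤ p ^ 2 / (16 * d₀) :=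
    hcIδ.trans (hδd.trans ((min_le_left _ _).trans (min_le_left _ _)))
  have hk2 : cI ≤ p / 2 := hcIδ.trans (hδd.trans ((min_le_left _ _).trans (min_le_right _ _)))
  have hk3 : cI ≤ q := hcIδ.trans (hδd.trans ((min_le_right _ _).trans (min_le_left _ _)))
  have hk4 : cI ≤ 1 / (2 * Cq) := hcIδ.trans (hδd.trans ((min_le_right _ _).trans (min_le_right _ _)))
  have hk5 : 4 / p ≤ CI := ((le_max_left _ _).trans ((le_max_left _ _).trans hC7d)).trans hCI7
  have hk6 : 2 * Cq ≤ CI := ((le_max_right _ _).trans ((le_max_left _ _).trans hC7d)).trans hCI7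
  have hk7 : Cq / cI ≤ CI := ((le_max_right _ _).trans hC7d).trans hCI7
  -- beta
  have hl1b : l1 (bv v B) ≤ 2 * M * m := by
    rw [l1_of_supp B (bv v B) (fun i hi => bv_not_mem v hi)]
    calc ∑ i ∈ B, |bv v B i| ≤ ∑ i ∈ B, 2 * M := by
          apply Finset.sum_le_sum
          intro i hi
          rw [bv_mem v hi, abs_of_nonneg (by positivity)]
          exact (hv i hi).2
      _ = 2 * M * m := by rw [Finset.sum_const, nsmul_eq_mul, hm]; ring
  obtain ⟨β, hβ⟩ : ∃ β : EuclideanSpace ℝ (Fin d), β = (1 / M) • ω (bv v B) := ⟨_, rfl⟩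
  have hβT : ‖β‖ ≤ T := by
    refine (norm_le_sum_abs β).trans ?_
    calc ∑ j, |β j| ≤ ∑ j : Fin d, (2 : ℝ) := by
          apply Finset.sum_le_sum
          intro j _
          rw [hβ, PiLp.smul_apply, smul_eq_mul, abs_mul, abs_of_pos (by positivity : (0 : ℝ) < 1 / M)]
          have h1 := hωle (bv v B) j
          have h2 : l1 (bv v B) / m ≤ 2 * M := by
            rw [div_le_iff₀ hm0]
            exact hl1b
          calc 1 / M * |ω (bv v B) j| ≤ 1 / M * (2 * M) :=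
                mul_le_mul_of_nonneg_left (h1.trans h2) (by positivity)
            _ = 2 := by field_simp
      _ = 2 * d := by simp [mul_comm]
      _ ≤ T := by linarith
  have hcβ : ∀ i ∈ B, inner ℝ β (c i) = (v i : ℝ) / M := by
    intro i hi
    rw [hβ, inner_smul_left, real_inner_comm, ← hcw (bv v B) hb i, bv_mem v hi]
    simp only [conj_trivial]
    ring
  have hcc : ∀ i ∈ B₁, ‖c i‖ ≤ T ∧ 1 ≤ inner ℝ β (c i) ∧ inner ℝ β (c i) ≤ 2 := by
    intro i hi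
    have hi' := hi
    rw [hB₁, Finset.mem_filter] at hi'
    refine ⟨hi'.2, ?_, ?_⟩
    · rw [hcβ i hi'.1, le_div_iff₀ hM]
      linarith [(hv i hi'.1).1]
    · rw [hcβ i hi'.1, div_le_iff₀ hM]
      exact (hv i hi'.1).2
  -- the directions
  choose! S' hS'B hS'c hS'd w' hw'W hw'0 hw'n hw's using hex
  obtain ⟨Ω, hΩ⟩ : ∃ Ω : ι → EuclideanSpace ℝ (Fin d), Ω = fun i => (1 / ‖ω (w' i)‖) • ω (w' i) := ⟨_, rfl⟩
  obtain ⟨bad, hbad⟩ : ∃ bad : ι → Finset ι, bad = fun i => (B \ S' i) ∪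
      B₁.filter (fun j => j ∈ S' i ∧ inner ℝ ((1 / ‖ω (w' i)‖) • ω (w' i)) (c j) < -(p * ρ ^ 2)) := ⟨_, rfl⟩
  have hρ2 : 0 < p * ρ ^ 2 := by positivity
  have hρd2 : 0 < ρ ^ (d - 2) := by positivity
  have hΩc : ∀ i ∈ B₁, ‖Ω i‖ = 1 ∧ inner ℝ (Ω i) (c i) = (0 : ℝ) ∧
        (∀ j ∈ B₁, j ∉ bad i → -(p * ρ ^ 2) ≤ inner ℝ (Ω i) (c j)) ∧
        ((bad i).card : ℝ) ≤ p * ρ ^ (d - 2) * B₁.card := by
    intro i hi
    have hiB : i ∈ B := hB₁B hi
    have hne := hinj (w' i) (hw'W i hiB) (hw'n i hiB)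
    have hn0 : 0 < ‖ω (w' i)‖ := norm_pos_iff.mpr hne
    refine ⟨?_, ?_, ?_, ?_⟩
    · rw [hΩ]
      simp only
      rw [norm_smul, Real.norm_of_nonneg (by positivity)]
      field_simp
    · rw [hΩ]
      simp only
      rw [inner_smul_left, real_inner_comm, ← hcw (w' i) (hw'W i hiB) i, hw'0 i hiB, mul_zero]
    · intro j hj hjb
      rw [hbad] at hjb
      simp only [Finset.mem_union, Finset.mem_sdiff, Finset.mem_filter, not_or, not_and, not_not, not_lt] at hjb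
      rw [hΩ]
      exact hjb.2 hj (hjb.1 (hB₁B hj))
    · have h1 : ((bad i).card : ℝ) ≤ ((B \ S' i).card : ℝ) + ((B₁.filter (fun j => j ∈ S' i ∧
          inner ℝ ((1 / ‖ω (w' i)‖) • ω (w' i)) (c j) < -(p * ρ ^ 2))).card : ℝ) := by
        rw [hbad]
        exact_mod_cast Finset.card_union_le _ _
      have h2 := bad_count B₁ (S' i) c (ω (w' i)) hne (w' i)
        (fun j _ => hcw (w' i) (hw'W i hiB) j) η m (p * ρ ^ 2) hη0 hρ2 (hw's i hiB) (by
          have h3 : ∑ j ∈ S' i, |w' i j| ≤ l1 (w' i) := by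
            rw [l1]
            exact Finset.sum_le_sum_of_subset_of_nonneg (Finset.subset_univ _) (fun _ _ _ => abs_nonneg _)
          exact h3.trans ((hl1 (w' i) (hw'W i hiB)).trans
            (mul_le_mul_of_nonneg_left (sum_abs_le _) hm0.le)))
      have h4 := hS'd i hiB
      obtain ⟨F, hF⟩ : ∃ F : ℝ, F = ((B₁.filter (fun j => j ∈ S' i ∧
          inner ℝ ((1 / ‖ω (w' i)‖) • ω (w' i)) (c j) < -(p * ρ ^ 2))).card : ℝ) := ⟨_, rfl⟩
      rw [← hF] at h1 h2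
      -- powers of rho
      have hpow1 : ρ ^ d₀ ≤ ρ ^ (d - 2) := pow_le_pow_of_le_one hρ0.le hρ1 (by omega)
      have hpow2 : ρ ^ (d₀ + 1) ≤ ρ ^ 2 * (ρ * ρ ^ (d - 2)) := by
        have : ρ ^ 2 * (ρ * ρ ^ (d - 2)) = ρ ^ (d + 1) := by
          rw [← pow_succ', ← pow_add]
          congr 1
          omega
        rw [this]
        exact pow_le_pow_of_le_one hρ0.le hρ1 (by omega)
      have hF1 : F ≤ p / 4 * ρ ^ (d - 2) * m := by
        have h5 : F * (p * ρ ^ 2) ≤ 4 * (ρ ^ 2 * (ρ * ρ ^ (d - 2))) * m * d₀ := by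
          refine h2.trans ?_
          have h6 : 4 * η * m * d ≤ 4 * (ρ ^ 2 * (ρ * ρ ^ (d - 2))) * m * d := by
            have h7 := hηρ.trans hpow2
            apply mul_le_mul_of_nonneg_right _ (by positivity)
            apply mul_le_mul_of_nonneg_right _ hm0.le
            exact mul_le_mul_of_nonneg_left h7 (by norm_num)
          refine h6.trans ?_
          exact mul_le_mul_of_nonneg_left hddR (by positivity)
        have h8 : ρ * (16 * d₀) ≤ p ^ 2 := by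
          have := hρc.trans hk1
          rwa [le_div_iff₀ (by positivity)] at this
        have h9 : 4 * (ρ ^ 2 * (ρ * ρ ^ (d - 2))) * m * d₀ ≤ (p / 4 * ρ ^ (d - 2) * m) * (p * ρ ^ 2) := by
          have h10 : 4 * (ρ ^ 2 * (ρ * ρ ^ (d - 2))) * m * d₀ =
              (ρ * (16 * d₀)) * (ρ ^ 2 * ρ ^ (d - 2) * m / 4) := by ring
          have h11 : (p / 4 * ρ ^ (d - 2) * m) * (p * ρ ^ 2) = p ^ 2 * (ρ ^ 2 * ρ ^ (d - 2) * m / 4) := by ring
          rw [h10, h11]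
          exact mul_le_mul_of_nonneg_right h8 (by positivity)
        exact le_of_mul_le_mul_right (h5.trans h9) hρ2
      have hE1 : E + 1 ≤ p / 4 * ρ ^ (d - 2) * m := by
        have h5 : CI * (E + 1) ≤ ρ ^ (d - 2) * m := by
          rw [hm]
          exact hE.trans (mul_le_mul_of_nonneg_right hpow1 (by positivity))
        have h6 : 4 / p * (E + 1) ≤ ρ ^ (d - 2) * m :=
          (mul_le_mul_of_nonneg_right hk5 (by linarith)).trans h5
        have h7 : E + 1 = p / 4 * (4 / p * (E + 1)) := by field_simp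
        rw [h7, mul_assoc (p / 4)]
        exact mul_le_mul_of_nonneg_left h6 (by positivity)
      have hfin : p * ρ ^ (d - 2) * (m / 2) ≤ p * ρ ^ (d - 2) * B₁.card :=
        mul_le_mul_of_nonneg_left hB₁h (by positivity)
      have hfin2 : p / 4 * ρ ^ (d - 2) * m + p / 4 * ρ ^ (d - 2) * m = p * ρ ^ (d - 2) * (m / 2) := by ring
      linarith
  obtain ⟨i₀, hi₀, n, hn1, hnβ, B'', hB''B, hB''c, hB''⟩ := hclu d hd2 B₁ c Ω β ρ bad hρ0 hρ1 hB₁ne hβT hcc
    (by rw [← hp]; exact hΩc)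
  -- the subset
  obtain ⟨t, ht⟩ : ∃ t : ℕ, t = ⌈cI * ρ ^ (d - 2) * m⌉₊ := ⟨_, rfl⟩
  have hx0 : 0 < cI * ρ ^ (d - 2) * m := by positivity
  have htpos : 0 < t := by rw [ht]; exact Nat.ceil_pos.mpr hx0
  have htB : t ≤ B''.card := by
    rw [ht]
    apply Nat.ceil_le.mpr
    refine le_trans ?_ hB''c
    rw [← hp]
    calc cI * ρ ^ (d - 2) * m ≤ p / 2 * ρ ^ (d - 2) * m := by
          apply mul_le_mul_of_nonneg_right _ hm0.le
          exact mul_le_mul_of_nonneg_right hk2 hρd2.le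
      _ = p * ρ ^ (d - 2) * (m / 2) := by ring
      _ ≤ p * ρ ^ (d - 2) * B₁.card := mul_le_mul_of_nonneg_left hB₁h (by positivity)
  obtain ⟨B', hB'B, hB't⟩ := Finset.exists_subset_card_eq htB
  have hB'1 : B' ⊆ B₁ := hB'B.trans hB''B
  have hB'ne : B'.Nonempty := by rw [← Finset.card_pos, hB't]; exact htpos
  have htle : cI * ρ ^ (d - 2) * m ≤ t := by rw [ht]; exact Nat.le_ceil _
  have htlt : (t : ℝ) < cI * ρ ^ (d - 2) * m + 1 := by rw [ht]; exact Nat.ceil_lt_add_one hx0.le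
  refine ⟨d, hd2, hdd₀, B', hB'1.trans hB₁B, hB'ne, ?_, ?_⟩
  · rw [hB't, ← hm]
    exact htle
  have hcount := hcnt d hd2 (chi Q v) B B₁ B' r R η₁ ρ ω c β n i₀ hB₁B hB'1 hi₀ hr0
    (le_trans (mul_le_mul_of_nonneg_right (by linarith) hr0.le) hrR) hρ0 hρ1 hclR
    (by
      by_cases hη₁0 : 0 ≤ η₁
      · exact (mul_le_mul_of_nonneg_right (by linarith) hη₁0).trans hη₁
      · push Not at hη₁0
        have : 100 * (d : ℝ) * η₁ ≤ 0 := mul_nonpos_of_nonneg_of_nonpos (by positivity) hη₁0.le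
        linarith)
    (by rw [← hW]; exact hd) (by rw [← hW, ← hm]; exact fun w _ j => hωle w j)
    (by rw [← hW, ← hm]; exact hl1) (by rw [← hW]; exact hcw) (by rw [← hW]; exact hsurj)
    hβT hcc hn1 hnβ (fun j hj => hB'' j (hB'B hj)) hsep hB'ne
    (by
      rw [hB't, ← hCq, ← hm]
      have h1 : ρ ^ (d - 2) ≤ 1 := pow_le_one₀ hρ0.le hρ1
      have h2 : cI * ρ ^ (d - 2) * m ≤ 1 / (2 * Cq) * m := by
        apply mul_le_mul_of_nonneg_right _ hm0.le
        exact (mul_le_of_le_one_right hcI0.le h1).trans hk4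
      have h3 : Cq * (1 / (2 * Cq) * m) = m / 2 := by field_simp
      have h4 : 2 * Cq ≤ m := by
        have h5 : CI * 1 ≤ CI * (E + 1) := mul_le_mul_of_nonneg_left (by linarith) (by linarith)
        linarith
      have h5 : Cq * (t : ℝ) ≤ Cq * (1 / (2 * Cq) * m + 1) :=
        mul_le_mul_of_nonneg_left (by linarith) hCq0.le
      rw [mul_add, h3, mul_one] at h5
      linarith)
    (by
      rw [hB't, ← hCq]
      have h1 : Cq / cI * R ≤ ρ ^ (d₀ + 2) * m := by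
        rw [hm]
        exact (mul_le_mul_of_nonneg_right hk7 hR0.le).trans hRm
      have h2 : ρ ^ (d₀ + 2) ≤ ρ ^ 2 * ρ ^ (d - 2) := by
        rw [← pow_add]
        exact pow_le_pow_of_le_one hρ0.le hρ1 (by omega)
      have h3 : Cq * R = cI * (Cq / cI * R) := by field_simp
      rw [h3]
      calc cI * (Cq / cI * R) ≤ cI * (ρ ^ (d₀ + 2) * m) := mul_le_mul_of_nonneg_left h1 hcI0.le
        _ ≤ cI * (ρ ^ 2 * ρ ^ (d - 2) * m) := by
            apply mul_le_mul_of_nonneg_left _ hcI0.le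
            exact mul_le_mul_of_nonneg_right h2 hm0.le
        _ = ρ ^ 2 * (cI * ρ ^ (d - 2) * m) := by ring
        _ ≤ ρ ^ 2 * t := mul_le_mul_of_nonneg_left htle (by positivity))
  refine le_trans ?_ hcount
  rw [← hq]
  apply mul_le_mul_of_nonneg_right _ (by positivity)
  apply mul_le_mul_of_nonneg_right _ (by positivity)
  exact mul_le_mul_of_nonneg_right hk3 (by positivity)

end Pool.DV5
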