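import Pool.Agent.Lib.MP_a90784_dv.Ba
import Pool.Agent.Lib.MP_a90784_dv.Dou
import Pool.Agent.Lib.MP_a90784_dv.Ex1
import Pool.Agent.Lib.MP_a90784_dv.Imp

/-! Row R22 of the tank DV5: the improvement contradicts extremality (helper38). -/

set_option autoImplicit false

namespace Pool.DV5

open Finset Module

/-- the exponent count: the critical exponent is `6` -/
theorem step_num (d₀ : ℕ) (e : ℝ) (he5 : 5 ≤ e) (he6 : e < 6) (c C : ℝ) (hc : 0 < c)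
    (hc1 : c ≤ 1) (hC : 0 < C) :
    ∃ ρ₀ : ℝ, 0 < ρ₀ ∧ ρ₀ ≤ 1 ∧ ∀ ρ : ℝ, 0 < ρ → ρ ≤ ρ₀ → ∀ d : ℕ, 2 ≤ d → d ≤ d₀ → ∀ y : ℝ,
      0 < y → y ≤ 1 → c * ρ ^ (d - 2) ≤ y → C < y ^ (e - d) * (1 / ρ) ^ d := by
  have hδ : 0 < 6 - e := by linarith
  set t : ℝ := 2 * C / c ^ 4 + 1 with ht
  have ht1 : 1 ≤ t := by
    have : 0 ≤ 2 * C / c ^ 4 := by positivity
    linarith
  have ht0 : 0 < t := by linarith
  refine ⟨(1 / t) ^ (1 / (6 - e)), by positivity, ?_, ?_⟩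
  · exact Real.rpow_le_one (by positivity) (by rw [div_le_one ht0]; exact ht1) (by positivity)
  intro ρ hρ hρ0 d hd2 hdd y hy hy1 hcy
  have hρ1 : ρ ≤ 1 := hρ0.trans (Real.rpow_le_one (by positivity)
    (by rw [div_le_one ht0]; exact ht1) (by positivity))
  have hr1 : 1 ≤ 1 / ρ := by rw [le_div_iff₀ hρ, one_mul]; exact hρ1
  have hr0 : 0 < 1 / ρ := by positivity
  -- the size of `(1/ρ)^(6-e)`
  have key1 : t ≤ (1 / ρ) ^ (6 - e) := by
    have h1 : ρ ^ (6 - e) ≤ 1 / t := by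
      calc ρ ^ (6 - e) ≤ ((1 / t) ^ (1 / (6 - e))) ^ (6 - e) :=
            Real.rpow_le_rpow hρ.le hρ0 hδ.le
        _ = 1 / t := by
            rw [← Real.rpow_mul (by positivity), one_div_mul_cancel hδ.ne', Real.rpow_one]
    rw [Real.div_rpow (by norm_num) hρ.le, Real.one_rpow, le_div_iff₀ (by positivity)]
    calc t * ρ ^ (6 - e) ≤ t * (1 / t) := mul_le_mul_of_nonneg_left h1 ht0.le
      _ = 1 := mul_one_div_cancel ht0.ne'
  -- the lower bound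
  have key2 : c ^ 4 * (1 / ρ) ^ (6 - e) ≤ y ^ (e - d) * (1 / ρ) ^ d := by
    rcases Nat.lt_or_ge d 6 with h6 | h6
    · have hd5 : (d : ℝ) ≤ 5 := by exact_mod_cast Nat.lt_succ_iff.1 h6
      have hed : 0 ≤ e - d := by linarith
      have hd2' : (2 : ℝ) ≤ d := by exact_mod_cast hd2
      have h1 : (c * ρ ^ (d - 2)) ^ (e - d) ≤ y ^ (e - d) :=
        Real.rpow_le_rpow (by positivity) hcy hed
      have h2 : (c * ρ ^ (d - 2)) ^ (e - d) = c ^ (e - d) * (1 / ρ) ^ (-(((d : ℝ) - 2) * (e - d))) := by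
        rw [Real.mul_rpow hc.le (by positivity), ← Real.rpow_natCast ρ (d - 2),
          ← Real.rpow_mul hρ.le, Real.rpow_neg (by positivity), one_div,
          Real.inv_rpow hρ.le, inv_inv]
        congr 2
        rw [Nat.cast_sub hd2]
        norm_num
      have h3 : c ^ 4 ≤ c ^ (e - d) := by
        rw [← Real.rpow_natCast c 4]
        exact Real.rpow_le_rpow_of_exponent_ge hc hc1 (by push_cast; linarith)
      have h4 : (6 - e) ≤ (d : ℝ) - (((d : ℝ) - 2) * (e - d)) := by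
        have : d = 2 ∨ d = 3 ∨ d = 4 ∨ d = 5 := by omega
        rcases this with rfl | rfl | rfl | rfl <;> push_cast <;> linarith
      calc c ^ 4 * (1 / ρ) ^ (6 - e)
          ≤ c ^ (e - d) * (1 / ρ) ^ ((d : ℝ) - (((d : ℝ) - 2) * (e - d))) := by
            refine mul_le_mul h3 (Real.rpow_le_rpow_of_exponent_le hr1 h4) (by positivity)
              (by positivity)
        _ = (c ^ (e - d) * (1 / ρ) ^ (-(((d : ℝ) - 2) * (e - d)))) * (1 / ρ) ^ d := by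
            rw [show (d : ℝ) - (((d : ℝ) - 2) * (e - d)) = -(((d : ℝ) - 2) * (e - d)) + (d : ℝ) by
              ring, Real.rpow_add hr0, Real.rpow_natCast]
            ring
        _ = (c * ρ ^ (d - 2)) ^ (e - d) * (1 / ρ) ^ d := by rw [h2]
        _ ≤ _ := mul_le_mul_of_nonneg_right h1 (by positivity)
    · have hd6 : (6 : ℝ) ≤ d := by exact_mod_cast h6
      have h1 : 1 ≤ y ^ (e - d) :=
        Real.one_le_rpow_of_pos_of_le_one_of_nonpos hy hy1 (by linarith)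
      have h2 : (1 / ρ) ^ (6 - e) ≤ (1 / ρ) ^ d := by
        rw [← Real.rpow_natCast]
        exact Real.rpow_le_rpow_of_exponent_le hr1 (by linarith)
      have h3 : c ^ 4 ≤ 1 := pow_le_one₀ hc.le hc1
      calc c ^ 4 * (1 / ρ) ^ (6 - e) ≤ 1 * (1 / ρ) ^ (6 - e) :=
            mul_le_mul_of_nonneg_right h3 (by positivity)
        _ ≤ y ^ (e - d) * (1 / ρ) ^ d := mul_le_mul h1 h2 (by positivity) (by positivity)
  have hc4 : 0 < c ^ 4 := by positivity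
  calc C < 2 * C + c ^ 4 := by linarith
    _ = c ^ 4 * t := by rw [ht]; field_simp
    _ ≤ c ^ 4 * (1 / ρ) ^ (6 - e) := mul_le_mul_of_nonneg_left key1 hc4.le
    _ ≤ _ := key2

theorem step_fin (e cI C6 n m E₀ X Dm Dn ρ : ℝ) (d : ℕ) (he5 : 5 ≤ e) (he6 : e < 6)
    (hcI : 0 < cI) (hC6 : 0 < C6) (hn : 0 < n) (hm : 0 < m) (hE : 2 * E₀ ≤ n) (hX : 0 < X)
    (hρ : 0 < ρ) (hnum : 64 * C6 / cI < (n / m) ^ (e - d) * (1 / ρ) ^ d)
    (hDm : Dm ≤ C6 * X) (hext : (n - E₀) ^ e * Dn ≤ m ^ e * Dm)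
    (hcount : cI * (m / n) ^ d * (1 / ρ) ^ d * X ≤ Dn) : False := by
  obtain ⟨y, hy⟩ : ∃ y, y = n / m := ⟨_, rfl⟩
  rw [← hy] at hnum
  have hy0 : 0 < y := by rw [hy]; positivity
  have hBy : n = y * m := by rw [hy]; field_simp
  have he0 : 0 ≤ e := by linarith
  have h1 : (n / 2) ^ e ≤ (n - E₀) ^ e := Real.rpow_le_rpow (by positivity) (by linarith) he0
  have h2 : (n / 2) ^ e = y ^ e * m ^ e / 2 ^ e := by
    rw [Real.div_rpow hn.le (by norm_num), hBy, Real.mul_rpow hy0.le hm.le]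
  have h3 : (m / n) ^ d = (y ^ (d : ℝ))⁻¹ := by
    rw [Real.rpow_natCast, ← inv_pow, hy, inv_div]
  have hme : 0 < m ^ e := Real.rpow_pos_of_pos hm _
  have h4 : (n / 2) ^ e * (cI * (m / n) ^ d * (1 / ρ) ^ d * X) ≤ m ^ e * (C6 * X) := by
    calc (n / 2) ^ e * (cI * (m / n) ^ d * (1 / ρ) ^ d * X)
        ≤ (n - E₀) ^ e * Dn :=
          mul_le_mul h1 hcount (by positivity) (Real.rpow_nonneg (by linarith) _)
      _ ≤ m ^ e * Dm := hext
      _ ≤ _ := mul_le_mul_of_nonneg_left hDm hme.le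
  have h5 : y ^ (e - d) = y ^ e * (y ^ (d : ℝ))⁻¹ := by
    rw [Real.rpow_sub hy0, div_eq_mul_inv]
  have h6 : (n / 2) ^ e * (cI * (m / n) ^ d * (1 / ρ) ^ d * X) =
      (cI * (y ^ (e - d) * (1 / ρ) ^ d) / 2 ^ e) * (m ^ e * X) := by
    rw [h2, h3, h5]
    ring
  rw [h6, show m ^ e * (C6 * X) = C6 * (m ^ e * X) by ring] at h4
  have h7 : cI * (y ^ (e - d) * (1 / ρ) ^ d) / 2 ^ e ≤ C6 :=
    le_of_mul_le_mul_right h4 (by positivity)
  have h8 : (2 : ℝ) ^ e ≤ 64 := by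
    calc (2 : ℝ) ^ e ≤ 2 ^ (6 : ℝ) := Real.rpow_le_rpow_of_exponent_le (by norm_num) he6.le
      _ = 64 := by norm_num
  rw [div_le_iff₀ (by positivity)] at h7
  have h9 : cI * (y ^ (e - d) * (1 / ρ) ^ d) ≤ C6 * 64 :=
    h7.trans (mul_le_mul_of_nonneg_left h8 hC6.le)
  have h10 : 64 * C6 / cI * cI < cI * (y ^ (e - d) * (1 / ρ) ^ d) := by
    rw [mul_comm cI]
    exact mul_lt_mul_of_pos_right hnum hcI
  rw [div_mul_cancel₀ _ hcI.ne'] at h10
  linarith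

theorem step (d₀ : ℕ) (hd₀ : 2 ≤ d₀) (e : ℝ) (he5 : 5 ≤ e) (he6 : e < 6) :
    ∃ ρ₀ : ℝ, 0 < ρ₀ ∧ ρ₀ ≤ 1 ∧ ∃ CS : ℝ, 1 ≤ CS ∧
      ∀ {ι : Type} [DecidableEq ι] [Fintype ι] (Q : ℕ) [NeZero Q] (v : ι → ℕ) [∀ i, NeZero (v i)]
      (B : Finset ι) (M R r K η η₁ Rcl ρ E E₀ : ℝ),
      B.Nonempty → 0 < M → (∀ i ∈ B, M ≤ v i ∧ (v i : ℝ) ≤ 2 * M) → (∀ i ∈ B, v i ∣ Q) →
      8 * M ≤ Q → 2 * M * B.card ≤ r * Q →
      0 < K → 5 * K ≤ r → 8 * (d₀ : ℝ) * r ≤ R → CS * R ≤ Rcl →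
      Clean (chi Q v) B Rcl η₁ → 100 * (d₀ : ℝ) * η₁ ≤ 1 →
      finrank ℝ (WW (chi Q v) B R) ≤ d₀ →
      0 < ρ → ρ ≤ ρ₀ → 0 < η → η ≤ ρ ^ (d₀ + 1) → 0 ≤ E → 0 ≤ E₀ →
      Ext (chi Q v) B R e E₀ →
      CS * (E + E₀ + R + 1) ≤ ρ ^ (d₀ + 2) * B.card →
      (∀ i ∈ B, ∃ S' ⊆ B.erase i, (((B.erase i) \ S').card : ℝ) ≤ E ∧
        ∃ w ∈ SP (chi (v i) v) S' {s | N1 (chi (v i) v) S' s ≤ K},
          ∑ j ∈ S', max (-w j) 0 < 4 * η * ∑ j ∈ S', max (w j) 0) → False := by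
  obtain ⟨cI, hcI, hcI2, CI, hCI, himp⟩ := improve d₀ hd₀
  set C6 : ℝ := (8 * (d₀ : ℝ) + 3) ^ d₀ with hC6
  have hC61 : 1 ≤ C6 := one_le_pow₀ (by
    have : (0 : ℝ) ≤ d₀ := by positivity
    linarith)
  have hC60 : 0 < C6 := by linarith
  obtain ⟨ρ₀, hρ₀, hρ₀1, hnum⟩ := step_num d₀ e he5 he6 cI (64 * C6 / cI) hcI (by linarith)
    (by positivity)
  refine ⟨min ρ₀ cI, by positivity, (min_le_left _ _).trans hρ₀1,
    max CI (max (48 * C6) (2 / cI)), hCI.trans (le_max_left _ _), ?_⟩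
  intro ι _ _ Q _ v _ B M R r K η η₁ Rcl ρ E E₀ hB hM hv hvQ hMQ hMr hK hKr hrR hRcl hcl hη₁ hdim
    hρ hρle hη hηρ hE hE₀ hext hCS hw
  set CS : ℝ := max CI (max (48 * C6) (2 / cI)) with hCSdef
  have hCS1 : CI ≤ CS := le_max_left _ _
  have hCS2 : 48 * C6 ≤ CS := (le_max_left _ _).trans (le_max_right _ _)
  have hCS3 : 2 / cI ≤ CS := (le_max_right _ _).trans (le_max_right _ _)
  have hCS0 : 0 < CS := by linarith
  have hρ₀' : ρ ≤ ρ₀ := hρle.trans (min_le_left _ _)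
  have hρcI : ρ ≤ cI := hρle.trans (min_le_right _ _)
  have hρ1 : ρ ≤ 1 := hρ₀'.trans hρ₀1
  have hd2 : (2 : ℝ) ≤ d₀ := by exact_mod_cast hd₀
  have hr : 0 < r := by linarith
  have hR : 0 < R := by
    have : 0 < 8 * (d₀ : ℝ) * r := by positivity
    linarith
  have hm0 : (0 : ℝ) < B.card := by exact_mod_cast Finset.card_pos.2 hB
  have hRRcl : R ≤ Rcl := by
    have : 1 * R ≤ CS * R := mul_le_mul_of_nonneg_right (by linarith) hR.le
    linarith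
  have hclR : Clean (chi Q v) B R η₁ := fun θ hθ => hcl θ (hθ.trans hRRcl)
  have hη₁' : η₁ < 1 / 4 := by
    by_contra hcon
    push Not at hcon
    have : 100 * (d₀ : ℝ) * (1 / 4) ≤ 100 * (d₀ : ℝ) * η₁ :=
      mul_le_mul_of_nonneg_left hcon (by positivity)
    linarith
  have hρp : ρ ^ (d₀ + 2) ≤ 1 := pow_le_one₀ hρ.le hρ1
  have hρm : ρ ^ (d₀ + 2) * B.card ≤ B.card := by
    have := mul_le_mul_of_nonneg_right hρp hm0.le
    linarith
  -- regularity of the large subsets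
  have hreg : ∀ S' ⊆ B, (1 - 1 / (48 * (8 * (d₀ : ℝ) + 3) ^ d₀)) * B.card ≤ S'.card →
      Reg (chi Q v) B S' R := by
    intro S' hS' hcard
    refine reg_of_ext (chi Q v) B S' R η₁ e E₀ d₀ hext he5 he6.le hE₀ hclR hη₁' hR hdim hS' hB ?_
    rw [← hC6] at hcard ⊢
    have h1 : CS * E₀ ≤ B.card := by
      have : CS * E₀ ≤ CS * (E + E₀ + R + 1) := mul_le_mul_of_nonneg_left (by linarith) hCS0.le
      linarith
    have h2 : 48 * C6 * E₀ ≤ B.card := (mul_le_mul_of_nonneg_right hCS2 hE₀).trans h1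
    have h3 : E₀ ≤ 1 / (48 * C6) * B.card := by
      rw [one_div, inv_mul_eq_div, le_div_iff₀ (by positivity)]
      linarith
    have h4 : (1 : ℝ) / (24 * C6) * B.card = 2 * (1 / (48 * C6) * B.card) := by
      field_simp
      ring
    rw [sub_mul] at hcard ⊢
    linarith
  obtain ⟨d, hd2', hdd, B', hB', hB'ne, hsize, hcount⟩ := himp Q v B M R r K η η₁ Rcl ρ E hB hM hv
    hvQ hMQ hMr hK hKr hrR ((mul_le_mul_of_nonneg_right hCS1 hR.le).trans hRcl) hcl hη₁ hdim hreg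
    hρ hρcI hη hηρ hE
    (by
      have h1 : CI * (E + 1) ≤ CS * (E + E₀ + R + 1) :=
        mul_le_mul hCS1 (by linarith) (by linarith) hCS0.le
      have h2 : ρ ^ (d₀ + 2) * (B.card : ℝ) ≤ ρ ^ d₀ * B.card :=
        mul_le_mul_of_nonneg_right (pow_le_pow_of_le_one hρ.le hρ1 (by omega)) hm0.le
      linarith)
    (by
      have h1 : CI * R ≤ CS * (E + E₀ + R + 1) :=
        mul_le_mul hCS1 (by linarith) hR.le hCS0.le
      linarith) hw
  -- the size of `B'`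
  have hn0 : (0 : ℝ) < B'.card := by exact_mod_cast Finset.card_pos.2 hB'ne
  have hnm : (B'.card : ℝ) ≤ B.card := by exact_mod_cast Finset.card_le_card hB'
  have hbig : 2 * E₀ ≤ (B'.card : ℝ) := by
    have h1 : cI * ρ ^ (d₀ + 2) * B.card ≤ cI * ρ ^ (d - 2) * B.card := by
      refine mul_le_mul_of_nonneg_right (mul_le_mul_of_nonneg_left
        (pow_le_pow_of_le_one hρ.le hρ1 (by omega)) hcI.le) hm0.le
    have h2 : cI * (CS * (E + E₀ + R + 1)) ≤ cI * (ρ ^ (d₀ + 2) * B.card) :=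
      mul_le_mul_of_nonneg_left hCS hcI.le
    have h3 : cI * ((2 / cI) * E₀) ≤ cI * (CS * (E + E₀ + R + 1)) :=
      mul_le_mul_of_nonneg_left (mul_le_mul hCS3 (by linarith) hE₀ hCS0.le) hcI.le
    have h4 : cI * ((2 / cI) * E₀) = 2 * E₀ := by field_simp
    calc 2 * E₀ = cI * ((2 / cI) * E₀) := h4.symm
      _ ≤ cI * (ρ ^ (d₀ + 2) * B.card) := h3.trans h2
      _ = cI * ρ ^ (d₀ + 2) * B.card := by ring
      _ ≤ cI * ρ ^ (d - 2) * B.card := h1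
      _ ≤ _ := hsize
  have hE₀B' : E₀ ≤ (B'.card : ℝ) := by linarith
  have hX := hext B' hB' hE₀B'
  have hdoub := doubling (chi Q v) B R η₁ d₀ hclR hη₁' hR hdim
  have hXpos : (0 : ℝ) < ((DD (chi Q v) B (R / 4)).card : ℝ) := by
    have := DD_card_pos (chi Q v) B (R := R / 4) (by positivity)
    exact_mod_cast this
  have hdoub' : ((DD (chi Q v) B R).card : ℝ) ≤
      C6 * ((DD (chi Q v) B (R / 4)).card : ℝ) := by
    have : ((DD (chi Q v) B R).card : ℝ) ≤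
        (((8 * d₀ + 3) ^ d₀ * (DD (chi Q v) B (R / 4)).card : ℕ) : ℝ) := by exact_mod_cast hdoub
    rw [hC6]
    push_cast at this
    exact this
  refine step_fin e cI C6 B'.card B.card E₀ _ _ _ ρ d he5 he6 hcI hC60 hn0 hm0 hbig hXpos hρ
    (hnum ρ hρ hρ₀' d hd2' hdd _ (by positivity) (by rw [div_le_one hm0]; exact hnm)
      (by rw [le_div_iff₀ hm0]; exact hsize)) hdoub' hX hcount

end Pool.DV5
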