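import Mathlib
import Pool.Agent.Lib.MP_a90784_dv.MainT
import Pool.Agent.Lib.MP_a90784_dv.MainD
import Pool.Agent.Lib.MP_a90784_dv.Ex2
import Pool.Agent.Lib.MP_a90784_dv.Step
import Pool.Agent.Lib.MP_a90784_dv.MainP

/-!
Tank DV5 (MP_a90784_nt), row R23: the main inequality.  (helper90)
-/

set_option autoImplicit false

namespace Pool.DV5

open Finset Module Filter

theorem exists_two_pow (k : ℕ) : ∃ N : ℕ, ∀ J : ℕ, N ≤ J → (J : ℝ) ^ k ≤ 2 ^ J := by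
  have h := (isLittleO_pow_const_const_pow_of_one_lt (R := ℝ) k (one_lt_two : (1 : ℝ) < 2)).bound
    (one_pos : (0 : ℝ) < 1)
  rw [eventually_atTop] at h
  obtain ⟨N, hN⟩ := h
  refine ⟨N, fun J hJ => ?_⟩
  have := hN J hJ
  rw [one_mul, Real.norm_of_nonneg (by positivity), Real.norm_of_nonneg (by positivity)] at this
  exact this

/-- cleaning with the parameters of the main inequality -/
theorem clean_par (d₀ : ℕ) : ∃ N : ℕ, ∀ x : ℝ, (N : ℝ) ≤ x → 2 ≤ x →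
    ∀ {ι : Type} [DecidableEq ι] (Q : ℕ) [NeZero Q] (v : ι → ℕ) (M : ℝ), 1 ≤ M →
    (∀ i, (v i : ℝ) ≤ 2 * M) → 16 * M ≤ x ^ (d₀ ^ 2) → ∀ S : Finset ι,
    ∃ S' ⊆ S, ((S \ S').card : ℝ) ≤ x ^ (2 * d₀ + 14) ∧
      Clean (chi Q v) S' (x ^ (d₀ + 5)) ((1 / x) ^ (d₀ + 5)) := by
  obtain ⟨N, hN⟩ := exists_two_pow (d₀ ^ 2 + d₀ + 6)
  refine ⟨N, fun x hNx hx2 {ι} _ Q _ v M hM hv hMx S => ?_⟩
  have hx0 : 0 < x := by linarith
  set J : ℕ := ⌈x⌉₊ with hJ
  have hxJ : x ≤ J := Nat.le_ceil x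
  have hJx : (J : ℝ) ≤ 2 * x := by
    have := Nat.ceil_lt_add_one hx0.le
    linarith
  have hJ0 : (0 : ℝ) < J := by linarith
  have hNJ : N ≤ J := by
    have : (N : ℝ) ≤ J := hNx.trans hxJ
    exact_mod_cast this
  have hpow := hN J hNJ
  set η₁ : ℝ := (1 / x) ^ (d₀ + 5) with hη₁
  have hη₁0 : 0 < η₁ := by positivity
  have hη₁1 : η₁ ≤ 1 := by
    rw [hη₁]
    apply pow_le_one₀ (by positivity)
    rw [div_le_one hx0]
    linarith
  have hη₁x : η₁ * x ^ (d₀ + 5) = 1 := by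
    rw [hη₁, ← mul_pow, one_div, inv_mul_cancel₀ hx0.ne', one_pow]
  obtain ⟨S', hS', h1, h2⟩ := clean_big Q v M hM hv J (η₁ / J) η₁ (x ^ (d₀ + 5)) (by positivity)
    (by positivity)
    (by
      rw [div_le_one hJ0]
      linarith)
    (by
      rw [← mul_div_assoc, le_div_iff₀ hJ0]
      have h3 : 2 * M * J * x ^ (d₀ + 5) ≤ 2 ^ J := by
        calc 2 * M * J * x ^ (d₀ + 5) ≤ (J : ℝ) ^ (d₀ ^ 2) * J * (J : ℝ) ^ (d₀ + 5) := by
              apply mul_le_mul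
              · apply mul_le_mul_of_nonneg_right _ hJ0.le
                have h4 : x ^ (d₀ ^ 2) ≤ (J : ℝ) ^ (d₀ ^ 2) := pow_le_pow_left₀ hx0.le hxJ _
                linarith
              · exact pow_le_pow_left₀ hx0.le hxJ _
              · positivity
              · positivity
          _ = (J : ℝ) ^ (d₀ ^ 2 + d₀ + 6) := by
              rw [← pow_succ, ← pow_add]
              congr 1
              ring
          _ ≤ 2 ^ J := hpow
      calc 2 * M * J = 2 * M * J * x ^ (d₀ + 5) * η₁ := by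
            rw [mul_assoc (2 * M * (J : ℝ)), mul_comm (x ^ (d₀ + 5)) η₁, hη₁x, mul_one]
        _ ≤ 2 ^ J * η₁ := mul_le_mul_of_nonneg_right h3 hη₁0.le)
    (le_of_eq (by field_simp)) S
  refine ⟨S', hS', ?_, h2⟩
  have h3 : ((S \ S').card : ℝ) ≤ J ^ 2 * (x ^ (d₀ + 5) * x ^ (d₀ + 5)) := by
    have h4 : η₁ * ((S \ S').card : ℝ) ≤ J ^ 2 * x ^ (d₀ + 5) := by
      have h5 : η₁ * ((S \ S').card : ℝ) = J * (η₁ / J * ((S \ S').card : ℝ)) := by
        field_simp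
      rw [h5]
      calc (J : ℝ) * (η₁ / J * ((S \ S').card : ℝ)) ≤ J * (J * x ^ (d₀ + 5)) :=
            mul_le_mul_of_nonneg_left h1 hJ0.le
        _ = J ^ 2 * x ^ (d₀ + 5) := by ring
    calc ((S \ S').card : ℝ) = (η₁ * x ^ (d₀ + 5)) * ((S \ S').card : ℝ) := by rw [hη₁x, one_mul]
      _ = x ^ (d₀ + 5) * (η₁ * ((S \ S').card : ℝ)) := by ring
      _ ≤ x ^ (d₀ + 5) * (J ^ 2 * x ^ (d₀ + 5)) := mul_le_mul_of_nonneg_left h4 (by positivity)
      _ = J ^ 2 * (x ^ (d₀ + 5) * x ^ (d₀ + 5)) := by ring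
  calc ((S \ S').card : ℝ) ≤ J ^ 2 * (x ^ (d₀ + 5) * x ^ (d₀ + 5)) := h3
    _ ≤ (x ^ 2 * x ^ 2) * (x ^ (d₀ + 5) * x ^ (d₀ + 5)) := by
        apply mul_le_mul_of_nonneg_right _ (by positivity)
        have h4 : (J : ℝ) ≤ x ^ 2 := by nlinarith
        calc (J : ℝ) ^ 2 ≤ (x ^ 2) ^ 2 := pow_le_pow_left₀ hJ0.le h4 2
          _ = x ^ 2 * x ^ 2 := by ring
    _ = x ^ (2 * d₀ + 14) := by
        rw [← pow_add, ← pow_add, ← pow_add]
        congr 1
        ring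

/-- the last computation -/
theorem last_par (d₀ : ℕ) (e : ℝ) (he5 : 5 ≤ e) (he6 : e < 6) (x M n b DB DU Q : ℝ) (hx : 2 ≤ x)
    (hM : 1 ≤ M) (hn : 1 ≤ n) (hb : 0 ≤ b) (hbx : b ≤ x ^ (4 * d₀ + 40)) (hQ : 0 < Q)
    (hDB : DB ≤ Q) (hDB0 : 0 ≤ DB) (hDU : Q ≤ 2 * M * n * DU)
    (hmain : x ^ (2 * d₀ + 14) ≤ n → (n - x ^ (2 * d₀ + 14)) ^ e * DU ≤ b ^ e * DB) :
    n ^ (e - 1) ≤ M * x ^ (25 * d₀ + 250) := by
  have hx0 : 0 < x := by linarith
  have hx1 : 1 ≤ x := by linarith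
  have hn0 : 0 < n := by linarith
  rcases lt_or_ge n (2 * x ^ (2 * d₀ + 14)) with hcase | hcase
  · have h1 : n ≤ x ^ (2 * d₀ + 15) := by
      have h2 : x ^ (2 * d₀ + 15) = x * x ^ (2 * d₀ + 14) := by rw [← pow_succ']
      have h3 : 0 < x ^ (2 * d₀ + 14) := by positivity
      nlinarith
    have h2 : n ^ (e - 1) ≤ n ^ (5 : ℝ) := Real.rpow_le_rpow_of_exponent_le hn (by linarith)
    have h3 : n ^ (5 : ℝ) ≤ (x ^ (2 * d₀ + 15)) ^ 5 := by
      rw [show (5 : ℝ) = ((5 : ℕ) : ℝ) by norm_num, Real.rpow_natCast]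
      exact pow_le_pow_left₀ hn0.le h1 5
    have h4 : (x ^ (2 * d₀ + 15)) ^ 5 ≤ x ^ (25 * d₀ + 250) := by
      rw [← pow_mul]
      exact pow_le_pow_right₀ hx1 (by omega)
    have h5 : x ^ (25 * d₀ + 250) ≤ M * x ^ (25 * d₀ + 250) := by
      have : 0 < x ^ (25 * d₀ + 250) := by positivity
      nlinarith
    linarith
  · have hE0 : 0 < x ^ (2 * d₀ + 14) := by positivity
    have h1 := hmain (by linarith)
    have hDU0 : 0 < DU := by
      by_contra hneg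
      have h2 : 2 * M * n * DU ≤ 0 := mul_nonpos_of_nonneg_of_nonpos (by positivity) (by linarith)
      linarith
    have h2 : (n / 2) ^ e ≤ (n - x ^ (2 * d₀ + 14)) ^ e :=
      Real.rpow_le_rpow (by positivity) (by linarith) (by linarith)
    have h3 : b ^ e ≤ x ^ (24 * d₀ + 240) := by
      calc b ^ e ≤ (x ^ (4 * d₀ + 40)) ^ e := Real.rpow_le_rpow hb hbx (by linarith)
        _ ≤ (x ^ (4 * d₀ + 40)) ^ (6 : ℝ) :=
            Real.rpow_le_rpow_of_exponent_le (one_le_pow₀ hx1) he6.le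
        _ = x ^ (24 * d₀ + 240) := by
            rw [show (6 : ℝ) = ((6 : ℕ) : ℝ) by norm_num, Real.rpow_natCast, ← pow_mul]
            congr 1
            ring
    have h4 : (n / 2) ^ e * DU ≤ x ^ (24 * d₀ + 240) * Q := by
      calc (n / 2) ^ e * DU ≤ (n - x ^ (2 * d₀ + 14)) ^ e * DU :=
            mul_le_mul_of_nonneg_right h2 hDU0.le
        _ ≤ b ^ e * DB := h1
        _ ≤ x ^ (24 * d₀ + 240) * Q := mul_le_mul h3 hDB hDB0 (by positivity)
    have h5 : (n / 2) ^ e ≤ x ^ (24 * d₀ + 240) * (2 * M * n) := by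
      have h6 : (n / 2) ^ e * DU ≤ x ^ (24 * d₀ + 240) * (2 * M * n) * DU := by
        calc (n / 2) ^ e * DU ≤ x ^ (24 * d₀ + 240) * Q := h4
          _ ≤ x ^ (24 * d₀ + 240) * (2 * M * n * DU) :=
              mul_le_mul_of_nonneg_left hDU (by positivity)
          _ = x ^ (24 * d₀ + 240) * (2 * M * n) * DU := by ring
      exact le_of_mul_le_mul_right h6 hDU0
    have h6 : n ^ e ≤ 64 * (n / 2) ^ e := by
      have h7 : n ^ e = 2 ^ e * (n / 2) ^ e := by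
        rw [← Real.mul_rpow (by norm_num) (by positivity)]
        congr 1
        ring
      rw [h7]
      apply mul_le_mul_of_nonneg_right _ (by positivity)
      calc (2 : ℝ) ^ e ≤ (2 : ℝ) ^ (6 : ℝ) :=
            Real.rpow_le_rpow_of_exponent_le one_le_two he6.le
        _ = 64 := by
            rw [show (6 : ℝ) = ((6 : ℕ) : ℝ) by norm_num, Real.rpow_natCast]
            norm_num
    have h7 : n ^ (e - 1) * n = n ^ e := by
      rw [Real.rpow_sub_one hn0.ne']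
      field_simp
    have h8 : n ^ (e - 1) * n ≤ (128 * M * x ^ (24 * d₀ + 240)) * n := by
      rw [h7]
      calc n ^ e ≤ 64 * (n / 2) ^ e := h6
        _ ≤ 64 * (x ^ (24 * d₀ + 240) * (2 * M * n)) := by linarith
        _ = (128 * M * x ^ (24 * d₀ + 240)) * n := by ring
    have h9 : n ^ (e - 1) ≤ 128 * M * x ^ (24 * d₀ + 240) := le_of_mul_le_mul_right h8 hn0
    have h10 : (128 : ℝ) ≤ x ^ (d₀ + 10) := by
      calc (128 : ℝ) ≤ 2 ^ 10 := by norm_num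
        _ ≤ x ^ 10 := pow_le_pow_left₀ (by norm_num) hx 10
        _ ≤ x ^ (d₀ + 10) := pow_le_pow_right₀ hx1 (by omega)
    calc n ^ (e - 1) ≤ 128 * M * x ^ (24 * d₀ + 240) := h9
      _ ≤ x ^ (d₀ + 10) * M * x ^ (24 * d₀ + 240) := by
          apply mul_le_mul_of_nonneg_right _ (by positivity)
          apply mul_le_mul_of_nonneg_right h10 (by linarith)
      _ = M * x ^ (25 * d₀ + 250) := by
          have hk : 25 * d₀ + 250 = (d₀ + 10) + (24 * d₀ + 240) := by omega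
          have h11 : x ^ (25 * d₀ + 250) = x ^ (d₀ + 10) * x ^ (24 * d₀ + 240) := by
            rw [hk]
            exact pow_add x _ _
          rw [h11, mul_comm (x ^ (d₀ + 10)) M, mul_assoc]

theorem main_ineq (d₀ : ℕ) (hd₀ : 2 ≤ d₀) (e : ℝ) (he5 : 5 ≤ e) (he6 : e < 6) :
    ∃ x₀ : ℝ, 1 ≤ x₀ ∧ ∀ x : ℝ, x₀ ≤ x → ∀ {ι : Type} [DecidableEq ι] [Fintype ι] (v : ι → ℕ) (M : ℝ),
      1 ≤ M → (∀ i, M ≤ v i ∧ (v i : ℝ) ≤ 2 * M) →
      (∀ i, ∀ T : Finset ι, i ∉ T → T.Nonempty → ¬ v i ∣ ∑ j ∈ T, v j) →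
      16 * M ≤ x ^ (d₀ ^ 2) →
      (Fintype.card ι : ℝ) ^ (e - 1) ≤ M * x ^ (25 * d₀ + 250) := by
  obtain ⟨ρ₀, hρ₀, hρ₀1, CS, hCS, hstep⟩ := step d₀ hd₀ e he5 he6
  obtain ⟨xP, hxP1, hP⟩ := per_modulus d₀ hd₀
  obtain ⟨N, hclean⟩ := clean_par d₀
  set CK : ℝ := ((d₀ : ℝ) + 1) ^ (d₀ + 1) * (((d₀ : ℝ) + 1) ^ 2 * 8 ^ d₀) with hCK
  have hCK0 : 0 < CK := by positivity
  have hd0' : (2 : ℝ) ≤ d₀ := by exact_mod_cast hd₀
  refine ⟨max (max xP (1 / ρ₀)) (max (N : ℝ) (100 * d₀ + 4 * CS + 5 * CK + 10)), ?_, ?_⟩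
  · exact (hxP1.trans (le_max_left _ _)).trans (le_max_left _ _)
  intro x hx ι _ _ v M hM hv hdiv hMx
  have hxP : xP ≤ x := (le_max_left _ _).trans ((le_max_left _ _).trans hx)
  have hxρ : 1 / ρ₀ ≤ x := (le_max_right _ _).trans ((le_max_left _ _).trans hx)
  have hxN : (N : ℝ) ≤ x := (le_max_left _ _).trans ((le_max_right _ _).trans hx)
  have hxC : 100 * d₀ + 4 * CS + 5 * CK + 10 ≤ x := (le_max_right _ _).trans ((le_max_right _ _).trans hx)
  have hx2 : 2 ≤ x := by nlinarith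
  have hx0 : 0 < x := by linarith
  have hx1 : 1 ≤ x := by linarith
  have hx100 : 100 * (d₀ : ℝ) ≤ x := by nlinarith
  have hxCS : 4 * CS ≤ x := by nlinarith
  have hxCK : 5 * CK ≤ x := by nlinarith
  have hvne : ∀ i, NeZero (v i) := fun i => ⟨by
    intro h0
    have := (hv i).1
    rw [h0] at this
    norm_num at this
    linarith⟩
  rcases Nat.eq_zero_or_pos (Fintype.card ι) with hcard0 | hcardpos
  · rw [hcard0, Nat.cast_zero, Real.zero_rpow (by linarith)]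
    positivity
  -- the modulus
  set Q : ℕ := (∏ i, v i) * (⌈8 * M⌉₊ * (Fintype.card ι + 1)) with hQdef
  have hprod : 0 < ∏ i, v i := Finset.prod_pos fun i _ => Nat.pos_of_ne_zero (hvne i).out
  have hceil : 0 < ⌈8 * M⌉₊ := Nat.ceil_pos.mpr (by linarith)
  have hQpos : 0 < Q := by positivity
  have : NeZero Q := ⟨hQpos.ne'⟩
  have hQbig : 8 * M * ((Fintype.card ι : ℝ) + 1) ≤ Q := by
    rw [hQdef]
    push_cast
    have h1 : (1 : ℝ) ≤ ∏ i, (v i : ℝ) := by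
      have : ((1 : ℕ) : ℝ) ≤ ((∏ i, v i : ℕ) : ℝ) := by exact_mod_cast hprod
      push_cast at this
      exact this
    have h2 : 8 * M ≤ (⌈8 * M⌉₊ : ℝ) := Nat.le_ceil _
    have h3 : 8 * M * ((Fintype.card ι : ℝ) + 1) ≤ (⌈8 * M⌉₊ : ℝ) * ((Fintype.card ι : ℝ) + 1) :=
      mul_le_mul_of_nonneg_right h2 (by positivity)
    have h4 : (0 : ℝ) ≤ (⌈8 * M⌉₊ : ℝ) * ((Fintype.card ι : ℝ) + 1) := by positivity
    nlinarith
  have hn1 : (1 : ℝ) ≤ Fintype.card ι := by exact_mod_cast hcardpos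
  -- extremal set
  obtain ⟨B, hBcl, hBext, hBmax⟩ := exists_ext (chi Q v) (x ^ (d₀ + 4)) (x ^ (d₀ + 5))
    ((1 / x) ^ (d₀ + 5)) e (x ^ (2 * d₀ + 14)) (by linarith) (by positivity)
    (fun S => hclean x hxN hx2 Q v M hM (fun i => (hv i).2) hMx S)
  have hBn : (B.card : ℝ) ≤ Fintype.card ι := by exact_mod_cast card_le_univ B
  -- the set is small
  have hBsmall : (B.card : ℝ) ≤ x ^ (4 * d₀ + 40) := by
    by_contra hbig
    push Not at hbig
    have hB1 : (1 : ℝ) < B.card := lt_of_le_of_lt (one_le_pow₀ hx1) hbig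
    have hBne : B.Nonempty := by
      rw [← card_pos]
      have : (0 : ℝ) < B.card := by linarith
      exact_mod_cast this
    have hxi : (1 / x) * x = 1 := by
      rw [one_div, inv_mul_cancel₀ hx0.ne']
    have hxi0 : 0 < 1 / x := by positivity
    have hxi1 : 1 / x ≤ 1 := by
      rw [div_le_one hx0]
      exact hx1
    have hxin : ∀ m : ℕ, (1 / x) ^ m * x ^ m = 1 := fun m => by rw [← mul_pow, hxi, one_pow]
    have hdim : finrank ℝ (WW (chi Q v) B (x ^ (d₀ + 4))) ≤ d₀ := by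
      have h1 := dim_big Q v M hM hv B hBne (x ^ (d₀ + 4)) ((1 / x) ^ (d₀ + 5)) (by positivity)
        (fun θ hθ i hi => hBcl θ (hθ.trans (pow_le_pow_right₀ hx1 (by omega))) i hi)
        (d₀ - 1) ⌊x ^ (d₀ + 4)⌋₊
        (by
          have h2 : ((d₀ - 1 : ℕ) : ℝ) + 1 = d₀ := by
            have : (((d₀ - 1 + 1 : ℕ)) : ℝ) = d₀ := by
              congr 1
              omega
            push_cast at this
            exact this
          rw [h2]
          have h3 : (⌊x ^ (d₀ + 4)⌋₊ : ℝ) ≤ x ^ (d₀ + 4) := Nat.floor_le (by positivity)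
          have h4 : (x ^ (d₀ + 4)) * (1 / x) ^ (d₀ + 5) = 1 / x := by
            rw [show d₀ + 5 = (d₀ + 4) + 1 by ring, pow_succ (1 / x)]
            rw [← mul_assoc, mul_comm (x ^ (d₀ + 4)), hxin, one_mul]
          have h5 : (⌊x ^ (d₀ + 4)⌋₊ : ℝ) * (1 / x) ^ (d₀ + 5) ≤ 1 / x :=
            (mul_le_mul_of_nonneg_right h3 (by positivity)).trans h4.le
          have h6 : (d₀ : ℝ) * (1 / x) ≤ 1 / 100 := by
            rw [mul_one_div, div_le_iff₀ hx0]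
            linarith
          calc (d₀ : ℝ) * ⌊x ^ (d₀ + 4)⌋₊ * (1 / x) ^ (d₀ + 5) =
                d₀ * (⌊x ^ (d₀ + 4)⌋₊ * (1 / x) ^ (d₀ + 5)) := by ring
            _ ≤ d₀ * (1 / x) := mul_le_mul_of_nonneg_left h5 (by positivity)
            _ ≤ 1 / 100 := h6
            _ < 1 / 4 := by norm_num)
        (by
          rw [show d₀ - 1 + 1 = d₀ by omega]
          have h3 : x ^ (d₀ + 4) ≤ (⌊x ^ (d₀ + 4)⌋₊ : ℝ) + 1 := (Nat.lt_floor_add_one _).le
          have h4 : (x ^ (d₀ + 4)) ^ d₀ ≤ ((⌊x ^ (d₀ + 4)⌋₊ : ℝ) + 1) ^ d₀ :=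
            pow_le_pow_left₀ (by positivity) h3 _
          have h5 : x ^ (d₀ ^ 2) ≤ (x ^ (d₀ + 4)) ^ d₀ := by
            rw [← pow_mul]
            apply pow_le_pow_right₀ hx1
            nlinarith
          linarith)
      omega
    have hKmx : Kmx d₀ ((1 / x) ^ (d₀ + 1)) = CK * x ^ (d₀ + 1) := by
      rw [Kmx, Dc, hCK]
      have h1 : (1 / x) ^ (d₀ + 1) ≠ 0 := (pow_pos hxi0 _).ne'
      have h2 : x ^ (d₀ + 1) = 1 / (1 / x) ^ (d₀ + 1) := by
        rw [eq_div_iff h1, mul_comm]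
        exact hxin _
      rw [h2]
      field_simp
    refine hstep Q v B M (x ^ (d₀ + 4)) (x ^ (d₀ + 3)) (Kmx d₀ ((1 / x) ^ (d₀ + 1)))
      ((1 / x) ^ (d₀ + 1)) ((1 / x) ^ (d₀ + 5)) (x ^ (d₀ + 5)) (1 / x) (x ^ (3 * d₀ + 20))
      (x ^ (2 * d₀ + 14)) hBne (by linarith) (fun i _ => hv i) ?_ ?_ ?_ ?_ ?_ ?_ ?_ hBcl ?_ hdim
      hxi0 ?_ (by positivity) le_rfl (by positivity) (by positivity) hBext ?_ ?_
    · intro i _
      exact Dvd.dvd.mul_right (Finset.dvd_prod_of_mem v (mem_univ i)) _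
    · refine le_trans ?_ hQbig
      have h1 : 0 ≤ 8 * M * (Fintype.card ι : ℝ) := by positivity
      linarith
    · have h1 : (1 : ℝ) ≤ x ^ (d₀ + 3) := one_le_pow₀ hx1
      have h2 : (0 : ℝ) < Q := by exact_mod_cast hQpos
      have h3 : 2 * M * B.card ≤ 2 * M * Fintype.card ι :=
        mul_le_mul_of_nonneg_left hBn (by linarith)
      have h4 : 2 * M * Fintype.card ι ≤ (Q : ℝ) := by
        refine le_trans ?_ hQbig
        have h5 : 0 ≤ M * (Fintype.card ι : ℝ) := by positivity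
        linarith
      calc 2 * M * (B.card : ℝ) ≤ Q := h3.trans h4
        _ = 1 * Q := (one_mul _).symm
        _ ≤ x ^ (d₀ + 3) * Q := mul_le_mul_of_nonneg_right h1 h2.le
    · rw [hKmx]
      positivity
    · rw [hKmx]
      have h1 : x ^ (d₀ + 3) = x * (x * x ^ (d₀ + 1)) := by
        rw [← pow_succ', ← pow_succ']
      rw [h1]
      have h2 : 0 < x ^ (d₀ + 1) := by positivity
      calc 5 * (CK * x ^ (d₀ + 1)) = (5 * CK) * x ^ (d₀ + 1) := by ring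
        _ ≤ x * x ^ (d₀ + 1) := mul_le_mul_of_nonneg_right hxCK h2.le
        _ = 1 * (x * x ^ (d₀ + 1)) := (one_mul _).symm
        _ ≤ x * (x * x ^ (d₀ + 1)) := mul_le_mul_of_nonneg_right hx1 (by positivity)
    · have h1 : x ^ (d₀ + 4) = x * x ^ (d₀ + 3) := by rw [← pow_succ']
      rw [h1]
      apply mul_le_mul_of_nonneg_right _ (by positivity)
      linarith
    · have h1 : x ^ (d₀ + 5) = x * x ^ (d₀ + 4) := by rw [← pow_succ']
      rw [h1]
      apply mul_le_mul_of_nonneg_right _ (by positivity)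
      linarith
    · have h1 : (1 / x) ^ (d₀ + 5) ≤ 1 / x := by
        calc (1 / x) ^ (d₀ + 5) ≤ (1 / x) ^ 1 := pow_le_pow_of_le_one hxi0.le hxi1 (by omega)
          _ = 1 / x := pow_one _
      calc 100 * (d₀ : ℝ) * (1 / x) ^ (d₀ + 5) ≤ 100 * (d₀ : ℝ) * (1 / x) :=
            mul_le_mul_of_nonneg_left h1 (by positivity)
        _ ≤ 1 := by
            rw [mul_one_div, div_le_one hx0]
            exact hx100
    · rw [div_le_iff₀ hx0]
      rw [div_le_iff₀ hρ₀] at hxρ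
      linarith
    · -- the size condition
      have h1 : x ^ (3 * d₀ + 20) + x ^ (2 * d₀ + 14) + x ^ (d₀ + 4) + 1 ≤ 4 * x ^ (3 * d₀ + 20) := by
        have h2 : x ^ (2 * d₀ + 14) ≤ x ^ (3 * d₀ + 20) := pow_le_pow_right₀ hx1 (by omega)
        have h3 : x ^ (d₀ + 4) ≤ x ^ (3 * d₀ + 20) := pow_le_pow_right₀ hx1 (by omega)
        have h4 : (1 : ℝ) ≤ x ^ (3 * d₀ + 20) := one_le_pow₀ hx1
        linarith
      calc CS * (x ^ (3 * d₀ + 20) + x ^ (2 * d₀ + 14) + x ^ (d₀ + 4) + 1) ≤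
            CS * (4 * x ^ (3 * d₀ + 20)) := mul_le_mul_of_nonneg_left h1 (by linarith)
        _ = (4 * CS) * x ^ (3 * d₀ + 20) := by ring
        _ ≤ x * x ^ (3 * d₀ + 20) := mul_le_mul_of_nonneg_right hxCS (by positivity)
        _ = x ^ (3 * d₀ + 21) := by rw [← pow_succ']
        _ ≤ x ^ (3 * d₀ + 38) := pow_le_pow_right₀ hx1 (by omega)
        _ = (1 / x) ^ (d₀ + 2) * x ^ (4 * d₀ + 40) := by
            rw [show 4 * d₀ + 40 = (d₀ + 2) + (3 * d₀ + 38) by ring, pow_add x (d₀ + 2),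
              ← mul_assoc, hxin, one_mul]
        _ ≤ (1 / x) ^ (d₀ + 2) * B.card := mul_le_mul_of_nonneg_left hbig.le (by positivity)
    · exact hP x hxP v M hM hv hdiv hMx B hbig.le
  -- the end
  have hDU := DD_big Q v M hM (fun i => (hv i).2) (x ^ (d₀ + 4)) (one_le_pow₀ hx1) hcardpos
  refine last_par d₀ e he5 he6 x M (Fintype.card ι) B.card
    ((DD (chi Q v) B (x ^ (d₀ + 4))).card : ℝ)
    ((DD (chi Q v) Finset.univ (x ^ (d₀ + 4))).card : ℝ) Q hx2 hM hn1 (Nat.cast_nonneg _) hBsmall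
    (by exact_mod_cast hQpos) ?_ (Nat.cast_nonneg _) hDU hBmax
  have h1 := card_le_univ (DD (chi Q v) B (x ^ (d₀ + 4)))
  rw [ZMod.card] at h1
  exact_mod_cast h1

end Pool.DV5
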