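import Mathlib

/-!
Tank DV5, row R25 (helper29): Csaba's construction of an admissible set of `n` elements below
`5 n^5`.
-/

set_option autoImplicit false

namespace Pool.DV5

open Finset

namespace Low

/-- the elements of the construction -/
def el (n j : ℕ) : ℕ := 3 * n ^ 5 + j * n ^ 3 + j ^ 2

theorem core (n : ℕ) (T : Finset ℕ) (hT : T ⊆ Finset.Icc 1 n) (i : ℕ) (hi : i ∈ Finset.Icc 1 n)
    (hiT : i ∉ T) (hne : T.Nonempty) (k : ℕ) (h : ∑ j ∈ T, el n j = el n i * k) : False := by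
  have hn1 : 1 ≤ n := by
    rw [Finset.mem_Icc] at hi; omega
  obtain ⟨hi1, hin⟩ := Finset.mem_Icc.mp hi
  set s := T.card with hs
  have hsn : s + 1 ≤ n := by
    have h1 : insert i T ⊆ Finset.Icc 1 n := Finset.insert_subset hi hT
    have h2 := Finset.card_le_card h1
    rw [Finset.card_insert_of_notMem hiT, Nat.card_Icc] at h2
    omega
  have hs1 : 1 ≤ s := Finset.card_pos.mpr hne
  -- sizes
  set P : ℕ := 3 * n ^ 5 with hP
  set Q : ℕ := n ^ 4 + n ^ 2 with hQ
  have hQP : n * Q < P := by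
    have h1 : n ^ 3 ≤ n ^ 5 := Nat.pow_le_pow_right hn1 (by norm_num)
    have h2 : 0 < n ^ 5 := Nat.pow_pos hn1
    have h3 : n * Q = n ^ 5 + n ^ 3 := by rw [hQ]; ring
    rw [h3, hP]; omega
  have hel : ∀ j, 1 ≤ j → j ≤ n → P ≤ el n j ∧ el n j ≤ P + Q := by
    intro j hj1 hjn
    constructor
    · rw [el]; omega
    · rw [el, hQ]
      have h1 : j * n ^ 3 ≤ n * n ^ 3 := Nat.mul_le_mul_right _ hjn
      have h2 : j ^ 2 ≤ n ^ 2 := Nat.pow_le_pow_left hjn 2
      have h3 : n * n ^ 3 = n ^ 4 := by ring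
      omega
  have hlow : s * P ≤ ∑ j ∈ T, el n j := by
    have := Finset.card_nsmul_le_sum T (fun j => el n j) P (fun j hj => by
      have := Finset.mem_Icc.mp (hT hj)
      exact (hel j this.1 this.2).1)
    simpa using this
  have hup : ∑ j ∈ T, el n j ≤ s * (P + Q) := by
    have := Finset.sum_le_card_nsmul T (fun j => el n j) (P + Q) (fun j hj => by
      have := Finset.mem_Icc.mp (hT hj)
      exact (hel j this.1 this.2).2)
    simpa using this
  obtain ⟨hi3, hi4⟩ := hel i hi1 hin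
  have hks : k = s := by
    have hsQ : s * Q < P := lt_of_le_of_lt (Nat.mul_le_mul_right _ (by omega)) hQP
    have h1 : P * k ≤ s * (P + Q) := by
      calc P * k ≤ el n i * k := Nat.mul_le_mul_right _ hi3
        _ ≤ s * (P + Q) := by rw [← h]; exact hup
    have h2 : s * P ≤ (P + Q) * k := by
      calc s * P ≤ el n i * k := by rw [← h]; exact hlow
        _ ≤ (P + Q) * k := Nat.mul_le_mul_right _ hi4
    have h3 : k ≤ s := by
      by_contra hc
      push Not at hc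
      have : P * (s + 1) ≤ P * k := Nat.mul_le_mul_left _ hc
      nlinarith
    have h4 : s ≤ k := by
      by_contra hc
      push Not at hc
      have h5 : k * Q ≤ s * Q := Nat.mul_le_mul_right _ h3
      have : P * (k + 1) ≤ P * s := Nat.mul_le_mul_left _ hc
      nlinarith
    omega
  -- the two power sums
  have hZ : ∑ j ∈ T, (((j : ℤ) - i) * (n : ℤ) ^ 3 + ((j : ℤ) ^ 2 - (i : ℤ) ^ 2)) = 0 := by
    have h1 : ((∑ j ∈ T, el n j : ℕ) : ℤ) = ((el n i * k : ℕ) : ℤ) := by rw [h]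
    have h2 : ∑ j ∈ T, ((el n j : ℤ) - el n i) = 0 := by
      rw [Finset.sum_sub_distrib, Finset.sum_const, ← hs]
      rw [hks] at h1
      push_cast at h1
      rw [h1]
      simp
      ring
    rw [← h2]
    refine Finset.sum_congr rfl fun j _ => ?_
    simp only [el]
    push_cast
    ring
  rw [Finset.sum_add_distrib, ← Finset.sum_mul] at hZ
  set U : ℤ := ∑ j ∈ T, ((j : ℤ) - i) with hU
  set W : ℤ := ∑ j ∈ T, ((j : ℤ) ^ 2 - (i : ℤ) ^ 2) with hW
  have hWb : |W| < (n : ℤ) ^ 3 := by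
    have h1 : |W| ≤ ∑ j ∈ T, |(j : ℤ) ^ 2 - (i : ℤ) ^ 2| := Finset.abs_sum_le_sum_abs _ _
    have h2 : ∑ j ∈ T, |(j : ℤ) ^ 2 - (i : ℤ) ^ 2| ≤ s • (n : ℤ) ^ 2 := by
      apply Finset.sum_le_card_nsmul
      intro j hj
      obtain ⟨hj1, hj2⟩ := Finset.mem_Icc.mp (hT hj)
      have a1 : (0 : ℤ) ≤ (j : ℤ) ^ 2 := by positivity
      have a2 : (0 : ℤ) ≤ (i : ℤ) ^ 2 := by positivity
      have a3 : (j : ℤ) ^ 2 ≤ (n : ℤ) ^ 2 := by
        have : (j : ℤ) ≤ n := by exact_mod_cast hj2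
        exact pow_le_pow_left₀ (by positivity) this 2
      have a4 : (i : ℤ) ^ 2 ≤ (n : ℤ) ^ 2 := by
        have : (i : ℤ) ≤ n := by exact_mod_cast hin
        exact pow_le_pow_left₀ (by positivity) this 2
      rw [abs_le]
      constructor <;> linarith
    have h3 : s • (n : ℤ) ^ 2 < (n : ℤ) ^ 3 := by
      rw [nsmul_eq_mul]
      have h4 : (s : ℤ) + 1 ≤ n := by exact_mod_cast hsn
      have h5 : (0 : ℤ) < (n : ℤ) ^ 2 := by
        have : (0 : ℤ) < n := by exact_mod_cast hn1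
        positivity
      nlinarith
    linarith
  have hU0 : U = 0 := by
    by_contra hU0
    have h1 : 1 ≤ |U| := Int.one_le_abs hU0
    have h2 : |W| = |U| * (n : ℤ) ^ 3 := by
      have : W = -(U * (n : ℤ) ^ 3) := by linarith
      rw [this, abs_neg, abs_mul, abs_of_nonneg (by positivity : (0 : ℤ) ≤ (n : ℤ) ^ 3)]
    have h3 : (0 : ℤ) ≤ (n : ℤ) ^ 3 := by positivity
    nlinarith
  have hW0 : W = 0 := by rw [hU0] at hZ; linarith
  have hsq : ∑ j ∈ T, ((j : ℤ) - i) ^ 2 = 0 := by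
    have h1 : ∑ j ∈ T, ((j : ℤ) - i) ^ 2 = W - 2 * i * U := by
      rw [hU, hW, Finset.mul_sum, ← Finset.sum_sub_distrib]
      refine Finset.sum_congr rfl fun j _ => ?_
      ring
    rw [h1, hU0, hW0]; ring
  obtain ⟨j, hj⟩ := hne
  have h1 : ((j : ℤ) - i) ^ 2 = 0 :=
    (Finset.sum_eq_zero_iff_of_nonneg (s := T) (f := fun j : ℕ => ((j : ℤ) - i) ^ 2)
      (fun j _ => sq_nonneg ((j : ℤ) - i))).mp hsq j hj
  have h2 : (j : ℤ) = i := by
    have := pow_eq_zero_iff (two_ne_zero) |>.mp h1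
    linarith
  have h3 : j = i := by exact_mod_cast h2
  exact hiT (h3 ▸ hj)

theorem el_inj (n : ℕ) : Function.Injective (el n) := by
  intro i j h
  rcases lt_trichotomy i j with hij | hij | hij
  · exfalso
    have h1 : i * n ^ 3 ≤ j * n ^ 3 := Nat.mul_le_mul_right _ hij.le
    have h2 : i ^ 2 < j ^ 2 := Nat.pow_lt_pow_left hij (by norm_num)
    simp only [el] at h
    omega
  · exact hij
  · exfalso
    have h1 : j * n ^ 3 ≤ i * n ^ 3 := Nat.mul_le_mul_right _ hij.le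
    have h2 : j ^ 2 < i ^ 2 := Nat.pow_lt_pow_left hij (by norm_num)
    simp only [el] at h
    omega

end Low

/-! ### R25 the lower bound -/
theorem lower (n : ℕ) (hn : 2 ≤ n) : ∃ A : Finset ℕ, A ⊆ Finset.Icc 1 (5 * n ^ 5) ∧ A.card = n ∧
    ∀ a ∈ A, ∀ S : Finset ℕ, S ⊆ A.erase a → S.Nonempty → ¬ (a ∣ ∑ x ∈ S, x) := by
  classical
  refine ⟨(Finset.Icc 1 n).image (Low.el n), ?_, ?_, ?_⟩
  · intro a ha
    obtain ⟨j, hj, rfl⟩ := Finset.mem_image.mp ha
    obtain ⟨hj1, hj2⟩ := Finset.mem_Icc.mp hj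
    rw [Finset.mem_Icc, Low.el]
    have h1 : j * n ^ 3 ≤ n * n ^ 3 := Nat.mul_le_mul_right _ hj2
    have h2 : j ^ 2 ≤ n ^ 2 := Nat.pow_le_pow_left hj2 2
    have h3 : n * n ^ 3 = n ^ 4 := by ring
    have h4 : n ^ 4 ≤ n ^ 5 := Nat.pow_le_pow_right (by omega) (by norm_num)
    have h5 : n ^ 2 ≤ n ^ 5 := Nat.pow_le_pow_right (by omega) (by norm_num)
    have h6 : 1 ≤ j ^ 2 := Nat.one_le_pow _ _ hj1
    constructor <;> omega
  · rw [Finset.card_image_of_injective _ (Low.el_inj n), Nat.card_Icc]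
    omega
  · rintro a ha S hS hne ⟨k, hk⟩
    obtain ⟨i, hi, rfl⟩ := Finset.mem_image.mp ha
    set T : Finset ℕ := (Finset.Icc 1 n).filter (fun j => Low.el n j ∈ S) with hT
    have hST : S = T.image (Low.el n) := by
      ext x
      constructor
      · intro hx
        have h1 := Finset.mem_of_mem_erase (hS hx)
        obtain ⟨j, hj, rfl⟩ := Finset.mem_image.mp h1
        exact Finset.mem_image.mpr ⟨j, Finset.mem_filter.mpr ⟨hj, hx⟩, rfl⟩
      · intro hx
        obtain ⟨j, hj, rfl⟩ := Finset.mem_image.mp hx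
        exact (Finset.mem_filter.mp hj).2
    have hsum : ∑ x ∈ S, x = ∑ j ∈ T, Low.el n j := by
      rw [hST, Finset.sum_image (fun a _ b _ h => Low.el_inj n h)]
    refine Low.core n T (Finset.filter_subset _ _) i hi ?_ ?_ k ?_
    · intro hiT
      have := (Finset.mem_filter.mp hiT).2
      exact (Finset.mem_erase.mp (hS this)).1 rfl
    · rw [hST] at hne
      exact Finset.image_nonempty.mp hne
    · rw [← hsum, hk]

end Pool.DV5
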