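import Mathlib
import Pool.Agent.Lib.MP_a90784_dv.Low

/-!
From the two bounds to the exponent of `F`.
-/

set_option autoImplicit false

namespace Pool.DV5

open Filter

/-- an admissible set: no element divides the sum of a nonempty set of other elements -/
def Adm (A : Finset ℕ) : Prop :=
  ∀ a ∈ A, ∀ S : Finset ℕ, S ⊆ A.erase a → S.Nonempty → ¬ (a ∣ ∑ x ∈ S, x)

/-- the largest size of an admissible subset of `{1, ..., N}` -/
noncomputable def F (N : ℕ) : ℕ :=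
  sSup {n : ℕ | ∃ A : Finset ℕ, A ⊆ Finset.Icc 1 N ∧ Adm A ∧ A.card = n}

theorem F_bdd (N : ℕ) :
    BddAbove {n : ℕ | ∃ A : Finset ℕ, A ⊆ Finset.Icc 1 N ∧ Adm A ∧ A.card = n} := by
  refine ⟨N, ?_⟩
  rintro n ⟨A, hA, -, rfl⟩
  have := Finset.card_le_card hA
  rwa [Nat.card_Icc, Nat.add_sub_cancel] at this

theorem F_mem (N : ℕ) : ∃ A : Finset ℕ, A ⊆ Finset.Icc 1 N ∧ Adm A ∧ A.card = F N := by
  have hne : ({n : ℕ | ∃ A : Finset ℕ, A ⊆ Finset.Icc 1 N ∧ Adm A ∧ A.card = n}).Nonempty :=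
    ⟨0, ∅, Finset.empty_subset _, fun a ha => absurd ha (Finset.notMem_empty a),
      Finset.card_empty⟩
  exact Nat.sSup_mem hne (F_bdd N)

theorem le_F {N : ℕ} {A : Finset ℕ} (h1 : A ⊆ Finset.Icc 1 N) (h2 : Adm A) : A.card ≤ F N :=
  le_csSup (F_bdd N) ⟨A, h1, h2, rfl⟩

/-- Csaba's bound -/
theorem F_lower : ∀ᶠ N : ℕ in atTop, (N : ℝ) ^ ((1 : ℝ) / 5) / 4 ≤ (F N : ℝ) := by
  filter_upwards [eventually_ge_atTop 160] with N hN
  set y : ℝ := ((N : ℝ) / 5) ^ ((1 : ℝ) / 5) with hy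
  have hN' : (160 : ℝ) ≤ N := by exact_mod_cast hN
  have hy0 : 0 ≤ y := Real.rpow_nonneg (by positivity) _
  have hy5 : y ^ 5 = (N : ℝ) / 5 := by
    rw [hy, ← Real.rpow_natCast, ← Real.rpow_mul (by positivity)]
    norm_num
  have hy2 : 2 ≤ y := by
    by_contra hlt
    push Not at hlt
    have h1 : y ^ 5 < 2 ^ 5 := pow_lt_pow_left₀ hlt hy0 (by norm_num)
    rw [hy5] at h1
    linarith
  set n : ℕ := ⌊y⌋₊ with hn
  have hn1 : (n : ℝ) ≤ y := Nat.floor_le hy0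
  have hn2 : y < n + 1 := Nat.lt_floor_add_one y
  have hn3 : 2 ≤ n := Nat.le_floor (by exact_mod_cast hy2)
  obtain ⟨A, hA1, hA2, hA3⟩ := lower n hn3
  have h5 : 5 * n ^ 5 ≤ N := by
    have h1 : (n : ℝ) ^ 5 ≤ y ^ 5 := pow_le_pow_left₀ (Nat.cast_nonneg n) hn1 5
    rw [hy5] at h1
    have h2 : (5 * (n : ℝ) ^ 5) ≤ N := by linarith
    exact_mod_cast h2
  have h6 : A.card ≤ F N := le_F (hA1.trans (Finset.Icc_subset_Icc_right h5)) hA3
  have h7 : (n : ℝ) ≤ F N := by rw [← hA2]; exact_mod_cast h6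
  have h8 : (N : ℝ) ^ ((1 : ℝ) / 5) ≤ 2 * y := by
    have e : (N : ℝ) = 5 * ((N : ℝ) / 5) := by ring
    rw [e, Real.mul_rpow (by norm_num) (by positivity), ← hy]
    refine mul_le_mul_of_nonneg_right ?_ hy0
    calc (5 : ℝ) ^ ((1 : ℝ) / 5) ≤ (2 ^ (5 : ℕ) : ℝ) ^ ((1 : ℝ) / 5) :=
          Real.rpow_le_rpow (by norm_num) (by norm_num) (by norm_num)
      _ = 2 := by
          rw [← Real.rpow_natCast, ← Real.rpow_mul (by norm_num)]
          norm_num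
  linarith

theorem tendsto_of (hup : ∀ ε : ℝ, 0 < ε → ∃ N₀ : ℕ, ∀ N : ℕ, N₀ ≤ N → ∀ A : Finset ℕ,
    A ⊆ Finset.Icc 1 N → Adm A → (A.card : ℝ) ≤ (N : ℝ) ^ ((1 : ℝ) / 5 + ε)) :
    Tendsto (fun N : ℕ => Real.log (F N) / Real.log N) atTop (nhds (1 / 5)) := by
  have hlog : Tendsto (fun N : ℕ => Real.log (N : ℝ)) atTop atTop :=
    Real.tendsto_log_atTop.comp tendsto_natCast_atTop_atTop
  have hlow : Tendsto (fun N : ℕ => (1 : ℝ) / 5 - Real.log 4 / Real.log N) atTop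
      (nhds (1 / 5)) := by
    have h1 := (tendsto_const_nhds (x := Real.log 4)).div_atTop hlog
    have h2 := (tendsto_const_nhds (x := (1 : ℝ) / 5)).sub h1
    rwa [sub_zero] at h2
  rw [Metric.tendsto_atTop] at hlow ⊢
  intro ε hε
  obtain ⟨N₁, h1⟩ := hlow ε hε
  obtain ⟨N₂, h2⟩ := hup (ε / 2) (by linarith)
  obtain ⟨N₃, h3⟩ := eventually_atTop.1 F_lower
  refine ⟨max (max N₁ N₂) (max N₃ 2), fun N hN => ?_⟩
  simp only [max_le_iff] at hN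
  obtain ⟨⟨hN1, hN2⟩, hN3, hN4⟩ := hN
  have hN' : (2 : ℝ) ≤ N := by exact_mod_cast hN4
  have hlN : 0 < Real.log (N : ℝ) := Real.log_pos (by linarith)
  have hlow' := h3 N hN3
  have hpos : 0 < (N : ℝ) ^ ((1 : ℝ) / 5) / 4 := by positivity
  have hF0 : (0 : ℝ) < F N := hpos.trans_le hlow'
  obtain ⟨A, hA1, hA2, hA3⟩ := F_mem N
  have hup' := h2 N hN2 A hA1 hA2
  rw [hA3] at hup'
  have hU : Real.log (F N) ≤ (1 / 5 + ε / 2) * Real.log N := by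
    have := Real.log_le_log hF0 hup'
    rwa [Real.log_rpow (by linarith)] at this
  have hL : 1 / 5 * Real.log N - Real.log 4 ≤ Real.log (F N) := by
    have := Real.log_le_log hpos hlow'
    rwa [Real.log_div (by positivity) (by norm_num), Real.log_rpow (by linarith)] at this
  have h4 := h1 N hN1
  rw [Real.dist_eq, abs_lt] at h4 ⊢
  constructor
  · have h5 : 1 / 5 - Real.log 4 / Real.log N ≤ Real.log (F N) / Real.log N := by
      rw [le_div_iff₀ hlN, sub_mul, div_mul_cancel₀ _ hlN.ne']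
      exact hL
    linarith
  · have h5 : Real.log (F N) / Real.log N ≤ 1 / 5 + ε / 2 := by
      rw [div_le_iff₀ hlN]
      exact hU
    linarith

/-- the bound with exponent `1/5` refutes the exponent `1/2` -/
theorem not_half (hup : ∀ ε : ℝ, 0 < ε → ∃ N₀ : ℕ, ∀ N : ℕ, N₀ ≤ N → ∀ A : Finset ℕ,
    A ⊆ Finset.Icc 1 N → Adm A → (A.card : ℝ) ≤ (N : ℝ) ^ ((1 : ℝ) / 5 + ε)) :
    ¬ (∀ ε : ℝ, 0 < ε → ∃ c : ℝ, 0 < c ∧ ∃ N₀ : ℕ, ∀ N : ℕ, N₀ ≤ N →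
      ∃ A : Finset ℕ, A ⊆ Finset.Icc 1 N ∧
        c * (N : ℝ) ^ ((1 : ℝ) / 2 - ε) ≤ (A.card : ℝ) ∧
        ∀ a ∈ A, ∀ S : Finset ℕ, S ⊆ A.erase a → S.Nonempty →
          ¬ (a ∣ ∑ x ∈ S, x)) := by
  intro h
  obtain ⟨c, hc, N₁, h1⟩ := h (1 / 10) (by norm_num)
  obtain ⟨N₂, h2⟩ := hup (1 / 10) (by norm_num)
  have hlim : Tendsto (fun N : ℕ => (N : ℝ) ^ ((1 : ℝ) / 10)) atTop atTop :=
    (tendsto_rpow_atTop (by norm_num)).comp tendsto_natCast_atTop_atTop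
  obtain ⟨N₃, h3⟩ := eventually_atTop.1 (hlim.eventually_gt_atTop (1 / c))
  set N : ℕ := max (max N₁ N₂) (max N₃ 1) with hN
  have hN1 : N₁ ≤ N := (le_max_left _ _).trans (le_max_left _ _)
  have hN2 : N₂ ≤ N := (le_max_right _ _).trans (le_max_left _ _)
  have hN3 : N₃ ≤ N := (le_max_left _ _).trans (le_max_right _ _)
  have hN4 : 1 ≤ N := (le_max_right _ _).trans (le_max_right _ _)
  have hN0 : (0 : ℝ) < N := by exact_mod_cast hN4
  obtain ⟨A, hA1, hA2, hA3⟩ := h1 N hN1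
  have h4 := hA2.trans (h2 N hN2 A hA1 hA3)
  have h5 := h3 N hN3
  have e1 : (N : ℝ) ^ ((1 : ℝ) / 2 - 1 / 10) =
      (N : ℝ) ^ ((1 : ℝ) / 10) * (N : ℝ) ^ ((1 : ℝ) / 5 + 1 / 10) := by
    rw [← Real.rpow_add hN0]
    norm_num
  have h6 : 0 < (N : ℝ) ^ ((1 : ℝ) / 5 + 1 / 10) := Real.rpow_pos_of_pos hN0 _
  rw [e1, ← mul_assoc] at h4
  have h7 : c * (N : ℝ) ^ ((1 : ℝ) / 10) ≤ 1 := by
    by_contra hlt
    push Not at hlt
    have := mul_lt_mul_of_pos_right hlt h6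
    rw [one_mul] at this
    linarith
  have h8 : 1 < c * (N : ℝ) ^ ((1 : ℝ) / 10) := by
    have := mul_lt_mul_of_pos_left h5 hc
    rwa [mul_one_div_cancel hc.ne'] at this
  linarith

end Pool.DV5
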