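import Mathlib
import Pool.Agent.Lib.MP_a90784_dv.Fin
import Pool.Agent.Lib.MP_a90784_dv.Main
import Pool.Agent.Lib.MP_a90784_dv.Res

/-!
The theorem: admissible subsets of `{1, ..., N}` have at most `N ^ (1/5 + o(1))` elements.
-/

set_option autoImplicit false

namespace Pool.DV5

open Filter

theorem final (ε : ℝ) (hε : 0 < ε) : ∃ N₀ : ℕ, ∀ N : ℕ, N₀ ≤ N → ∀ A : Finset ℕ,
    A ⊆ Finset.Icc 1 N →
    (∀ a ∈ A, ∀ S : Finset ℕ, S ⊆ A.erase a → S.Nonempty → ¬ (a ∣ ∑ x ∈ S, x)) →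
    (A.card : ℝ) ≤ (N : ℝ) ^ ((1 : ℝ) / 5 + ε) :=
  final_of (fun d₀ hd₀ e he5 he6 => main_ineq d₀ hd₀ e he5 he6) ε hε

theorem exponent : Tendsto (fun N : ℕ => Real.log (F N) / Real.log N) atTop (nhds (1 / 5)) :=
  tendsto_of final

theorem not_q1 :
    ¬ (∀ ε : ℝ, 0 < ε → ∃ c : ℝ, 0 < c ∧ ∃ N₀ : ℕ, ∀ N : ℕ, N₀ ≤ N →
      ∃ A : Finset ℕ, A ⊆ Finset.Icc 1 N ∧
        c * (N : ℝ) ^ ((1 : ℝ) / 2 - ε) ≤ (A.card : ℝ) ∧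
        ∀ a ∈ A, ∀ S : Finset ℕ, S ⊆ A.erase a → S.Nonempty →
          ¬ (a ∣ ∑ x ∈ S, x)) :=
  not_half final

end Pool.DV5
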